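import Pool.Agent.Helper18.BI.R.StR
import Pool.Agent.Helper18.BI.AsmA
import Pool.Agent.Helper18.BI.H.EndR4
import Pool.Agent.Helper27.BI.M_ZNSQ

/-!
# Project BI, stage 4 (R), module BAS: the loop of arcs of a germ and its whiskered sphere
-/

set_option autoImplicit false

open scoped Manifold ContDiff Topology ComplexConjugate
open Set Pool.Agent.Helper65.Barb Pool.Agent.Helper18.BI
open Pool.Agent.Helper70.BI (I4 IsW MW)
open Pool.Agent.Helper27.H (ArcD StArcH)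
open Pool.Agent.Helper18.BI.H
open Pool.Agent.Helper27.BI (zarc phi)

namespace Pool.Agent.Helper18.BI.R

namespace BAS

private theorem sq_bar_bas (s a : ℝ) (w : ℂ) (h1 : 1 / 5 ≤ a) (h2 : a ≤ 4 / 5) :
    sq 0 (s, (a, w)) = bar a := by
  have hp : prof 0 a = 0 := by
    unfold prof
    have e1 : √((1 / 25 - a ^ 2) ^ 2 + 0 ^ 2) = -(1 / 25 - a ^ 2) := by
      rw [show ((1 : ℝ) / 25 - a ^ 2) ^ 2 + 0 ^ 2 = (-(1 / 25 - a ^ 2)) ^ 2 by ring]
      exact Real.sqrt_sq (by nlinarith)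
    have e2 : √((1 / 25 - (a - 1) ^ 2) ^ 2 + 0 ^ 2) = -(1 / 25 - (a - 1) ^ 2) := by
      rw [show ((1 : ℝ) / 25 - (a - 1) ^ 2) ^ 2 + 0 ^ 2 = (-(1 / 25 - (a - 1) ^ 2)) ^ 2 by ring]
      exact Real.sqrt_sq (by nlinarith)
    rw [e1, e2]
    ring
  have hf : ∀ k : ℝ, fac 0 a k = 0 := by
    intro k
    unfold fac
    rw [hp]
    simp
  have ha : axc 0 a = a := by
    unfold axc
    have e1 : √((a + 1 / 5) ^ 2 + 0 ^ 2) = a + 1 / 5 := by
      rw [show (a + 1 / 5) ^ 2 + (0 : ℝ) ^ 2 = (a + 1 / 5) ^ 2 by ring]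
      exact Real.sqrt_sq (by linarith)
    have e2 : √((a - 6 / 5) ^ 2 + 0 ^ 2) = 6 / 5 - a := by
      rw [show (a - 6 / 5) ^ 2 + (0 : ℝ) ^ 2 = (6 / 5 - a) ^ 2 by ring]
      exact Real.sqrt_sq (by linarith)
    rw [e1, e2]
    ring
  unfold sq bar
  simp only [hf, ha]
  simp

private theorem sq_fst_bas (s : ℝ) (x : R3) : sq 0 (s, x) = sq 0 (1 / 2, x) := by
  unfold sq
  simp

private theorem nsq_mm (q s : ℝ) : nsq (mm q s) = 1 := by
  unfold mm
  rw [Pool.Agent.Helper27.BI.m_ZNSQ]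
  ring

private theorem mm_smooth : ContDiff ℝ ∞ (fun z : ℝ × ℝ => mm z.1 z.2) := by
  have hst : ContDiff ℝ ∞ (fun z : ℝ × ℝ => step (10 * z.2 - 9 / 2)) :=
    Real.smoothTransition.contDiff.comp ((contDiff_const.mul contDiff_snd).sub contDiff_const)
  have hphi : ContDiff ℝ ∞ (fun z : ℝ × ℝ => phi (10 * z.2 - 9 / 2)) :=
    contDiff_const.mul hst
  have hchi : ContDiff ℝ ∞ (fun z : ℝ × ℝ => Pool.Agent.Helper27.BI.chi (10 * z.2 - 9 / 2)) :=
    (contDiff_const.sub (Real.contDiff_cos.comp hphi)).div_const _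
  have hq : ContDiff ℝ ∞ (fun z : ℝ × ℝ => 2 * Real.pi * z.1) := contDiff_const.mul contDiff_fst
  have hq' : ContDiff ℝ ∞ (fun z : ℝ × ℝ => Real.pi * z.1) := contDiff_const.mul contDiff_fst
  have h1 : ContDiff ℝ ∞ (fun z : ℝ × ℝ =>
      1 + Pool.Agent.Helper27.BI.chi (10 * z.2 - 9 / 2) * (Real.cos (2 * Real.pi * z.1) - 1)) :=
    contDiff_const.add (hchi.mul ((Real.contDiff_cos.comp hq).sub contDiff_const))
  have h2 : ContDiff ℝ ∞ (fun z : ℝ × ℝ =>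
      -Real.sin (Real.pi * z.1) * Real.sin (phi (10 * z.2 - 9 / 2))) :=
    (Real.contDiff_sin.comp hq').neg.mul (Real.contDiff_sin.comp hphi)
  have h3 : ContDiff ℝ ∞ (fun z : ℝ × ℝ =>
      Pool.Agent.Helper27.BI.chi (10 * z.2 - 9 / 2) * Real.sin (2 * Real.pi * z.1)) :=
    hchi.mul (Real.contDiff_sin.comp hq)
  have h4 : ContDiff ℝ ∞ (fun z : ℝ × ℝ =>
      ((-Real.sin (Real.pi * z.1) * Real.sin (phi (10 * z.2 - 9 / 2)) : ℝ) : ℂ) +
        ((Pool.Agent.Helper27.BI.chi (10 * z.2 - 9 / 2) * Real.sin (2 * Real.pi * z.1) : ℝ) : ℂ) * Complex.I) :=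
    (Complex.ofRealCLM.contDiff.comp h2).add ((Complex.ofRealCLM.contDiff.comp h3).mul
      contDiff_const)
  have h5 := h1.prodMk h4
  refine (congrArg (ContDiff ℝ ∞) (funext fun z => ?_)).mp h5
  unfold mm zarc
  refine Prod.ext rfl (Complex.ext ?_ ?_)
  · rw [Complex.add_re, Complex.ofReal_re, Complex.re_ofReal_mul, Complex.I_re, mul_zero, add_zero]
  · rw [Complex.add_im, Complex.ofReal_im, Complex.im_ofReal_mul, Complex.I_im, mul_one, zero_add]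

private theorem fst_le_bas {m : R3} (hm : nsq m = 1) : m.1 ≤ 1 := by
  unfold nsq at hm
  nlinarith [sq_nonneg m.2.re, sq_nonneg m.2.im, sq_nonneg (m.1 - 1)]

private theorem mem_SP_bas (s r : ℝ) (m : R3) (hm : nsq m = 1) (h1 : 7 / 10 ≤ r)
    (h2 : r ≤ 39 / 50) : sq 0 (s, r • m) ∈ SP := by
  apply hS4.1
  have h3 := fst_le_bas hm
  unfold nsq at hm
  refine ⟨?_, ?_⟩
  · show ((1 : ℝ) / 5) ^ 2 ≤ nsq _
    unfold nsq
    simp only [Prod.smul_fst, Prod.smul_snd, smul_eq_mul, Complex.real_smul, Complex.mul_re,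
      Complex.mul_im, Complex.ofReal_re, Complex.ofReal_im, zero_mul, sub_zero, add_zero]
    nlinarith [mul_self_nonneg (r - 7 / 10)]
  · show ((1 : ℝ) / 5) ^ 2 ≤ nsq _
    unfold nsq
    simp only [Prod.smul_fst, Prod.smul_snd, smul_eq_mul, Complex.real_smul, Complex.mul_re,
      Complex.mul_im, Complex.ofReal_re, Complex.ofReal_im, zero_mul, sub_zero, add_zero]
    have h4 : (r * m.1 - 1) ^ 2 + (r * m.2.re) ^ 2 + (r * m.2.im) ^ 2 =
        r ^ 2 - 2 * r * m.1 + 1 := by linear_combination r ^ 2 * hm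
    rw [h4]
    nlinarith [mul_nonneg (by linarith : (0 : ℝ) ≤ r) (by linarith : (0 : ℝ) ≤ 1 - m.1)]

private theorem mem_neckE_bas (s r : ℝ) (m : R3) (hm : nsq m = 1) (h1 : 7 / 10 ≤ r)
    (h2 : r ≤ 39 / 50) (h : r = 73 / 100 ∨ m = (1, 0)) (h3 : 3 / 5 ≤ 73 / 100 * m.1) :
    sq 0 (s, r • m) ∈ neckE := by
  have h4 := fst_le_bas hm
  have h5 : 3 / 5 ≤ r * m.1 ∧ r * m.1 ≤ 4 / 5 := by
    rcases h with h | h
    · rw [h]; exact ⟨h3, by linarith⟩
    · rw [h]; exact ⟨by simp; linarith, by simp; linarith⟩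
  have e : ((s, r • m) : R4) = (s, (r * m.1, (r : ℝ) • m.2)) := rfl
  rw [e, sq_bar_bas _ _ _ (by linarith) h5.2]
  exact ⟨⟨rfl, by show (1 : ℝ) / 5 ≤ r * m.1; linarith, h5.2, rfl⟩, h5.1⟩

private theorem nu_cont_bas : Continuous H.nu := by
  have h : ContinuousOn ((fun q : ℝ × R4 => sq q.1 q.2) ∘
      fun m : R3 => (((0 : ℝ), ((1 : ℝ) / 2, ((73 : ℝ) / 100) • m)) : ℝ × R4)) univ :=
    hS3.comp (by fun_prop) (fun m _ => ⟨self_mem_Ici, mem_univ _⟩)
  exact continuousOn_univ.1 h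

private theorem near_bas {F : R4 → R4} (h : EmbOn 𝓘(ℝ, R4) F SP) :
    ∃ O : Set R4, IsOpen O ∧ SP ⊆ O ∧ ContDiffOn ℝ ∞ F O := by
  refine ⟨{p | IsLocalDiffeomorphAt 𝓘(ℝ, R4) 𝓘(ℝ, R4) ∞ F p}, ?_, fun p hp => h.1 p hp, ?_⟩
  · rw [isOpen_iff_mem_nhds]
    rintro p ⟨Φ, hp, heq⟩
    exact Filter.mem_of_superset (Φ.open_source.mem_nhds hp) fun q hq => ⟨Φ, hq, heq⟩
  · intro p hp
    exact (contMDiffAt_iff_contDiffAt.1 (IsLocalDiffeomorphAt.contMDiffAt hp)).contDiffWithinAt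

private theorem sphere_cpt : IsCompact {m : R3 | nsq m = 1} := by
  have hc : Continuous (fun m : R3 => nsq m) := by
    unfold nsq
    fun_prop
  refine (isCompact_closedBall (0 : R3) 1).of_isClosed_subset
    (isClosed_singleton.preimage hc) ?_
  intro m hm
  have hm' : m.1 ^ 2 + m.2.re ^ 2 + m.2.im ^ 2 = 1 := hm
  rw [mem_closedBall_zero_iff, Prod.norm_def]
  refine max_le ?_ ?_
  · rw [Real.norm_eq_abs]
    exact abs_le_one_iff_mul_self_le_one.2 (by nlinarith [sq_nonneg m.2.re, sq_nonneg m.2.im])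
  · have h2 : ‖m.2‖ ^ 2 ≤ 1 := by
      rw [← Complex.normSq_eq_norm_sq, Complex.normSq_apply]
      nlinarith [sq_nonneg m.1]
    nlinarith [norm_nonneg m.2]

private theorem tube_bas {F : R4 → R4} {O U : Set R4} {T : Set (ℝ × ℝ × R3)} {δ : ℝ}
    (hO : IsOpen O) (hF : ContinuousOn F O) (hT : IsCompact T) (hU : IsOpen U)
    (hz : ∀ z ∈ T, sq 0 (z.1, z.2.1 • z.2.2) ∈ O)
    (hzU : ∀ z ∈ T, 3 / 5 ≤ 73 / 100 * z.2.2.1 → sq 0 (z.1, z.2.1 • z.2.2) ∈ U) (hδ : 0 < δ) :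
    ∃ ε₀ > 0, ∀ ε ∈ Ioo 0 ε₀, ∀ z ∈ T, sq ε (z.1, z.2.1 • z.2.2) ∈ O ∧
      dist (F (sq ε (z.1, z.2.1 • z.2.2))) (F (sq 0 (z.1, z.2.1 • z.2.2))) < δ ∧
      (3 / 5 ≤ 73 / 100 * z.2.2.1 → sq ε (z.1, z.2.1 • z.2.2) ∈ U) := by
  have hc : ContinuousOn (fun x : ℝ × (ℝ × ℝ × R3) => sq x.1 (x.2.1, x.2.2.1 • x.2.2.2))
      (Ici 0 ×ˢ univ) := by
    have h : ContinuousOn ((fun q : ℝ × R4 => sq q.1 q.2) ∘
        fun x : ℝ × (ℝ × ℝ × R3) => ((x.1, (x.2.1, x.2.2.1 • x.2.2.2)) : ℝ × R4))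
        (Ici 0 ×ˢ univ) :=
      hS3.comp (by fun_prop) (fun x hx => ⟨hx.1, mem_univ _⟩)
    exact h
  have hc0 : ContinuousOn (fun x : ℝ × (ℝ × ℝ × R3) => sq 0 (x.2.1, x.2.2.1 • x.2.2.2))
      (Ici 0 ×ˢ univ) := by
    have h : ContinuousOn ((fun q : ℝ × R4 => sq q.1 q.2) ∘
        fun x : ℝ × (ℝ × ℝ × R3) => (((0 : ℝ), (x.2.1, x.2.2.1 • x.2.2.2)) : ℝ × R4))
        (Ici 0 ×ˢ univ) :=
      hS3.comp (by fun_prop) (fun x hx => ⟨self_mem_Ici, mem_univ _⟩)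
    exact h
  have key : ∀ᶠ ε in 𝓝 (0 : ℝ), ∀ z ∈ T, 0 ≤ ε → sq ε (z.1, z.2.1 • z.2.2) ∈ O ∧
      dist (F (sq ε (z.1, z.2.1 • z.2.2))) (F (sq 0 (z.1, z.2.1 • z.2.2))) < δ ∧
      (3 / 5 ≤ 73 / 100 * z.2.2.1 → sq ε (z.1, z.2.1 • z.2.2) ∈ U) := by
    refine hT.eventually_forall_of_forall_eventually fun z hzT => ?_
    have hmem : ((0 : ℝ), z) ∈ Ici (0 : ℝ) ×ˢ (univ : Set (ℝ × ℝ × R3)) :=
      ⟨self_mem_Ici, mem_univ _⟩
    have t1 := hc (0, z) hmem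
    have t0 := hc0 (0, z) hmem
    have hFa : ContinuousAt F (sq 0 (z.1, z.2.1 • z.2.2)) := hF.continuousAt (hO.mem_nhds (hz z hzT))
    have a1 : ∀ᶠ x in 𝓝[Ici (0 : ℝ) ×ˢ univ] ((0 : ℝ), z),
        sq x.1 (x.2.1, x.2.2.1 • x.2.2.2) ∈ O := t1.eventually (hO.mem_nhds (hz z hzT))
    have a2 : ∀ᶠ x in 𝓝[Ici (0 : ℝ) ×ˢ univ] ((0 : ℝ), z),
        dist (F (sq x.1 (x.2.1, x.2.2.1 • x.2.2.2))) (F (sq 0 (x.2.1, x.2.2.1 • x.2.2.2))) < δ := by
      have b1 : Filter.Tendsto (fun x : ℝ × (ℝ × ℝ × R3) => F (sq x.1 (x.2.1, x.2.2.1 • x.2.2.2)))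
          (𝓝[Ici (0 : ℝ) ×ˢ univ] ((0 : ℝ), z)) (𝓝 (F (sq 0 (z.1, z.2.1 • z.2.2)))) :=
        hFa.tendsto.comp t1
      have b0 : Filter.Tendsto (fun x : ℝ × (ℝ × ℝ × R3) => F (sq 0 (x.2.1, x.2.2.1 • x.2.2.2)))
          (𝓝[Ici (0 : ℝ) ×ˢ univ] ((0 : ℝ), z)) (𝓝 (F (sq 0 (z.1, z.2.1 • z.2.2)))) :=
        hFa.tendsto.comp t0
      have b2 := b1.dist b0
      rw [dist_self] at b2
      exact b2.eventually_lt_const hδ
    have a3 : ∀ᶠ x in 𝓝[Ici (0 : ℝ) ×ˢ univ] ((0 : ℝ), z),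
        (3 / 5 ≤ 73 / 100 * x.2.2.2.1 → sq x.1 (x.2.1, x.2.2.1 • x.2.2.2) ∈ U) := by
      by_cases h : 3 / 5 ≤ 73 / 100 * z.2.2.1
      · exact (t1.eventually (hU.mem_nhds (hzU z hzT h))).mono fun x hx _ => hx
      · rw [not_le] at h
        have hcc : Continuous (fun x : ℝ × (ℝ × ℝ × R3) => 73 / 100 * x.2.2.2.1) := by fun_prop
        have := (hcc.tendsto (0, z)).eventually_lt_const h
        refine (this.filter_mono nhdsWithin_le_nhds).mono fun x hx hx' => ?_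
        exact absurd hx' (not_le.2 hx)
    have a4 := (a1.and (a2.and a3))
    rw [eventually_nhdsWithin_iff] at a4
    exact a4.mono fun x hx h0 => hx ⟨h0, mem_univ _⟩
  obtain ⟨ε₀, h0, h1⟩ := Metric.eventually_nhds_iff.1 key
  refine ⟨ε₀, h0, fun ε hε z hz' => h1 ?_ z hz' hε.1.le⟩
  rw [Real.dist_eq, sub_zero, abs_of_pos hε.1]
  exact hε.2

private theorem axc_lt_bas (a : ℝ) (h2 : a ≤ 73 / 100) : axc 0 a < 4 / 5 := by
  unfold axc
  have e2 : √((a - 6 / 5) ^ 2 + 0 ^ 2) = 6 / 5 - a := by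
    rw [show (a - 6 / 5) ^ 2 + (0 : ℝ) ^ 2 = (6 / 5 - a) ^ 2 by ring]
    exact Real.sqrt_sq (by linarith)
  have e1 : √((a + 1 / 5) ^ 2 + 0 ^ 2) ≤ 83 / 50 - a := by
    rw [show (a + 1 / 5) ^ 2 + (0 : ℝ) ^ 2 = (a + 1 / 5) ^ 2 by ring]
    exact Real.sqrt_le_iff.2 ⟨by linarith, by nlinarith⟩
  rw [e2]
  linarith

private theorem nu_not_bas (m : R3) (hm : nsq m = 1) : nu m ∉ sph 1 := by
  intro h
  have h1 : rsq 1 (nu m) = 1 / 25 := h.2
  have h2 : (nu m).2.1 < 4 / 5 := by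
    have e : (nu m).2.1 = axc 0 (73 / 100 * m.1) := by
      unfold H.nu sq
      simp
    rw [e]
    exact axc_lt_bas _ (by linarith [fst_le_bas hm])
  unfold rsq nsq at h1
  simp only at h1
  nlinarith [sq_nonneg (nu m).2.2.re, sq_nonneg (nu m).2.2.im]

private theorem fin_bas {x z w : R4} {r : ℝ} (h1 : dist x z ≤ r / 8) (h2 : dist x w < r / 2)
    (h3 : r < dist z w) (hr : 0 < r) : False := by
  have h4 : dist z w ≤ dist z x + dist x w := dist_triangle _ _ _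
  rw [dist_comm z x] at h4
  linarith

end BAS

open BAS in
theorem m_BAS : StBAS := by
  intro F F' V hF hF' hV hsV hEq
  obtain ⟨O', hO', hSO', hFO'⟩ := near_bas hF'
  obtain ⟨O, hO, hSO, hFO⟩ := near_bas hF
  have hSPs : sph 1 ⊆ SP := fun p hp => Or.inl (Or.inr hp)
  -- the distance to the fixed cuff
  have hKc : IsCompact (F '' sph 1) := by
    have h1 : IsClosed (sph 1) := by
      have hc : Continuous (fun p : R4 => rsq 1 p) := by
        unfold rsq nsq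
        fun_prop
      exact (isClosed_singleton.preimage continuous_fst).inter (isClosed_singleton.preimage hc)
    have h2 : IsCompact (sph 1) := hS4.2.2.2.2.2.2.2.2.1.of_isClosed_subset h1 hSPs
    exact h2.image_of_continuousOn (hFO.continuousOn.mono (hSPs.trans hSO))
  have hnuS : ∀ m, nsq m = 1 → nu m ∈ SP := fun m hm =>
    mem_SP_bas _ _ _ hm (by norm_num) (by norm_num)
  have hNcont : ContinuousOn (fun m => F' (nu m)) {m : R3 | nsq m = 1} :=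
    hFO'.continuousOn.comp nu_cont_bas.continuousOn fun m hm => hSO' (hnuS m hm)
  have hNi : IsCompact ((fun m => F' (nu m)) '' {m : R3 | nsq m = 1}) :=
    sphere_cpt.image_of_continuousOn hNcont
  have hdis : Disjoint ((fun m => F' (nu m)) '' {m : R3 | nsq m = 1}) (F '' sph 1) := by
    rw [Set.disjoint_left]
    rintro y ⟨m, hm, rfl⟩ ⟨p, hp, h3⟩
    have h4 : F' p = F' (nu m) := by
      rw [← hEq (hsV (Or.inl hp))]
      exact h3
    have h5 : p = nu m := hF'.2 (hSPs hp) (hnuS m hm) h4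
    exact nu_not_bas m hm (h5 ▸ hp)
  obtain ⟨r, hr0, hr⟩ := Metric.exists_pos_forall_lt_edist hNi hKc.isClosed hdis
  have hκ : ∀ m, nsq m = 1 → ∀ y ∈ F '' sph 1, (r : ℝ) < dist (F' (nu m)) y := by
    intro m hm y hy
    have h1 := hr _ ⟨m, hm, rfl⟩ y hy
    rw [edist_nndist] at h1
    exact_mod_cast h1
  have hr0' : (0 : ℝ) < r := by exact_mod_cast hr0
  -- the tube
  let T : Set (ℝ × ℝ × R3) := {z | z.1 ∈ Icc (3 / 10 : ℝ) (7 / 10) ∧ z.2.1 = 73 / 100 ∧ nsq z.2.2 = 1}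
  have hT : IsCompact T := by
    refine (isCompact_Icc.prod ((isCompact_singleton (x := (73 : ℝ) / 100)).prod
      sphere_cpt)).of_isClosed_subset (s := Icc (3 / 10 : ℝ) (7 / 10) ×ˢ ({(73 : ℝ) / 100} ×ˢ
        {m : R3 | nsq m = 1})) ?_ (fun z hz => ⟨hz.1, hz.2.1, hz.2.2⟩)
    have c1 : IsClosed {z : ℝ × ℝ × R3 | z.1 ∈ Icc (3 / 10 : ℝ) (7 / 10)} :=
      isClosed_Icc.preimage continuous_fst
    have c3 : IsClosed {z : ℝ × ℝ × R3 | nsq z.2.2 = 1} :=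
      sphere_cpt.isClosed.preimage (by fun_prop : Continuous fun z : ℝ × ℝ × R3 => z.2.2)
    have c4 : IsClosed {z : ℝ × ℝ × R3 | z.2.1 = 73 / 100} :=
      isClosed_singleton.preimage (by fun_prop : Continuous fun z : ℝ × ℝ × R3 => z.2.1)
    exact c1.inter (c4.inter c3)
  have hTS : ∀ z ∈ T, sq 0 (z.1, z.2.1 • z.2.2) ∈ SP := fun z hz =>
    mem_SP_bas _ _ _ hz.2.2 (by rw [hz.2.1]; norm_num) (by rw [hz.2.1]; norm_num)
  have hTN : ∀ z ∈ T, 3 / 5 ≤ 73 / 100 * z.2.2.1 → sq 0 (z.1, z.2.1 • z.2.2) ∈ V :=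
    fun z hz h => hsV (Or.inr (mem_neckE_bas _ _ _ hz.2.2 (by rw [hz.2.1]; norm_num)
      (by rw [hz.2.1]; norm_num) (Or.inl hz.2.1) h))
  obtain ⟨ε₂, hε₂, hB⟩ := tube_bas (δ := r / 8) hO' hFO'.continuousOn hT hV
    (fun z hz => hSO' (hTS z hz)) hTN (by linarith)
  refine ⟨r / 2, by linarith, ε₂, hε₂, fun ε hε D hm₀ hm₁ hDc hDU => ?_⟩
  have hεp : 0 < ε := hε.1
  replace hB := hB ε hε
  have hsq : ContDiff ℝ ∞ (sq ε) := by
    have h := hS2.2.2.2.comp (s := univ) (g := fun q : ℝ × R4 => sq q.1 q.2)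
      (f := fun p : R4 => (ε, p)) (contDiff_const.prodMk contDiff_id).contDiffOn
      (fun p _ => ⟨hεp, mem_univ _⟩)
    exact contDiffOn_univ.1 h
  -- facts on the arcs
  have hO1 : ∀ s ∈ Icc (3 / 10 : ℝ) (7 / 10), ∀ m, nsq m = 1 → sq ε (s, (73 / 100 : ℝ) • m) ∈ O' :=
    fun s hs m hm => (hB (s, 73 / 100, m) ⟨hs, rfl, hm⟩).1
  have hd1 : ∀ s ∈ Icc (3 / 10 : ℝ) (7 / 10), ∀ m, nsq m = 1 →
      dist (F' (sq ε (s, (73 / 100 : ℝ) • m))) (F' (nu m)) < r / 8 := by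
    intro s hs m hm
    have h := (hB (s, 73 / 100, m) ⟨hs, rfl, hm⟩).2.1
    have e : nu m = sq 0 (s, (73 / 100 : ℝ) • m) := (sq_fst_bas _ _).symm
    rw [e]
    exact h
  have hn1 : nsq ((1, 0) : R3) = 1 := by
    unfold nsq
    simp
  have hDc' : ∀ s ∈ Icc (3 / 10 : ℝ) (7 / 10),
      F' (sq ε (s, (73 / 100 : ℝ) • ((1, 0) : R3))) = D.c s := by
    intro s hs
    have h := (hB (s, 73 / 100, (1, 0)) ⟨hs, rfl, hn1⟩).2.2 (by norm_num)
    rw [hDc s hs, ← hEq h, smul_e]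
  have hbp : F' (nu (1, 0)) = bp F := by
    have e : nu ((1, 0) : R3) = bar (73 / 100) := by
      unfold H.nu
      rw [smul_e]
      exact sq_bar_bas _ _ _ (by norm_num) (by norm_num)
    rw [e]
    unfold bp
    exact (hEq (hsV (Or.inr ⟨⟨rfl, by show (1 : ℝ) / 5 ≤ 73 / 100; norm_num,
      by show (73 : ℝ) / 100 ≤ 4 / 5; norm_num, rfl⟩, by show (3 : ℝ) / 5 ≤ 73 / 100; norm_num⟩))).symm
  have hcout : ∀ q s, (s ≤ 9 / 20 ∨ 11 / 20 ≤ s) → loopF F' (3 / 10) (7 / 10) ε D q s = D.c s := by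
    intro q s hs
    unfold loopF
    split_ifs with h
    · rw [mm_edge q s hs]
      exact hDc' s h
    · rfl
  have hcend : ∀ q s, (q = 0 ∨ q = 1) → loopF F' (3 / 10) (7 / 10) ε D q s = D.c s := by
    intro q s hq
    unfold loopF
    split_ifs with h
    · rw [mm_ends q s hq]
      exact hDc' s h
    · rfl
  have hcin : ∀ q, ∀ s ∈ Icc (3 / 10 : ℝ) (7 / 10), loopF F' (3 / 10) (7 / 10) ε D q s =
      F' (sq ε (s, (73 / 100 : ℝ) • mm q s)) := by
    intro q s hs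
    unfold loopF
    exact if_pos hs
  have hmid : ∀ s ∈ Icc D.m₀ D.m₁, s ∈ Icc (3 / 10 : ℝ) (7 / 10) := by
    intro s hs
    rw [hm₀, hm₁] at hs
    exact ⟨by linarith [hs.1], by linarith [hs.2]⟩
  have hU : ∀ m, nsq m = 1 → ∀ x, dist x (F' (nu m)) ≤ r / 8 → x ∈ D.U := by
    intro m hm x hx
    by_contra h
    obtain ⟨y, hy, hxy⟩ := hDU x h
    exact fin_bas hx hxy (hκ m hm y hy) hr0'
  have hsm : ContDiff ℝ ∞ (fun z : ℝ × ℝ => loopF F' (3 / 10) (7 / 10) ε D z.1 z.2) := by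
    rw [contDiff_iff_contDiffAt]
    intro z
    have hout : ∀ W : Set ℝ, IsOpen W → z.2 ∈ W → (∀ s ∈ W, s ≤ 9 / 20 ∨ 11 / 20 ≤ s) →
        ContDiffAt ℝ ∞ (fun z : ℝ × ℝ => loopF F' (3 / 10) (7 / 10) ε D z.1 z.2) z := by
      intro W hW hzW hWs
      have h1 : ContDiffAt ℝ ∞ (fun z : ℝ × ℝ => D.c z.2) z :=
        (D.smooth.comp contDiff_snd).contDiffAt
      refine h1.congr_of_eventuallyEq ?_
      filter_upwards [(hW.preimage continuous_snd).mem_nhds hzW] with y hy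
      exact hcout _ _ (hWs _ hy)
    rcases lt_or_ge z.2 (9 / 20) with h | h
    · exact hout (Iio (9 / 20)) isOpen_Iio h fun s hs => Or.inl (le_of_lt hs)
    rcases lt_or_ge (11 / 20) z.2 with h' | h'
    · exact hout (Ioi (11 / 20)) isOpen_Ioi h' fun s hs => Or.inr (le_of_lt hs)
    have hin : ContDiff ℝ ∞ (fun x : ℝ × ℝ => sq ε (x.2, (73 / 100 : ℝ) • mm x.1 x.2)) :=
      hsq.comp (contDiff_snd.prodMk (ContDiff.smul (f := fun _ : ℝ × ℝ => (73 / 100 : ℝ)) contDiff_const mm_smooth))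
    have h1 : sq ε (z.2, (73 / 100 : ℝ) • mm z.1 z.2) ∈ O' :=
      hO1 _ ⟨by linarith, by linarith⟩ _ (nsq_mm _ _)
    have h2 : ContDiffAt ℝ ∞ (fun x : ℝ × ℝ => F' (sq ε (x.2, (73 / 100 : ℝ) • mm x.1 x.2))) z :=
      (hFO'.contDiffAt (hO'.mem_nhds h1)).comp z hin.contDiffAt
    refine h2.congr_of_eventuallyEq ?_
    have h3 : z.2 ∈ Ioo (3 / 10 : ℝ) (7 / 10) := ⟨by linarith, by linarith⟩
    filter_upwards [(isOpen_Ioo.preimage continuous_snd).mem_nhds h3] with y hy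
    exact hcin _ _ ⟨le_of_lt hy.1, le_of_lt hy.2⟩
  refine ⟨⟨hsm, ?_, ?_, fun s => hcend 0 s (Or.inl rfl), fun s => hcend 1 s (Or.inr rfl)⟩, ?_⟩
  · intro q _ s hs
    rw [hm₀, hm₁] at hs
    exact hcout q s hs
  · intro q _ s hs
    rw [hcin q s (hmid s hs)]
    exact hU _ (nsq_mm q s) _ (hd1 s (hmid s hs) _ (nsq_mm q s)).le
  · have hmmc : Continuous (fun x : ℝ × ℝ => mm x.1 x.2) := mm_smooth.continuous
    have hNc : Continuous (fun x : ℝ × ℝ => F' (nu (mm x.1 x.2))) := continuousOn_univ.1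
      (hFO'.continuousOn.comp (nu_cont_bas.comp hmmc).continuousOn
        fun x _ => hSO' (hnuS _ (nsq_mm _ _)))
    refine ⟨fun z => (1 - z.1) • loopF F' (3 / 10) (7 / 10) ε D z.2.1 z.2.2 +
      z.1 • shp D (bp F) (fun q s => F' (nu (mm q s))) z.2.1 z.2.2, ?_, ?_, ?_⟩
    · refine Continuous.continuousOn ?_
      have h1 : Continuous (fun z : ℝ × ℝ × ℝ => loopF F' (3 / 10) (7 / 10) ε D z.2.1 z.2.2) :=
        hsm.continuous.comp continuous_snd
      have h2 : Continuous (fun z : ℝ × ℝ × ℝ =>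
          shp D (bp F) (fun q s => F' (nu (mm q s))) z.2.1 z.2.2) := by
        unfold shp
        have h3 : Continuous (fun z : ℝ × ℝ × ℝ => D.c z.2.2) :=
          D.smooth.continuous.comp (continuous_snd.comp continuous_snd)
        have h4 : Continuous (fun z : ℝ × ℝ × ℝ => F' (nu (mm z.2.1 z.2.2))) :=
          hNc.comp continuous_snd
        exact h4.add (h3.sub continuous_const)
      exact ((continuous_const.sub continuous_fst).smul h1).add (continuous_fst.smul h2)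
    · intro q _ s _
      constructor
      · show (1 - (0 : ℝ)) • loopF F' (3 / 10) (7 / 10) ε D q s + (0 : ℝ) • _ = _
        rw [zero_smul, sub_zero, one_smul, add_zero]
      · show (1 - (1 : ℝ)) • loopF F' (3 / 10) (7 / 10) ε D q s + (1 : ℝ) • _ = _
        rw [sub_self, zero_smul, one_smul, zero_add]
    · intro u hu q _ s hs
      have hs' := hmid s hs
      constructor
      · refine hU _ (nsq_mm q s) _ ?_
        have e : (1 - u) • loopF F' (3 / 10) (7 / 10) ε D q s +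
            u • shp D (bp F) (fun q s => F' (nu (mm q s))) q s - F' (nu (mm q s)) =
            (1 - u) • (F' (sq ε (s, (73 / 100 : ℝ) • mm q s)) - F' (nu (mm q s))) +
              u • (D.c s - bp F) := by
          rw [hcin q s hs']
          unfold shp
          module
        have h1 : ‖F' (sq ε (s, (73 / 100 : ℝ) • mm q s)) - F' (nu (mm q s))‖ ≤ r / 8 := by
          rw [← dist_eq_norm]
          exact (hd1 s hs' _ (nsq_mm q s)).le
        have h2 : ‖D.c s - bp F‖ ≤ r / 8 := by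
          rw [← dist_eq_norm, ← hDc' s hs', ← hbp]
          exact (hd1 s hs' _ hn1).le
        show dist ((1 - u) • loopF F' (3 / 10) (7 / 10) ε D q s +
            u • shp D (bp F) (fun q s => F' (nu (mm q s))) q s) (F' (nu (mm q s))) ≤ r / 8
        rw [dist_eq_norm, e]
        refine (norm_add_le _ _).trans ?_
        have h3 : (0 : ℝ) ≤ 1 - u := by linarith [hu.2]
        rw [norm_smul, norm_smul, Real.norm_of_nonneg hu.1, Real.norm_of_nonneg h3]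
        have h4 := mul_le_mul_of_nonneg_left h1 h3
        have h5 := mul_le_mul_of_nonneg_left h2 hu.1
        linarith
      · intro hb
        have h1 : mm q s = (1, 0) := by
          rcases hb with h | h | h | h
          · exact mm_ends q s (Or.inl h)
          · exact mm_ends q s (Or.inr h)
          · exact mm_edge q s (Or.inl (by rw [h, hm₀]))
          · exact mm_edge q s (Or.inr (by rw [h, hm₁]))
        show (1 - u) • loopF F' (3 / 10) (7 / 10) ε D q s +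
            u • shp D (bp F) (fun q s => F' (nu (mm q s))) q s = D.c s
        rw [hcin q s hs']
        unfold shp
        simp only
        rw [h1, hDc' s hs', hbp]
        module

end Pool.Agent.Helper18.BI.R
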