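import Pool.Agent.Helper18.BI.R.StR4
import Pool.Agent.Helper27.BI.M_ZNSQ
import Pool.Agent.Helper27.BI.Geo

/-!
# Project BI, stage 4 (R), module EVM: squares of words
-/

set_option autoImplicit false

open scoped Manifold ContDiff Topology ComplexConjugate unitInterval NNReal
open Set Pool.Agent.Helper65.Barb Pool.Agent.Helper18.BI
open Pool.Agent.Helper70.BI (I4 IsW)
open Pool.Agent.Helper18.BI.H (IsW4 mm)
open Pool.Agent.Helper18.FinR (sqr Pi2 cls FreeClass UpTo)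

namespace Pool.Agent.Helper18.BI.R

namespace EVM

theorem mm_edge' (q s : ℝ) (hs : s ≤ 9 / 20 ∨ 11 / 20 ≤ s) : mm q s = (1, 0) := by
  have h : step (10 * s - 9 / 2) = 0 ∨ step (10 * s - 9 / 2) = 1 := by
    rcases hs with hs | hs
    · left; exact step_of_nonpos (by linarith)
    · right; exact step_of_one_le (by linarith)
  unfold mm Pool.Agent.Helper27.BI.zarc Pool.Agent.Helper27.BI.chi Pool.Agent.Helper27.BI.phi
  rcases h with h | h
  · rw [h]
    simp only [mul_zero, Real.cos_zero, Real.sin_zero, sub_self, zero_div, zero_mul, add_zero]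
    rfl
  · rw [h]
    simp only [mul_one, Real.cos_two_pi, Real.sin_two_pi, sub_self, zero_div, zero_mul, add_zero,
      mul_zero]
    rfl

theorem mm_ends' (q s : ℝ) (hq : q = 0 ∨ q = 1) : mm q s = (1, 0) := by
  unfold mm Pool.Agent.Helper27.BI.zarc
  rcases hq with rfl | rfl
  · simp only [mul_zero, Real.cos_zero, Real.sin_zero, sub_self, neg_zero, zero_mul, add_zero]
    rfl
  · simp only [mul_one, Real.cos_two_pi, Real.sin_two_pi, sub_self, Real.sin_pi, neg_zero, zero_mul,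
      mul_zero, add_zero]
    rfl

theorem mm_S2' (q s : ℝ) : mm q s ∈ S2 := by
  show nsq (mm q s) = 1
  unfold mm
  rw [Pool.Agent.Helper27.BI.m_ZNSQ]
  ring

theorem contDiff_mm : ContDiff ℝ ∞ (fun z : ℝ × ℝ => mm z.1 z.2) := by
  unfold mm
  refine Pool.Agent.Helper27.BI.contDiff_zarc ?_ ?_ ?_ ?_
  · exact Real.contDiff_sin.comp (contDiff_const.mul contDiff_fst)
  · exact Pool.Agent.Helper27.BI.contDiff_chi.comp
      ((contDiff_const.mul contDiff_snd).sub contDiff_const)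
  · exact contDiff_fst
  · exact (contDiff_const.mul contDiff_snd).sub contDiff_const

attribute [local irreducible] Pool.Agent.Helper18.BI.H.mm

/-- the rectangle -/
def rect : Set (ℝ × ℝ) := Icc (0 : ℝ) 1 ×ˢ Icc (9 / 20 : ℝ) (11 / 20)

theorem lip_mm : ∃ L : ℝ≥0, LipschitzOnWith L (fun z : ℝ × ℝ => mm z.1 z.2) rect := by
  have hc : IsCompact rect := isCompact_Icc.prod isCompact_Icc
  have hconv : Convex ℝ rect := (convex_Icc _ _).prod (convex_Icc _ _)
  have hd : Continuous (fderiv ℝ (fun z : ℝ × ℝ => mm z.1 z.2)) :=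
    contDiff_mm.continuous_fderiv (by simp)
  obtain ⟨C, hC⟩ := hc.exists_bound_of_continuousOn hd.continuousOn
  refine ⟨Real.toNNReal C, ?_⟩
  refine hconv.lipschitzOnWith_of_nnnorm_fderiv_le
    (fun x _ => (contDiff_mm.differentiable (by simp)) x) fun x hx => ?_
  rw [← NNReal.coe_le_coe]
  exact (hC x hx).trans (Real.le_coe_toNNReal C)

theorem dist_pair (a b c d : ℝ) :
    dist ((a, b) : ℝ × ℝ) (c, d) = max (dist a c) (dist b d) := rfl

/-- reversal -/
theorem lip_rev {X : Type} [PseudoMetricSpace X] {f : ℝ → ℝ → X} {L : ℝ≥0}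
    (h : LipschitzOnWith L (fun z : ℝ × ℝ => f z.1 z.2) rect) :
    LipschitzOnWith L (fun z : ℝ × ℝ => f (1 - z.1) z.2) rect := by
  refine LipschitzOnWith.of_dist_le_mul ?_
  rintro ⟨a, b⟩ ⟨⟨a1, a2⟩, hb⟩ ⟨c, d⟩ ⟨⟨c1, c2⟩, hd⟩
  simp only at a1 a2 c1 c2 hb hd
  have m1 : ((1 - a, b) : ℝ × ℝ) ∈ rect := ⟨⟨by simp only; linarith, by simp only; linarith⟩, hb⟩
  have m2 : ((1 - c, d) : ℝ × ℝ) ∈ rect := ⟨⟨by simp only; linarith, by simp only; linarith⟩, hd⟩
  have h3 := h.dist_le_mul _ m1 _ m2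
  have e1 : dist (1 - a) (1 - c) = dist a c := by
    rw [Real.dist_eq, Real.dist_eq, show (1 - a - (1 - c) : ℝ) = -(a - c) by ring, abs_neg]
  rw [dist_pair, e1, ← dist_pair] at h3
  exact h3

theorem dist_two {a c a' c' : ℝ} (h : dist a' c' = 2 * dist a c) (b d : ℝ) :
    dist ((a', b) : ℝ × ℝ) (c', d) ≤ 2 * dist ((a, b) : ℝ × ℝ) (c, d) := by
  rw [dist_pair, dist_pair, h]
  refine max_le ?_ ?_
  · exact mul_le_mul_of_nonneg_left (le_max_left _ _) (by norm_num)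
  · have h1 := le_max_right (dist a c) (dist b d)
    have h5 : 0 ≤ dist b d := dist_nonneg
    linarith

/-- concatenation of Lipschitz squares -/
theorem lip_cat {M : Type} [PseudoMetricSpace M] {f f' : ℝ → ℝ → M} {L L' : ℝ≥0}
    (h : LipschitzOnWith L (fun z : ℝ × ℝ => f z.1 z.2) rect)
    (h' : LipschitzOnWith L' (fun z : ℝ × ℝ => f' z.1 z.2) rect) (e : ∀ s, f 1 s = f' 0 s) :
    LipschitzOnWith (2 * L + 2 * L') (fun z : ℝ × ℝ => qcatM f f' z.1 z.2) rect := by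
  -- pairs in the same half
  have k1 : ∀ x ∈ rect, ∀ y ∈ rect, x.1 ≤ 1 / 2 → y.1 ≤ 1 / 2 →
      dist (f (2 * x.1) x.2) (f (2 * y.1) y.2) ≤ 2 * L * dist x y := by
    rintro ⟨a, b⟩ ⟨⟨a1, a2⟩, hb⟩ ⟨c, d⟩ ⟨⟨c1, c2⟩, hd⟩ ha hc
    simp only at a1 a2 c1 c2 ha hc hb hd ⊢
    have m1 : ((2 * a, b) : ℝ × ℝ) ∈ rect := ⟨⟨by simp only; linarith, by simp only; linarith⟩, hb⟩
    have m2 : ((2 * c, d) : ℝ × ℝ) ∈ rect := ⟨⟨by simp only; linarith, by simp only; linarith⟩, hd⟩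
    have h3 := h.dist_le_mul _ m1 _ m2
    have h4 : dist ((2 * a, b) : ℝ × ℝ) (2 * c, d) ≤ 2 * dist ((a, b) : ℝ × ℝ) (c, d) :=
      dist_two (by rw [Real.dist_eq, Real.dist_eq, show 2 * a - 2 * c = 2 * (a - c) by ring,
        abs_mul, abs_two]) b d
    calc _ ≤ (L : ℝ) * dist ((2 * a, b) : ℝ × ℝ) (2 * c, d) := h3
      _ ≤ L * (2 * dist ((a, b) : ℝ × ℝ) (c, d)) := mul_le_mul_of_nonneg_left h4 L.coe_nonneg
      _ = _ := by ring
  have k2 : ∀ x ∈ rect, ∀ y ∈ rect, 1 / 2 ≤ x.1 → 1 / 2 ≤ y.1 →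
      dist (f' (2 * x.1 - 1) x.2) (f' (2 * y.1 - 1) y.2) ≤ 2 * L' * dist x y := by
    rintro ⟨a, b⟩ ⟨⟨a1, a2⟩, hb⟩ ⟨c, d⟩ ⟨⟨c1, c2⟩, hd⟩ ha hc
    simp only at a1 a2 c1 c2 ha hc hb hd ⊢
    have m1 : ((2 * a - 1, b) : ℝ × ℝ) ∈ rect :=
      ⟨⟨by simp only; linarith, by simp only; linarith⟩, hb⟩
    have m2 : ((2 * c - 1, d) : ℝ × ℝ) ∈ rect :=
      ⟨⟨by simp only; linarith, by simp only; linarith⟩, hd⟩
    have h3 := h'.dist_le_mul _ m1 _ m2
    have h4 : dist ((2 * a - 1, b) : ℝ × ℝ) (2 * c - 1, d) ≤ 2 * dist ((a, b) : ℝ × ℝ) (c, d) :=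
      dist_two (by rw [Real.dist_eq, Real.dist_eq,
        show 2 * a - 1 - (2 * c - 1) = 2 * (a - c) by ring, abs_mul, abs_two]) b d
    calc _ ≤ (L' : ℝ) * dist ((2 * a - 1, b) : ℝ × ℝ) (2 * c - 1, d) := h3
      _ ≤ L' * (2 * dist ((a, b) : ℝ × ℝ) (c, d)) := mul_le_mul_of_nonneg_left h4 L'.coe_nonneg
      _ = _ := by ring
  have k3 : ∀ x ∈ rect, ∀ y ∈ rect, x.1 ≤ 1 / 2 → 1 / 2 ≤ y.1 →
      dist (f (2 * x.1) x.2) (f' (2 * y.1 - 1) y.2) ≤ (2 * L + 2 * L') * dist x y := by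
    intro x hx y hy h1 h2
    have m : ((1 / 2, x.2) : ℝ × ℝ) ∈ rect := ⟨⟨by norm_num, by norm_num⟩, hx.2⟩
    have e1 := k1 x hx _ m h1 le_rfl
    have e2 := k2 _ m y hy le_rfl h2
    have e3 : f (2 * (1 / 2)) x.2 = f' (2 * (1 / 2) - 1) x.2 := by
      rw [show (2 * (1 / 2) : ℝ) = 1 by norm_num, sub_self]
      exact e _
    simp only at e1 e2
    rw [← e3] at e2
    have d1 : dist x ((1 / 2, x.2) : ℝ × ℝ) ≤ dist x y := by
      show max (dist x.1 (1 / 2)) (dist x.2 x.2) ≤ max (dist x.1 y.1) (dist x.2 y.2)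
      rw [dist_self]
      refine max_le (le_max_of_le_left ?_) (le_max_of_le_left dist_nonneg)
      rw [Real.dist_eq, Real.dist_eq, abs_of_nonpos (by linarith), abs_of_nonpos (by linarith)]
      linarith
    have d2 : dist ((1 / 2, x.2) : ℝ × ℝ) y ≤ dist x y := by
      show max (dist (1 / 2) y.1) (dist x.2 y.2) ≤ max (dist x.1 y.1) (dist x.2 y.2)
      refine max_le (le_max_of_le_left ?_) (le_max_right _ _)
      rw [Real.dist_eq, Real.dist_eq, abs_of_nonpos (by linarith), abs_of_nonpos (by linarith)]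
      linarith
    have l1 : 2 * (L : ℝ) * dist x ((1 / 2, x.2) : ℝ × ℝ) ≤ 2 * L * dist x y :=
      mul_le_mul_of_nonneg_left d1 (by positivity)
    have l2 : 2 * (L' : ℝ) * dist ((1 / 2, x.2) : ℝ × ℝ) y ≤ 2 * L' * dist x y :=
      mul_le_mul_of_nonneg_left d2 (by positivity)
    have := dist_triangle (f (2 * x.1) x.2) (f (2 * (1 / 2)) x.2) (f' (2 * y.1 - 1) y.2)
    nlinarith
  refine LipschitzOnWith.of_dist_le_mul fun x hx y hy => ?_
  have hL := L.coe_nonneg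
  have hL' := L'.coe_nonneg
  have hxy : 0 ≤ dist x y := dist_nonneg
  have cc : ((2 * L + 2 * L' : ℝ≥0) : ℝ) = 2 * L + 2 * L' := by push_cast; ring
  rw [cc]
  have p1 : 0 ≤ (L : ℝ) * dist x y := mul_nonneg hL hxy
  have p2 : 0 ≤ (L' : ℝ) * dist x y := mul_nonneg hL' hxy
  unfold qcatM
  rcases le_or_gt x.1 (1 / 2) with h1 | h1
  · rcases le_or_gt y.1 (1 / 2) with h2 | h2
    · simp only [h1, h2, if_true]
      have := k1 x hx y hy h1 h2
      linarith
    · simp only [h1, if_true, not_le.2 h2, if_false]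
      exact k3 x hx y hy h1 h2.le
  · rcases le_or_gt y.1 (1 / 2) with h2 | h2
    · simp only [h2, if_true, not_le.2 h1, if_false]
      rw [dist_comm, dist_comm x y]
      exact k3 y hy x hx h2 h1.le
    · simp only [not_le.2 h1, not_le.2 h2, if_false]
      have := k2 x hx y hy h1.le h2.le
      linarith

/-- concatenation of continuous families of squares -/
theorem cont_cat {T M : Type} [TopologicalSpace T] [TopologicalSpace M] {C : Set T}
    (hC : IsClosed C) {f f' : T → ℝ → ℝ → M}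
    (h : ContinuousOn (fun z : T × ℝ × ℝ => f z.1 z.2.1 z.2.2) (C ×ˢ (Icc (0 : ℝ) 1 ×ˢ univ)))
    (h' : ContinuousOn (fun z : T × ℝ × ℝ => f' z.1 z.2.1 z.2.2) (C ×ˢ (Icc (0 : ℝ) 1 ×ˢ univ)))
    (e : ∀ τ ∈ C, ∀ s, f τ 1 s = f' τ 0 s) :
    ContinuousOn (fun z : T × ℝ × ℝ => qcatM (f z.1) (f' z.1) z.2.1 z.2.2)
      (C ×ˢ (Icc (0 : ℝ) 1 ×ˢ univ)) := by
  have hs : (C ×ˢ (Icc (0 : ℝ) 1 ×ˢ (univ : Set ℝ))) =
      (C ×ˢ (Icc (0 : ℝ) (1 / 2) ×ˢ univ)) ∪ (C ×ˢ (Icc (1 / 2 : ℝ) 1 ×ˢ univ)) := by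
    rw [← prod_union, ← union_prod, Icc_union_Icc_eq_Icc (by norm_num) (by norm_num)]
  rw [hs]
  refine ContinuousOn.union_of_isClosed ?_ ?_ (hC.prod (isClosed_Icc.prod isClosed_univ))
    (hC.prod (isClosed_Icc.prod isClosed_univ))
  · have h1 : ContinuousOn (fun z : T × ℝ × ℝ => f z.1 (2 * z.2.1) z.2.2)
        (C ×ˢ (Icc (0 : ℝ) (1 / 2) ×ˢ univ)) := by
      have h2 : Continuous (fun z : T × ℝ × ℝ => (z.1, (2 * z.2.1, z.2.2))) := by fun_prop
      refine h.comp (f := fun z : T × ℝ × ℝ => (z.1, (2 * z.2.1, z.2.2))) h2.continuousOn ?_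
      rintro ⟨τ, a, b⟩ ⟨h3, ⟨h4, h5⟩, -⟩
      simp only at h4 h5
      exact ⟨h3, ⟨by simp only; linarith, by simp only; linarith⟩, trivial⟩
    refine h1.congr ?_
    rintro ⟨τ, a, b⟩ ⟨h3, ⟨h4, h5⟩, -⟩
    simp only at h5
    unfold qcatM
    simp only [h5, if_true]
  · have h1 : ContinuousOn (fun z : T × ℝ × ℝ => f' z.1 (2 * z.2.1 - 1) z.2.2)
        (C ×ˢ (Icc (1 / 2 : ℝ) 1 ×ˢ univ)) := by
      have h2 : Continuous (fun z : T × ℝ × ℝ => (z.1, (2 * z.2.1 - 1, z.2.2))) := by fun_prop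
      refine h'.comp (f := fun z : T × ℝ × ℝ => (z.1, (2 * z.2.1 - 1, z.2.2))) h2.continuousOn ?_
      rintro ⟨τ, a, b⟩ ⟨h3, ⟨h4, h5⟩, -⟩
      simp only at h4 h5
      exact ⟨h3, ⟨by simp only; linarith, by simp only; linarith⟩, trivial⟩
    refine h1.congr ?_
    rintro ⟨τ, a, b⟩ ⟨h3, ⟨h4, h5⟩, -⟩
    simp only at h3 h4
    unfold qcatM
    rcases eq_or_lt_of_le h4 with h6 | h6
    · subst h6
      simp only [le_refl, if_true]
      rw [show (2 * (1 / 2) : ℝ) = 1 by norm_num, sub_self]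
      exact e τ h3 b
    · simp only [not_le.2 h6, if_false]

/-- the values on the boundary -/
theorem bdry {M : Type} {n : ℕ} (y : M) (g : Fin n → R3 → M) (hg : ∀ i, g i (1, 0) = y)
    (l : List (Fin n × Bool)) : ∀ q s : ℝ, (q = 0 ∨ q = 1 ∨ s ≤ 9 / 20 ∨ 11 / 20 ≤ s) →
      evM y g l q s = y := by
  induction l with
  | nil => intro q s _; rfl
  | cons p l ih =>
    intro q s h
    obtain ⟨i, b⟩ := p
    have hrec : ¬ q ≤ 1 / 2 → evM y g l (2 * q - 1) s = y := by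
      intro hq
      refine ih _ _ ?_
      rcases h with h | h | h
      · exact absurd (by rw [h]; norm_num) hq
      · right; left; rw [h]; norm_num
      · right; right; exact h
    cases b with
    | true =>
      show qcatM (fun q s => g i (mm q s)) (evM y g l) q s = y
      unfold qcatM
      split_ifs with hq
      · show g i (mm (2 * q) s) = y
        rcases h with h | h | h
        · rw [mm_ends' _ _ (Or.inl (by rw [h]; norm_num)), hg]
        · exfalso; rw [h] at hq; norm_num at hq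
        · rw [mm_edge' _ _ h, hg]
      · exact hrec hq
    | false =>
      show qcatM (fun q s => g i (mm (1 - q) s)) (evM y g l) q s = y
      unfold qcatM
      split_ifs with hq
      · show g i (mm (1 - 2 * q) s) = y
        rcases h with h | h | h
        · rw [mm_ends' _ _ (Or.inr (by rw [h]; norm_num)), hg]
        · exfalso; rw [h] at hq; norm_num at hq
        · rw [mm_edge' _ _ h, hg]
      · exact hrec hq

theorem nat {M M' : Type} {n : ℕ} (Θ : M → M') (y : M) (g : Fin n → R3 → M)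
    (l : List (Fin n × Bool)) : ∀ q s : ℝ,
      evM (Θ y) (fun i m => Θ (g i m)) l q s = Θ (evM y g l q s) := by
  induction l with
  | nil => intro q s; rfl
  | cons p l ih =>
    intro q s
    obtain ⟨i, b⟩ := p
    cases b with
    | true =>
      show qcatM (fun q s => Θ (g i (mm q s))) (evM (Θ y) (fun i m => Θ (g i m)) l) q s =
        Θ (qcatM (fun q s => g i (mm q s)) (evM y g l) q s)
      unfold qcatM
      split_ifs
      · rfl
      · exact ih _ _
    | false =>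
      show qcatM (fun q s => Θ (g i (mm (1 - q) s))) (evM (Θ y) (fun i m => Θ (g i m)) l) q s =
        Θ (qcatM (fun q s => g i (mm (1 - q) s)) (evM y g l) q s)
      unfold qcatM
      split_ifs
      · rfl
      · exact ih _ _

theorem cont_sph {T M : Type} [TopologicalSpace T] [TopologicalSpace M] {C : Set T}
    {k : T × R3 → M} {m : ℝ → ℝ → R3} (hk : ContinuousOn k (C ×ˢ S2))
    (hm : Continuous (fun z : ℝ × ℝ => m z.1 z.2)) (hS : ∀ q s, m q s ∈ S2) :
    ContinuousOn (fun z : T × ℝ × ℝ => k (z.1, m z.2.1 z.2.2)) (C ×ˢ (Icc (0 : ℝ) 1 ×ˢ univ)) := by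
  have h1 : Continuous (fun z : T × ℝ × ℝ => (z.1, m z.2.1 z.2.2)) :=
    continuous_fst.prodMk (hm.comp continuous_snd)
  exact hk.comp (f := fun z : T × ℝ × ℝ => (z.1, m z.2.1 z.2.2)) h1.continuousOn
    fun z hz => ⟨hz.1, hS _ _⟩

theorem continuous_rev {m : ℝ → ℝ → R3} (hm : Continuous (fun z : ℝ × ℝ => m z.1 z.2)) :
    Continuous (fun z : ℝ × ℝ => m (1 - z.1) z.2) := by
  have h0 : Continuous (fun z : ℝ × ℝ => ((1 - z.1, z.2) : ℝ × ℝ)) := by fun_prop
  exact hm.comp h0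

theorem cont {T M : Type} [TopologicalSpace T] [TopologicalSpace M] {C : Set T} {n : ℕ} (y : M)
    (k : Fin n → T × R3 → M) (l : List (Fin n × Bool)) (hC : IsClosed C)
    (hk : ∀ i, ContinuousOn (k i) (C ×ˢ S2)) (hy : ∀ i, ∀ τ ∈ C, k i (τ, (1, 0)) = y) :
    ContinuousOn (fun z : T × ℝ × ℝ => evM y (fun i m => k i (z.1, m)) l z.2.1 z.2.2)
      (C ×ˢ (Icc (0 : ℝ) 1 ×ˢ univ)) := by
  have hmm : Continuous (fun z : ℝ × ℝ => mm z.1 z.2) := contDiff_mm.continuous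
  induction l with
  | nil => exact continuousOn_const
  | cons p l ih =>
    obtain ⟨i, b⟩ := p
    have hb : ∀ τ ∈ C, ∀ s, evM y (fun i m => k i (τ, m)) l 0 s = y := fun τ hτ s =>
      bdry y _ (fun i => hy i τ hτ) l 0 s (Or.inl rfl)
    cases b with
    | true =>
      have e1 : ∀ τ ∈ C, ∀ s, k i (τ, mm 1 s) = evM y (fun i m => k i (τ, m)) l 0 s := by
        intro τ hτ s
        rw [mm_ends' 1 s (Or.inr rfl), hy i τ hτ, hb τ hτ s]
      exact cont_cat (f := fun τ q s => k i (τ, mm q s))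
        (f' := fun τ => evM y (fun i m => k i (τ, m)) l) hC (cont_sph (hk i) hmm mm_S2') ih e1
    | false =>
      have e1 : ∀ τ ∈ C, ∀ s, k i (τ, mm (1 - 1) s) = evM y (fun i m => k i (τ, m)) l 0 s := by
        intro τ hτ s
        rw [mm_ends' (1 - 1) s (Or.inl (sub_self 1)), hy i τ hτ, hb τ hτ s]
      exact cont_cat (f := fun τ q s => k i (τ, mm (1 - q) s))
        (f' := fun τ => evM y (fun i m => k i (τ, m)) l) hC
        (cont_sph (m := fun q s => mm (1 - q) s) (hk i) (continuous_rev hmm)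
          fun _ _ => mm_S2' _ _) ih e1

theorem lip {M : Type} [PseudoMetricSpace M] {n : ℕ} (y : M) (g : Fin n → R3 → M)
    (l : List (Fin n × Bool)) (hg : ∀ i, ∃ L : ℝ≥0, LipschitzOnWith L (g i) S2)
    (hy : ∀ i, g i (1, 0) = y) :
    ∃ L : ℝ≥0, LipschitzOnWith L (fun z : ℝ × ℝ => evM y g l z.1 z.2) rect := by
  obtain ⟨K, hK⟩ := lip_mm
  induction l with
  | nil => exact ⟨0, LipschitzOnWith.of_dist_le_mul fun x _ z _ => by
      show dist y y ≤ _
      simp⟩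
  | cons p l ih =>
    obtain ⟨i, b⟩ := p
    obtain ⟨L', hL'⟩ := ih
    obtain ⟨L, hL⟩ := hg i
    have hb : ∀ s, evM y g l 0 s = y := fun s => bdry y g hy l 0 s (Or.inl rfl)
    have h1 : LipschitzOnWith (L * K) (fun z : ℝ × ℝ => g i (mm z.1 z.2)) rect :=
      hL.comp hK fun z _ => mm_S2' _ _
    cases b with
    | true =>
      have e1 : ∀ s, g i (mm 1 s) = evM y g l 0 s := by
        intro s
        rw [mm_ends' 1 s (Or.inr rfl), hy i, hb s]
      exact ⟨_, lip_cat (f := fun q s => g i (mm q s)) h1 hL' e1⟩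
    | false =>
      have e1 : ∀ s, g i (mm (1 - 1) s) = evM y g l 0 s := by
        intro s
        rw [mm_ends' (1 - 1) s (Or.inl (sub_self 1)), hy i, hb s]
      exact ⟨_, lip_cat (f := fun q s => g i (mm (1 - q) s))
        (lip_rev (f := fun q s => g i (mm q s)) h1) hL' e1⟩

end EVM

/-- **EVM.** Squares of words. -/
theorem m_EVM : StEVM :=
  ⟨fun _ _ _ Θ y g l q s => EVM.nat Θ y g l q s,
    fun _ _ y g l q s hg h => EVM.bdry y g hg l q s h,
    fun _ _ _ _ _ _ y k l hC hk hy => EVM.cont y k l hC hk hy,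
    fun _ _ _ y g l hg hy => EVM.lip y g l hg hy⟩

end Pool.Agent.Helper18.BI.R
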