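import Pool.Agent.Helper18.BI.R.M_RELS

/-!
# Project BI, stage 4 (R): the homomorphism from the relation theorem
-/

set_option autoImplicit false
set_option linter.unusedSectionVars false

open scoped Manifold ContDiff Topology ComplexConjugate unitInterval
open Set Filter Pool.Agent.Helper65.Barb Pool.Agent.Helper18.BI
open Pool.Agent.Helper70.BI (I4 IsW StEI StX2c)
open Pool.Agent.Helper70.BI.Fin2 (SP_sub_NB)
open Pool.Agent.Helper18.BI.H (IsW4)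
open Pool.Agent.Helper70.Fin (Emb coreSphere IsImplantation BoundsDisjointBalls IsCentral)
open Pool.Agent.Helper18.FinR (sqr Pi2 cls FreeClass SameFixed parallel UpTo)

namespace Pool.Agent.Helper18.BI.R

namespace FIN4

/-! ### calculus up to `W` in the 4-sphere -/

section
variable {W : S4 → S4} (hCI : StCI) (hW : IsW4 W)
include hCI

theorem c_iff {φ ψ : S4 → S4} : CIsot (𝓡 4) φ ψ ↔ Isot (𝓡 4) φ ψ := by
  obtain ⟨-, -, -, -, -, -, -, -, ciso, ccomp⟩ := hCI _ _ (𝓡 4) S4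
  exact ⟨ciso φ ψ, ccomp inferInstance φ ψ⟩

include hW

theorem WW : CIsot (𝓡 4) W W :=
  (c_iff hCI).2 (hW.2.2 (fun x => x) (fun x => x) contMDiff_id contMDiff_id (fun _ => rfl)
    fun _ => rfl)

theorem W2 : CIsot (𝓡 4) (fun x => W (W x)) (fun x => x) := (c_iff hCI).2 hW.2.1

theorem Wcomm {χ : S4 → S4} (h : CIsot (𝓡 4) χ χ) :
    CIsot (𝓡 4) (fun x => χ (W x)) (fun x => W (χ x)) := by
  obtain ⟨-, -, -, ct, cc, -, cex, -, -, -⟩ := hCI _ _ (𝓡 4) S4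
  obtain ⟨χ', h', i1, i2⟩ := cex χ h
  have hs : ∀ χ : S4 → S4, CIsot (𝓡 4) χ χ → ContMDiff (𝓡 4) (𝓡 4) ∞ χ := by
    rintro χ ⟨F, -, hF, -⟩
    have h1 : χ = fun x => F.f (0, x) := funext fun x => (hF x).symm
    rw [h1]
    exact F.smooth_f.comp (contMDiff_const.prodMk contMDiff_id)
  have h1 : CIsot (𝓡 4) (fun x => χ (W (χ' x))) W :=
    (c_iff hCI).2 (hW.2.2 χ χ' (hs χ h) (hs χ' h') i1 i2)
  have h2 := cc _ _ _ _ h1 h
  simp only [i2] at h2
  exact h2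

end

/-- equal up to `W`, with compactly supported isotopies -/
def RW4 (W φ ψ : S4 → S4) : Prop := CIsot (𝓡 4) φ ψ ∨ CIsot (𝓡 4) φ (fun x => W (ψ x))

theorem rw4_iff (hCI : StCI) {W φ ψ : S4 → S4} : RW4 W φ ψ ↔ UpTo W φ ψ :=
  or_congr (c_iff hCI) (c_iff hCI)

section
variable {W : S4 → S4} (hCI : StCI) (hW : IsW4 W)
include hCI hW

theorem r_symm {φ ψ : S4 → S4} (hψ : CIsot (𝓡 4) ψ ψ) (h : RW4 W φ ψ) : RW4 W ψ φ := by
  obtain ⟨-, cs, cself, ct, cc, -⟩ := hCI _ _ (𝓡 4) S4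
  rcases h with h | h
  · exact Or.inl (cs _ _ h)
  · right
    have e1 : CIsot (𝓡 4) (fun x => W (φ x)) (fun x => W (W (ψ x))) :=
      cc W W _ _ (WW hCI hW) h
    have e2 : CIsot (𝓡 4) (fun x => W (W (ψ x))) ψ :=
      cc (fun x => W (W x)) (fun x => x) ψ ψ (W2 hCI hW) hψ
    exact cs _ _ (ct _ _ _ e1 e2)

theorem r_trans {φ ψ χ : S4 → S4} (hχ : CIsot (𝓡 4) χ χ) (h : RW4 W φ ψ) (h' : RW4 W ψ χ) :
    RW4 W φ χ := by
  obtain ⟨-, cs, cself, ct, cc, -⟩ := hCI _ _ (𝓡 4) S4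
  rcases h with h | h
  · rcases h' with h' | h'
    · exact Or.inl (ct _ _ _ h h')
    · exact Or.inr (ct _ _ _ h h')
  · rcases h' with h' | h'
    · exact Or.inr (ct _ _ _ h (cc W W _ _ (WW hCI hW) h'))
    · left
      refine ct _ _ _ h (ct _ _ _ (cc W W _ _ (WW hCI hW) h') ?_)
      exact cc (fun x => W (W x)) (fun x => x) χ χ (W2 hCI hW) hχ

/-- cancellation: if `φ' ∘ ψ` is trivial up to `W` and `φ'` is inverse to `φ`, then `ψ` and `φ` are
equal up to `W` -/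
theorem r_cancel {φ φ' ψ : S4 → S4} (hφ : CIsot (𝓡 4) φ φ) (i1 : ∀ x, φ (φ' x) = x)
    (h : RW4 W (fun x => φ' (ψ x)) (fun x => x)) : RW4 W ψ φ := by
  obtain ⟨-, cs, cself, ct, cc, -⟩ := hCI _ _ (𝓡 4) S4
  rcases h with h | h
  · left
    have h1 := cc _ _ _ _ hφ h
    simp only [i1] at h1
    exact h1
  · right
    have h1 := cc _ _ _ _ hφ h
    simp only [i1] at h1
    exact ct _ _ _ h1 (Wcomm hCI hW hφ)

end

/-! ### families of germs -/

/-- A family of germs with the same fixed cuff as `B`, their implantation classes and the classes of their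
moved cuffs. -/
structure Fam (B : R4 → S4) (A : Set S4) (y₀ : {x : S4 // x ∉ A}) {ι : Type}
    (G : ι → R4 → S4) (φ : ι → Equiv.Perm S4) (z : ι → Pi2 A y₀) : Prop where
  emb : ∀ i, EmbOn (𝓡 4) (G i) SP
  near : ∀ i, ∃ U : Set R4, IsOpen U ∧ sph 1 ⊆ U ∧ EqOn B (G i) U
  thin : ∀ i, Thin (𝓡 4) (G i) (φ i)
  free : ∀ i, FreeClass A y₀ (G i) (z i)

theorem comp_word {ι M : Type} (φ : ι → Equiv.Perm M) (l : List (ι × Bool)) {n : ℕ}
    (e : Fin n → ι) (l' : List (Fin n × Bool)) (h : l'.map (fun p => (e p.1, p.2)) = l) (x : M) :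
    (FreeGroup.lift φ (FreeGroup.mk l.reverse)) x =
      evD (fun i => ⇑(φ (e i))) (fun i => ⇑(φ (e i))⁻¹) l' x := by
  subst h
  induction l' generalizing x with
  | nil => rfl
  | cons p l ih =>
    obtain ⟨i, b⟩ := p
    rw [List.map_cons, List.reverse_cons, ← FreeGroup.mul_mk, map_mul, Equiv.Perm.mul_apply]
    rcases b with _ | _
    · show _ = evD _ _ l ((φ (e i))⁻¹ x)
      rw [← ih]
      congr 1
    · show _ = evD _ _ l (φ (e i) x)
      rw [← ih]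
      congr 1

theorem prod_rev {G : Type} [Group G] (hc : ∀ a b : G, a * b = b * a) (L : List G) :
    L.reverse.prod = L.prod := by
  induction L with
  | nil => rfl
  | cons a L ih => rw [List.reverse_cons, List.prod_append, ih, List.prod_cons, List.prod_cons,
      List.prod_nil, mul_one, hc]

theorem pi2_comm {A : Set S4} {y₀ : {x : S4 // x ∉ A}} (a b : Pi2 A y₀) : a * b = b * a :=
  @mul_comm _ (HomotopyGroup.commGroup (N := Fin 2)).toCommMagma a b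

theorem rel_free {W : S4 → S4} (hRel : RelS W) {B : R4 → S4} {A : Set S4}
    {y₀ : {x : S4 // x ∉ A}} (hB : EmbOn (𝓡 4) B SP) (hA : A = B '' sph 1)
    (hy : (y₀ : S4) = B (1 / 2, (1 / 2, 0))) {ι : Type} (G : ι → R4 → S4)
    (φ : ι → Equiv.Perm S4) (z : ι → Pi2 A y₀) (hF : Fam B A y₀ G φ z) (w : FreeGroup ι)
    (hw : FreeGroup.lift z w = 1) : UpTo W (⇑(FreeGroup.lift φ w)) (fun x => x) := by
  classical
  choose U hU hsU hE using hF.near
  let l : List (ι × Bool) := w.toWord.reverse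
  have hlw : FreeGroup.mk l.reverse = w := by
    show FreeGroup.mk w.toWord.reverse.reverse = w
    rw [List.reverse_reverse, FreeGroup.mk_toWord]
  let e : Fin l.length → ι := fun k => (l.get k).1
  let l' : List (Fin l.length × Bool) := List.ofFn fun k => (k, (l.get k).2)
  have hl' : l'.map (fun p => (e p.1, p.2)) = l := by
    show (List.ofFn fun k => (k, (l.get k).2)).map (fun p => (e p.1, p.2)) = l
    rw [List.map_ofFn]
    exact List.ofFn_get l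
  have hmap : (l'.map fun p => if p.2 then z (e p.1) else (z (e p.1))⁻¹) =
      l.map fun p => if p.2 then z p.1 else (z p.1)⁻¹ := by
    conv_rhs => rw [← hl']
    rw [List.map_map]
    rfl
  have hprod : (l'.map fun p => if p.2 then z (e p.1) else (z (e p.1))⁻¹).prod = 1 := by
    rw [hmap]
    have h1 : FreeGroup.lift z (FreeGroup.mk w.toWord) = 1 := by rw [FreeGroup.mk_toWord, hw]
    rw [FreeGroup.lift_mk] at h1
    rw [show l = w.toWord.reverse from rfl, List.map_reverse, prod_rev pi2_comm, ← h1]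
    congr 1
    apply List.map_congr_left
    rintro ⟨i, b⟩ _
    rcases b with _ | _ <;> rfl
  have h := hRel l.length B (fun k => G (e k)) (fun k => ⇑(φ (e k))) (fun k => ⇑(φ (e k))⁻¹)
    (⋂ k, U (e k)) A y₀ (fun k => z (e k)) l' hB (fun k => hF.emb _)
    (isOpen_iInter_of_finite fun k => hU _) (subset_iInter fun k => hsU _)
    (fun k p hp => hE (e k) (mem_iInter.1 hp k)) (fun k => hF.thin _)
    (fun k x => (φ (e k)).apply_symm_apply x) (fun k x => (φ (e k)).symm_apply_apply x) hA hy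
    (fun k => hF.free _) hprod
  have h2 : (⇑(FreeGroup.lift φ w) : S4 → S4) =
      evD (fun i => ⇑(φ (e i))) (fun i => ⇑(φ (e i))⁻¹) l' := by
    funext x
    rw [← comp_word φ l e l' hl' x, hlw]
  rw [h2]
  exact h

theorem free_self (hCI : StCI) {ι : Type} (φ : ι → Equiv.Perm S4)
    (h : ∀ i, CIsot (𝓡 4) (⇑(φ i)) (φ i)) (w : FreeGroup ι) :
    CIsot (𝓡 4) (⇑(FreeGroup.lift φ w)) (FreeGroup.lift φ w) := by
  obtain ⟨cid, -, -, -, cc, cinv, -⟩ := hCI _ _ (𝓡 4) S4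
  induction w using FreeGroup.induction_on with
  | C1 => exact cid
  | of i =>
    rw [FreeGroup.lift_apply_of]
    exact h i
  | inv_of i _ =>
    rw [map_inv, FreeGroup.lift_apply_of]
    exact cinv _ _ _ _ (h i) (φ i).apply_symm_apply (φ i).apply_symm_apply
  | mul a b ha hb =>
    rw [map_mul]
    exact cc (⇑(FreeGroup.lift φ a)) (⇑(FreeGroup.lift φ a)) (⇑(FreeGroup.lift φ b))
      (⇑(FreeGroup.lift φ b)) ha hb

/-- the classes of moved cuffs of germs with the same fixed cuff -/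
def RepG (B : R4 → S4) (A : Set S4) (y₀ : {x : S4 // x ∉ A}) : Set (Pi2 A y₀) :=
  {z | ∃ (G : R4 → S4) (φ : Equiv.Perm S4), EmbOn (𝓡 4) G SP ∧
    (∃ U : Set R4, IsOpen U ∧ sph 1 ⊆ U ∧ EqOn B G U) ∧ Thin (𝓡 4) G φ ∧ FreeClass A y₀ G z}

/-- existence of the homomorphism, for germs -/
theorem exists_hom (hT2 : StT2) (hCI : StCI) {W : S4 → S4} (hW : IsW4 W) (hRel : RelS W)
    {B : R4 → S4} {A : Set S4} {y₀ : {x : S4 // x ∉ A}} (hB : EmbOn (𝓡 4) B SP)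
    (hA : A = B '' sph 1) (hy : (y₀ : S4) = B (1 / 2, (1 / 2, 0))) :
    ∃ Φ : Pi2 A y₀ → S4 → S4, (∀ z, CIsot (𝓡 4) (Φ z) (Φ z)) ∧
      (∀ z ∈ Subgroup.closure (RepG B A y₀), ∀ z' ∈ Subgroup.closure (RepG B A y₀),
        RW4 W (Φ (z * z')) (fun x => Φ z (Φ z' x))) ∧
      ∀ (G : R4 → S4) (φ : S4 → S4) (z : Pi2 A y₀), EmbOn (𝓡 4) G SP →
        (∃ U : Set R4, IsOpen U ∧ sph 1 ⊆ U ∧ EqOn B G U) → Thin (𝓡 4) G φ →
        FreeClass A y₀ G z → RW4 W φ (Φ z) := by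
  classical
  obtain ⟨cid, cs, cself, ct, cc, cinv, cex, cconj, ciso, -⟩ := hCI _ _ (𝓡 4) S4
  have tself := (hT2 _ _ (𝓡 4) S4).2.2.2.2.2.2
  choose G φ hG1 hG2 hG3 hG4 using fun z : {z // z ∈ RepG B A y₀} => z.2
  have hφs : ∀ i, CIsot (𝓡 4) (⇑(φ i)) (φ i) := fun i => tself _ _ (hG3 i)
  have hrange : ∀ z ∈ Subgroup.closure (RepG B A y₀),
      ∃ w : FreeGroup {z // z ∈ RepG B A y₀}, FreeGroup.lift (fun i => i.1) w = z := by
    intro z hz
    have h1 : (FreeGroup.lift (fun i : {z // z ∈ RepG B A y₀} => i.1)).range =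
        Subgroup.closure (RepG B A y₀) := by
      rw [FreeGroup.range_lift_eq_closure, Subtype.range_coe]
    rw [← h1] at hz
    exact hz
  let Φ : Pi2 A y₀ → S4 → S4 := fun z =>
    if h : ∃ w : FreeGroup {z // z ∈ RepG B A y₀}, FreeGroup.lift (fun i => i.1) w = z then
      FreeGroup.lift φ h.choose else fun x => x
  have hΦ : ∀ z ∈ Subgroup.closure (RepG B A y₀), ∃ w : FreeGroup {z // z ∈ RepG B A y₀},
      FreeGroup.lift (fun i => i.1) w = z ∧ Φ z = FreeGroup.lift φ w := by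
    intro z hz
    have h := hrange z hz
    exact ⟨h.choose, h.choose_spec, dif_pos h⟩
  have hΦs : ∀ z, CIsot (𝓡 4) (Φ z) (Φ z) := by
    intro z
    by_cases h : ∃ w : FreeGroup {z // z ∈ RepG B A y₀}, FreeGroup.lift (fun i => i.1) w = z
    · have e : Φ z = FreeGroup.lift φ h.choose := dif_pos h
      rw [e]
      exact free_self hCI φ hφs _
    · have e : Φ z = fun x => x := dif_neg h
      rw [e]
      exact cid
  refine ⟨Φ, hΦs, ?_, ?_⟩
  · intro z hz z' hz'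
    obtain ⟨w₁, h1, e1⟩ := hΦ z hz
    obtain ⟨w₂, h2, e2⟩ := hΦ z' hz'
    obtain ⟨w₃, h3, e3⟩ := hΦ (z * z') (mul_mem hz hz')
    have h := rel_free hRel hB hA hy G φ (fun i => i.1) ⟨hG1, hG2, hG3, hG4⟩ (w₃⁻¹ * (w₁ * w₂))
      (by rw [map_mul, map_mul, map_inv, h1, h2, h3, inv_mul_cancel])
    rw [← rw4_iff hCI, map_mul, map_mul, map_inv] at h
    rw [e1, e2, e3]
    refine r_symm hCI hW (free_self hCI φ hφs w₃) ?_
    exact r_cancel hCI hW (φ := ⇑(FreeGroup.lift φ w₃)) (φ' := ⇑(FreeGroup.lift φ w₃)⁻¹)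
      (free_self hCI φ hφs w₃) (fun x => (FreeGroup.lift φ w₃).apply_symm_apply x) h
  · intro G' φ₀ z hG' hU' hT' hfr
    have s0 := tself _ _ hT'
    obtain ⟨φ₀', -, i1, i2⟩ := cex φ₀ s0
    let P : Equiv.Perm S4 := ⟨φ₀, φ₀', i2, i1⟩
    have hz : z ∈ RepG B A y₀ := ⟨G', P, hG', hU', hT', hfr⟩
    obtain ⟨w, h1, e1⟩ := hΦ z (Subgroup.subset_closure hz)
    let G₂ : Option {z // z ∈ RepG B A y₀} → R4 → S4 := fun o => o.elim G' G
    let φ₂ : Option {z // z ∈ RepG B A y₀} → Equiv.Perm S4 := fun o => o.elim P φ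
    let z₂ : Option {z // z ∈ RepG B A y₀} → Pi2 A y₀ := fun o => o.elim z (fun i => i.1)
    have hF2 : Fam B A y₀ G₂ φ₂ z₂ := by
      refine ⟨?_, ?_, ?_, ?_⟩
      · rintro (_ | i)
        · exact hG'
        · exact hG1 i
      · rintro (_ | i)
        · exact hU'
        · exact hG2 i
      · rintro (_ | i)
        · exact hT'
        · exact hG3 i
      · rintro (_ | i)
        · exact hfr
        · exact hG4 i
    have hm1 : (FreeGroup.lift z₂).comp (FreeGroup.map some) =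
        FreeGroup.lift (fun i : {z // z ∈ RepG B A y₀} => i.1) := by
      ext i
      simp [z₂]
    have hm2 : (FreeGroup.lift φ₂).comp (FreeGroup.map some) = FreeGroup.lift φ := by
      ext i
      simp [φ₂]
    have hm1' := DFunLike.congr_fun hm1 w
    have hm2' := DFunLike.congr_fun hm2 w
    rw [MonoidHom.comp_apply] at hm1' hm2'
    have h := rel_free hRel hB hA hy G₂ φ₂ z₂ hF2 ((FreeGroup.of none)⁻¹ * FreeGroup.map some w)
      (by
        rw [map_mul, map_inv, hm1', h1, FreeGroup.lift_apply_of]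
        exact inv_mul_cancel z)
    rw [← rw4_iff hCI, map_mul, map_inv, hm2', FreeGroup.lift_apply_of] at h
    rw [e1]
    have h3 : RW4 W (⇑(FreeGroup.lift φ w)) φ₀ := r_cancel hCI hW (φ := φ₀) (φ' := φ₀') s0 i1 h
    exact r_symm hCI hW s0 h3

/-- a free homotopy off `A` does not change the classes -/
theorem free_trans {A : Set S4} {y₀ : {x : S4 // x ∉ A}} {k k' : R4 → S4} {z : Pi2 A y₀}
    (h : FreeClass A y₀ k z) (h' : ℝ × R4 → S4)
    (hc : ContinuousOn h' (Icc (0 : ℝ) 1 ×ˢ coreSphere 0))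
    (h0 : ∀ p ∈ coreSphere 0, h' (0, p) = k p) (h1 : ∀ p ∈ coreSphere 0, h' (1, p) = k' p)
    (hoff : ∀ u ∈ Icc (0 : ℝ) 1, ∀ p ∈ coreSphere 0, h' (u, p) ∉ A) : FreeClass A y₀ k' z := by
  obtain ⟨f, g, hf, gc, g0, g1, goff⟩ := h
  have ka : ∀ u ∈ Icc (0 : ℝ) (1 / 2), ∀ p ∈ coreSphere 0,
      (if u ≤ 1 / 2 then g (2 * u, p) else h' (2 * u - 1, p)) = g (2 * u, p) :=
    fun u hu p _ => if_pos hu.2
  have kb : ∀ u ∈ Icc (1 / 2 : ℝ) 1, ∀ p ∈ coreSphere 0,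
      (if u ≤ 1 / 2 then g (2 * u, p) else h' (2 * u - 1, p)) = h' (2 * u - 1, p) := by
    intro u hu p hp
    by_cases h2 : u ≤ 1 / 2
    · have h3 : u = 1 / 2 := le_antisymm h2 hu.1
      subst h3
      rw [if_pos le_rfl]
      have e1 : (2 * (1 / 2) : ℝ) = 1 := by norm_num
      rw [e1, sub_self, h0 p hp, g1 p hp]
    · exact if_neg h2
  have hcl : IsClosed (coreSphere 0) := by
    rw [RELS.coreSphere_eq]
    exact (RELS.isCompact_sph 0).isClosed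
  refine ⟨f, fun x => if x.1 ≤ 1 / 2 then g (2 * x.1, x.2) else h' (2 * x.1 - 1, x.2), hf, ?_, ?_,
    ?_, ?_⟩
  · have e : Icc (0 : ℝ) 1 ×ˢ coreSphere 0 = (Icc 0 (1 / 2) ×ˢ coreSphere 0) ∪
        (Icc (1 / 2) 1 ×ˢ coreSphere 0) := by
      rw [← Set.union_prod, Icc_union_Icc_eq_Icc (by norm_num) (by norm_num)]
    rw [e]
    refine ContinuousOn.union_of_isClosed ?_ ?_ (isClosed_Icc.prod hcl) (isClosed_Icc.prod hcl)
    · refine ContinuousOn.congr (f := fun x : ℝ × R4 => g (2 * x.1, x.2)) ?_ ?_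
      · refine gc.comp (Continuous.continuousOn (by fun_prop)) ?_
        rintro ⟨u, p⟩ hz
        have hz1 : 0 ≤ u ∧ u ≤ 1 / 2 := hz.1
        exact ⟨⟨by show (0 : ℝ) ≤ 2 * u; linarith, by show 2 * u ≤ (1 : ℝ); linarith⟩, hz.2⟩
      · rintro ⟨u, p⟩ hz
        exact ka u hz.1 p hz.2
    · refine ContinuousOn.congr (f := fun x : ℝ × R4 => h' (2 * x.1 - 1, x.2)) ?_ ?_
      · refine hc.comp (Continuous.continuousOn (by fun_prop)) ?_
        rintro ⟨u, p⟩ hz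
        have hz1 : 1 / 2 ≤ u ∧ u ≤ 1 := hz.1
        exact ⟨⟨by show (0 : ℝ) ≤ 2 * u - 1; linarith, by show 2 * u - 1 ≤ (1 : ℝ); linarith⟩,
          hz.2⟩
      · rintro ⟨u, p⟩ hz
        exact kb u hz.1 p hz.2
  · intro t
    show (if (0 : ℝ) ≤ 1 / 2 then g (2 * 0, (1 / 2, (1 / 5 : ℝ) • sqr t)) else _) = _
    rw [if_pos (by norm_num), mul_zero, g0]
  · intro p hp
    show (if (1 : ℝ) ≤ 1 / 2 then _ else h' (2 * 1 - 1, p)) = _
    have e1 : (2 * 1 - 1 : ℝ) = 1 := by norm_num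
    rw [if_neg (by norm_num), e1, h1 p hp]
  · intro u hu p hp
    show (if u ≤ 1 / 2 then g (2 * u, p) else h' (2 * u - 1, p)) ∉ A
    rcases le_total u (1 / 2) with h2 | h2
    · rw [ka u ⟨hu.1, h2⟩ p hp]
      exact goff _ ⟨by linarith [hu.1], by linarith⟩ p hp
    · rw [kb u ⟨h2, hu.2⟩ p hp]
      exact hoff _ ⟨by linarith, by linarith [hu.2]⟩ p hp

end FIN4

/-- The parallel copy of the fixed cuff, joined to it by a suitable bar, has trivial class up to `W`. -/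
def StPARS (W : S4 → S4) : Prop :=
  ∀ B : Emb, NB ⊆ B.source → ∃ (G : R4 → S4) (φ : S4 → S4) (h : ℝ × R4 → S4),
    EmbOn (𝓡 4) G SP ∧ (∃ U : Set R4, IsOpen U ∧ sph 1 ⊆ U ∧ EqOn B G U) ∧ Thin (𝓡 4) G φ ∧
    (CIsot (𝓡 4) φ (fun x => x) ∨ CIsot (𝓡 4) φ W) ∧
    ContinuousOn h (Icc (0 : ℝ) 1 ×ˢ sph 0) ∧ (∀ p ∈ sph 0, h (0, p) = parallel B p) ∧
    (∀ p ∈ sph 0, h (1, p) = G p) ∧ ∀ u ∈ Icc (0 : ℝ) 1, ∀ p ∈ sph 0, h (u, p) ∉ B '' sph 1

/-- The classes of the moved cuffs of the barbells with the same fixed cuff as `B`, and the class of the parallel copy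
of the fixed cuff. -/
def MovedClasses (B : Emb) (y₀ : {x : S4 // x ∉ B '' coreSphere 1}) :
    Set (Pi2 (B '' coreSphere 1) y₀) :=
  {z | (∃ B' : Emb, NB ⊆ B'.source ∧ SameFixed B B' ∧ FreeClass (B '' coreSphere 1) y₀ B' z) ∨
    FreeClass (B '' coreSphere 1) y₀ (parallel B) z}

/-- **THE MAIN THEOREM OF STAGE 4.** -/
def StFinal4 : Prop :=
  ∃ (W : S4 → S4) (B₀ : Emb), IsImplantation B₀ W ∧ BoundsDisjointBalls B₀ ∧
    Isot (𝓡 4) (fun x => W (W x)) (fun x => x) ∧ IsCentral W ∧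
    ∀ (B : Emb) (y₀ : {x : S4 // x ∉ B '' coreSphere 1}), NB ⊆ B.source →
      (y₀ : S4) = B (1 / 2, (1 / 2, 0)) →
      ∃ Φ : Pi2 (B '' coreSphere 1) y₀ → S4 → S4,
        (∀ z ∈ Subgroup.closure (MovedClasses B y₀), ∀ z' ∈ Subgroup.closure (MovedClasses B y₀),
          UpTo W (Φ (z * z')) (fun x => Φ z (Φ z' x))) ∧
        (∀ (B' : Emb) (φ : S4 → S4) (z : Pi2 (B '' coreSphere 1) y₀), IsImplantation B' φ →
          SameFixed B B' → FreeClass (B '' coreSphere 1) y₀ B' z → UpTo W φ (Φ z)) ∧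
        ∀ z : Pi2 (B '' coreSphere 1) y₀, FreeClass (B '' coreSphere 1) y₀ (parallel B) z →
          UpTo W (Φ z) (fun x => x)

open FIN4 in
theorem m_FIN4 (hPARS : ∀ W W', IsW W → IsPush W W' → StPARS W') (hRelS : StRelS) (hT4 : StT4)
    (hT2 : StT2) (hCI : StCI) {W₀ : R4 → R4} (hW₀ : IsW W₀) : StFinal4 := by
  obtain ⟨W, hW, hpush, hRel⟩ := hRelS W₀ hW₀
  have hPAR := hPARS W₀ W hW₀ hpush
  obtain ⟨B₀, δ₀, k1, k2, k3, k4⟩ := hW.1
  have tself := (hT2 _ _ (𝓡 4) S4).2.2.2.2.2.2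
  obtain ⟨cid, cs, cself, ct, cc, cinv, cex, cconj, ciso, -⟩ := hCI _ _ (𝓡 4) S4
  have hflat : ∀ c, Pool.Agent.Helper70.Fin.flatBall c = flat c := fun c => by
    have e : (1 / 5 : ℝ) ^ 2 = 1 / 25 := by norm_num
    rw [Pool.Agent.Helper70.Fin.flatBall, flat, e]
  refine ⟨W, B₀, ⟨k1, barMap, isBarbellMap_barMap, k4⟩, ⟨δ₀, ?_, ?_⟩, hW.2.1, hW.2.2, ?_⟩
  · rw [hflat, hflat]
    exact k2
  · rw [RELS.coreSphere_eq, RELS.coreSphere_eq]
    exact k3
  intro B y₀ hNB hy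
  have hB : EmbOn (𝓡 4) B SP := (hT4 B barMap hNB isBarbellMap_barMap).1
  have hA : B '' coreSphere 1 = B '' sph 1 := by rw [RELS.coreSphere_eq]
  obtain ⟨Φ, hs, hmul, hrep⟩ := exists_hom hT2 hCI hW hRel hB hA hy
  have hsame : ∀ B' : Emb, SameFixed B B' → ∃ U : Set R4, IsOpen U ∧ sph 1 ⊆ U ∧ EqOn B B' U := by
    rintro B' ⟨U, h1, h2, h3⟩
    rw [RELS.coreSphere_eq] at h2
    exact ⟨U, h1, h2, h3⟩
  have hperm : ∀ (G : R4 → S4) (φ : S4 → S4), Thin (𝓡 4) G φ → ∃ P : Equiv.Perm S4, φ = P := by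
    intro G φ hT
    obtain ⟨φ', -, i1, i2⟩ := cex φ (tself _ _ hT)
    exact ⟨⟨φ, φ', i2, i1⟩, rfl⟩
  -- the parallel copy
  have hpar : ∀ z : Pi2 (B '' coreSphere 1) y₀,
      FreeClass (B '' coreSphere 1) y₀ (parallel B) z → ∃ (G : R4 → S4) (φ : S4 → S4),
        EmbOn (𝓡 4) G SP ∧ (∃ U : Set R4, IsOpen U ∧ sph 1 ⊆ U ∧ EqOn B G U) ∧
        Thin (𝓡 4) G φ ∧ FreeClass (B '' coreSphere 1) y₀ G z ∧
        (CIsot (𝓡 4) φ (fun x => x) ∨ CIsot (𝓡 4) φ W) := by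
    intro z hz
    obtain ⟨G, φ, h, g1, g2, g3, g4, g5, g6, g7, g8⟩ := hPAR B hNB
    refine ⟨G, φ, g1, g2, g3, ?_, g4⟩
    refine free_trans hz h ?_ ?_ ?_ ?_
    · rw [RELS.coreSphere_eq]
      exact g5
    · rw [RELS.coreSphere_eq]
      exact g6
    · rw [RELS.coreSphere_eq]
      exact g7
    · rw [RELS.coreSphere_eq, RELS.coreSphere_eq]
      exact g8
  have hsub : MovedClasses B y₀ ⊆ RepG B (B '' coreSphere 1) y₀ := by
    rintro z (⟨B', hB', hsf, hfr⟩ | hz)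
    · obtain ⟨e1, e2⟩ := hT4 B' barMap hB' isBarbellMap_barMap
      obtain ⟨P, hP⟩ := hperm _ _ e2
      rw [hP] at e2
      exact ⟨B', P, e1, hsame B' hsf, e2, hfr⟩
    · obtain ⟨G, φ, g1, g2, g3, g4, -⟩ := hpar z hz
      obtain ⟨P, hP⟩ := hperm _ _ g3
      rw [hP] at g3
      exact ⟨G, P, g1, g2, g3, g4⟩
  have hcl := Subgroup.closure_mono hsub
  refine ⟨Φ, fun z hz z' hz' => (rw4_iff hCI).1 (hmul z (hcl hz) z' (hcl hz')), ?_, ?_⟩
  · rintro B' φ z ⟨hB', β, hβ, rfl⟩ hsf hfr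
    obtain ⟨e1, e2⟩ := hT4 B' β hB' hβ
    exact (rw4_iff hCI).1 (hrep B' _ z e1 (hsame B' hsf) e2 hfr)
  · intro z hz
    obtain ⟨G, φ, g1, g2, g3, g4, g5⟩ := hpar z hz
    have h1 : RW4 W φ (Φ z) := hrep G φ z g1 g2 g3 g4
    have h2 : RW4 W φ (fun x => x) := g5
    exact (rw4_iff hCI).1 (r_trans hCI hW cid (r_symm hCI hW (hs z) h1) h2)

/-- The parallel copy in the 4-sphere. -/
theorem m_PARS (hPAR4 : StPAR4) (hEI : StEI) (hX2c : StX2c) (hX1 : StX1) (hX3 : StX3)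
    (hT4 : StT4) (hS4 : StS4) (hCI : StCI) :
    ∀ W W', IsW W → IsPush W W' → StPARS W' := by
  intro W W' hW hpush B hNB
  have hB : EmbOn (𝓡 4) B SP := (hT4 B barMap hNB isBarbellMap_barMap).1
  obtain ⟨cid, cs, cself, ct, cc, cinv, cex, cconj, ciso, -⟩ := hCI _ _ (𝓡 4) S4
  obtain ⟨s1, s2⟩ := RELS.spine_smallG hEI hS4 B hB
  obtain ⟨c, hc, hsub⟩ := hX2c (B '' SP) s1 s2
  obtain ⟨hF, U1, hU1o, hU1s, hU1⟩ := hX3 _ _ (𝓡 4) S4 c B SP hc hB hsub
  obtain ⟨z1, z2, z3, z4, -⟩ := hX1 _ _ (𝓡 4) S4 c hc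
  -- small shifts stay in `U1`
  obtain ⟨r, hr, hrU⟩ : ∃ r > 0, ∀ η ∈ Ioo (0 : ℝ) r, ∀ p ∈ sph 1, (p.1 + η, p.2) ∈ U1 := by
    obtain ⟨r, hr, h1⟩ := (RELS.isCompact_sph 1).exists_thickening_subset_open hU1o
      (RELS.sph1_sub.trans hU1s)
    refine ⟨r, hr, fun η hη p hp => h1 ?_⟩
    rw [Metric.mem_thickening_iff]
    refine ⟨p, hp, ?_⟩
    rw [Prod.dist_eq, dist_self, max_lt_iff]
    refine ⟨?_, hr⟩
    show dist (p.1 + η) p.1 < r
    rw [Real.dist_eq, add_sub_cancel_left, abs_of_pos hη.1]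
    exact hη.2
  obtain ⟨η, hη, F', φ', U, hF', hU, hsU, hE, hT, hor, hcuff⟩ :=
    hPAR4 (fun p => Function.invFun c (B p)) W hW hF (min r (1 / 4)) (lt_min hr (by norm_num))
  have hη1 : η ∈ Ioo (0 : ℝ) r := ⟨hη.1, hη.2.trans_le (min_le_left _ _)⟩
  have hη2 : η < 1 / 4 := hη.2.trans_le (min_le_right _ _)
  have hsh : ∀ p ∈ sph 0, ((p.1, (p.2.1 + 1, p.2.2)) : R4) ∈ sph 1 := by
    rintro p ⟨h1, h2⟩
    refine ⟨h1, ?_⟩
    have h3 : rsq 1 (p.1, (p.2.1 + 1, p.2.2)) = rsq 0 p := by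
      simp [rsq]
    rw [h3, h2]
  have hnb : ∀ p ∈ sph 0, ∀ v ∈ Icc (0 : ℝ) 1, ((p.1 + v, (p.2.1 + 1, p.2.2)) : R4) ∈ NB := by
    rintro p ⟨h1, h2⟩ v hv
    have h3 : rsq 1 (p.1 + v, (p.2.1 + 1, p.2.2)) = rsq 0 p := by simp [rsq]
    have h4 : rsq 0 p = p.2.1 ^ 2 + Complex.normSq p.2.2 := by
      simp [rsq, nsq, Complex.normSq_apply]
      ring
    have h5 : rsq 0 (p.1 + v, (p.2.1 + 1, p.2.2)) = (p.2.1 + 1) ^ 2 + Complex.normSq p.2.2 := by
      simp [rsq, nsq, Complex.normSq_apply]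
      ring
    have h6 : p.2.1 ^ 2 ≤ 1 / 25 := by
      have := Complex.normSq_nonneg p.2.2
      rw [h2] at h4
      linarith
    have h7 : -1 / 5 ≤ p.2.1 := by nlinarith
    have h8 : p.2.1 ≤ 1 / 5 := by nlinarith
    refine ⟨⟨?_, ?_, ?_⟩, ?_, ?_⟩
    · show -1 ≤ p.1 + v
      rw [h1]
      linarith [hv.1]
    · show p.1 + v ≤ 2
      rw [h1]
      linarith [hv.2]
    · rw [h5]
      have : (p.2.1 + 1) ^ 2 + Complex.normSq p.2.2 = 2 * p.2.1 + 1 + 1 / 25 := by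
        rw [h2] at h4
        linarith
      rw [this]
      norm_num
      linarith
    · rw [h5]
      have : (p.2.1 + 1) ^ 2 + Complex.normSq p.2.2 = 2 * p.2.1 + 1 + 1 / 25 := by
        rw [h2] at h4
        linarith
      rw [this]
      norm_num
      linarith
    · rw [h3, h2]
      norm_num
  refine ⟨fun p => c (F' p), imp c univ φ',
    fun x => B (x.2.1 + (1 / 2 + x.1 * (η - 1 / 2)), (x.2.2.1 + 1, x.2.2.2)), z2 _ _ hF',
    ⟨U ∩ U1, hU.inter hU1o, subset_inter hsU (RELS.sph1_sub.trans hU1s), fun p hp => ?_⟩,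
    z3 _ _ hT, ?_, ?_, ?_, ?_, ?_⟩
  · have e1 : Function.invFun c (B p) = F' p := hE hp.1
    show B p = c (F' p)
    rw [← e1, hU1 p hp.2]
  · rcases hor with e | e
    · left
      have h2 := z1 _ _ e
      rw [Pool.Agent.Helper70.BI.W4.imp_id] at h2
      exact h2
    · exact Or.inr (ct _ _ _ (z1 _ _ e) (hpush c hc))
  · have hcont : ContinuousOn B B.source := B.contMDiffOn_toFun.continuousOn
    refine hcont.comp (Continuous.continuousOn (by fun_prop)) ?_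
    rintro ⟨u, p⟩ hz
    have hu : 0 ≤ u ∧ u ≤ 1 := hz.1
    refine hNB (hnb p hz.2 (1 / 2 + u * (η - 1 / 2)) ⟨?_, ?_⟩)
    · nlinarith [hη.1]
    · nlinarith [hη.1]
  · intro p hp
    show B (p.1 + (1 / 2 + 0 * (η - 1 / 2)), (p.2.1 + 1, p.2.2)) = parallel B p
    rw [zero_mul, add_zero]
    rfl
  · intro p hp
    show B (p.1 + (1 / 2 + 1 * (η - 1 / 2)), (p.2.1 + 1, p.2.2)) = c (F' p)
    rw [hcuff p hp]
    have e1 : (1 / 2 + 1 * (η - 1 / 2) : ℝ) = η := by ring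
    have e2 := hU1 (p.1 + η, (p.2.1 + 1, p.2.2)) (hrU η hη1 _ (hsh p hp))
    rw [e1, e2]
  · rintro u hu p hp ⟨q, hq, he⟩
    have hv : 0 < 1 / 2 + u * (η - 1 / 2) := by nlinarith [hη.1, hu.1, hu.2]
    have hv1 : 1 / 2 + u * (η - 1 / 2) ≤ 1 := by nlinarith [hη.1, hu.1, hu.2]
    have h1 := B.toPartialEquiv.injOn (hNB (SP_sub_NB (RELS.sph1_sub hq)))
      (hNB (hnb p hp (1 / 2 + u * (η - 1 / 2)) ⟨hv.le, hv1⟩)) he
    have h2 : q.1 = p.1 + (1 / 2 + u * (η - 1 / 2)) := by rw [h1]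
    have h3 : q.1 = 1 / 2 := hq.1
    have h4 : p.1 = 1 / 2 := hp.1
    rw [h3, h4] at h2
    linarith

end Pool.Agent.Helper18.BI.R
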