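import Pool.Agent.Helper18.BI.R.StR
import Pool.Agent.Helper18.BI.H.EndR4

/-!
# Project BI, stage 4 (R): module HCL, the calculus of classes of squares
-/

set_option autoImplicit false

open scoped Manifold ContDiff Topology ComplexConjugate
open Set Pool.Agent.Helper65.Barb Pool.Agent.Helper18.BI
open Pool.Agent.Helper70.BI (I4 IsW MW)
open Pool.Agent.Helper27.H (ArcD StArcH)
open Pool.Agent.Helper18.BI.H

namespace Pool.Agent.Helper18.BI.R

namespace HCL

/-! ### homotopies of squares -/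

private theorem isClosed_box (D : ArcD) :
    IsClosed (Icc (0 : ℝ) 1 ×ˢ (Icc (0 : ℝ) 1 ×ˢ Icc D.m₀ D.m₁)) :=
  isClosed_Icc.prod (isClosed_Icc.prod isClosed_Icc)

/-- gluing two functions, continuous on the box, along a hyperplane -/
private theorem glue_cont {B : Set (ℝ × ℝ × ℝ)} {f g : ℝ × ℝ × ℝ → R4} {p : ℝ × ℝ × ℝ → ℝ}
    (hp : Continuous p) (hf : ContinuousOn f (B ∩ {z | p z ≤ 1 / 2}))
    (hg : ContinuousOn g (B ∩ {z | 1 / 2 ≤ p z}))
    (he : ∀ z ∈ B, p z = 1 / 2 → f z = g z) :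
    ContinuousOn (fun z => open Classical in if p z ≤ 1 / 2 then f z else g z) B := by
  classical
  intro z hz
  rcases lt_trichotomy (p z) (1 / 2) with h | h | h
  · have hn : ∀ᶠ w in 𝓝 z, p w < 1 / 2 := hp.continuousAt.eventually (gt_mem_nhds h)
    have hc : ContinuousWithinAt f B z := by
      refine (hf z ⟨hz, h.le⟩).mono_of_mem_nhdsWithin ?_
      filter_upwards [self_mem_nhdsWithin, mem_nhdsWithin_of_mem_nhds hn] with w hw1 hw2
      exact ⟨hw1, hw2.le⟩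
    refine hc.congr_of_eventuallyEq ?_ (if_pos h.le)
    filter_upwards [mem_nhdsWithin_of_mem_nhds hn] with w hw
    exact if_pos hw.le
  · have h1 : ContinuousWithinAt (fun z => open Classical in if p z ≤ 1 / 2 then f z else g z)
        (B ∩ {z | p z ≤ 1 / 2}) z :=
      (hf z ⟨hz, h.le⟩).congr (fun w hw => if_pos hw.2) (if_pos h.le)
    have h2 : ContinuousWithinAt (fun z => open Classical in if p z ≤ 1 / 2 then f z else g z)
        (B ∩ {z | 1 / 2 ≤ p z}) z := by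
      refine (hg z ⟨hz, h.ge⟩).congr (fun w hw => ?_) ?_
      · by_cases h' : p w ≤ 1 / 2
        · have : p w = 1 / 2 := le_antisymm h' hw.2
          simp only [h', if_true]
          exact he w hw.1 this
        · simp only [h', if_false]
      · simp only [h, le_refl, if_true]
        exact he z hz h
    refine (h1.union h2).mono fun w hw => ?_
    rcases le_total (p w) (1 / 2) with h' | h'
    · exact Or.inl ⟨hw, h'⟩
    · exact Or.inr ⟨hw, h'⟩
  · have hn : ∀ᶠ w in 𝓝 z, 1 / 2 < p w := hp.continuousAt.eventually (lt_mem_nhds h)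
    have hc : ContinuousWithinAt g B z := by
      refine (hg z ⟨hz, h.le⟩).mono_of_mem_nhdsWithin ?_
      filter_upwards [self_mem_nhdsWithin, mem_nhdsWithin_of_mem_nhds hn] with w hw1 hw2
      exact ⟨hw1, hw2.le⟩
    refine hc.congr_of_eventuallyEq ?_ (if_neg (not_le.2 h))
    filter_upwards [mem_nhdsWithin_of_mem_nhds hn] with w hw
    exact if_neg (not_le.2 hw)

private theorem sh_symm {D : ArcD} {f g : ℝ → ℝ → R4} (h : SH D f g) : SH D g f := by
  obtain ⟨H, hc, he, hb⟩ := h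
  refine ⟨fun z => H (1 - z.1, z.2.1, z.2.2), ?_, fun q hq s hs => ?_, fun u hu q hq s hs => ?_⟩
  · refine hc.comp (Continuous.continuousOn (by fun_prop)) ?_
    rintro ⟨u, q, s⟩ ⟨⟨h1, h2⟩, hq, hs⟩
    exact ⟨⟨by simp only at h2 ⊢; linarith, by simp only at h1 ⊢; linarith⟩, hq, hs⟩
  · simp only [sub_zero, sub_self]
    exact ⟨(he q hq s hs).2, (he q hq s hs).1⟩
  · exact hb (1 - u) ⟨by linarith [hu.2], by linarith [hu.1]⟩ q hq s hs

private theorem sh_trans {D : ArcD} {f g k : ℝ → ℝ → R4} (h : SH D f g) (h' : SH D g k) :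
    SH D f k := by
  classical
  obtain ⟨H, hc, he, hb⟩ := h
  obtain ⟨H', hc', he', hb'⟩ := h'
  refine ⟨fun z => if z.1 ≤ 1 / 2 then H (2 * z.1, z.2.1, z.2.2)
    else H' (2 * z.1 - 1, z.2.1, z.2.2), ?_, fun q hq s hs => ?_, fun u hu q hq s hs => ?_⟩
  · have := glue_cont (B := Icc (0 : ℝ) 1 ×ˢ (Icc (0 : ℝ) 1 ×ˢ Icc D.m₀ D.m₁))
      (f := fun z => H (2 * z.1, z.2.1, z.2.2)) (g := fun z => H' (2 * z.1 - 1, z.2.1, z.2.2))
      (p := fun z => z.1) (by fun_prop) ?_ ?_ ?_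
    · exact this
    · refine hc.comp (Continuous.continuousOn (by fun_prop)) ?_
      rintro ⟨u, q, s⟩ ⟨⟨⟨h1, h2⟩, hq, hs⟩, h3⟩
      simp only [mem_ofPred_eq] at h1 h2 h3
      exact ⟨⟨by simp only; linarith, by simp only; linarith⟩, hq, hs⟩
    · refine hc'.comp (Continuous.continuousOn (by fun_prop)) ?_
      rintro ⟨u, q, s⟩ ⟨⟨⟨h1, h2⟩, hq, hs⟩, h3⟩
      simp only [mem_ofPred_eq] at h1 h2 h3
      exact ⟨⟨by simp only; linarith, by simp only; linarith⟩, hq, hs⟩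
    · rintro ⟨u, q, s⟩ ⟨-, hq, hs⟩ h3
      simp only at h3
      subst h3
      have e1 : (2 : ℝ) * (1 / 2) = 1 := by norm_num
      have e2 : (2 : ℝ) * (1 / 2) - 1 = 0 := by norm_num
      simp only [e1, sub_self]
      rw [(he q hq s hs).2, (he' q hq s hs).1]
  · have e1 : ¬ ((1 : ℝ) ≤ 1 / 2) := by norm_num
    have e2 : (0 : ℝ) ≤ 1 / 2 := by norm_num
    have e3 : (2 : ℝ) * 1 - 1 = 1 := by norm_num
    simp only [e1, e2, e3, if_true, if_false, mul_zero]
    exact ⟨(he q hq s hs).1, (he' q hq s hs).2⟩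
  · by_cases h : u ≤ 1 / 2
    · simp only [h, if_true]
      exact hb (2 * u) ⟨by linarith [hu.1], by linarith⟩ q hq s hs
    · simp only [h, if_false]
      exact hb' (2 * u - 1) ⟨by linarith [not_le.1 h], by linarith [hu.2]⟩ q hq s hs

/-! ### the constant loop -/

private theorem loopOK_const (D : ArcD) : LoopOK D (fun _ s => D.c s) where
  smooth := D.smooth.comp contDiff_snd
  froz _ _ _ _ := rfl
  inU _ _ s hs := D.mem s ⟨D.h₀.trans_le hs.1, hs.2.trans_lt D.h₂⟩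
  start _ := rfl
  stop _ := rfl

private theorem hasCl_const (hCls : Pool.Agent.Helper27.H.StCls) (D : ArcD) (y₀ : R4) :
    HasCl D y₀ (fun _ _ => y₀) (fun x => x) := by
  refine ⟨fun _ s => D.c s, loopOK_const D, (hCls D).2.2.2.2.2, fun z => D.c z.2.2,
    (D.smooth.continuous.comp (by fun_prop)).continuousOn, fun q hq s hs => ⟨rfl, ?_⟩,
    fun u hu q hq s hs => ⟨(loopOK_const D).inU q hq s hs, fun _ => rfl⟩⟩
  simp [shp]

/-! ### concatenation -/

private theorem step_le {q : ℝ} (h : q ≤ 1 / 2) : step (2 * q - 1) = 0 :=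
  step_of_nonpos (by linarith)

private theorem step_ge {q : ℝ} (h : 1 / 2 ≤ q) : step (2 * q) = 1 :=
  step_of_one_le (by linarith)

private theorem cat_le {D : ArcD} {c c' : ℝ → ℝ → R4} (hc' : LoopOK D c') {q : ℝ}
    (h : q ≤ 1 / 2) (s : ℝ) : cat D c c' q s = c (step (2 * q)) s := by
  unfold cat
  rw [step_le h, hc'.start]
  abel

private theorem cat_ge {D : ArcD} {c c' : ℝ → ℝ → R4} (hc : LoopOK D c) {q : ℝ}
    (h : 1 / 2 ≤ q) (s : ℝ) : cat D c c' q s = c' (step (2 * q - 1)) s := by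
  unfold cat
  rw [step_ge h, hc.stop]
  abel

private theorem loopOK_cat {D : ArcD} {c c' : ℝ → ℝ → R4} (hc : LoopOK D c)
    (hc' : LoopOK D c') : LoopOK D (cat D c c') where
  smooth := by
    have h1 : ContDiff ℝ ∞ (fun z : ℝ × ℝ => c (step (2 * z.1)) z.2) :=
      hc.smooth.comp (g := fun z : ℝ × ℝ => c z.1 z.2) (f := fun z : ℝ × ℝ =>
        (step (2 * z.1), z.2)) ((contDiff_step.comp (by fun_prop)).prodMk contDiff_snd)
    have h2 : ContDiff ℝ ∞ (fun z : ℝ × ℝ => c' (step (2 * z.1 - 1)) z.2) :=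
      hc'.smooth.comp (g := fun z : ℝ × ℝ => c' z.1 z.2) (f := fun z : ℝ × ℝ =>
        (step (2 * z.1 - 1), z.2)) ((contDiff_step.comp (by fun_prop)).prodMk contDiff_snd)
    exact (h1.add h2).sub (D.smooth.comp contDiff_snd)
  froz q hq s hs := by
    unfold cat
    rw [hc.froz _ (step_mem _) s hs, hc'.froz _ (step_mem _) s hs]
    abel
  inU q hq s hs := by
    rcases le_total q (1 / 2) with h | h
    · rw [cat_le hc' h]
      exact hc.inU _ (step_mem _) s hs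
    · rw [cat_ge hc h]
      exact hc'.inU _ (step_mem _) s hs
  start s := by
    rw [cat_le hc' (by norm_num), mul_zero, step_of_nonpos le_rfl, hc.start]
  stop s := by
    rw [cat_ge hc (by norm_num), step_of_one_le (by norm_num), hc'.stop]

private theorem mem_conv {u x y : ℝ} (hu : u ∈ Icc (0 : ℝ) 1) (hx : x ∈ Icc (0 : ℝ) 1)
    (hy : y ∈ Icc (0 : ℝ) 1) : (1 - u) * x + u * y ∈ Icc (0 : ℝ) 1 := by
  obtain ⟨hu0, hu1⟩ := hu
  obtain ⟨hx0, hx1⟩ := hx
  obtain ⟨hy0, hy1⟩ := hy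
  constructor
  · have := mul_nonneg (sub_nonneg.2 hu1) hx0
    have := mul_nonneg hu0 hy0
    linarith
  · nlinarith [mul_nonneg (sub_nonneg.2 hu1) (sub_nonneg.2 hx1),
      mul_nonneg hu0 (sub_nonneg.2 hy1)]

private theorem SH_cat {D : ArcD} {y₀ : R4} {c c' f f' : ℝ → ℝ → R4} (hc : LoopOK D c)
    (hc' : LoopOK D c') (h : SH D c (shp D y₀ f)) (h' : SH D c' (shp D y₀ f')) :
    SH D (cat D c c') (shp D y₀ (qcat f f')) := by
  classical
  obtain ⟨H, hH, he, hb⟩ := h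
  obtain ⟨H', hH', he', hb'⟩ := h'
  have cs : Continuous step := contDiff_step.continuous
  have m0 : (0 : ℝ) ∈ Icc (0 : ℝ) 1 := ⟨le_rfl, zero_le_one⟩
  have m1 : (1 : ℝ) ∈ Icc (0 : ℝ) 1 := ⟨zero_le_one, le_rfl⟩
  have i1 : ∀ q : ℝ, q ∈ Icc (0 : ℝ) 1 → q ≤ 1 / 2 → 2 * q ∈ Icc (0 : ℝ) 1 := fun q hq h =>
    ⟨by linarith [hq.1], by linarith⟩
  have i2 : ∀ q : ℝ, q ∈ Icc (0 : ℝ) 1 → 1 / 2 ≤ q → 2 * q - 1 ∈ Icc (0 : ℝ) 1 := fun q hq h =>
    ⟨by linarith, by linarith [hq.2]⟩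
  refine ⟨fun z => if z.2.1 ≤ 1 / 2 then
      H (z.1, (1 - z.1) * step (2 * z.2.1) + z.1 * (2 * z.2.1), z.2.2)
    else H' (z.1, (1 - z.1) * step (2 * z.2.1 - 1) + z.1 * (2 * z.2.1 - 1), z.2.2), ?_,
    fun q hq s hs => ?_, fun u hu q hq s hs => ?_⟩
  · have := glue_cont (B := Icc (0 : ℝ) 1 ×ˢ (Icc (0 : ℝ) 1 ×ˢ Icc D.m₀ D.m₁))
      (f := fun z => H (z.1, (1 - z.1) * step (2 * z.2.1) + z.1 * (2 * z.2.1), z.2.2))
      (g := fun z => H' (z.1, (1 - z.1) * step (2 * z.2.1 - 1) + z.1 * (2 * z.2.1 - 1), z.2.2))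
      (p := fun z => z.2.1) (by fun_prop) ?_ ?_ ?_
    · exact this
    · refine hH.comp (Continuous.continuousOn (by fun_prop)) ?_
      rintro ⟨u, q, s⟩ ⟨⟨hu, hq, hs⟩, h3⟩
      exact ⟨hu, mem_conv hu (step_mem _) (i1 q hq h3), hs⟩
    · refine hH'.comp (Continuous.continuousOn (by fun_prop)) ?_
      rintro ⟨u, q, s⟩ ⟨⟨hu, hq, hs⟩, h3⟩
      exact ⟨hu, mem_conv hu (step_mem _) (i2 q hq h3), hs⟩
    · rintro ⟨u, q, s⟩ ⟨hu, hq, hs⟩ h3
      simp only at h3
      subst h3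
      have e1 : (2 : ℝ) * (1 / 2) = 1 := by norm_num
      simp only [e1, sub_self, step_of_one_le (le_refl (1 : ℝ)),
        step_of_nonpos (le_refl (0 : ℝ))]
      have e2 : (1 - u) * 1 + u * 1 = 1 := by ring
      have e3 : (1 - u) * 0 + u * 0 = 0 := by ring
      rw [e2, e3, (hb u hu 1 m1 s hs).2 (Or.inr (Or.inl rfl)),
        (hb' u hu 0 m0 s hs).2 (Or.inl rfl)]
  · by_cases h : q ≤ 1 / 2
    · simp only [h, if_true, sub_zero, one_mul, zero_mul, add_zero, sub_self, zero_add]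
      rw [cat_le hc' h, (he _ (step_mem _) s hs).1, (he _ (i1 q hq h) s hs).2]
      refine ⟨rfl, ?_⟩
      simp only [shp, qcat, h, if_true]
    · simp only [h, if_false, sub_zero, one_mul, zero_mul, add_zero, sub_self, zero_add]
      have h' := (not_le.1 h).le
      rw [cat_ge hc h', (he' _ (step_mem _) s hs).1, (he' _ (i2 q hq h') s hs).2]
      refine ⟨rfl, ?_⟩
      simp only [shp, qcat, h, if_false]
  · by_cases h : q ≤ 1 / 2
    · simp only [h, if_true]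
      have key := hb u hu _ (mem_conv hu (step_mem (2 * q)) (i1 q hq h)) s hs
      refine ⟨key.1, fun hh => key.2 ?_⟩
      rcases hh with rfl | rfl | hh
      · left
        rw [mul_zero, step_of_nonpos le_rfl]
        ring
      · norm_num at h
      · exact Or.inr (Or.inr hh)
    · simp only [h, if_false]
      have h' := (not_le.1 h).le
      have key := hb' u hu _ (mem_conv hu (step_mem (2 * q - 1)) (i2 q hq h')) s hs
      refine ⟨key.1, fun hh => key.2 ?_⟩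
      rcases hh with rfl | rfl | hh
      · norm_num at h
      · right; left
        rw [step_of_one_le (by norm_num)]
        ring
      · exact Or.inr (Or.inr hh)

/-! ### reversal -/

private theorem loopOK_rev {D : ArcD} {c : ℝ → ℝ → R4} (hc : LoopOK D c) :
    LoopOK D (fun q s => c (1 - q) s) where
  smooth := hc.smooth.comp (g := fun z : ℝ × ℝ => c z.1 z.2) (f := fun z : ℝ × ℝ =>
    (1 - z.1, z.2)) (by fun_prop)
  froz q hq s hs := hc.froz (1 - q) ⟨by linarith [hq.2], by linarith [hq.1]⟩ s hs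
  inU q hq s hs := hc.inU (1 - q) ⟨by linarith [hq.2], by linarith [hq.1]⟩ s hs
  start s := by simp only [sub_zero]; exact hc.stop s
  stop s := by simp only [sub_self]; exact hc.start s

private theorem SH_rev {D : ArcD} {y₀ : R4} {c f : ℝ → ℝ → R4} (h : SH D c (shp D y₀ f)) :
    SH D (fun q s => c (1 - q) s) (shp D y₀ (fun q s => f (1 - q) s)) := by
  obtain ⟨H, hH, he, hb⟩ := h
  have i1 : ∀ q : ℝ, q ∈ Icc (0 : ℝ) 1 → 1 - q ∈ Icc (0 : ℝ) 1 := fun q hq =>
    ⟨by linarith [hq.2], by linarith [hq.1]⟩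
  refine ⟨fun z => H (z.1, 1 - z.2.1, z.2.2), ?_, fun q hq s hs => ?_,
    fun u hu q hq s hs => ?_⟩
  · refine hH.comp (Continuous.continuousOn (by fun_prop)) ?_
    rintro ⟨u, q, s⟩ ⟨hu, hq, hs⟩
    exact ⟨hu, i1 q hq, hs⟩
  · exact he (1 - q) (i1 q hq) s hs
  · refine ⟨(hb u hu (1 - q) (i1 q hq) s hs).1, fun hh =>
      (hb u hu (1 - q) (i1 q hq) s hs).2 ?_⟩
    rcases hh with rfl | rfl | hh
    · exact Or.inr (Or.inl (by ring))
    · exact Or.inl (by ring)
    · exact Or.inr (Or.inr hh)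

end HCL

theorem m_HCL (hMULT : StMULT) (hINV : StINV) (hSMG : StSMG)
    (hCls : Pool.Agent.Helper27.H.StCls) (hArcH : Pool.Agent.Helper27.H.StArcH)
    (_hCI : StCI) : StHCL := by
  intro D y₀
  refine ⟨HCL.hasCl_const hCls D y₀, ?_, ?_, ?_, ?_, ?_, ?_⟩
  · rintro f f' χ χ' ⟨c, h1, h2, h3⟩ ⟨c', h1', h2', h3'⟩
    exact ⟨cat D c c', HCL.loopOK_cat h1 h1', hMULT D c c' χ χ' h1 h1' h2 h2',
      HCL.SH_cat h1 h1' h3 h3'⟩
  · rintro f χ χ' ⟨c, h1, h2, h3⟩ ha hb
    exact ⟨fun q s => c (1 - q) s, HCL.loopOK_rev h1, hINV D c χ χ' h1 h2 ha hb,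
      HCL.SH_rev h3⟩
  · rintro f f' χ ⟨c, h1, h2, h3⟩ h
    exact ⟨c, h1, h2, HCL.sh_trans h3 h⟩
  · rintro f χ χ' ⟨c, h1, h2, h3⟩ h
    exact ⟨c, h1, (hCls D).2.1 c χ χ' h2 h, h3⟩
  · rintro f χ ⟨c, h1, h2, h3⟩
    exact (hCls D).2.2.1 c χ h2
  · rintro W f χ χ' hW ⟨c, h1, h2, h3⟩ ⟨c', h1', h2', h3'⟩
    obtain ⟨g, hg, hg0, hg1⟩ := hSMG D c c' h1 h1' (HCL.sh_trans h3 (HCL.sh_symm h3'))
    have e0 : (fun q s => g (0, q, s)) = c := funext fun q => funext fun s => hg0 q s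
    have e1 : (fun q s => g (1, q, s)) = c' := funext fun q => funext fun s => hg1 q s
    have k0 : D.Cls (fun q s => g (0, q, s)) χ := by rw [e0]; exact h2
    have k1 : D.Cls (fun q s => g (1, q, s)) χ' := by rw [e1]; exact h2'
    exact hArcH D g W χ χ' hg (cls_imm_inj D g 0 χ hg.smooth k0)
      (cls_imm_inj D g 1 χ' hg.smooth k1) hW k0 k1

end Pool.Agent.Helper18.BI.R
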