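import Pool.Agent.Helper18.BI.R.StR
import Pool.Agent.Helper18.BI.M_A1
import Pool.Agent.Helper18.BI.M_X2

/-!
# Project BI, stage 4 (R), module MOVE: moving a point of the bar
-/

set_option autoImplicit false

open scoped Manifold ContDiff Topology ComplexConjugate
open Set Pool.Agent.Helper65.Barb Pool.Agent.Helper18.BI
open Pool.Agent.Helper70.BI (I4 IsW MW)
open Pool.Agent.Helper27.H (ArcD StArcH)
open Pool.Agent.Helper18.BI.H

namespace Pool.Agent.Helper18.BI.R

namespace MOVE

/-- the bump function -/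
noncomputable def lam (a η : ℝ) (p : R4) : ℝ :=
  max 0 (1 - (|p.2.1 - a| + |p.1 - 1 / 2| + ‖p.2.2‖) / η)

/-- the motion -/
noncomputable def mot (a b η : ℝ) (z : ℝ × R4) : R4 :=
  (z.2.1, (z.2.2.1 + max 0 (min 1 z.1) * lam a η z.2 * (b - a), z.2.2.2))

/-- the box -/
def box (a b η : ℝ) : Set R4 :=
  Icc (1 / 2 - η) (1 / 2 + η) ×ˢ (Icc (min a b - η) (max a b + η) ×ˢ Metric.closedBall (0 : ℂ) η)

theorem continuous_lam (a η : ℝ) : Continuous (lam a η) := by
  unfold lam
  fun_prop

theorem continuous_mot (a b η : ℝ) : Continuous (mot a b η) := by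
  have h := continuous_lam a η
  unfold mot
  fun_prop

theorem isCompact_box (a b η : ℝ) : IsCompact (box a b η) :=
  isCompact_Icc.prod (isCompact_Icc.prod (isCompact_closedBall _ _))

theorem lam_nonneg (a η : ℝ) (p : R4) : 0 ≤ lam a η p := le_max_left _ _

theorem lam_le_one {a η : ℝ} (hη : 0 < η) (p : R4) : lam a η p ≤ 1 := by
  unfold lam
  refine max_le zero_le_one ?_
  have : 0 ≤ (|p.2.1 - a| + |p.1 - 1 / 2| + ‖p.2.2‖) / η := by positivity
  linarith

/-- where the bump function is nonzero -/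
theorem lam_pos {a η : ℝ} (hη : 0 < η) {p : R4} (h : lam a η p ≠ 0) :
    |p.2.1 - a| + |p.1 - 1 / 2| + ‖p.2.2‖ < η := by
  by_contra hc
  push Not at hc
  apply h
  unfold lam
  refine max_eq_left ?_
  have : 1 ≤ (|p.2.1 - a| + |p.1 - 1 / 2| + ‖p.2.2‖) / η := by
    rw [le_div_iff₀ hη]
    linarith
  linarith

theorem mem_box {a b η : ℝ} {p : R4} (h1 : |p.1 - 1 / 2| ≤ η) (h2 : min a b - η ≤ p.2.1)
    (h3 : p.2.1 ≤ max a b + η) (h4 : ‖p.2.2‖ ≤ η) : p ∈ box a b η := by
  have h5 := abs_le.1 h1
  refine ⟨⟨?_, ?_⟩, ⟨h2, h3⟩, ?_⟩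
  · linarith [h5.1]
  · linarith [h5.2]
  · rwa [mem_closedBall_zero_iff]

theorem lam_off {a b η : ℝ} (hη : 0 < η) {p : R4} (h : p ∉ box a b η) : lam a η p = 0 := by
  by_contra hc
  have h1 := lam_pos hη hc
  have h2 := abs_nonneg (p.2.1 - a)
  have h3 := abs_nonneg (p.1 - 1 / 2)
  have h4 := norm_nonneg p.2.2
  have h5 : |p.2.1 - a| < η := by linarith
  have h6 := abs_lt.1 h5
  exact h (mem_box (by linarith) (by linarith [min_le_left a b, h6.1])
    (by linarith [le_max_left a b, h6.2]) (by linarith))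

theorem mot_off {a b η : ℝ} (hη : 0 < η) {p : R4} (h : p ∉ box a b η) (t : ℝ) :
    mot a b η (t, p) = p := by
  unfold mot
  simp only
  rw [lam_off hη h]
  simp

theorem mot_mem {a b η : ℝ} (hη : 0 < η) {p : R4} (h : p ∈ box a b η) (t : ℝ) :
    mot a b η (t, p) ∈ box a b η := by
  rcases eq_or_ne (lam a η p) 0 with h0 | h0
  · have : mot a b η (t, p) = p := by
      unfold mot
      simp only
      rw [h0]
      simp
    rw [this]
    exact h
  obtain ⟨h1, h2, h3⟩ := h
  refine ⟨h1, ?_, h3⟩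
  have h4 := lam_pos hη h0
  have h5 : |p.2.1 - a| < η := by
    linarith [abs_nonneg (p.1 - 1 / 2), norm_nonneg p.2.2]
  have h6 := abs_lt.1 h5
  have h7 : 0 ≤ max 0 (min 1 t) * lam a η p := mul_nonneg (le_max_left _ _) (lam_nonneg _ _ _)
  have h8 : max 0 (min 1 t) * lam a η p ≤ 1 :=
    mul_le_one₀ (max_le zero_le_one (min_le_left _ _)) (lam_nonneg _ _ _) (lam_le_one hη p)
  show p.2.1 + max 0 (min 1 t) * lam a η p * (b - a) ∈ Icc (min a b - η) (max a b + η)
  set c := max 0 (min 1 t) * lam a η p with hc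
  rcases le_total a b with hab | hab
  · rw [min_eq_left hab, max_eq_right hab]
    constructor
    · nlinarith [mul_nonneg h7 (sub_nonneg.2 hab)]
    · nlinarith [mul_nonneg (sub_nonneg.2 h8) (sub_nonneg.2 hab)]
  · rw [min_eq_right hab, max_eq_left hab]
    constructor
    · nlinarith [mul_nonneg (sub_nonneg.2 h8) (sub_nonneg.2 hab)]
    · nlinarith [mul_nonneg h7 (sub_nonneg.2 hab)]

theorem sph_one_le {p : R4} (hp : p ∈ sph 1) : 4 / 5 ≤ p.2.1 := by
  have h := hp.2
  have e : rsq 1 p = (p.2.1 - 1) ^ 2 + p.2.2.re ^ 2 + p.2.2.im ^ 2 := rfl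
  rw [e] at h
  nlinarith [sq_nonneg p.2.2.re, sq_nonneg p.2.2.im]

/-- a thin box around the piece of the bar in an open set -/
theorem exists_box {a b : ℝ} {N : Set R4} (hN : IsOpen N) (hb : max a b < 4 / 5)
    (h : ∀ x ∈ Icc (min a b) (max a b), bar x ∈ N) :
    ∃ η > 0, box a b η ⊆ N ∧ max a b + η < 4 / 5 := by
  have hc : IsCompact (bar '' Icc (min a b) (max a b)) := by
    refine isCompact_Icc.image ?_
    exact continuous_const.prodMk (continuous_id.prodMk continuous_const)
  obtain ⟨δ, hδ, hδ2⟩ := hc.exists_thickening_subset_open hN (by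
    rintro _ ⟨x, hx, rfl⟩
    exact h x hx)
  refine ⟨min (δ / 2) ((4 / 5 - max a b) / 2), by
    refine lt_min (by linarith) (by linarith), ?_, ?_⟩
  · rintro p ⟨⟨h1, h2⟩, ⟨h3, h4⟩, h5⟩
    set η := min (δ / 2) ((4 / 5 - max a b) / 2) with hη
    have hηδ : η ≤ δ / 2 := min_le_left _ _
    apply hδ2
    rw [Metric.mem_thickening_iff]
    have hmm : min a b ≤ max a b := min_le_max
    refine ⟨bar (max (min a b) (min (max a b) p.2.1)), ⟨_, ⟨le_max_left _ _,
      max_le hmm (min_le_left _ _)⟩, rfl⟩, ?_⟩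
    have e1 : dist p (bar (max (min a b) (min (max a b) p.2.1))) =
        max (dist p.1 (1 / 2)) (max (dist p.2.1 (max (min a b) (min (max a b) p.2.1)))
          (dist p.2.2 0)) := rfl
    rw [e1]
    have hη0 : 0 ≤ η := le_min (by linarith) (by linarith)
    refine max_lt ?_ (max_lt ?_ ?_)
    · rw [Real.dist_eq]
      have : |p.1 - 1 / 2| ≤ η := abs_le.2 ⟨by linarith, by linarith⟩
      linarith
    · rw [Real.dist_eq]
      have : |p.2.1 - max (min a b) (min (max a b) p.2.1)| ≤ η := by
        rcases le_total p.2.1 (max a b) with h6 | h6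
        · rw [min_eq_right h6]
          rcases le_total (min a b) p.2.1 with h7 | h7
          · rw [max_eq_right h7, sub_self, abs_zero]
            exact hη0
          · rw [max_eq_left h7]
            exact abs_le.2 ⟨by linarith, by linarith⟩
        · rw [min_eq_left h6, max_eq_right hmm]
          exact abs_le.2 ⟨by linarith, by linarith⟩
      linarith
    · rw [dist_zero_right]
      rw [mem_closedBall_zero_iff] at h5
      linarith
  · have := min_le_right (δ / 2) ((4 / 5 - max a b) / 2)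
    linarith

end MOVE

open Classical in
/-- **MOVE.** A point of the bar is moved to another one by a homotopy of self-maps of the
complement of the fixed cuff. -/
theorem m_MOVE : StMOVE := by
  intro F a b hF ha hb
  obtain ⟨δ, hδ1, hδ2⟩ := m_A1 R4 R4 R4 I4 R4 F SP X2.isCompact_SP hF.1 hF.2
  have hbar : ∀ x ∈ Icc (min a b) (max a b), bar x ∈ δ.source := by
    intro x hx
    apply hδ1
    right
    refine ⟨rfl, ?_, ?_, rfl⟩
    · exact le_trans (le_min ha.1.le hb.1.le) hx.1
    · exact le_trans hx.2 (max_le ha.2.le hb.2.le)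
  obtain ⟨η, hη, hbox, hlt⟩ := MOVE.exists_box δ.open_source (max_lt ha.2 hb.2) hbar
  have hFc : ContinuousOn F δ.source :=
    (δ.contMDiffOn_toFun.continuousOn).congr fun p hp => (hδ2 p hp).symm
  have hinj : InjOn F δ.source := by
    intro p hp q hq h
    rw [← hδ2 p hp, ← hδ2 q hq] at h
    exact δ.toPartialEquiv.injOn hp hq h
  have hmem : ∀ t, ∀ p ∈ δ.source, MOVE.mot a b η (t, p) ∈ δ.source := by
    intro t p hp
    by_cases h : p ∈ MOVE.box a b η
    · exact hbox (MOVE.mot_mem hη h t)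
    · rw [MOVE.mot_off hη h t]
      exact hp
  have hsF : ∀ y ∈ δ.target, F (δ.symm y) = y := by
    intro y hy
    have h1 := hδ2 _ (δ.toPartialEquiv.map_target hy)
    exact h1.symm.trans (δ.toPartialEquiv.right_inv hy)
  have hFt : ∀ p ∈ δ.source, F p ∈ δ.target ∧ δ.symm (F p) = p := by
    intro p hp
    rw [← hδ2 p hp]
    exact ⟨δ.toPartialEquiv.map_source hp, δ.toPartialEquiv.left_inv hp⟩
  have hΨoff : ∀ t, ∀ y ∈ δ.target, y ∉ F '' MOVE.box a b η →
      F (MOVE.mot a b η (t, δ.symm y)) = y := by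
    intro t y hy h
    have h1 : δ.symm y ∉ MOVE.box a b η := fun h2 => h ⟨_, h2, hsF y hy⟩
    rw [MOVE.mot_off hη h1 t]
    exact hsF y hy
  refine ⟨fun z => if z.2 ∈ δ.target then F (MOVE.mot a b η (z.1, δ.symm z.2)) else z.2,
    ?_, ?_, ?_, ?_⟩
  · rw [continuous_iff_continuousAt]
    rintro ⟨t, y⟩
    by_cases hy : y ∈ δ.target
    · have h1 : ∀ᶠ z : ℝ × R4 in 𝓝 (t, y), z.2 ∈ δ.target :=
        continuous_snd.continuousAt.eventually (δ.open_target.mem_nhds hy)
      have h2 : ContinuousAt (fun z : ℝ × R4 => F (MOVE.mot a b η (z.1, δ.symm z.2))) (t, y) := by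
        have e1 : ContinuousAt δ.symm y :=
          (δ.contMDiffOn_invFun.continuousOn).continuousAt (δ.open_target.mem_nhds hy)
        have e2 : ContinuousAt (fun z : ℝ × R4 => (z.1, δ.symm z.2)) (t, y) :=
          continuous_fst.continuousAt.prodMk
            (ContinuousAt.comp (g := δ.symm) (f := fun z : ℝ × R4 => z.2) e1
              continuous_snd.continuousAt)
        have e3 : ContinuousAt (fun z : ℝ × R4 => MOVE.mot a b η (z.1, δ.symm z.2)) (t, y) :=
          (MOVE.continuous_mot a b η).continuousAt.comp e2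
        have e4 : ContinuousAt F (MOVE.mot a b η (t, δ.symm y)) :=
          hFc.continuousAt (δ.open_source.mem_nhds
            (hmem t _ (δ.toPartialEquiv.map_target hy)))
        exact ContinuousAt.comp (g := F)
          (f := fun z : ℝ × R4 => MOVE.mot a b η (z.1, δ.symm z.2)) e4 e3
      refine h2.congr ?_
      filter_upwards [h1] with z hz
      exact (if_pos hz).symm
    · have hc : IsCompact (F '' MOVE.box a b η) :=
        (MOVE.isCompact_box a b η).image_of_continuousOn (hFc.mono hbox)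
      have hy2 : y ∉ F '' MOVE.box a b η := by
        rintro ⟨p, hp, rfl⟩
        exact hy (hFt p (hbox hp)).1
      have h0 : ∀ᶠ x : R4 in 𝓝 y, x ∉ F '' MOVE.box a b η :=
        hc.isClosed.isOpen_compl.mem_nhds hy2
      have h1 : ∀ᶠ z : ℝ × R4 in 𝓝 (t, y), z.2 ∉ F '' MOVE.box a b η :=
        (continuous_snd.continuousAt (x := (t, y))).eventually h0
      refine (continuous_snd.continuousAt (x := (t, y))).congr ?_
      filter_upwards [h1] with z hz
      by_cases h3 : z.2 ∈ δ.target
      · rw [if_pos h3, hΨoff _ _ h3 hz]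
      · rw [if_neg h3]
  · intro x
    by_cases hx : x ∈ δ.target
    · simp only [hx, if_true]
      have : MOVE.mot a b η (0, δ.symm x) = δ.symm x := by
        unfold MOVE.mot
        simp
      rw [this]
      exact hsF x hx
    · simp only [hx, if_false]
  · have h1 : bar a ∈ δ.source := hbar a ⟨min_le_left _ _, le_max_left _ _⟩
    have h2 := hFt _ h1
    simp only [h2.1, if_true]
    rw [h2.2]
    have h3 : MOVE.mot a b η (1, bar a) = bar b := by
      unfold MOVE.mot MOVE.lam bar
      simp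
    rw [h3]
  · intro t x hx
    by_cases h : x ∈ δ.target
    · simp only [h, if_true]
      by_cases h1 : x ∈ F '' MOVE.box a b η
      · obtain ⟨p, hp, rfl⟩ := h1
        rw [(hFt p (hbox hp)).2]
        rintro ⟨z, hz, hz2⟩
        have h4 : z ∈ δ.source := hδ1 (Or.inl (Or.inr hz))
        have h5 := hinj h4 (hmem t p (hbox hp)) hz2
        have h6 := MOVE.mot_mem hη hp t
        rw [← h5] at h6
        have h7 := h6.2.1.2
        have h8 := MOVE.sph_one_le hz
        linarith
      · rw [hΨoff t x h h1]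
        exact hx
    · simp only [h, if_false]
      exact hx

end Pool.Agent.Helper18.BI.R
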