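import Pool.Agent.Helper18.BI.R.StR4

/-!
# Project BI, stage 4 (R), module MQ: the parametrization of the unit sphere by the square
-/

set_option autoImplicit false

open scoped Manifold ContDiff Topology ComplexConjugate unitInterval
open Set Pool.Agent.Helper65.Barb Pool.Agent.Helper18.BI
open Pool.Agent.Helper70.BI (I4 IsW)
open Pool.Agent.Helper18.BI.H (IsW4 mm)
open Pool.Agent.Helper18.FinR (sqr Pi2 cls FreeClass UpTo)

namespace Pool.Agent.Helper18.BI.R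

namespace MQ

private theorem mm_mq (q s : ℝ) : mm q s = mq q (step (10 * s - 9 / 2)) := by
  unfold mm Pool.Agent.Helper27.BI.zarc Pool.Agent.Helper27.BI.chi Pool.Agent.Helper27.BI.phi mq
  generalize step (10 * s - 9 / 2) = w
  have h1 : Real.cos (2 * Real.pi * w) = 1 - 2 * Real.sin (Real.pi * w) ^ 2 := by
    rw [mul_assoc, Real.cos_two_mul, Real.cos_sq']; ring
  have h2 : Real.cos (2 * Real.pi * q) = 1 - 2 * Real.sin (Real.pi * q) ^ 2 := by
    rw [mul_assoc, Real.cos_two_mul, Real.cos_sq']; ring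
  have h3 : Real.sin (2 * Real.pi * w) = 2 * Real.sin (Real.pi * w) * Real.cos (Real.pi * w) := by
    rw [mul_assoc, Real.sin_two_mul]
  have h4 : Real.sin (2 * Real.pi * q) = 2 * Real.sin (Real.pi * q) * Real.cos (Real.pi * q) := by
    rw [mul_assoc, Real.sin_two_mul]
  rw [h1, h2, h3, h4]
  refine Prod.ext ?_ (Complex.ext ?_ ?_)
  · simp only
    ring
  · simp only
    ring
  · simp only
    ring

private theorem mq_S2 (x y : ℝ) : mq x y ∈ S2 := by
  show nsq (mq x y) = 1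
  unfold nsq mq
  simp only
  have h1 : Real.cos (Real.pi * x) ^ 2 = 1 - Real.sin (Real.pi * x) ^ 2 := Real.cos_sq' _
  have h2 : Real.cos (Real.pi * y) ^ 2 = 1 - Real.sin (Real.pi * y) ^ 2 := Real.cos_sq' _
  generalize Real.sin (Real.pi * x) = a at *
  generalize Real.sin (Real.pi * y) = b at *
  linear_combination (4 * a ^ 2 * b ^ 4) * h1 + (4 * a ^ 2 * b ^ 2) * h2

private theorem mq_bd (x y : ℝ) (h : x = 0 ∨ x = 1 ∨ y = 0 ∨ y = 1) : mq x y = (1, 0) := by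
  have hs : Real.sin (Real.pi * x) = 0 ∨ Real.sin (Real.pi * y) = 0 := by
    rcases h with h | h | h | h
    · left; rw [h, mul_zero, Real.sin_zero]
    · left; rw [h, mul_one, Real.sin_pi]
    · right; rw [h, mul_zero, Real.sin_zero]
    · right; rw [h, mul_one, Real.sin_pi]
  unfold mq
  rcases hs with h | h
  · rw [h]
    refine Prod.ext (by simp) (Complex.ext (by simp) (by simp))
  · rw [h]
    refine Prod.ext (by simp) (Complex.ext (by simp) (by simp))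

private theorem arccos_pi {A : ℝ} (h1 : -1 ≤ A) (h2 : A ≤ 1) :
    ∃ x ∈ Icc (0 : ℝ) 1, Real.cos (Real.pi * x) = A ∧ Real.sin (Real.pi * x) = √(1 - A ^ 2) := by
  refine ⟨Real.arccos A / Real.pi, ⟨div_nonneg (Real.arccos_nonneg A) Real.pi_pos.le, ?_⟩, ?_, ?_⟩
  · rw [div_le_one Real.pi_pos]
    exact Real.arccos_le_pi A
  · rw [mul_div_cancel₀ _ Real.pi_ne_zero, Real.cos_arccos h1 h2]
  · rw [mul_div_cancel₀ _ Real.pi_ne_zero, Real.sin_arccos]

private theorem mq_surj (m : R3) (hm : m ∈ S2) :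
    ∃ x ∈ Icc (0 : ℝ) 1, ∃ y ∈ Icc (0 : ℝ) 1, mq x y = m := by
  obtain ⟨m₁, ⟨m₂, m₃⟩⟩ := m
  have hm' : m₁ ^ 2 + m₂ ^ 2 + m₃ ^ 2 = 1 := hm
  have hle : m₁ ≤ 1 := by nlinarith [sq_nonneg m₂, sq_nonneg m₃, sq_nonneg (m₁ - 1)]
  have hge : -1 ≤ m₁ := by nlinarith [sq_nonneg m₂, sq_nonneg m₃, sq_nonneg (m₁ + 1)]
  rcases eq_or_lt_of_le hle with h | h
  · refine ⟨0, ⟨le_rfl, zero_le_one⟩, 0, ⟨le_rfl, zero_le_one⟩, ?_⟩
    rw [mq_bd 0 0 (Or.inl rfl)]
    have h2 : m₂ = 0 := by nlinarith [sq_nonneg m₂, sq_nonneg m₃]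
    have h3 : m₃ = 0 := by nlinarith [sq_nonneg m₂, sq_nonneg m₃]
    rw [h, h2, h3]
    rfl
  · obtain ⟨c, hc⟩ : ∃ c, c = (1 - m₁) / 2 := ⟨_, rfl⟩
    have hc0 : 0 < c := by rw [hc]; linarith
    have hm1 : m₁ = 1 - 2 * c := by rw [hc]; ring
    have hsum : m₂ ^ 2 + m₃ ^ 2 = 4 * c * (1 - c) := by rw [hm1] at hm'; linarith [hm']
    obtain ⟨w, hw⟩ : ∃ w, w = √c := ⟨_, rfl⟩
    have hw0 : 0 < w := by rw [hw]; exact Real.sqrt_pos.2 hc0
    have hw2 : w ^ 2 = c := by rw [hw]; exact Real.sq_sqrt hc0.le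
    -- the second angle
    obtain ⟨B, hB⟩ : ∃ B, B = -m₂ / (2 * w) := ⟨_, rfl⟩
    have hBw : 2 * w * B = -m₂ := by rw [hB]; field_simp
    have hB2 : 4 * c * B ^ 2 = m₂ ^ 2 := by
      have e : (2 * w * B) ^ 2 = m₂ ^ 2 := by rw [hBw]; ring
      rw [← e, ← hw2]; ring
    have hBlt : B ^ 2 < 1 := by
      by_contra hcon
      rw [not_lt] at hcon
      have h1 : 4 * c ≤ m₂ ^ 2 := by nlinarith
      nlinarith [sq_nonneg m₃, mul_pos hc0 hc0]
    have hBabs := abs_le_of_sq_le_sq' (show B ^ 2 ≤ 1 ^ 2 by linarith) zero_le_one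
    obtain ⟨y, hy, hcy, hsy⟩ := arccos_pi hBabs.1 hBabs.2
    obtain ⟨b, hb⟩ : ∃ b, b = √(1 - B ^ 2) := ⟨_, rfl⟩
    have hb0 : 0 < b := by rw [hb]; exact Real.sqrt_pos.2 (by linarith)
    have hb2 : b ^ 2 = 1 - B ^ 2 := by rw [hb]; exact Real.sq_sqrt (by linarith)
    have hcb : 4 * c * b ^ 2 = m₃ ^ 2 + 4 * c ^ 2 := by
      rw [hb2]; linear_combination -hB2 - hsum
    -- the first angle
    obtain ⟨A, hA⟩ : ∃ A, A = m₃ / (2 * w * b) := ⟨_, rfl⟩
    have hAw : 2 * w * b * A = m₃ := by rw [hA]; field_simp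
    have hA2 : 4 * c * b ^ 2 * A ^ 2 = m₃ ^ 2 := by
      have e : (2 * w * b * A) ^ 2 = m₃ ^ 2 := by rw [hAw]
      rw [← e, ← hw2]; ring
    have hcb0 : 0 < 4 * c * b ^ 2 := by positivity
    have hAe : 1 - A ^ 2 = (w / b) ^ 2 := by
      have h1 : b ^ 2 * (1 - A ^ 2) = w ^ 2 := by
        have h2 : 4 * c * (b ^ 2 * (1 - A ^ 2)) = 4 * c * w ^ 2 := by
          rw [hw2]; linear_combination hcb - hA2
        exact mul_left_cancel₀ (by positivity : (4 * c : ℝ) ≠ 0) h2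
      rw [div_pow, ← h1]
      field_simp
    have hA1 : A ^ 2 ≤ 1 ^ 2 := by nlinarith [sq_nonneg (w / b)]
    have hAabs := abs_le_of_sq_le_sq' hA1 zero_le_one
    obtain ⟨x, hx, hcx, hsx⟩ := arccos_pi hAabs.1 hAabs.2
    have ha : √(1 - A ^ 2) = w / b := by
      rw [hAe]; exact Real.sqrt_sq (by positivity)
    refine ⟨x, hx, y, hy, ?_⟩
    unfold mq
    rw [hsx, hsy, hcx, hcy, ha, ← hb]
    have hbne : b ≠ 0 := hb0.ne'
    refine Prod.ext ?_ (Complex.ext ?_ ?_)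
    · show 1 - 2 * (w / b) ^ 2 * b ^ 2 = m₁
      have e : (w / b) ^ 2 * b ^ 2 = c := by rw [← hw2]; field_simp
      rw [hm1]; linear_combination -2 * e
    · show -(2 * (w / b) * b * B) = m₂
      have e : w / b * b = w := by field_simp
      linear_combination -hBw - 2 * B * e
    · show 2 * (w / b) * A * b ^ 2 = m₃
      have e : w / b * b ^ 2 = w * b := by field_simp
      linear_combination hAw + 2 * A * e

private theorem mq_smooth : ContDiff ℝ 1 (fun z : ℝ × ℝ => mq z.1 z.2) := by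
  have s1 : ContDiff ℝ 1 (fun z : ℝ × ℝ => Real.sin (Real.pi * z.1)) :=
    Real.contDiff_sin.comp (contDiff_const.mul contDiff_fst)
  have c1 : ContDiff ℝ 1 (fun z : ℝ × ℝ => Real.cos (Real.pi * z.1)) :=
    Real.contDiff_cos.comp (contDiff_const.mul contDiff_fst)
  have s2 : ContDiff ℝ 1 (fun z : ℝ × ℝ => Real.sin (Real.pi * z.2)) :=
    Real.contDiff_sin.comp (contDiff_const.mul contDiff_snd)
  have c2 : ContDiff ℝ 1 (fun z : ℝ × ℝ => Real.cos (Real.pi * z.2)) :=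
    Real.contDiff_cos.comp (contDiff_const.mul contDiff_snd)
  have h1 : ContDiff ℝ 1 (fun z : ℝ × ℝ =>
      1 - 2 * Real.sin (Real.pi * z.1) ^ 2 * Real.sin (Real.pi * z.2) ^ 2) :=
    contDiff_const.sub ((contDiff_const.mul (s1.pow 2)).mul (s2.pow 2))
  have h2 : ContDiff ℝ 1 (fun z : ℝ × ℝ =>
      -(2 * Real.sin (Real.pi * z.1) * Real.sin (Real.pi * z.2) * Real.cos (Real.pi * z.2))) :=
    (((contDiff_const.mul s1).mul s2).mul c2).neg
  have h3 : ContDiff ℝ 1 (fun z : ℝ × ℝ =>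
      2 * Real.sin (Real.pi * z.1) * Real.cos (Real.pi * z.1) * Real.sin (Real.pi * z.2) ^ 2) :=
    ((contDiff_const.mul s1).mul c1).mul (s2.pow 2)
  have h4 := h1.prodMk (Complex.equivRealProdCLM.symm.contDiff.comp (h2.prodMk h3))
  refine (congrArg (ContDiff ℝ 1) (funext fun z => ?_)).mp h4
  rfl

end MQ

open MQ in
theorem m_MQ : StMQ := by
  refine ⟨mm_mq, mq_S2, mq_bd, mq_surj, ?_⟩
  have hK : IsCompact (Icc (0 : ℝ) 1 ×ˢ Icc (0 : ℝ) 1) := isCompact_Icc.prod isCompact_Icc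
  obtain ⟨C, hC⟩ := hK.exists_bound_of_continuousOn
    (mq_smooth.continuous_fderiv (by simp)).continuousOn
  refine ⟨Real.toNNReal C, ?_⟩
  refine Convex.lipschitzOnWith_of_nnnorm_fderiv_le (𝕜 := ℝ)
    (fun z _ => (mq_smooth.differentiable (by simp)) z) (fun z hz => ?_)
    ((convex_Icc 0 1).prod (convex_Icc 0 1))
  rw [← NNReal.coe_le_coe, coe_nnnorm]
  exact (hC z hz).trans (Real.le_coe_toNNReal C)

end Pool.Agent.Helper18.BI.R
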