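import Pool.Agent.Helper18.BI.R.M_FREE
import Pool.Agent.Helper18.BI.H.HatN
import Pool.Agent.Helper27.BI.M_ZNSQ
import Pool.Agent.Helper27.BI.Geo

/-!
# Project BI, stage 4 (R), module REL4: the relation theorem in `R4`
-/

set_option autoImplicit false
set_option linter.unusedSectionVars false

open scoped Manifold ContDiff Topology ComplexConjugate
open Set Filter Pool.Agent.Helper65.Barb Pool.Agent.Helper18.BI
open Pool.Agent.Helper70.BI (I4 IsW MW StMWL)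
open Pool.Agent.Helper27.H (ArcD)
open Pool.Agent.Helper18.BI.H

namespace Pool.Agent.Helper18.BI.R

/-! ### equality up to `W` -/

/-- equal up to isotopy and `W` -/
def RW (W φ ψ : R4 → R4) : Prop := CIsot I4 φ ψ ∨ CIsot I4 φ (fun x => W (ψ x))

section
variable {W : R4 → R4} (hT2 : StT2) (hCI : StCI) (hMWL : StMWL) (hW : IsW W)
include hT2 hCI hW

theorem WW : CIsot I4 W W := by
  obtain ⟨F₀, α₀, β₀, -, hT⟩ := hW.rep
  exact (hT2 _ _ 𝓘(ℝ, R4) R4).2.2.2.2.2.2 _ _ hT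

theorem rw_self {φ ψ : R4 → R4} (h : RW W φ ψ) : CIsot I4 φ φ := by
  obtain ⟨-, -, cself, -⟩ := hCI _ _ 𝓘(ℝ, R4) R4
  rcases h with h | h
  · exact cself _ _ h
  · exact cself _ _ h

theorem rw_symm {φ ψ : R4 → R4} (hψ : CIsot I4 ψ ψ) (h : RW W φ ψ) : RW W ψ φ := by
  obtain ⟨-, cs, cself, ct, cc, -⟩ := hCI _ _ 𝓘(ℝ, R4) R4
  rcases h with h | h
  · exact Or.inl (cs _ _ h)
  · right
    have e1 : CIsot I4 (fun x => W (φ x)) (fun x => W (W (ψ x))) := cc W W _ _ (WW hT2 hCI hW) h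
    have e2 : CIsot I4 (fun x => W (W (ψ x))) ψ := cc (fun x => W (W x)) (fun x => x) ψ ψ hW.sq hψ
    exact cs _ _ (ct _ _ _ e1 e2)

theorem rw_trans {φ ψ χ : R4 → R4} (hχ : CIsot I4 χ χ) (h : RW W φ ψ) (h' : RW W ψ χ) :
    RW W φ χ := by
  obtain ⟨-, cs, cself, ct, cc, -⟩ := hCI _ _ 𝓘(ℝ, R4) R4
  rcases h with h | h
  · rcases h' with h' | h'
    · exact Or.inl (ct _ _ _ h h')
    · exact Or.inr (ct _ _ _ h h')
  · rcases h' with h' | h'
    · exact Or.inr (ct _ _ _ h (cc W W _ _ (WW hT2 hCI hW) h'))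
    · left
      refine ct _ _ _ h (ct _ _ _ (cc W W _ _ (WW hT2 hCI hW) h') ?_)
      exact cc (fun x => W (W x)) (fun x => x) χ χ hW.sq hχ

include hMWL in
theorem rw_comp {φ φ' ψ ψ' : R4 → R4} (hφ : CIsot I4 φ' φ') (hψ : CIsot I4 ψ' ψ')
    (h : RW W φ φ') (h' : RW W ψ ψ') : RW W (fun x => ψ (φ x)) (fun x => ψ' (φ' x)) := by
  obtain ⟨-, cs, cself, ct, cc, -⟩ := hCI _ _ 𝓘(ℝ, R4) R4
  have hc : ∀ χ, CIsot I4 χ χ → CIsot I4 (fun x => χ (W x)) (fun x => W (χ x)) := fun χ h =>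
    cs _ _ ((hMWL W hW).1 χ h)
  have hWW := WW hT2 hCI hW
  have W2 : CIsot I4 (fun x => ψ' (W (φ' x))) (fun x => W (ψ' (φ' x))) :=
    cc (fun x => ψ' (W x)) (fun x => W (ψ' x)) φ' φ' (hc ψ' hψ) hφ
  rcases h with h | h
  · rcases h' with h' | h'
    · exact Or.inl (cc ψ ψ' φ φ' h' h)
    · exact Or.inr (cc ψ (fun x => W (ψ' x)) φ φ' h' h)
  · rcases h' with h' | h'
    · right
      have e1 : CIsot I4 (fun x => ψ (φ x)) (fun x => ψ' (W (φ' x))) :=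
        cc ψ ψ' φ (fun x => W (φ' x)) h' h
      exact ct _ _ _ e1 W2
    · left
      have e1 : CIsot I4 (fun x => ψ (φ x)) (fun x => W (ψ' (W (φ' x)))) :=
        cc ψ (fun x => W (ψ' x)) φ (fun x => W (φ' x)) h' h
      have e2 : CIsot I4 (fun x => W (ψ' (W (φ' x)))) (fun x => W (W (ψ' (φ' x)))) :=
        cc W W _ _ hWW W2
      have e3 : CIsot I4 (fun x => W (W (ψ' (φ' x)))) (fun x => ψ' (φ' x)) :=
        cc (fun x => W (W x)) (fun x => x) (fun x => ψ' (φ' x)) (fun x => ψ' (φ' x)) hW.sq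
          (cc ψ' ψ' φ' φ' hψ hφ)
      exact ct _ _ _ e1 (ct _ _ _ e2 e3)

include hMWL in
theorem rw_inv {φ φ' ψ ψ' : R4 → R4} (h : RW W φ ψ) (hψ : CIsot I4 ψ ψ)
    (i1 : ∀ x, φ (φ' x) = x) (i3 : ∀ x, ψ (ψ' x) = x) : RW W φ' ψ' := by
  obtain ⟨-, cs, cself, ct, cc, cinv, cex, -⟩ := hCI _ _ 𝓘(ℝ, R4) R4
  have hWW := WW hT2 hCI hW
  have hψ' : CIsot I4 ψ' ψ' := cinv _ _ _ _ hψ i3 i3
  rcases h with h | h
  · exact Or.inl (cinv _ _ _ _ h i1 i3)
  · right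
    obtain ⟨W', hW', j1, j2⟩ := cex W hWW
    have e1 : CIsot I4 φ' (fun x => ψ' (W' x)) :=
      cinv φ (fun x => W (ψ x)) φ' (fun x => ψ' (W' x)) h i1 (fun x => by rw [i3, j1])
    have e2 : CIsot I4 (fun x => W (W (W' x))) W' :=
      cc (fun x => W (W x)) (fun x => x) W' W' hW.sq hW'
    have e3 : (fun x => W (W (W' x))) = W := by
      funext x
      rw [j1]
    rw [e3] at e2
    have e4 : CIsot I4 (fun x => ψ' (W' x)) (fun x => ψ' (W x)) := cc _ _ _ _ hψ' (cs _ _ e2)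
    exact ct _ _ _ e1 (ct _ _ _ e4 (cs _ _ ((hMWL W hW).1 ψ' hψ')))

end

theorem evD_self (hCI : StCI) {n : ℕ} {φ φ' : Fin n → R4 → R4}
    (h : ∀ i, CIsot I4 (φ i) (φ i)) (h' : ∀ i, CIsot I4 (φ' i) (φ' i)) :
    ∀ l, CIsot I4 (evD φ φ' l) (evD φ φ' l) := by
  obtain ⟨cid, -, -, -, cc, -⟩ := hCI _ _ 𝓘(ℝ, R4) R4
  intro l
  induction l with
  | nil => exact cid
  | cons p l ih =>
    obtain ⟨i, b⟩ := p
    rcases b with _ | _
    · exact cc (evD φ φ' l) (evD φ φ' l) (φ' i) (φ' i) ih (h' i)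
    · exact cc (evD φ φ' l) (evD φ φ' l) (φ i) (φ i) ih (h i)

theorem evD_rw {W : R4 → R4} (hT2 : StT2) (hCI : StCI) (hMWL : StMWL) (hW : IsW W) {n : ℕ}
    {φ φ' ψ ψ' : Fin n → R4 → R4}
    (hψ : ∀ i, CIsot I4 (ψ i) (ψ i)) (hψ' : ∀ i, CIsot I4 (ψ' i) (ψ' i))
    (h : ∀ i, RW W (φ i) (ψ i)) (h' : ∀ i, RW W (φ' i) (ψ' i)) :
    ∀ l, RW W (evD φ φ' l) (evD ψ ψ' l) := by
  obtain ⟨cid, -, -, -, cc, -⟩ := hCI _ _ 𝓘(ℝ, R4) R4
  intro l
  induction l with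
  | nil => exact Or.inl cid
  | cons p l ih =>
    obtain ⟨i, b⟩ := p
    rcases b with _ | _
    · exact rw_comp (φ := φ' i) (φ' := ψ' i) (ψ := evD φ φ' l) (ψ' := evD ψ ψ' l) hT2 hCI hMWL hW
        (hψ' i) (evD_self hCI hψ hψ' l) (h' i) ih
    · exact rw_comp (φ := φ i) (φ' := ψ i) (ψ := evD φ φ' l) (ψ' := evD ψ ψ' l) hT2 hCI hMWL hW
        (hψ i) (evD_self hCI hψ hψ' l) (h i) ih

/-- composition of a square of a word with a map -/
theorem evS_map {n : ℕ} (Θ : R4 → R4) (y : R4) (g : Fin n → R3 → R4) (l : List (Fin n × Bool))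
    (q s : ℝ) : evS (Θ y) (fun i m => Θ (g i m)) l q s = Θ (evS y g l q s) := by
  induction l generalizing q with
  | nil => rfl
  | cons p l ih =>
    obtain ⟨i, b⟩ := p
    rcases b with _ | _
    · show qcat _ _ q s = Θ (qcat _ _ q s)
      unfold qcat
      split_ifs
      · rfl
      · exact ih _
    · show qcat _ _ q s = Θ (qcat _ _ q s)
      unfold qcat
      split_ifs
      · rfl
      · exact ih _

/-! ### the homotopy of based spheres -/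

theorem isCompact_S2 : IsCompact S2 := by
  apply Metric.isCompact_of_isClosed_isBounded
  · exact isClosed_eq (by unfold nsq; fun_prop) continuous_const
  · refine (Metric.isBounded_closedBall (x := (0 : R3)) (r := 1)).subset ?_
    intro m hm
    have h : m.1 ^ 2 + m.2.re ^ 2 + m.2.im ^ 2 = 1 := hm
    rw [mem_closedBall_zero_iff, Prod.norm_def, max_le_iff]
    constructor
    · rw [Real.norm_eq_abs, ← sq_le_one_iff_abs_le_one]
      nlinarith [sq_nonneg m.2.re, sq_nonneg m.2.im]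
    · rw [← sq_le_one_iff₀ (norm_nonneg _), ← Complex.normSq_eq_norm_sq, Complex.normSq_apply]
      nlinarith [sq_nonneg m.1]

theorem mm_S2 (q s : ℝ) : mm q s ∈ S2 := by
  show nsq (mm q s) = 1
  unfold mm
  rw [Pool.Agent.Helper27.BI.m_ZNSQ]
  ring

theorem continuous_mm : Continuous (fun z : ℝ × ℝ => mm z.1 z.2) := by
  have h : ContDiff ℝ ∞ (fun z : ℝ × ℝ => mm z.1 z.2) := by
    unfold mm
    refine Pool.Agent.Helper27.BI.contDiff_zarc ?_ ?_ ?_ ?_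
    · exact Real.contDiff_sin.comp (contDiff_const.mul contDiff_fst)
    · exact Pool.Agent.Helper27.BI.contDiff_chi.comp
        ((contDiff_const.mul contDiff_snd).sub contDiff_const)
    · exact contDiff_fst
    · exact (contDiff_const.mul contDiff_snd).sub contDiff_const
  exact h.continuous

/-- a compact set off a compact set: small margins -/
theorem margin {X : Type} [TopologicalSpace X] {A : Set R4} {C : Set X} {f : X → R4}
    (hC : IsCompact C) (hf : ContinuousOn f C) (hA : IsCompact A) (h : ∀ x ∈ C, f x ∉ A) :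
    ∀ᶠ κ in 𝓝[>] (0 : ℝ), ∀ x ∈ C, ∀ y ∈ A, 2 * κ ≤ dist (f x) y := by
  have h1 : IsCompact (f '' C) := hC.image_of_continuousOn hf
  have h2 : Disjoint (f '' C) A := by
    rw [Set.disjoint_left]
    rintro _ ⟨x, hx, rfl⟩
    exact h x hx
  obtain ⟨r, hr, h3⟩ := h1.exists_thickening_subset_open (hA.isClosed.isOpen_compl)
    (Set.disjoint_left.1 h2)
  filter_upwards [Ioo_mem_nhdsGT (show (0 : ℝ) < r / 2 by positivity)] with κ hκ x hx y hy
  by_contra hcon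
  rw [not_le] at hcon
  have h4 : y ∈ Metric.thickening r (f '' C) := by
    rw [Metric.mem_thickening_iff]
    exact ⟨f x, ⟨x, hx, rfl⟩, by rw [dist_comm]; linarith [hκ.2]⟩
  exact h3 h4 hy

/-- **REL4.** -/
theorem m_REL4 (hSTR2 : StSTR2) (hMOVE : StMOVE) (hFREE : StFREE) (hHAT : StHATn) (hBAS : StBAS)
    (hNRB : StNRB) (hHCL : StHCL) (hMWL : StMWL) (hT2 : StT2) (hCI : StCI) : StREL4 := by
  intro n F Fi φ φ' U h W l N hW hF hFi hU hsU hE hT hi1 hi2 hh h1 h0 hoff hN hN01 hNoff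
  obtain ⟨cid, cs, cself, ct, cc, cinv, cex, -⟩ := hCI _ _ 𝓘(ℝ, R4) R4
  have tself := (hT2 _ _ 𝓘(ℝ, R4) R4).2.2.2.2.2.2
  obtain ⟨K, b, U₁, V, hU₁, hsU₁, hK, hV, hsV, hKV, hb1, hb2, hKb, hKF⟩ := hSTR2 U hU hsU
  obtain ⟨Ψ, hΨc, hΨ0, hΨ1, hΨoff⟩ := hMOVE F (1 / 2) b hF (by constructor <;> norm_num) ⟨hb1, hb2⟩
  -- the stretched germs
  have hF₁ : EmbOn I4 (fun p => F (K p)) SP := (hKF F hF).1
  have hG : ∀ i, EmbOn I4 (fun p => Fi i (K p)) SP := fun i => (hKF _ (hFi i)).1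
  have hEG : ∀ i, EqOn (fun p => F (K p)) (fun p => Fi i (K p)) V := fun i p hp => hE i (hKV p hp)
  have hTG : ∀ i, Thin I4 (fun p => Fi i (K p)) (φ i) := fun i => (hKF _ (hFi i)).2 _ (hT i)
  have hbp : bp (fun p => F (K p)) = F (bar b) := by
    show F (K (bar (73 / 100))) = F (bar b)
    rw [hKb]
  have him : (fun p => F (K p)) '' sph 1 = F '' sph 1 :=
    image_congr fun p hp => by rw [hK p (hsU₁ (Or.inr hp))]
  -- the homotopies with moved base points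
  let k : Fin n → ℝ × R3 → R4 := fun i z =>
    if z.1 ≤ 1 / 2 then Ψ (1 - 2 * z.1, h i (0, z.2)) else h i (2 * z.1 - 1, z.2)
  have ka : ∀ i, ∀ u ∈ Icc (0 : ℝ) (1 / 2), ∀ m ∈ S2, k i (u, m) = Ψ (1 - 2 * u, h i (0, m)) :=
    fun i u hu m _ => if_pos hu.2
  have kb : ∀ i, ∀ u ∈ Icc (1 / 2 : ℝ) 1, ∀ m ∈ S2, k i (u, m) = h i (2 * u - 1, m) := by
    intro i u hu m hm
    by_cases h2 : u ≤ 1 / 2
    · have h3 : u = 1 / 2 := le_antisymm h2 hu.1
      subst h3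
      rw [ka i _ ⟨by norm_num, le_rfl⟩ m hm]
      have e1 : (1 - 2 * (1 / 2) : ℝ) = 0 := by norm_num
      have e2 : (2 * (1 / 2) - 1 : ℝ) = 0 := by norm_num
      rw [e1, e2, hΨ0]
    · exact if_neg h2
  have kc : ∀ i, ContinuousOn (k i) (Icc (0 : ℝ) 1 ×ˢ S2) := by
    intro i
    have e : Icc (0 : ℝ) 1 ×ˢ S2 = (Icc 0 (1 / 2) ×ˢ S2) ∪ (Icc (1 / 2) 1 ×ˢ S2) := by
      rw [← Set.union_prod, Icc_union_Icc_eq_Icc (by norm_num) (by norm_num)]
    rw [e]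
    refine ContinuousOn.union_of_isClosed ?_ ?_ (isClosed_Icc.prod isCompact_S2.isClosed)
      (isClosed_Icc.prod isCompact_S2.isClosed)
    · refine ContinuousOn.congr (f := fun z : ℝ × R3 => Ψ (1 - 2 * z.1, h i (0, z.2))) ?_ ?_
      · refine hΨc.comp_continuousOn ?_
        refine ContinuousOn.prodMk (Continuous.continuousOn (by fun_prop)) ?_
        refine (hh i).comp (Continuous.continuousOn (by fun_prop)) ?_
        rintro ⟨u, m⟩ hz
        exact ⟨⟨le_rfl, zero_le_one⟩, hz.2⟩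
      · rintro ⟨u, m⟩ hz
        exact ka i u hz.1 m hz.2
    · refine ContinuousOn.congr (f := fun z : ℝ × R3 => h i (2 * z.1 - 1, z.2)) ?_ ?_
      · refine (hh i).comp (Continuous.continuousOn (by fun_prop)) ?_
        rintro ⟨u, m⟩ hz
        have hz1 : 1 / 2 ≤ u ∧ u ≤ 1 := hz.1
        exact ⟨⟨by show (0 : ℝ) ≤ 2 * u - 1; linarith, by show 2 * u - 1 ≤ (1 : ℝ); linarith⟩, hz.2⟩
      · rintro ⟨u, m⟩ hz
        exact kb i u hz.1 m hz.2
  have k1 : ∀ i, ∀ m ∈ S2, k i (1, m) = (fun p => Fi i (K p)) (1 / 2, (1 / 5 : ℝ) • m) := by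
    intro i m hm
    rw [kb i 1 ⟨by norm_num, le_rfl⟩ m hm]
    have e1 : (2 * 1 - 1 : ℝ) = 1 := by norm_num
    rw [e1, h1 i m hm]
    show _ = Fi i (K _)
    rw [hK _ (hsU₁ (Or.inl (cuff_mem hm)))]
  have k0 : ∀ i, k i (0, (1, 0)) = bp (fun p => F (K p)) := by
    intro i
    rw [ka i 0 ⟨le_rfl, by norm_num⟩ _ base_mem_S2, h0 i, hbp]
    have e1 : (1 - 2 * 0 : ℝ) = 1 := by norm_num
    rw [e1, hΨ1]
  have koff : ∀ i, ∀ u ∈ Icc (0 : ℝ) 1, ∀ m ∈ S2, k i (u, m) ∉ (fun p => F (K p)) '' sph 1 := by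
    intro i u hu m hm
    rw [him]
    rcases le_total u (1 / 2) with h2 | h2
    · rw [ka i u ⟨hu.1, h2⟩ m hm]
      exact hΨoff _ _ (hoff i 0 ⟨le_rfl, zero_le_one⟩ m hm)
    · rw [kb i u ⟨h2, hu.2⟩ m hm]
      exact hoff i _ ⟨by linarith, by linarith [hu.2]⟩ m hm
  -- the germs with the right bars
  choose G φ₂ V₂ H hG₂ hV₂ hsV₂ hE₂ hT₂ hor hHc hH0 hH1 hHb hHoff using fun i =>
    hFREE (fun p => F (K p)) (fun p => Fi i (K p)) V W (φ i) (k i) hW hF₁ (hG i) hV hsV (hEG i)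
      (hTG i) (kc i) (k1 i) (k0 i) (koff i)
  -- constants
  choose κb hκb εb hεb hbas using fun i => hBAS (fun p => F (K p)) (G i) (V₂ i) hF₁ (hG₂ i) (hV₂ i)
    (hsV₂ i) (hE₂ i)
  have hAc : IsCompact (F '' sph 1) := by
    have h1 : IsCompact (sph 1) := by
      refine hS4.2.2.2.2.2.2.2.2.1.of_isClosed_subset ?_ (fun p hp => Or.inl (Or.inr hp))
      apply IsClosed.inter (isClosed_eq continuous_fst continuous_const)
      exact isClosed_eq (continuous_rsq 1) continuous_const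
    exact h1.image_of_continuousOn
      ((embOn_continuousOn hF).mono fun p hp => Or.inl (Or.inr hp))
  have hbox : IsCompact (Icc (0 : ℝ) 1 ×ˢ (Icc (0 : ℝ) 1 ×ˢ Icc (9 / 20 : ℝ) (11 / 20))) :=
    isCompact_Icc.prod (isCompact_Icc.prod isCompact_Icc)
  obtain ⟨κ, hκ0, hκ1, hκ2, hκ3⟩ : ∃ κ : ℝ, 0 < κ ∧ (∀ i, κ ≤ κb i) ∧
      (∀ i, ∀ z ∈ Icc (0 : ℝ) 1 ×ˢ S2, ∀ y ∈ F '' sph 1, 2 * κ ≤ dist (H i z) y) ∧
      ∀ z ∈ Icc (0 : ℝ) 1 ×ˢ (Icc (0 : ℝ) 1 ×ˢ Icc (9 / 20 : ℝ) (11 / 20)), ∀ y ∈ F '' sph 1,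
        2 * κ ≤ dist (Ψ (1, N z)) y := by
    have a1 : ∀ᶠ κ in 𝓝[>] (0 : ℝ), ∀ i, κ ≤ κb i := eventually_all.2 fun i => by
      filter_upwards [Ioo_mem_nhdsGT (hκb i)] with κ hκ
      exact hκ.2.le
    have a2 : ∀ᶠ κ in 𝓝[>] (0 : ℝ), ∀ i, ∀ z ∈ Icc (0 : ℝ) 1 ×ˢ S2, ∀ y ∈ F '' sph 1,
        2 * κ ≤ dist (H i z) y := eventually_all.2 fun i =>
      margin (isCompact_Icc.prod isCompact_S2) (hHc i) hAc (by
        rintro ⟨u, m⟩ hz
        have := hHoff i u hz.1 m hz.2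
        rwa [him] at this)
    have a3 := margin (f := fun z => Ψ (1, N z)) hbox
      (hΨc.comp_continuousOn (continuousOn_const.prodMk hN)) hAc (by
        rintro ⟨u, q, s⟩ hz
        exact hΨoff _ _ (hNoff u hz.1 q hz.2.1 s hz.2.2).1)
    obtain ⟨κ, b1, b2, b3, b4⟩ := (a1.and (a2.and (a3.and self_mem_nhdsWithin))).exists
    exact ⟨κ, b4, b1, b2, b3⟩
  have e1 := near_iff.1 (hHAT (Fin n) (fun p => F (K p)) G φ₂ (⋂ i, V₂ i) hF₁ hG₂
    (isOpen_iInter_of_finite hV₂) (subset_iInter hsV₂)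
    (fun i p hp => hE₂ i (mem_iInter.1 hp i)) hT₂ κ hκ0)
  have e2 : ∀ᶠ ε in 𝓝[>] (0 : ℝ), ∀ i, ε ∈ Ioo 0 (εb i) := eventually_all.2 fun i =>
    Ioo_mem_nhdsGT (hεb i)
  have e3 := near_iff.1 (hNRB (fun p => F (K p)) hF₁ κ hκ0)
  obtain ⟨ε, f1, f2, f3⟩ := (e1.and (e2.and e3)).exists
  obtain ⟨D, hm₀, hm₁, -, -, hDU, hDc, hcl⟩ := f1
  have hnear : ∀ s ∈ Icc D.m₀ D.m₁, dist (D.c s) (bp (fun p => F (K p))) ≤ κ := by
    intro s hs
    rw [hm₀, hm₁] at hs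
    have hs' : s ∈ Icc (3 / 10 : ℝ) (7 / 10) := ⟨by linarith [hs.1], by linarith [hs.2]⟩
    rw [hDc s hs']
    exact f3 s hs'
  have hinU : ∀ x : R4, (∀ y ∈ F '' sph 1, 2 * κ ≤ dist x y) → ∀ s ∈ Icc D.m₀ D.m₁,
      x + (D.c s - bp (fun p => F (K p))) ∈ D.U := by
    intro x hx s hs
    by_contra hcon
    obtain ⟨y, hy, hd⟩ := hDU _ hcon
    rw [him] at hy
    have h1 := hx y hy
    have h2 := hnear s hs
    have h3 : dist x (x + (D.c s - bp (fun p => F (K p)))) ≤ κ := by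
      rw [dist_eq_norm] at h2 ⊢
      rw [show x - (x + (D.c s - bp (fun p => F (K p)))) = -(D.c s - bp (fun p => F (K p))) by abel,
        norm_neg]
      exact h2
    have h4 := dist_triangle x (x + (D.c s - bp (fun p => F (K p)))) y
    linarith
  obtain ⟨hnil, hcat, hinv, hhom, hcls, hself, hrel⟩ := hHCL D (bp (fun p => F (K p)))
  have hsc : Continuous fun s => D.c s := D.smooth.continuous
  -- the classes of the based spheres
  have hgen : ∀ i, HasCl D (bp (fun p => F (K p))) (fun q s => Ψ (1, h i (0, mm q s))) (φ₂ i) := by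
    intro i
    obtain ⟨c1, c2⟩ := hbas i ε (f2 i) D hm₀ hm₁ hDc (fun x hx => by
      obtain ⟨y, hy, hd⟩ := hDU x hx
      exact ⟨y, hy, hd.trans_le (hκ1 i)⟩)
    refine hhom (fun q s => G i (nu (mm q s))) _ _ ⟨_, c1, hcl i, c2⟩
      ⟨fun z => H i (1 - z.1, mm z.2.1 z.2.2) + (D.c z.2.2 - bp (fun p => F (K p))), ?_, ?_, ?_⟩
    · refine ContinuousOn.add ?_ (Continuous.continuousOn ?_)
      · refine (hHc i).comp (Continuous.continuousOn ?_) ?_
        · exact (continuous_const.sub continuous_fst).prodMk (continuous_mm.comp continuous_snd)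
        · rintro ⟨u, q, s⟩ hz
          have hz1 : 0 ≤ u ∧ u ≤ 1 := hz.1
          exact ⟨⟨by show (0 : ℝ) ≤ 1 - u; linarith, by show 1 - u ≤ (1 : ℝ); linarith⟩, mm_S2 _ _⟩
      · exact (hsc.comp (continuous_snd.comp continuous_snd)).sub continuous_const
    · intro q hq s hs
      constructor
      · show H i (1 - 0, mm q s) + _ = G i (nu (mm q s)) + _
        rw [sub_zero, hH1 i _ (mm_S2 q s)]
      · show H i (1 - 1, mm q s) + _ = Ψ (1, h i (0, mm q s)) + _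
        rw [sub_self, hH0 i _ (mm_S2 q s), ka i 0 ⟨le_rfl, by norm_num⟩ _ (mm_S2 q s)]
        norm_num
    · intro u hu q hq s hs
      have hu' : 1 - u ∈ Icc (0 : ℝ) 1 := ⟨by linarith [hu.2], by linarith [hu.1]⟩
      refine ⟨hinU _ (hκ2 i (1 - u, mm q s) ⟨hu', mm_S2 q s⟩) s hs, fun hbd => ?_⟩
      have hmm : mm q s = (1, 0) := by
        rw [hm₀, hm₁] at hbd
        rcases hbd with h | h | h | h
        · exact mm_ends q s (Or.inl h)
        · exact mm_ends q s (Or.inr h)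
        · exact mm_edge q s (Or.inl h.le)
        · exact mm_edge q s (Or.inr h.ge)
      show H i (1 - u, mm q s) + _ = _
      rw [hmm, hHb i _ hu']
      abel
  choose φ₃ hφ₃ j1 j2 using fun i => cex (φ₂ i) (tself _ _ (hT₂ i))
  have hword : ∀ l, HasCl D (bp (fun p => F (K p)))
      (evS (bp (fun p => F (K p))) (fun i m => Ψ (1, h i (0, m))) l) (evD φ₂ φ₃ l) := by
    intro l
    induction l with
    | nil => exact hnil
    | cons p l ih =>
      obtain ⟨i, b⟩ := p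
      rcases b with _ | _
      · exact hcat (fun q s => Ψ (1, h i (0, mm (1 - q) s))) _ (φ₃ i) (evD φ₂ φ₃ l)
          (hinv (fun q s => Ψ (1, h i (0, mm q s))) (φ₂ i) (φ₃ i) (hgen i) (j1 i) (j2 i)) ih
      · exact hcat (fun q s => Ψ (1, h i (0, mm q s))) _ (φ₂ i) (evD φ₂ φ₃ l) (hgen i) ih
  have hb : bp (fun p => F (K p)) = Ψ (1, F (bar (1 / 2))) := by rw [hΨ1, hbp]
  have hev : ∀ q s, evS (bp (fun p => F (K p))) (fun i m => Ψ (1, h i (0, m))) l q s =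
      Ψ (1, evS (F (bar (1 / 2))) (fun i m => h i (0, m)) l q s) := by
    intro q s
    rw [hb]
    exact evS_map (fun x => Ψ (1, x)) (F (bar (1 / 2))) (fun i m => h i (0, m)) l q s
  have hfin : HasCl D (bp (fun p => F (K p))) (fun _ _ => bp (fun p => F (K p)))
      (evD φ₂ φ₃ l) := by
    refine hhom _ _ _ (hword l)
      ⟨fun z => Ψ (1, N z) + (D.c z.2.2 - bp (fun p => F (K p))), ?_, ?_, ?_⟩
    · rw [hm₀, hm₁]
      refine ContinuousOn.add (hΨc.comp_continuousOn (continuousOn_const.prodMk hN))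
        (Continuous.continuousOn ?_)
      exact (hsc.comp (continuous_snd.comp continuous_snd)).sub continuous_const
    · intro q hq s hs
      rw [hm₀, hm₁] at hs
      obtain ⟨a1, a2⟩ := hN01 q hq s hs
      constructor
      · show Ψ (1, N (0, q, s)) + _ = evS _ _ l q s + _
        rw [a1, hev]
      · show Ψ (1, N (1, q, s)) + _ = bp (fun p => F (K p)) + _
        rw [a2, hb]
    · intro u hu q hq s hs
      have hs' := hs
      rw [hm₀, hm₁] at hs'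
      refine ⟨hinU _ (hκ3 (u, q, s) ⟨hu, hq, hs'⟩) s hs, fun hbd => ?_⟩
      rw [hm₀, hm₁] at hbd
      show Ψ (1, N (u, q, s)) + _ = _
      rw [(hNoff u hu q hq s hs').2 hbd, ← hb]
      abel
  have hor2 := hrel W _ _ _ hW hfin hnil
  -- conclusion
  have hφs : ∀ i, CIsot I4 (φ i) (φ i) := fun i => tself _ _ (hT i)
  have hφs' : ∀ i, CIsot I4 (φ' i) (φ' i) := fun i => cinv _ _ _ _ (hφs i) (hi1 i) (hi1 i)
  have hφ₂s : ∀ i, CIsot I4 (φ₂ i) (φ₂ i) := fun i => tself _ _ (hT₂ i)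
  have r1 : RW W (evD φ₂ φ₃ l) (evD φ φ' l) := evD_rw hT2 hCI hMWL hW hφs hφs' hor
    (fun i => rw_inv hT2 hCI hMWL hW (hor i) (hφs i) (j1 i) (hi1 i)) l
  have r2 : RW W (fun x => x) (evD φ₂ φ₃ l) := hor2
  have sD := evD_self hCI hφs hφs' l
  have r3 : RW W (fun x => x) (evD φ φ' l) := rw_trans hT2 hCI hW sD r2 r1
  exact rw_symm hT2 hCI hW sD r3

end Pool.Agent.Helper18.BI.R
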