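import Pool.Agent.Helper18.BI.R.StR
import Pool.Agent.Helper18.BI.AsmA
import Pool.Agent.Helper70.BI.M_RM
import Pool.Agent.Helper70.BI.M_RG

/-!
# Project BI, stage 4 (R), module STR2: stretching the bar, the same for all germs
-/

set_option autoImplicit false

open scoped Manifold ContDiff Topology ComplexConjugate
open Set Pool.Agent.Helper65.Barb Pool.Agent.Helper18.BI
open Pool.Agent.Helper18.BI.H

namespace Pool.Agent.Helper18.BI.R

open Pool.Agent.Helper70.BI (ax repm RepOK StRM StRG m_RM m_RG stFam_of I4)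

namespace STR2

/-- the reparametrization -/
private theorem exists_rep {r : ℝ} (h0 : 0 < r) (h1 : r ≤ 1 / 20) : ∃ m : ℝ → ℝ, RepOK m ∧
    (∀ a, (a ≤ 1 / 4 ∨ 4 / 5 - r / 4 ≤ a) → m a = a) ∧ m (59 / 100) = 4 / 5 - r := by
  obtain ⟨m, hm1, hm2, hm3, η, hη, hm4⟩ := m_RM.1 (1 / 4) (4 / 5 - r / 4) (59 / 100) (4 / 5 - r)
    (fun a => a + (4 / 5 - r - 59 / 100)) (by norm_num) (by linarith) (by linarith) (by linarith)
    (Filter.Eventually.of_forall fun a => by fun_prop) (by ring) (by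
      have : HasDerivAt (fun a : ℝ => a + (4 / 5 - r - 59 / 100)) 1 (59 / 100) :=
        (hasDerivAt_id _).add_const _
      rw [this.deriv]
      norm_num)
  have hid : ∀ a, (a ≤ 1 / 4 ∨ 4 / 5 - r / 4 ≤ a) → m a = a := by
    intro a ha
    apply hm4
    rcases ha with ha | ha
    · left; linarith
    · right; linarith
  refine ⟨m, ⟨hm1, hm2, r / 4, by linarith, fun a ha => hid a ?_⟩, hid, ?_⟩
  · rcases ha with ha | ha
    · left; linarith
    · right; exact ha
  · have h := hm3.self_of_nhds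
    rw [h]
    ring

private theorem ax_of_neck {p : R4} (hp : p ∈ neck) : p = ax p.2.1 := by
  obtain ⟨h1, -, -, h4⟩ := hp
  exact Prod.ext h1 (Prod.ext rfl h4)

end STR2

open STR2

theorem m_STR2 : StSTR2 := by
  intro U hU h1U
  have hRG : StRG := m_RG (stFam_of hT2)
  -- the size of the neighbourhood
  have hax : Continuous ax := by
    unfold ax
    fun_prop
  have h45 : ax (4 / 5) ∈ U := by
    apply h1U
    refine ⟨rfl, ?_⟩
    simp only [rsq, nsq, ax]
    norm_num
  have hnh : ax ⁻¹' U ∈ 𝓝 (4 / 5 : ℝ) := hax.continuousAt.preimage_mem_nhds (hU.mem_nhds h45)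
  obtain ⟨δ, hδ, hball⟩ := Metric.mem_nhds_iff.1 hnh
  obtain ⟨r, hr0, hr1, hrδ⟩ : ∃ r : ℝ, 0 < r ∧ r ≤ 1 / 20 ∧ r < δ :=
    ⟨min (1 / 20) (δ / 2), lt_min (by norm_num) (by linarith), min_le_left _ _,
      lt_of_le_of_lt (min_le_right _ _) (by linarith)⟩
  have hUr : ∀ a, 4 / 5 - r ≤ a → a ≤ 4 / 5 → ax a ∈ U := by
    intro a h1 h2
    apply hball
    rw [Metric.mem_ball, Real.dist_eq, abs_lt]
    constructor <;> linarith
  obtain ⟨m, hm, hid, hmx⟩ := exists_rep hr0 hr1
  obtain ⟨-, hmax, -, hends, hmono, hG⟩ := hRG m hm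
  have hfix : ∀ p : R4, (p.2.1 ≤ 1 / 4 ∨ 4 / 5 - r / 4 ≤ p.2.1) → repm m p = p := by
    intro p hp
    show (p.1, (m p.2.1, p.2.2)) = p
    rw [hid _ hp]
  have hcont : Continuous (repm m) := by
    have hmc : Continuous m := hm.1.continuous
    show Continuous fun p : R4 => (p.1, (m p.2.1, p.2.2))
    fun_prop
  have hs1 : ∀ p ∈ sph 1, 4 / 5 ≤ p.2.1 := by
    intro p hp
    have h1 := sq_le_rsq_one p
    have h2 := hp.2
    nlinarith
  have hs0 : ∀ p ∈ sph 0, p.2.1 ≤ 1 / 5 := by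
    intro p hp
    have h1 := sq_le_rsq p
    have h2 := hp.2
    nlinarith
  refine ⟨repm m, m (73 / 100),
    {p | p.2.1 < 1 / 4} ∪ {p | 4 / 5 - r / 4 < p.2.1}, repm m ⁻¹' U,
    ?_, ?_, ?_, hU.preimage hcont, ?_, fun p hp => hp, ?_, ?_, rfl,
    fun F hF => ⟨(hG F hF).1, fun φ => ((hG F hF).2 φ).1⟩⟩
  · have hc : Continuous fun p : R4 => p.2.1 := by fun_prop
    exact (isOpen_lt hc continuous_const).union (isOpen_lt continuous_const hc)
  · rintro p (hp | hp)
    · left
      show p.2.1 < 1 / 4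
      have := hs0 p hp
      linarith
    · right
      show 4 / 5 - r / 4 < p.2.1
      have := hs1 p hp
      linarith
  · intro p hp
    rcases hp with hp | hp
    · exact hfix p (Or.inl (le_of_lt hp))
    · exact hfix p (Or.inr (le_of_lt hp))
  · rintro p (hp | hp)
    · show repm m p ∈ U
      rw [hfix p (Or.inr (by have := hs1 p hp; linarith))]
      exact h1U hp
    · show repm m p ∈ U
      obtain ⟨hp1, hp2⟩ := hp
      rw [ax_of_neck hp1, hmax]
      have h2 := hends p.2.1 ⟨by linarith, hp1.2.2.1⟩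
      refine hUr _ ?_ h2.2
      have h3 : m (59 / 100) < m p.2.1 := hmono (by linarith)
      rw [hmx] at h3
      exact h3.le
  · have h := hmono (show (1 / 5 : ℝ) < 73 / 100 by norm_num)
    rwa [hid (1 / 5) (Or.inl (by norm_num))] at h
  · have h := hmono (show (73 / 100 : ℝ) < 4 / 5 by norm_num)
    rwa [hid (4 / 5) (Or.inr (by linarith))] at h

end Pool.Agent.Helper18.BI.R
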