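import Pool.Agent.Helper18.BI.R.StR
import Pool.Agent.Helper18.BI.AsmA

/-!
# Project BI, stage 4 (R), module TOPG: free homotopy of spheres to based homotopy of whiskered spheres
-/

set_option autoImplicit false

open scoped Manifold ContDiff Topology ComplexConjugate
open Set Pool.Agent.Helper18.BI
open Pool.Agent.Helper65.Barb hiding nu
open Pool.Agent.Helper70.BI (I4 IsW MW)
open Pool.Agent.Helper18.BI.H

namespace Pool.Agent.Helper18.BI.R

namespace TOPG

private theorem TOPG_sqp (x : ℝ) (h : 0 ≤ x) : √(x ^ 2 + 0 ^ 2) = x := by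
  rw [zero_pow two_ne_zero, add_zero, Real.sqrt_sq h]

private theorem TOPG_sqn (x : ℝ) (h : x ≤ 0) : √(x ^ 2 + 0 ^ 2) = -x := by
  rw [zero_pow two_ne_zero, add_zero, Real.sqrt_sq_eq_abs, abs_of_nonpos h]

private theorem TOPG_sqa (x : ℝ) : √(x ^ 2 + 0 ^ 2) = |x| := by
  rw [zero_pow two_ne_zero, add_zero, Real.sqrt_sq_eq_abs]

private theorem TOPG_sq5 (a : ℝ) (h : 1 / 5 ≤ a) : 1 / 25 - a ^ 2 ≤ 0 := by
  have h1 := mul_nonneg (sub_nonneg.2 h) (sub_nonneg.2 h)
  linarith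

/-- the compression over the axis between the cuffs -/
private theorem sq_bar_topg (a : ℝ) (w : ℂ) (h1 : 1 / 5 ≤ a) (h2 : a ≤ 4 / 5) :
    sq 0 (1 / 2, (a, w)) = bar a := by
  have hp : prof 0 a = 0 := by
    unfold prof
    have h3 : 1 / 25 - (a - 1) ^ 2 ≤ 0 := by
      rw [sub_sq_comm]
      exact TOPG_sq5 (1 - a) (by linarith)
    rw [TOPG_sqn _ (TOPG_sq5 a h1), TOPG_sqn _ h3, add_neg_cancel, add_neg_cancel, zero_div,
      add_zero]
  have hf : ∀ k : ℝ, fac 0 a k = 0 := by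
    intro k
    unfold fac
    rw [hp, mul_zero, zero_div, Real.sqrt_zero]
  have ha : axc 0 a = a := by
    unfold axc
    rw [TOPG_sqp (a + 1 / 5) (by linarith), TOPG_sqn (a - 6 / 5) (by linarith)]
    ring
  unfold sq bar
  simp only [hf, ha, zero_mul, add_zero, Complex.ofReal_zero]

private theorem axc_le_topg (a : ℝ) (h2 : a ≤ 1 / 5) : axc 0 a ≤ 1 / 5 := by
  unfold axc
  have e1 : √((a + 1 / 5) ^ 2 + 0 ^ 2) ≤ 3 / 5 - a := by
    rw [TOPG_sqa]
    exact abs_le.2 ⟨by linarith, by linarith⟩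
  rw [TOPG_sqn (a - 6 / 5) (by linarith)]
  linarith

/-- the axial compression preserves the sign -/
private theorem axc_sign_topg (a : ℝ) (h2 : a ≤ 1 / 5) : 0 ≤ a * axc 0 a := by
  unfold axc
  rw [TOPG_sqn (a - 6 / 5) (by linarith)]
  rcases le_total (-(1 / 5)) a with h3 | h3
  · rw [TOPG_sqp (a + 1 / 5) (by linarith)]
    have e : 1 / 2 + (a + 1 / 5 - -(a - 6 / 5)) / 2 = a := by ring
    rw [e]
    exact mul_self_nonneg a
  · rw [TOPG_sqn (a + 1 / 5) (by linarith)]
    have e : 1 / 2 + (-(a + 1 / 5) - -(a - 6 / 5)) / 2 = -(1 / 5) := by ring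
    rw [e]
    linarith

private theorem fst_le_topg (m : R3) (hm : nsq m = 1) : m.1 ≤ 1 := by
  have h2 : m.1 ^ 2 ≤ 1 ^ 2 := by
    unfold nsq at hm
    linarith [sq_nonneg m.2.re, sq_nonneg m.2.im]
  exact (abs_le_of_sq_le_sq' h2 zero_le_one).2

private theorem nsq_smul_topg (c : ℝ) (x : R3) : nsq (c • x) = c ^ 2 * nsq x := by
  unfold nsq
  simp only [Prod.smul_fst, Prod.smul_snd, smul_eq_mul, Complex.real_smul, Complex.mul_re,
    Complex.mul_im, Complex.ofReal_re, Complex.ofReal_im, zero_mul, sub_zero, add_zero]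
  ring

private theorem TOPG_nsq1 (x : R3) : nsq (x.1 - 1, x.2) = nsq x - 2 * x.1 + 1 := by
  unfold nsq
  ring

private theorem TOPG_rsq1 (p : R4) (h : p.2.1 ≤ 1 / 5) : rsq 1 p ≠ 1 / 25 := by
  intro h3
  have h1 := mul_nonneg (sub_nonneg.2 h) (sub_nonneg.2 h)
  unfold rsq nsq at h3
  linarith [sq_nonneg p.2.2.re, sq_nonneg p.2.2.im]

private theorem nu_eq_topg (m : R3) :
    nu m = sq 0 (((1 / 2, (73 / 100 * m.1, ((73 : ℝ) / 100) • m.2)) : R4)) := by
  unfold nu
  congr 1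

private theorem nu_bar_topg (m : R3) (hm : nsq m = 1) (h : 1 / 5 ≤ 73 / 100 * m.1) :
    nu m = bar (73 / 100 * m.1) := by
  have h1 := fst_le_topg m hm
  rw [nu_eq_topg]
  exact sq_bar_topg _ _ h (by linarith)

private theorem nu_fst_topg (m : R3) : (nu m).1 = 1 / 2 := by
  rw [nu_eq_topg]
  unfold sq
  simp

private theorem nu_ax_topg (m : R3) : (nu m).2.1 = axc 0 (73 / 100 * m.1) := by
  rw [nu_eq_topg]
  rfl

private theorem nu_tr_topg (m : R3) : ∃ c : ℝ, 0 ≤ c ∧ (nu m).2.2 = (c : ℂ) * m.2 := by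
  refine ⟨fac 0 (73 / 100 * m.1) (Complex.normSq (((73 : ℝ) / 100) • m.2)) * (73 / 100), ?_, ?_⟩
  · refine mul_nonneg ?_ (by norm_num)
    unfold fac
    exact Real.sqrt_nonneg _
  · rw [nu_eq_topg]
    show ((fac 0 (73 / 100 * m.1) (Complex.normSq (((73 : ℝ) / 100) • m.2)) : ℝ) : ℂ) *
      (((73 : ℝ) / 100) • m.2) = _
    rw [Complex.real_smul, Complex.ofReal_mul]
    ring

private theorem nu_sph_topg (m : R3) (hm : nsq m = 1) (h : 73 / 100 * m.1 ≤ 1 / 5) :
    nu m ∈ sph 0 := by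
  have hx : (((1 / 2, (73 / 100 * m.1, ((73 : ℝ) / 100) • m.2)) : R4)) ∈ Ext := by
    have h8 : nsq (((73 : ℝ) / 100) • m) = 73 / 100 * (73 / 100) := by
      rw [nsq_smul_topg, hm, mul_one, pow_two]
    have h9 : nsq (73 / 100 * m.1 - 1, ((73 : ℝ) / 100) • m.2) =
        nsq (((73 : ℝ) / 100) • m) - 2 * (73 / 100 * m.1) + 1 := TOPG_nsq1 (((73 : ℝ) / 100) • m)
    refine ⟨?_, ?_⟩
    · show ((1 : ℝ) / 5) ^ 2 ≤ nsq (73 / 100 * m.1 - 0, ((73 : ℝ) / 100) • m.2)
      rw [sub_zero]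
      show ((1 : ℝ) / 5) ^ 2 ≤ nsq (((73 : ℝ) / 100) • m)
      rw [h8]
      norm_num
    · show ((1 : ℝ) / 5) ^ 2 ≤ nsq (73 / 100 * m.1 - 1, ((73 : ℝ) / 100) • m.2)
      rw [h9, h8]
      linarith
  have hs : nu m ∈ SP := by
    rw [nu_eq_topg]
    exact hS4.1 _ hx
  have ha : (nu m).2.1 ≤ 1 / 5 := by
    rw [nu_ax_topg]
    exact axc_le_topg _ h
  rcases hs with (h0 | h1) | h2
  · exact h0
  · exfalso
    exact TOPG_rsq1 _ ha h1.2
  · obtain ⟨h3, h4, h5, h6⟩ := h2
    refine ⟨h3, ?_⟩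
    have h7 : (nu m).2.1 = 1 / 5 := le_antisymm ha h4
    unfold rsq nsq
    rw [h6, h7]
    norm_num

private theorem nu_foot_topg (m : R3) (hm : nsq m = 1) (h : 73 / 100 * m.1 = 1 / 5) :
    nu m = foot0 := by
  rw [nu_bar_topg m hm h.ge, h]
  rfl

private theorem nu_cont_topg : Continuous nu := by
  have h : ContinuousOn ((fun q : ℝ × R4 => sq q.1 q.2) ∘
      fun m : R3 => (((0 : ℝ), ((1 : ℝ) / 2, ((73 : ℝ) / 100) • m)) : ℝ × R4)) univ :=
    hS3.comp (by fun_prop) (fun m _ => ⟨self_mem_Ici, mem_univ _⟩)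
  exact continuousOn_univ.1 h

private theorem bar_mem_topg (a : ℝ) (h1 : 1 / 5 ≤ a) (h2 : a ≤ 4 / 5) : bar a ∈ SP :=
  Or.inr ⟨rfl, h1, h2, rfl⟩

private theorem nu_mem_topg (m : R3) (hm : nsq m = 1) : nu m ∈ SP := by
  rcases le_total (73 / 100 * m.1) (1 / 5) with h | h
  · exact Or.inl (Or.inl (nu_sph_topg m hm h))
  · rw [nu_bar_topg m hm h]
    exact bar_mem_topg _ h (by linarith [fst_le_topg m hm])

private theorem nu_notMem_topg (m : R3) (hm : nsq m = 1) : nu m ∉ sph 1 := by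
  intro h1
  have h3 : rsq 1 (nu m) = 1 / 25 := h1.2
  rcases le_total (73 / 100 * m.1) (1 / 5) with h | h
  · have ha : (nu m).2.1 ≤ 1 / 5 := by
      rw [nu_ax_topg]
      exact axc_le_topg _ h
    exact TOPG_rsq1 _ ha h3
  · rw [nu_bar_topg m hm h] at h3
    have h4 := fst_le_topg m hm
    have h5 := mul_nonneg (sub_nonneg.2 h4) (sub_nonneg.2 h4)
    unfold rsq nsq bar at h3
    simp only [Complex.zero_re, Complex.zero_im] at h3
    nlinarith

private theorem emb_cont_topg (F : R4 → R4) (hF : EmbOn I4 F SP) : ContinuousOn F SP := by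
  intro p hp
  obtain ⟨Φ, h1, h2⟩ := hF.1 p hp
  have h3 : ContinuousOn F Φ.source := Φ.contMDiffOn_toFun.continuousOn.congr h2
  exact (h3.continuousAt (Φ.open_source.mem_nhds h1)).continuousWithinAt

private theorem bar_cont_topg : Continuous bar := by
  unfold bar
  fun_prop

private theorem nsq_cont_topg : Continuous nsq := by
  unfold nsq
  fun_prop

/-! ### the retraction of the sphere -/

/-- the sphere is mapped to itself, the cap around `(1, 0)` is contracted to a point -/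
private noncomputable def Rm (m : R3) : R3 := (min 1 (5 * (nu m).2.1), (5 : ℝ) • (nu m).2.2)

private theorem Rm_cont : Continuous Rm := by
  have h := nu_cont_topg
  have h1 : Continuous fun m : R3 => (nu m).2.1 := continuous_fst.comp (continuous_snd.comp h)
  have h2 : Continuous fun m : R3 => (nu m).2.2 := continuous_snd.comp (continuous_snd.comp h)
  exact (continuous_const.min (continuous_const.mul h1)).prodMk (h2.const_smul (5 : ℝ))

private theorem Rm_hi (m : R3) (hm : nsq m = 1) (h : 1 / 5 ≤ 73 / 100 * m.1) : Rm m = (1, 0) := by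
  unfold Rm
  rw [nu_bar_topg m hm h]
  unfold bar
  refine Prod.ext ?_ ?_
  · exact min_eq_left (by show (1 : ℝ) ≤ 5 * (73 / 100 * m.1); linarith)
  · simp

private theorem Rm_lo (m : R3) (h : 73 / 100 * m.1 ≤ 1 / 5) : Rm m = (5 : ℝ) • (nu m).2 := by
  have ha : (nu m).2.1 ≤ 1 / 5 := by
    rw [nu_ax_topg]
    exact axc_le_topg _ h
  unfold Rm
  rw [min_eq_right (by linarith)]
  rfl

private theorem nsq_Rm (m : R3) (hm : nsq m = 1) : nsq (Rm m) = 1 := by
  rcases le_total (73 / 100 * m.1) (1 / 5) with h | h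
  · rw [Rm_lo m h, nsq_smul_topg]
    have h1 : rsq 0 (nu m) = 1 / 25 := (nu_sph_topg m hm h).2
    have h2 : nsq (nu m).2 = rsq 0 (nu m) := by
      unfold rsq
      rw [sub_zero]
    rw [h2, h1]
    norm_num
  · rw [Rm_hi m hm h]
    unfold nsq
    norm_num

/-- the scalar product of `m` and `Rm m` is nonnegative -/
private theorem dot_Rm (m : R3) (hm : nsq m = 1) :
    0 ≤ m.1 * (Rm m).1 + m.2.re * (Rm m).2.re + m.2.im * (Rm m).2.im := by
  rcases le_total (73 / 100 * m.1) (1 / 5) with h | h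
  · obtain ⟨c, hc, e⟩ := nu_tr_topg m
    have h1 := axc_sign_topg _ h
    rw [← nu_ax_topg] at h1
    have e1 : (Rm m).1 = 5 * (nu m).2.1 := by
      rw [Rm_lo m h]
      rfl
    have e2 : (Rm m).2 = ((5 * c : ℝ) : ℂ) * m.2 := by
      rw [Rm_lo m h]
      show (5 : ℝ) • (nu m).2.2 = _
      rw [e, Complex.real_smul, Complex.ofReal_mul]
      ring
    rw [e1, e2]
    simp only [Complex.mul_re, Complex.mul_im, Complex.ofReal_re, Complex.ofReal_im, zero_mul,
      sub_zero, add_zero]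
    have h2 := mul_nonneg hc (add_nonneg (sq_nonneg m.2.re) (sq_nonneg m.2.im))
    linarith
  · rw [Rm_hi m hm h]
    simp only [Complex.zero_re, Complex.zero_im, mul_zero, add_zero, mul_one]
    linarith

/-- the segment from `m` to `Rm m` -/
private noncomputable def sg (x : ℝ × R3) : R3 := (1 - x.1) • x.2 + x.1 • Rm x.2

private theorem sg_pos (t : ℝ) (m : R3) (hm : nsq m = 1) (ht : t ∈ Icc (0 : ℝ) 1) :
    0 < nsq (sg (t, m)) := by
  have h1 := nsq_Rm m hm
  have h2 := dot_Rm m hm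
  have e : nsq (sg (t, m)) = (1 - t) ^ 2 * nsq m + t ^ 2 * nsq (Rm m) +
      2 * ((1 - t) * t) * (m.1 * (Rm m).1 + m.2.re * (Rm m).2.re + m.2.im * (Rm m).2.im) := by
    unfold sg nsq
    simp only [Prod.fst_add, Prod.snd_add, Prod.smul_fst, Prod.smul_snd, smul_eq_mul,
      Complex.real_smul, Complex.add_re, Complex.add_im, Complex.mul_re,
      Complex.mul_im, Complex.ofReal_re, Complex.ofReal_im, zero_mul, sub_zero, add_zero]
    ring
  rw [e, hm, h1]
  have h3 : 0 ≤ (1 - t) * t := mul_nonneg (by linarith [ht.2]) ht.1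
  have h4 : 0 ≤ 2 * ((1 - t) * t) *
      (m.1 * (Rm m).1 + m.2.re * (Rm m).2.re + m.2.im * (Rm m).2.im) :=
    mul_nonneg (by linarith) h2
  linarith [sq_nonneg (2 * t - 1)]

/-- the homotopy from the identity to `Rm` -/
private noncomputable def Rt (x : ℝ × R3) : R3 := (√(nsq (sg x)))⁻¹ • sg x

private theorem nsq_Rt (t : ℝ) (m : R3) (hm : nsq m = 1) (ht : t ∈ Icc (0 : ℝ) 1) :
    nsq (Rt (t, m)) = 1 := by
  have h := sg_pos t m hm ht
  unfold Rt
  rw [nsq_smul_topg, inv_pow, Real.sq_sqrt h.le]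
  exact inv_mul_cancel₀ h.ne'

private theorem Rt_zero (m : R3) (hm : nsq m = 1) : Rt (0, m) = m := by
  have e : sg (0, m) = m := by
    unfold sg
    simp
  unfold Rt
  rw [e, hm]
  simp

private theorem Rt_one (m : R3) (hm : nsq m = 1) : Rt (1, m) = Rm m := by
  have e : sg (1, m) = Rm m := by
    unfold sg
    simp
  unfold Rt
  rw [e, nsq_Rm m hm]
  simp

private theorem one_mem_topg : nsq ((1, 0) : R3) = 1 := by
  unfold nsq
  norm_num

private theorem Rm_base : Rm (1, 0) = (1, 0) :=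
  Rm_hi _ one_mem_topg (by norm_num)

private theorem Rt_base (t : ℝ) : Rt (t, (1, 0)) = (1, 0) := by
  have e : sg (t, (1, 0)) = (1, 0) := by
    unfold sg
    simp only [Rm_base]
    rw [← add_smul]
    simp
  unfold Rt
  rw [e, one_mem_topg]
  simp

/-! ### homotopies of based spheres -/

private theorem glue_topg {X Y : Type*} [TopologicalSpace X] [TopologicalSpace Y]
    {D C1 C2 : Set X} {H g1 g2 : X → Y} (hD : IsClosed D) (h1 : IsClosed C1) (h2 : IsClosed C2)
    (hc : D ⊆ C1 ∪ C2) (v1 : ∀ x ∈ D ∩ C1, H x = g1 x) (v2 : ∀ x ∈ D ∩ C2, H x = g2 x)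
    (c1 : ContinuousOn g1 (D ∩ C1)) (c2 : ContinuousOn g2 (D ∩ C2)) : ContinuousOn H D := by
  have e : D = (D ∩ C1) ∪ (D ∩ C2) := by
    rw [← inter_union_distrib_left, inter_eq_left.2 hc]
  rw [e]
  exact (c1.congr v1).union_of_isClosed (c2.congr v2) (hD.inter h1) (hD.inter h2)

private theorem D_closed_topg : IsClosed (Icc (0 : ℝ) 1 ×ˢ S2) :=
  isClosed_Icc.prod (isClosed_eq nsq_cont_topg continuous_const)

private def BH (K : Set R4) (y : R4) (f g : R3 → R4) : Prop :=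
  ∃ H : ℝ × R3 → R4, ContinuousOn H (Icc (0 : ℝ) 1 ×ˢ S2) ∧ (∀ m ∈ S2, H (0, m) = f m) ∧
    (∀ m ∈ S2, H (1, m) = g m) ∧ (∀ u ∈ Icc (0 : ℝ) 1, H (u, (1, 0)) = y) ∧
    ∀ u ∈ Icc (0 : ℝ) 1, ∀ m ∈ S2, H (u, m) ∉ K

private theorem BH_trans {K : Set R4} {y : R4} {f g k : R3 → R4} (h1 : BH K y f g)
    (h2 : BH K y g k) : BH K y f k := by
  obtain ⟨H, a1, a2, a3, a4, a5⟩ := h1
  obtain ⟨H', b1, b2, b3, b4, b5⟩ := h2
  classical
  let G : ℝ × R3 → R4 := fun x =>
    if x.1 ≤ 1 / 2 then H (2 * x.1, x.2) else H' (2 * x.1 - 1, x.2)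
  have g1 : ∀ u m, u ≤ 1 / 2 → G (u, m) = H (2 * u, m) := fun u m hu => if_pos hu
  have g2 : ∀ u m, m ∈ S2 → 1 / 2 ≤ u → G (u, m) = H' (2 * u - 1, m) := by
    intro u m hm hu
    rcases eq_or_lt_of_le hu with he | hl
    · rw [g1 u m he.ge, ← he, show (2 : ℝ) * (1 / 2) = 1 by norm_num, a3 m hm,
        show (1 : ℝ) - 1 = 0 by norm_num, b2 m hm]
    · exact if_neg (not_le.2 hl)
  refine ⟨G, ?_, ?_, ?_, ?_, ?_⟩
  · refine glue_topg (C1 := {x : ℝ × R3 | x.1 ≤ 1 / 2}) (C2 := {x : ℝ × R3 | 1 / 2 ≤ x.1})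
      (g1 := fun x => H (2 * x.1, x.2)) (g2 := fun x => H' (2 * x.1 - 1, x.2)) D_closed_topg
      (isClosed_le (by fun_prop) (by fun_prop)) (isClosed_le (by fun_prop) (by fun_prop))
      (fun x _ => (le_total x.1 (1 / 2)).imp id id) ?_ ?_ ?_ ?_
    · intro x hx
      exact g1 x.1 x.2 hx.2
    · intro x hx
      exact g2 x.1 x.2 hx.1.2 hx.2
    · refine a1.comp (Continuous.continuousOn (by fun_prop)) ?_
      intro x hx
      have h3 : x.1 ≤ 1 / 2 := hx.2
      exact ⟨⟨by linarith [hx.1.1.1], by linarith⟩, hx.1.2⟩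
    · refine b1.comp (Continuous.continuousOn (by fun_prop)) ?_
      intro x hx
      have h3 : 1 / 2 ≤ x.1 := hx.2
      exact ⟨⟨by linarith, by linarith [hx.1.1.2]⟩, hx.1.2⟩
  · intro m hm
    rw [g1 0 m (by norm_num), mul_zero, a2 m hm]
  · intro m hm
    rw [g2 1 m hm (by norm_num), show (2 : ℝ) * 1 - 1 = 1 by norm_num, b3 m hm]
  · intro u hu
    rcases le_total u (1 / 2) with h | h
    · rw [g1 u _ h]
      exact a4 _ ⟨by linarith [hu.1], by linarith⟩
    · rw [g2 u _ one_mem_topg h]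
      exact b4 _ ⟨by linarith, by linarith [hu.2]⟩
  · intro u hu m hm
    rcases le_total u (1 / 2) with h | h
    · rw [g1 u _ h]
      exact a5 _ ⟨by linarith [hu.1], by linarith⟩ m hm
    · rw [g2 u _ hm h]
      exact b5 _ ⟨by linarith, by linarith [hu.2]⟩ m hm

end TOPG

open TOPG in
theorem m_TOPG : StTOPG := by
  intro F h ζ P hF hh h1 h0 hK hz1 hz2 hP hP0 hP1 hPa hPb hPK
  classical
  have hFc := emb_cont_topg F hF
  have hFnu : ContinuousOn (fun m : R3 => F (nu m)) S2 :=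
    hFc.comp nu_cont_topg.continuousOn (fun m hm => nu_mem_topg m hm)
  have hnuK : ∀ m ∈ S2, F (nu m) ∉ F '' sph 1 := by
    rintro m hm ⟨y, hy, hyF⟩
    have h9 : y = nu m := hF.2 (Or.inl (Or.inr hy)) (nu_mem_topg m hm) hyF
    rw [h9] at hy
    exact nu_notMem_topg m hm hy
  have hzK : ∀ τ ∈ Icc (0 : ℝ) 1, ζ τ ∉ F '' sph 1 := by
    intro τ hτ
    rw [← hP0 τ hτ]
    exact hPK 0 ⟨le_rfl, zero_le_one⟩ τ hτ
  have hz : ContinuousOn ζ (Icc 0 1) := by
    refine ContinuousOn.congr (f := fun τ => P (0, τ)) ?_ (fun τ hτ => (hP0 τ hτ).symm)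
    refine hP.comp (Continuous.continuousOn (by fun_prop)) ?_
    intro τ hτ
    exact ⟨⟨le_rfl, zero_le_one⟩, hτ⟩
  have hle : ∀ m ∈ S2, m.1 ≤ 1 := fun m hm => fst_le_topg m hm
  have hbase : F (nu (1, 0)) = bp F := by
    rw [nu_bar_topg _ one_mem_topg (by norm_num)]
    unfold bp
    norm_num
  have hlo : ∀ m ∈ S2, 73 / 100 * m.1 ≤ 1 / 5 → h (1, Rm m) = F (nu m) := by
    intro m hm h2
    rw [h1 _ (nsq_Rm m hm), Rm_lo m h2, smul_smul]
    congr 1
    refine Prod.ext (nu_fst_topg m).symm ?_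
    norm_num
  -- the parameter
  let X : R3 → ℝ := fun m => min 1 (73 * (1 - m.1) / 53)
  have hX0 : ∀ m ∈ S2, X m ∈ Icc (0 : ℝ) 1 := by
    intro m hm
    refine ⟨le_min zero_le_one ?_, min_le_left _ _⟩
    have := hle m hm
    exact div_nonneg (by linarith only [this]) (by norm_num)
  have hXc : Continuous X := by
    simp only [X]
    fun_prop
  -- (0)
  have s0 : BH (F '' sph 1) (bp F) (fun m => h (0, m)) (fun m => h (0, Rm m)) := by
    refine ⟨fun x => h (0, Rt x), ?_, ?_, ?_, ?_, ?_⟩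
    · refine hh.comp (continuousOn_const.prodMk ?_) ?_
      · have hs : Continuous sg := by
          have := Rm_cont
          unfold sg
          fun_prop
        unfold Rt
        have h3 : ContinuousOn (fun x : ℝ × R3 => (√(nsq (sg x)))⁻¹) (Icc (0 : ℝ) 1 ×ˢ S2) := by
          refine ContinuousOn.inv₀ (Real.continuous_sqrt.comp (nsq_cont_topg.comp hs)).continuousOn ?_
          rintro ⟨t, m⟩ ⟨ht, hm⟩
          exact (Real.sqrt_pos.2 (sg_pos t m hm ht)).ne'
        exact h3.smul hs.continuousOn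
      · rintro ⟨t, m⟩ ⟨ht, hm⟩
        exact ⟨⟨le_rfl, zero_le_one⟩, nsq_Rt t m hm ht⟩
    · intro m hm
      show h (0, Rt (0, m)) = _
      rw [Rt_zero m hm]
    · intro m hm
      show h (0, Rt (1, m)) = _
      rw [Rt_one m hm]
    · intro u _
      show h (0, Rt (u, (1, 0))) = _
      rw [Rt_base, h0]
    · intro u hu m hm
      exact hK 0 ⟨le_rfl, zero_le_one⟩ _ (nsq_Rt u m hm hu)
  -- (1)
  have s1 : BH (F '' sph 1) (bp F) (fun m => h (0, Rm m)) (fun m => h (X m, Rm m)) := by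
    refine ⟨fun x => h (x.1 * X x.2, Rm x.2), ?_, ?_, ?_, ?_, ?_⟩
    · refine hh.comp (Continuous.continuousOn ?_) ?_
      · exact (continuous_fst.mul (hXc.comp continuous_snd)).prodMk (Rm_cont.comp continuous_snd)
      · rintro ⟨t, m⟩ ⟨ht, hm⟩
        exact ⟨⟨mul_nonneg ht.1 (hX0 m hm).1, mul_le_one₀ ht.2 (hX0 m hm).1 (hX0 m hm).2⟩,
          nsq_Rm m hm⟩
    · intro m _
      show h (0 * X m, Rm m) = _
      rw [zero_mul]
    · intro m _
      show h (1 * X m, Rm m) = _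
      rw [one_mul]
    · intro u _
      show h (u * X (1, 0), Rm (1, 0)) = _
      have e : X (1, 0) = 0 := by
        simp only [X]
        norm_num
      rw [e, mul_zero, Rm_base, h0]
    · intro u hu m hm
      exact hK _ ⟨mul_nonneg hu.1 (hX0 m hm).1, mul_le_one₀ hu.2 (hX0 m hm).1 (hX0 m hm).2⟩ _
        (nsq_Rm m hm)
  -- (2), (3): pieces
  have cA : Continuous fun x : ℝ × R3 => 73 / 100 * x.2.1 :=
    continuous_const.mul (continuous_fst.comp continuous_snd)
  have cB : Continuous fun x : ℝ × R3 => 73 / 100 - 13 / 100 * x.1 :=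
    continuous_const.sub (continuous_const.mul continuous_fst)
  let T : R3 → ℝ := fun m => 5 / 2 * (3 / 5 - 73 / 100 * m.1)
  let θ : ℝ × R3 → ℝ := fun x =>
    (1 - x.1) / 2 + (1 + x.1) / 2 * ((73 - 73 * x.2.1 - 13 * x.1) / (53 - 13 * x.1))
  let f3 : R3 → R4 := fun m =>
    if 1 / 5 ≤ 73 / 100 * m.1 ∧ 73 / 100 * m.1 ≤ 3 / 5 then ζ (T m) else F (nu m)
  have hθ : ∀ x : ℝ × R3, x.1 ∈ Icc (0 : ℝ) 1 → 1 / 5 ≤ 73 / 100 * x.2.1 →
      73 / 100 * x.2.1 ≤ 73 / 100 - 13 / 100 * x.1 → θ x ∈ Icc (0 : ℝ) 1 := by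
    intro x hx h2 h3
    have h4 : 0 < 53 - 13 * x.1 := by linarith only [hx.2]
    have h5 : 0 ≤ (73 - 73 * x.2.1 - 13 * x.1) / (53 - 13 * x.1) :=
      div_nonneg (by linarith only [h3]) h4.le
    have h6 : (73 - 73 * x.2.1 - 13 * x.1) / (53 - 13 * x.1) ≤ 1 := by
      rw [div_le_one h4]
      linarith only [h2]
    have h7 : 0 ≤ (1 + x.1) / 2 := by linarith only [hx.1]
    have h8 := mul_nonneg h7 h5
    have h9 := mul_le_mul_of_nonneg_left h6 h7
    simp only [θ]
    exact ⟨by linarith only [hx.2, h8], by linarith only [h9]⟩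
  have s2 : BH (F '' sph 1) (bp F) (fun m => h (X m, Rm m)) f3 := by
    let G : ℝ × R3 → R4 := fun x =>
      if 1 / 5 ≤ 73 / 100 * x.2.1 ∧ 73 / 100 * x.2.1 ≤ 73 / 100 - 13 / 100 * x.1 then ζ (θ x)
      else F (nu x.2)
    have g1 : ∀ x : ℝ × R3, 1 / 5 ≤ 73 / 100 * x.2.1 ∧
        73 / 100 * x.2.1 ≤ 73 / 100 - 13 / 100 * x.1 → G x = ζ (θ x) := fun x hx => if_pos hx
    have g2 : ∀ x : ℝ × R3, x.1 ∈ Icc (0 : ℝ) 1 → x.2 ∈ S2 → (73 / 100 * x.2.1 ≤ 1 / 5 ∨
        73 / 100 - 13 / 100 * x.1 ≤ 73 / 100 * x.2.1) → G x = F (nu x.2) := by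
      intro x hx hm h2
      by_cases hc : 1 / 5 ≤ 73 / 100 * x.2.1 ∧ 73 / 100 * x.2.1 ≤ 73 / 100 - 13 / 100 * x.1
      · rw [g1 x hc]
        have h4 : 53 - 13 * x.1 ≠ 0 := by linarith only [hx.2]
        rcases h2 with h2 | h2
        · have h5 : 73 / 100 * x.2.1 = 1 / 5 := le_antisymm h2 hc.1
          have e1 : θ x = 1 := by
            have h6 : 73 - 73 * x.2.1 - 13 * x.1 = 53 - 13 * x.1 := by linarith only [h5]
            simp only [θ]
            rw [h6, div_self h4]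
            ring
          rw [e1, nu_foot_topg x.2 hm h5, ← hP0 1 ⟨zero_le_one, le_rfl⟩]
          exact hPb 0 ⟨le_rfl, zero_le_one⟩
        · have h5 : 73 / 100 * x.2.1 = 73 / 100 - 13 / 100 * x.1 := le_antisymm hc.2 h2
          have e1 : θ x = (1 - x.1) / 2 := by
            have h6 : 73 - 73 * x.2.1 - 13 * x.1 = 0 := by linarith only [h5]
            simp only [θ]
            rw [h6, zero_div, mul_zero, add_zero]
          rw [e1, nu_bar_topg x.2 hm hc.1, hz1 _ ⟨by linarith only [hx.2], by linarith only [hx.1]⟩,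
            h5]
          congr 2
          ring
      · exact if_neg hc
    refine ⟨G, ?_, ?_, ?_, ?_, ?_⟩
    · refine glue_topg
        (C1 := {x : ℝ × R3 | 1 / 5 ≤ 73 / 100 * x.2.1} ∩
          {x : ℝ × R3 | 73 / 100 * x.2.1 ≤ 73 / 100 - 13 / 100 * x.1})
        (C2 := {x : ℝ × R3 | 73 / 100 * x.2.1 ≤ 1 / 5} ∪
          {x : ℝ × R3 | 73 / 100 - 13 / 100 * x.1 ≤ 73 / 100 * x.2.1})
        (g1 := fun x => ζ (θ x)) (g2 := fun x => F (nu x.2)) D_closed_topg
        ((isClosed_le continuous_const cA).inter (isClosed_le cA cB))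
        ((isClosed_le cA continuous_const).union (isClosed_le cB cA))
        ?_ ?_ ?_ ?_ ?_
      · intro x _
        by_cases h3 : 73 / 100 * x.2.1 ≤ 1 / 5
        · exact Or.inr (Or.inl h3)
        · by_cases h4 : 73 / 100 - 13 / 100 * x.1 ≤ 73 / 100 * x.2.1
          · exact Or.inr (Or.inr h4)
          · exact Or.inl ⟨(not_le.1 h3).le, (not_le.1 h4).le⟩
      · intro x hx
        exact g1 x hx.2
      · intro x hx
        exact g2 x hx.1.1 hx.1.2 hx.2
      · refine hz.comp ?_ (fun x hx => hθ x hx.1.1 hx.2.1 hx.2.2)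
        simp only [θ]
        refine ContinuousOn.add (Continuous.continuousOn (by fun_prop)) (ContinuousOn.mul
          (Continuous.continuousOn (by fun_prop)) (ContinuousOn.div
          (Continuous.continuousOn (by fun_prop)) (Continuous.continuousOn (by fun_prop)) ?_))
        intro x hx
        linarith only [hx.1.1.2]
      · exact hFnu.comp continuous_snd.continuousOn (fun x hx => hx.1.2)
    · intro m hm
      show G (0, m) = h (X m, Rm m)
      have hle' := hle m hm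
      rcases le_total (73 / 100 * m.1) (1 / 5) with h2 | h2
      · rw [g2 (0, m) ⟨le_rfl, zero_le_one⟩ hm (Or.inl h2), ← hlo m hm h2]
        have e : X m = 1 := by
          simp only [X]
          refine min_eq_left ?_
          rw [le_div_iff₀ (by norm_num)]
          linarith only [h2]
        rw [e]
      · rw [g1 (0, m) ⟨h2, by
          show 73 / 100 * m.1 ≤ 73 / 100 - 13 / 100 * 0
          linarith only [hle']⟩]
        have e : X m = 73 * (1 - m.1) / 53 := by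
          simp only [X]
          refine min_eq_right ?_
          rw [div_le_one (by norm_num)]
          linarith only [h2]
        have e2 : θ (0, m) = (1 + 73 * (1 - m.1) / 53) / 2 := by
          simp only [θ]
          ring
        have h5 : 0 ≤ 73 * (1 - m.1) / 53 := div_nonneg (by linarith only [hle']) (by norm_num)
        have h6 : 73 * (1 - m.1) / 53 ≤ 1 := by
          rw [div_le_one (by norm_num)]
          linarith only [h2]
        rw [e, e2, hz2 _ ⟨by linarith only [h5], by linarith only [h6]⟩, Rm_hi m hm h2]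
        congr 2
        ring
    · intro m hm
      show G (1, m) = if _ then _ else _
      have e2 : θ (1, m) = T m := by
        simp only [θ, T]
        ring
      by_cases hc : 1 / 5 ≤ 73 / 100 * m.1 ∧ 73 / 100 * m.1 ≤ 3 / 5
      · rw [if_pos hc, g1 (1, m) ⟨hc.1, by
          show 73 / 100 * m.1 ≤ 73 / 100 - 13 / 100 * 1
          linarith only [hc.2]⟩, e2]
      · rw [if_neg hc]
        refine if_neg ?_
        rintro ⟨h3, h4⟩
        refine hc ⟨h3, ?_⟩
        have h4' : 73 / 100 * m.1 ≤ 73 / 100 - 13 / 100 * 1 := h4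
        linarith only [h4']
    · intro u hu
      rw [g2 (u, (1, 0)) hu one_mem_topg (Or.inr ?_)]
      · exact hbase
      · show 73 / 100 - 13 / 100 * u ≤ 73 / 100 * 1
        linarith only [hu.1]
    · intro u hu m hm
      by_cases hc : 1 / 5 ≤ 73 / 100 * m.1 ∧ 73 / 100 * m.1 ≤ 73 / 100 - 13 / 100 * u
      · rw [g1 (u, m) hc]
        exact hzK _ (hθ (u, m) hu hc.1 hc.2)
      · have e : G (u, m) = F (nu m) := if_neg hc
        rw [e]
        exact hnuK m hm
  have s3 : BH (F '' sph 1) (bp F) f3 (fun m => F (nu m)) := by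
    let G : ℝ × R3 → R4 := fun x =>
      if 1 / 5 ≤ 73 / 100 * x.2.1 ∧ 73 / 100 * x.2.1 ≤ 3 / 5 then P (x.1, T x.2)
      else F (nu x.2)
    have g1 : ∀ x : ℝ × R3, 1 / 5 ≤ 73 / 100 * x.2.1 ∧ 73 / 100 * x.2.1 ≤ 3 / 5 →
        G x = P (x.1, T x.2) := fun x hx => if_pos hx
    have g2 : ∀ x : ℝ × R3, x.1 ∈ Icc (0 : ℝ) 1 → x.2 ∈ S2 → (73 / 100 * x.2.1 ≤ 1 / 5 ∨
        3 / 5 ≤ 73 / 100 * x.2.1) → G x = F (nu x.2) := by
      intro x hx hm h2
      by_cases hc : 1 / 5 ≤ 73 / 100 * x.2.1 ∧ 73 / 100 * x.2.1 ≤ 3 / 5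
      · rw [g1 x hc]
        rcases h2 with h2 | h2
        · have h5 : 73 / 100 * x.2.1 = 1 / 5 := le_antisymm h2 hc.1
          have e1 : T x.2 = 1 := by
            simp only [T, h5]
            norm_num
          rw [e1, nu_foot_topg x.2 hm h5]
          exact hPb _ hx
        · have h5 : 73 / 100 * x.2.1 = 3 / 5 := le_antisymm hc.2 h2
          have e1 : T x.2 = 0 := by
            simp only [T, h5]
            norm_num
          rw [e1, nu_bar_topg x.2 hm hc.1, h5]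
          exact hPa _ hx
      · exact if_neg hc
    have hT : ∀ m : R3, 1 / 5 ≤ 73 / 100 * m.1 → 73 / 100 * m.1 ≤ 3 / 5 →
        T m ∈ Icc (0 : ℝ) 1 := by
      intro m h2 h3
      simp only [T]
      exact ⟨by linarith only [h3], by linarith only [h2]⟩
    refine ⟨G, ?_, ?_, ?_, ?_, ?_⟩
    · refine glue_topg
        (C1 := {x : ℝ × R3 | 1 / 5 ≤ 73 / 100 * x.2.1} ∩ {x : ℝ × R3 | 73 / 100 * x.2.1 ≤ 3 / 5})
        (C2 := {x : ℝ × R3 | 73 / 100 * x.2.1 ≤ 1 / 5} ∪ {x : ℝ × R3 | 3 / 5 ≤ 73 / 100 * x.2.1})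
        (g1 := fun x => P (x.1, T x.2)) (g2 := fun x => F (nu x.2)) D_closed_topg
        ((isClosed_le continuous_const cA).inter (isClosed_le cA continuous_const))
        ((isClosed_le cA continuous_const).union (isClosed_le continuous_const cA))
        ?_ ?_ ?_ ?_ ?_
      · intro x _
        by_cases h3 : 73 / 100 * x.2.1 ≤ 1 / 5
        · exact Or.inr (Or.inl h3)
        · by_cases h4 : 3 / 5 ≤ 73 / 100 * x.2.1
          · exact Or.inr (Or.inr h4)
          · exact Or.inl ⟨(not_le.1 h3).le, (not_le.1 h4).le⟩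
      · intro x hx
        exact g1 x hx.2
      · intro x hx
        exact g2 x hx.1.1 hx.1.2 hx.2
      · refine hP.comp ?_ (fun x hx => ⟨hx.1.1, hT x.2 hx.2.1 hx.2.2⟩)
        simp only [T]
        exact Continuous.continuousOn (by fun_prop)
      · exact hFnu.comp continuous_snd.continuousOn (fun x hx => hx.1.2)
    · intro m hm
      show (if _ then _ else _) = if _ then _ else _
      by_cases hc : 1 / 5 ≤ 73 / 100 * m.1 ∧ 73 / 100 * m.1 ≤ 3 / 5
      · rw [if_pos hc, if_pos hc]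
        exact hP0 _ (hT m hc.1 hc.2)
      · rw [if_neg hc, if_neg hc]
    · intro m hm
      show G (1, m) = F (nu m)
      by_cases hc : 1 / 5 ≤ 73 / 100 * m.1 ∧ 73 / 100 * m.1 ≤ 3 / 5
      · rw [g1 (1, m) hc, hP1 _ (hT m hc.1 hc.2), nu_bar_topg m hm hc.1]
        congr 2
        simp only [T]
        ring
      · exact if_neg hc
    · intro u hu
      rw [g2 (u, (1, 0)) hu one_mem_topg (Or.inr ?_)]
      · exact hbase
      · show 3 / 5 ≤ 73 / 100 * 1
        norm_num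
    · intro u hu m hm
      by_cases hc : 1 / 5 ≤ 73 / 100 * m.1 ∧ 73 / 100 * m.1 ≤ 3 / 5
      · rw [g1 (u, m) hc]
        exact hPK u hu _ (hT m hc.1 hc.2)
      · have e : G (u, m) = F (nu m) := if_neg hc
        rw [e]
        exact hnuK m hm
  exact BH_trans (BH_trans (BH_trans s0 s1) s2) s3

end Pool.Agent.Helper18.BI.R
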