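import Pool.Agent.Helper18.BI.R.StR4

/-!
# Project BI, stage 4 (R): MODULE WRD (helper99)
-/

set_option autoImplicit false

open scoped Manifold ContDiff Topology ComplexConjugate unitInterval
open Set Pool.Agent.Helper65.Barb Pool.Agent.Helper18.BI
open Pool.Agent.Helper70.BI (I4 IsW)
open Pool.Agent.Helper18.BI.H (IsW4 mm)
open Pool.Agent.Helper18.FinR (sqr Pi2 cls FreeClass UpTo)

namespace Pool.Agent.Helper18.BI.R

namespace WRD

section

variable {X : Type} [TopologicalSpace X] {y₀ : X}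

/-- the loop of a word -/
noncomputable def G {n : ℕ} (f : Fin n → GenLoop (Fin 2) X y₀) :
    List (Fin n × Bool) → GenLoop (Fin 2) X y₀
  | [] => GenLoop.const
  | (i, true) :: l => GenLoop.transAt 0 (f i) (G f l)
  | (i, false) :: l => GenLoop.transAt 0 (GenLoop.symmAt 0 (f i)) (G f l)

/-- the class of a loop -/
def hc (p : GenLoop (Fin 2) X y₀) : HomotopyGroup (Fin 2) X y₀ := Quotient.mk _ p

lemma mk_transAt (p q : GenLoop (Fin 2) X y₀) : hc (GenLoop.transAt 0 p q) = hc p * hc q := by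
  rw [mul_comm]
  exact (HomotopyGroup.mul_spec (i := 0) (p := q) (q := p)).symm

lemma mk_symmAt (p : GenLoop (Fin 2) X y₀) : hc (GenLoop.symmAt 0 p) = (hc p)⁻¹ :=
  (HomotopyGroup.inv_spec (i := 0) (p := p)).symm

lemma G_class {n : ℕ} (f : Fin n → GenLoop (Fin 2) X y₀) (l : List (Fin n × Bool)) :
    hc (G f l) = (l.map fun p => if p.2 then hc (f p.1) else (hc (f p.1))⁻¹).prod := by
  induction l with
  | nil => rfl
  | cons a l ih =>
    obtain ⟨i, b⟩ := a
    cases b with
    | true =>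
      rw [List.map_cons, List.prod_cons, ← ih]
      exact mk_transAt _ _
    | false =>
      rw [List.map_cons, List.prod_cons, ← ih]
      show hc (GenLoop.transAt 0 (GenLoop.symmAt 0 (f i)) (G f l)) = _
      rw [mk_transAt, mk_symmAt]
      rfl

end

/-- the point of the square -/
noncomputable def pt (q s : ℝ) : Fin 2 → I :=
  ![projIcc 0 1 zero_le_one q, projIcc 0 1 zero_le_one (step (10 * s - 9 / 2))]

lemma step_mem' (t : ℝ) : step t ∈ Icc (0 : ℝ) 1 :=
  ⟨Real.smoothTransition.nonneg t, Real.smoothTransition.le_one t⟩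

lemma pt0 {q : ℝ} (hq : q ∈ Icc (0 : ℝ) 1) (s : ℝ) : ((pt q s 0 : I) : ℝ) = q := by
  show ((projIcc 0 1 zero_le_one q : Icc (0 : ℝ) 1) : ℝ) = q
  rw [projIcc_of_mem zero_le_one hq]

lemma pt1 (q s : ℝ) : ((pt q s 1 : I) : ℝ) = step (10 * s - 9 / 2) := by
  show ((projIcc 0 1 zero_le_one (step (10 * s - 9 / 2)) : Icc (0 : ℝ) 1) : ℝ) = _
  rw [projIcc_of_mem zero_le_one (step_mem' _)]

lemma update_pt (q q' s : ℝ) :
    Function.update (pt q s) 0 (projIcc 0 1 zero_le_one q') = pt q' s := by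
  ext i
  fin_cases i
  · simp [pt]
  · simp [pt]

lemma continuous_pt : Continuous fun z : ℝ × ℝ => pt z.1 z.2 := by
  apply continuous_pi
  intro i
  fin_cases i
  · exact ((continuous_projIcc (h := zero_le_one)).comp continuous_fst)
  · exact (continuous_projIcc (h := zero_le_one)).comp (Real.smoothTransition.continuous.comp (by fun_prop))

variable {A : Set S4} {y₀ : {x : S4 // x ∉ A}}

lemma sphere_pt (hMQ : StMQ) {n : ℕ} {f : Fin n → GenLoop (Fin 2) {x : S4 // x ∉ A} y₀}
    {g : Fin n → R3 → S4} (hg : ∀ i t, g i (sqr t) = f i t) (i : Fin n) {q : ℝ}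
    (hq : q ∈ Icc (0 : ℝ) 1) (s : ℝ) : g i (mm q s) = f i (pt q s) := by
  rw [hMQ.1 q s, ← hg i (pt q s)]
  congr 1
  show _ = mq (pt q s 0 : I) (pt q s 1 : I)
  rw [pt0 hq, pt1]

lemma evM_eq (hMQ : StMQ) {n : ℕ} {f : Fin n → GenLoop (Fin 2) {x : S4 // x ∉ A} y₀}
    {g : Fin n → R3 → S4} (hg : ∀ i t, g i (sqr t) = f i t) (l : List (Fin n × Bool)) :
    ∀ q ∈ Icc (0 : ℝ) 1, ∀ s : ℝ, evM (y₀ : S4) g l q s = (G f l (pt q s) : S4) := by
  induction l with
  | nil => exact fun _ _ _ => rfl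
  | cons a l ih =>
    obtain ⟨i, b⟩ := a
    intro q hq s
    cases b with
    | true =>
      show (if q ≤ 1 / 2 then g i (mm (2 * q) s) else evM (y₀ : S4) g l (2 * q - 1) s) =
        ((if ((pt q s 0 : I) : ℝ) ≤ 1 / 2
          then f i (Function.update (pt q s) 0 (projIcc 0 1 zero_le_one (2 * (pt q s 0 : I))))
          else G f l (Function.update (pt q s) 0
            (projIcc 0 1 zero_le_one (2 * (pt q s 0 : I) - 1))) : {x : S4 // x ∉ A}) : S4)
      rw [pt0 hq, update_pt, update_pt]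
      split_ifs with h
      · exact sphere_pt hMQ hg i ⟨by linarith [hq.1], by linarith⟩ s
      · push Not at h
        exact ih _ ⟨by linarith, by linarith [hq.2]⟩ s
    | false =>
      show (if q ≤ 1 / 2 then g i (mm (1 - 2 * q) s) else evM (y₀ : S4) g l (2 * q - 1) s) =
        ((if ((pt q s 0 : I) : ℝ) ≤ 1 / 2
          then GenLoop.symmAt 0 (f i)
            (Function.update (pt q s) 0 (projIcc 0 1 zero_le_one (2 * (pt q s 0 : I))))
          else G f l (Function.update (pt q s) 0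
            (projIcc 0 1 zero_le_one (2 * (pt q s 0 : I) - 1))) : {x : S4 // x ∉ A}) : S4)
      rw [pt0 hq, update_pt, update_pt]
      split_ifs with h
      · have hq2 : 2 * q ∈ Icc (0 : ℝ) 1 := ⟨by linarith [hq.1], by linarith⟩
        have hq3 : 1 - 2 * q ∈ Icc (0 : ℝ) 1 := ⟨by linarith, by linarith [hq.1]⟩
        rw [sphere_pt hMQ hg i hq3 s]
        congr 1
        show f i (pt (1 - 2 * q) s) =
          f i fun j => if j = 0 then σ (pt (2 * q) s 0) else pt (2 * q) s j
        congr 1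
        ext j
        fin_cases j
        · show ((pt (1 - 2 * q) s 0 : I) : ℝ) = 1 - ((pt (2 * q) s 0 : I) : ℝ)
          rw [pt0 hq3, pt0 hq2]
        · show ((pt (1 - 2 * q) s 1 : I) : ℝ) = ((pt (2 * q) s 1 : I) : ℝ)
          rw [pt1, pt1]
      · push Not at h
        exact ih _ ⟨by linarith, by linarith [hq.2]⟩ s

lemma pt_boundary {q s : ℝ} (h : q = 0 ∨ q = 1 ∨ s = 9 / 20 ∨ s = 11 / 20) :
    pt q s ∈ Cube.boundary (Fin 2) := by
  rcases h with rfl | rfl | rfl | rfl
  · exact ⟨0, Or.inl (projIcc_left zero_le_one)⟩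
  · exact ⟨0, Or.inr (projIcc_right zero_le_one)⟩
  · refine ⟨1, Or.inl (Subtype.ext ?_)⟩
    rw [pt1]
    have h1 : (10 * (9 / 20) - 9 / 2 : ℝ) = 0 := by norm_num
    rw [h1]
    exact Real.smoothTransition.zero
  · refine ⟨1, Or.inr (Subtype.ext ?_)⟩
    rw [pt1]
    have h1 : (10 * (11 / 20) - 9 / 2 : ℝ) = 1 := by norm_num
    rw [h1]
    exact Real.smoothTransition.one

end WRD

open WRD

theorem m_WRD (hMQ : StMQ) : StWRD := by
  intro A y₀ n f g l hg hl
  have h1 : hc (G f l) = hc GenLoop.const := by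
    rw [G_class f l]
    exact hl
  obtain ⟨H⟩ : GenLoop.Homotopic (G f l) GenLoop.const := Quotient.exact h1
  refine ⟨fun z => (H (projIcc 0 1 zero_le_one z.1, pt z.2.1 z.2.2) : {x : S4 // x ∉ A}),
    ?_, ?_, ?_⟩
  · apply Continuous.continuousOn
    apply continuous_subtype_val.comp
    apply H.continuous.comp
    exact (continuous_projIcc.comp continuous_fst).prodMk
      (continuous_pt.comp (by fun_prop : Continuous fun z : ℝ × ℝ × ℝ => (z.2.1, z.2.2)))
  · intro q hq s _
    refine ⟨?_, ?_⟩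
    · show ((H (projIcc 0 1 zero_le_one 0, pt q s) : {x : S4 // x ∉ A}) : S4) = _
      rw [projIcc_left, evM_eq hMQ hg l q hq s]
      exact congrArg Subtype.val (H.apply_zero _)
    · show ((H (projIcc 0 1 zero_le_one 1, pt q s) : {x : S4 // x ∉ A}) : S4) = _
      rw [projIcc_right]
      exact congrArg Subtype.val (H.apply_one _)
  · intro u _ q _ s _
    refine ⟨(H (projIcc 0 1 zero_le_one u, pt q s)).2, fun h => ?_⟩
    show ((H (projIcc 0 1 zero_le_one u, pt q s) : {x : S4 // x ∉ A}) : S4) = _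
    have h2 := H.eq_fst (projIcc 0 1 zero_le_one u) (pt_boundary h)
    rw [h2]
    exact congrArg Subtype.val ((G f l).2 _ (pt_boundary h))

end Pool.Agent.Helper18.BI.R
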