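import Pool.Agent.Helper70.BI.FinDefs

/-!
# Barbells in the 4-sphere: definitions used in the statement of the theorem on the homomorphism
-/

set_option autoImplicit false

open scoped Manifold ContDiff
open Pool.Agent.Helper65.Barb Pool.Agent.Helper70.Fin

namespace Pool.Agent.Helper18.FinR

/-- The map of the unit square onto the unit sphere of three-space `ℝ × ℂ` which maps the boundary of the
square to `(1, 0)` and is injective on the interior. -/
noncomputable def sqr (t : Fin 2 → unitInterval) : ℝ × ℂ :=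
  (1 - 2 * Real.sin (Real.pi * t 0) ^ 2 * Real.sin (Real.pi * t 1) ^ 2,
    ⟨-(2 * Real.sin (Real.pi * t 0) * Real.sin (Real.pi * t 1) * Real.cos (Real.pi * t 1)),
      2 * Real.sin (Real.pi * t 0) * Real.cos (Real.pi * t 0) * Real.sin (Real.pi * t 1) ^ 2⟩)

/-- The second homotopy group of the complement of `A` in the 4-sphere. -/
abbrev Pi2 (A : Set S4) (y₀ : {x : S4 // x ∉ A}) : Type :=
  HomotopyGroup (Fin 2) {x : S4 // x ∉ A} y₀

/-- the class of a based map of the square -/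
def cls {A : Set S4} {y₀ : {x : S4 // x ∉ A}} (f : GenLoop (Fin 2) {x : S4 // x ∉ A} y₀) :
    Pi2 A y₀ := Quotient.mk _ f

/-- The map `k` of the sphere `coreSphere 0` to the complement of `A` is freely homotopic in the complement of
`A` to a based map of class `z`. -/
def FreeClass (A : Set S4) (y₀ : {x : S4 // x ∉ A}) (k : R4 → S4) (z : Pi2 A y₀) : Prop :=
  ∃ (f : GenLoop (Fin 2) {x : S4 // x ∉ A} y₀) (h : ℝ × R4 → S4), z = cls f ∧
    ContinuousOn h (Set.Icc (0 : ℝ) 1 ×ˢ coreSphere 0) ∧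
    (∀ t, h (0, (1 / 2, (1 / 5 : ℝ) • sqr t)) = f t) ∧ (∀ p ∈ coreSphere 0, h (1, p) = k p) ∧
    ∀ u ∈ Set.Icc (0 : ℝ) 1, ∀ p ∈ coreSphere 0, h (u, p) ∉ A

/-- The barbells `B` and `B'` agree near the core sphere `coreSphere 1`. -/
def SameFixed (B B' : Emb) : Prop :=
  ∃ U : Set R4, IsOpen U ∧ coreSphere 1 ⊆ U ∧ Set.EqOn B B' U

/-- The parallel copy of the core sphere `B '' coreSphere 1`, as a map of `coreSphere 0`. -/
noncomputable def parallel (B : Emb) (p : R4) : S4 := B (p.1 + 1 / 2, (p.2.1 + 1, p.2.2))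

/-- `φ` is isotopic to `ψ` or to `W ∘ ψ`. -/
def UpTo (W φ ψ : S4 → S4) : Prop :=
  Isot (𝓡 4) φ ψ ∨ Isot (𝓡 4) φ (fun x => W (ψ x))

end Pool.Agent.Helper18.FinR
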