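import Pool.Agent.Helper18.BI.R.StR
import Pool.Agent.Helper18.BI.R.FinDefs

/-!
# Project BI, stage 4 (R): the homomorphism, part 2 (transfer to the 4-sphere)

Statements (as `Prop` definitions) with complete proofs in the docstrings.  A module `M_X` proves
`theorem m_X : StX` (possibly from other statements as hypotheses `(h : StY)`).
-/

set_option autoImplicit false

open scoped Manifold ContDiff Topology ComplexConjugate unitInterval
open Set Pool.Agent.Helper65.Barb Pool.Agent.Helper18.BI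
open Pool.Agent.Helper70.BI (I4 IsW)
open Pool.Agent.Helper18.BI.H (IsW4 mm)
open Pool.Agent.Helper18.FinR (sqr Pi2 cls FreeClass UpTo)

namespace Pool.Agent.Helper18.BI.R

/-! ## squares and spheres -/

/-- the parametrization of the unit sphere by the square -/
noncomputable def mq (x y : ℝ) : R3 :=
  (1 - 2 * Real.sin (Real.pi * x) ^ 2 * Real.sin (Real.pi * y) ^ 2,
    ⟨-(2 * Real.sin (Real.pi * x) * Real.sin (Real.pi * y) * Real.cos (Real.pi * y)),
      2 * Real.sin (Real.pi * x) * Real.cos (Real.pi * x) * Real.sin (Real.pi * y) ^ 2⟩)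

/-- MODULE MQ.  Trigonometry.
Proof.  (1) `mm q s = zarc (sin π q) (chi s') q s'`, `s' = 10 s - 9/2`, `phi s' = 2 π σ`, `σ = step s'`, `chi s' = (1 - cos (2 π σ))/2 = sin² (π σ)`, `cos (2 π q) - 1 = -2 sin² (π q)`, `sin (2 π q) = 2 sin (π q) cos (π q)`,
`sin (2 π σ) = 2 sin (π σ) cos (π σ)` (`zarc`, `chi`, `phi` in `Pool/Agent/Helper27/BI/ChDefs.lean`).  (2) polynomial identity with `sin² + cos² = 1`.  (3) `sin 0 = sin π = 0`.
(4) Let `m = (m₁, (m₂, m₃)) ∈ S2`.  If `m₁ = 1` then `m = (1, 0) = mq 0 0`.  Otherwise put `c = (1 - m₁)/2 ∈ (0, 1]`.  Wanted `a = sin (π x) > 0`, `b = sin (π y) > 0`, `A = cos (π x)`, `B = cos (π y)` with `a² b² = c`, `-2 a b B = m₂`, `2 a A b² = m₃`.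
Then `(a B)² = a² - c`, so `m₂² = 4 c (a² - c) / a² * ..`: directly: put `r = √(c + m₂²/(4 c) ..)`; explicit solution: `a b = √c`, so `B = -m₂/(2 √c)`, `|B| ≤ 1`: `m₂² ≤ 1 - m₁² = 4 c (1 - c) < 4 c` (`1 - m₁² = (1-m₁)(1+m₁) = 2c (2 - 2c)`), so `|B| < 1`,
`y = arccos B / π ∈ (0, 1)`, `b = √(1 - B²) > 0`, `a = √c / b`; `a² = c/(1 - B²) = 4c²/(4c - m₂²)`, `≤ 1` iff `4 c² ≤ 4 c - m₂²` iff `m₂² ≤ 4 c (1 - c)`: true.  `A = m₃/(2 √c b)`; `A² + a² = (m₃²/(4c) + c)/b²` and `b² = 1 - m₂²/(4c)`, so it is `1` iff `m₃² + 4 c² = 4 c - m₂²` iff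
`m₂² + m₃² = 4 c (1 - c) = 1 - m₁²`: true.  `x = arccos A / π ∈ [0,1]`, `sin (π x) = √(1 - A²) = a`.
(5) smooth (`ContDiff`), hence Lipschitz on the compact convex square (`ContDiff` implies `LipschitzOnWith` on compact convex sets: the derivative is bounded; e.g. `Convex.lipschitzOnWith_of_nnnorm_fderiv_le`), or by hand. -/
def StMQ : Prop :=
  (∀ q s, mm q s = mq q (step (10 * s - 9 / 2))) ∧ (∀ x y, mq x y ∈ S2) ∧
  (∀ x y, (x = 0 ∨ x = 1 ∨ y = 0 ∨ y = 1) → mq x y = (1, 0)) ∧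
  (∀ m ∈ S2, ∃ x ∈ Icc (0 : ℝ) 1, ∃ y ∈ Icc (0 : ℝ) 1, mq x y = m) ∧
  ∃ L : NNReal, LipschitzOnWith L (fun z : ℝ × ℝ => mq z.1 z.2) (Icc 0 1 ×ˢ Icc 0 1)

/-- concatenation of squares in a space `M` -/
noncomputable def qcatM {M : Type} (f f' : ℝ → ℝ → M) (q s : ℝ) : M :=
  if q ≤ 1 / 2 then f (2 * q) s else f' (2 * q - 1) s

/-- the square of a word in the based spheres `g i` (`g i : S2 → M`, `g i (1,0) = y`) -/
noncomputable def evM {M : Type} {n : ℕ} (y : M) (g : Fin n → R3 → M) :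
    List (Fin n × Bool) → ℝ → ℝ → M
  | [] => fun _ _ => y
  | (i, true) :: l => qcatM (fun q s => g i (mm q s)) (evM y g l)
  | (i, false) :: l => qcatM (fun q s => g i (mm (1 - q) s)) (evM y g l)

/-- MODULE EVM.  Squares of words: composition with a map, values on the boundary, joint continuity, Lipschitz continuity.
Proof.  All by induction on the word.  (2) `mm_edge`, `mm_ends` (`Pool/Agent/Helper18/BI/H/EndR4.lean`): `mm q s = (1, 0)` for `q ∈ {0,1}` or `s ≤ 9/20` or `11/20 ≤ s`.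
(3) The square is `[0,1/2] ∪ [1/2,1]`, on the first part the function is `k i (τ, mm (2 q) s)` (`mm` is continuous with values in `S2`: `continuous_mm`, `mm_S2` of `Pool/Agent/Helper18/BI/R/M_REL4.lean`), on the second the composition of the inductive function with `(τ, q, s) ↦ (τ, 2 q - 1, s)`; at `q = 1/2` both are `y`.
`ContinuousOn.union_of_isClosed`-type argument, as for `k` in `M_REL4.lean` (here `C ×ˢ (Icc 0 1 ×ˢ univ)` is the union of `C ×ˢ (Icc 0 (1/2) ×ˢ univ)` and `C ×ˢ (Icc (1/2) 1 ×ˢ univ)`, relatively closed in it; if `C` is not closed use `ContinuousOn.if` or the subtype; you may assume `IsClosed C`).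
(4) `mm` is Lipschitz on `[0,1] ×ˢ [9/20,11/20]` (smooth, compact convex), `g i` is Lipschitz on `S2`; two adjacent rectangles: for `z` in the first and `z'` in the second take the point of the common edge on the same level `s` as `z`: `dist (f z) (f z') ≤ L dist z p + L dist p z'`, `p = (1/2, s)`,
`dist z p ≤ dist z z'`, `dist p z' ≤ dist z z'` (sup metric). -/
def StEVM : Prop :=
  (∀ (M M' : Type) (n : ℕ) (Θ : M → M') (y : M) (g : Fin n → R3 → M) (l : List (Fin n × Bool))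
    (q s : ℝ), evM (Θ y) (fun i m => Θ (g i m)) l q s = Θ (evM y g l q s)) ∧
  (∀ (M : Type) (n : ℕ) (y : M) (g : Fin n → R3 → M) (l : List (Fin n × Bool)) (q s : ℝ),
    (∀ i, g i (1, 0) = y) → (q = 0 ∨ q = 1 ∨ s ≤ 9 / 20 ∨ 11 / 20 ≤ s) → evM y g l q s = y) ∧
  (∀ (T M : Type) [TopologicalSpace T] [TopologicalSpace M] (C : Set T) (n : ℕ) (y : M)
    (k : Fin n → T × R3 → M) (l : List (Fin n × Bool)), IsClosed C →
    (∀ i, ContinuousOn (k i) (C ×ˢ S2)) → (∀ i, ∀ τ ∈ C, k i (τ, (1, 0)) = y) →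
    ContinuousOn (fun z : T × ℝ × ℝ => evM y (fun i m => k i (z.1, m)) l z.2.1 z.2.2)
      (C ×ˢ (Icc (0 : ℝ) 1 ×ˢ univ))) ∧
  ∀ (M : Type) [PseudoMetricSpace M] (n : ℕ) (y : M) (g : Fin n → R3 → M)
    (l : List (Fin n × Bool)), (∀ i, ∃ L : NNReal, LipschitzOnWith L (g i) S2) →
    (∀ i, g i (1, 0) = y) →
    ∃ L : NNReal, LipschitzOnWith L (fun z : ℝ × ℝ => evM y g l z.1 z.2)
      (Icc (0 : ℝ) 1 ×ˢ Icc (9 / 20 : ℝ) (11 / 20))

/-! ## Lipschitz approximation -/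

/-- MODULE LIP (helper34).  Relative Lipschitz approximation in the 4-sphere, off a compact set.
Proof.  (i) For a compact metric space `P` (here a compact subset) and `f : P → ℝ` continuous, `ρ > 0`, there is a Lipschitz `e` with `|f - e| ≤ ρ` (`e x = inf_y (f y + k dist x y)`, or Stone-Weierstrass).  (ii) relative: `P₀ ⊆ P`, `f` Lipschitz on `P₀`; `g₀` Lipschitz extension of `f|P₀` (`LipschitzOnWith.extend_real`),
`e` Lipschitz with `|f - g₀ - e| ≤ ρ/2`, `τ x = sign x * max (|x| - ρ/2) 0` (Lipschitz, `|τ x - x| ≤ ρ/2`, `0` for `|x| ≤ ρ/2`): `g₀ + τ ∘ e` is Lipschitz, within `ρ` of `f` on `P` and equal to `f` on `P₀`.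
(iii) The five coordinates of `f : P → S4 ⊆ R⁵`: `v : P → R⁵` Lipschitz, `‖v - f‖ ≤ ρ` on `P`, `v = f` on `P₀`.  `ρ ≤ 1/4` and `4 ρ ≤ dist (f x) y` for `x ∈ P`, `y ∈ K`.  `w_u x = (1 - u) f x + u v x` has norm `≥ 3/4`, `H (u, x) = w_u x / ‖w_u x‖` (as a point of `S4`), within `2 ρ` of `f x`; `g = H (1, ·)` Lipschitz
(`z ↦ z/‖z‖` is Lipschitz on `‖z‖ ≥ 3/4`). -/
def StLIP : Prop :=
  ∀ (X : Type) [MetricSpace X] (P P₀ : Set X) (K : Set S4) (f : X → S4), IsCompact P →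
    P₀ ⊆ P → IsCompact K → ContinuousOn f P → (∃ L : NNReal, LipschitzOnWith L f P₀) →
    (∀ x ∈ P, f x ∉ K) →
    ∃ (g : X → S4) (H : ℝ × X → S4), (∃ L : NNReal, LipschitzOnWith L g P) ∧
      ContinuousOn H (Icc (0 : ℝ) 1 ×ˢ P) ∧ (∀ x ∈ P, H (0, x) = f x ∧ H (1, x) = g x) ∧
      (∀ u ∈ Icc (0 : ℝ) 1, ∀ x ∈ P, H (u, x) ∉ K) ∧
      ∀ u ∈ Icc (0 : ℝ) 1, ∀ x ∈ P₀, H (u, x) = f x

/-- MODULE DIM (helper34).  Lipschitz images of three-dimensional sets have empty interior.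
Proof.  `dimH` of the image of a subset of `ℝ × ℝ × ℝ` is `≤ 3` (`LipschitzOnWith.dimH_image_le`, `dimH` of a subset of a three-dimensional space; Mathlib: `Real.dimH_of_nonempty_interior`, `dimH_univ_eq_finrank`).  An open nonempty subset `O` of `S4` contained in the image: the map `x ↦ x/‖x‖` (or a chart: stereographic projection restricted to a
small closed ball of a chart domain is Lipschitz with values in `EuclideanSpace ℝ (Fin 4)`, smooth) maps `O` onto a set containing an open set of a four-dimensional space, of `dimH = 4`; smooth maps are locally Lipschitz, so `dimH (chart '' O) ≤ dimH O ≤ 3`: a contradiction.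
(Alternatively as in `M_SMH.lean` with the cone over the image in `R⁵`: `(r, z) ↦ r • g z` is Lipschitz on bounded sets, `dimH ≤ 4 < 5`.) -/
def StDIM : Prop :=
  ∀ (g : ℝ × ℝ × ℝ → S4) (P : Set (ℝ × ℝ × ℝ)), IsCompact P →
    (∃ L : NNReal, LipschitzOnWith L g P) → IsCompact (g '' P) ∧ interior (g '' P) = ∅

/-- the box of the null-homotopies -/
def box : Set (ℝ × ℝ × ℝ) := Icc (0 : ℝ) 1 ×ˢ (Icc (0 : ℝ) 1 ×ˢ Icc (9 / 20 : ℝ) (11 / 20))

/-- `N` is a null-homotopy, off `A`, of the square of the word `l` in the spheres `g`. -/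
def NullOff {M : Type} [TopologicalSpace M] {n : ℕ} (A : Set M) (y : M) (g : Fin n → R3 → M)
    (l : List (Fin n × Bool)) (N : ℝ × ℝ × ℝ → M) : Prop :=
  ContinuousOn N box ∧
    (∀ q ∈ Icc (0 : ℝ) 1, ∀ s ∈ Icc (9 / 20 : ℝ) (11 / 20),
      N (0, q, s) = evM y g l q s ∧ N (1, q, s) = y) ∧
    ∀ u ∈ Icc (0 : ℝ) 1, ∀ q ∈ Icc (0 : ℝ) 1, ∀ s ∈ Icc (9 / 20 : ℝ) (11 / 20),
      N (u, q, s) ∉ A ∧ ((q = 0 ∨ q = 1 ∨ s = 9 / 20 ∨ s = 11 / 20) → N (u, q, s) = y)

/-- `h` is a free homotopy, off `A`, from spheres with `(1, 0) ↦ y` to the spheres `b i`. -/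
def FreeOff {M : Type} [TopologicalSpace M] {n : ℕ} (A : Set M) (y : M) (b : Fin n → R3 → M)
    (h : Fin n → ℝ × R3 → M) : Prop :=
  (∀ i, ContinuousOn (h i) (Icc (0 : ℝ) 1 ×ˢ S2)) ∧ (∀ i, ∀ m ∈ S2, h i (1, m) = b i m) ∧
    (∀ i, h i (0, (1, 0)) = y) ∧ ∀ i, ∀ u ∈ Icc (0 : ℝ) 1, ∀ m ∈ S2, h i (u, m) ∉ A

/-- MODULE REP.  Free homotopies and null-homotopies can be replaced by ones with small images.
Proof (uses `StLIP`, `StDIM`, `StMQ`, `StEVM`; `isCompact_S2` of `M_REL4.lean`).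
(1) `StLIP` for `X = R3`, `P = S2`, `P₀ = {(1, 0)}`, `f = h i (0, ·)`, `K = A`: `k i : ℝ × R3 → S4`, `k i (0, m) = h i (0, m)`, `k i (1, ·) = g' i` Lipschitz, `k i (u, (1, 0)) = y`, off `A`.
(2) `h'' i (u, m) = k i (1 - 2 u, m)` for `u ≤ 1/2`, `h i (2 u - 1, m)` for `1/2 ≤ u`: continuous on `[0,1] × S2`, off `A`, `h'' i (0, ·) = g' i`, `h'' i (1, ·) = b i`.  `StLIP` for `X = ℝ × R3`, `P = [0,1] × S2`, `P₀ = {0, 1} × S2` (`h''` is Lipschitz there: `g' i` and `b i` are Lipschitz, points with `u = 0` and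
`u = 1` have distance `≥ 1` and `dist ≤ 2` in `S4`): `h' i = g` Lipschitz on `P` with the same values on `P₀`, off `A`.
`interior (h' i '' P) = ∅`: `P` is the image of `[0,1]³` under the Lipschitz map `(u, x, y) ↦ (u, mq x y)` (`StMQ` (4), (5)); `StDIM`.
(3) `N'' (u, q, s) = evM y (fun i m => k i (1 - 2 u, m)) l q s` for `u ≤ 1/2`, `N (2 u - 1, q, s)` for `1/2 ≤ u`: continuous on `box` (`StEVM` (3) with `T = ℝ`, `C = [0,1]`), off `A` (by `StEVM` (2),(3) or: its values are `y` or values of the `k i`; induction), boundary values `y`, `N'' (0, ..) = evM y g' l`.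
`StLIP` for `X = ℝ × ℝ × ℝ`, `P = box`, `P₀` = the part of `box` with `u = 0` or `u = 1` or `q = 0` or `q = 1` or `s = 9/20` or `s = 11/20`: `N''` is Lipschitz on `P₀`: on the face `u = 0` by `StEVM` (4) (constant `L`), it is `y` on all the other faces; for `z = (0, q, s)` and `z'` on a face `q' = 0` (or `1`, or `s' = ..`)
the point `p = (0, q', s')` has `N'' p = y` and `dist z p ≤ dist z z'`; for `z'` with `u' = 1` `dist (N'' z) y ≤ 2 ≤ 2 dist z z'`.  `N' = g`; `StDIM`. -/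
def StREP : Prop :=
  ∀ (n : ℕ) (A : Set S4) (y : S4) (b : Fin n → R3 → S4) (h : Fin n → ℝ × R3 → S4)
    (l : List (Fin n × Bool)) (N : ℝ × ℝ × ℝ → S4), IsCompact A →
    (∀ i, ∃ L : NNReal, LipschitzOnWith L (b i) S2) → FreeOff A y b h →
    NullOff A y (fun i m => h i (0, m)) l N →
    ∃ (h' : Fin n → ℝ × R3 → S4) (N' : ℝ × ℝ × ℝ → S4), FreeOff A y b h' ∧
      NullOff A y (fun i m => h' i (0, m)) l N' ∧
      (∀ i, interior (h' i '' (Icc (0 : ℝ) 1 ×ˢ S2)) = ∅) ∧ interior (N' '' box) = ∅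

/-- MODULE WRD.  A relation in the second homotopy group gives a null-homotopy of a square.
Proof.  `l` by induction: `G l : GenLoop (Fin 2) X y₀` with `G [] = const`, `G ((i, true) :: l) = transAt 0 (f i) (G l)`, `G ((i, false) :: l) = transAt 0 (symmAt 0 (f i)) (G l)`.
(a) `⟦G l⟧ = (l.map ..).prod`: `HomotopyGroup.mul_spec : ⟦p⟧ * ⟦q⟧ = ⟦transAt i q p⟧`, `HomotopyGroup.inv_spec`, `HomotopyGroup.one_def`; the factors are in the other order, but the group is commutative (`HomotopyGroup.commGroup`; `Fin 2` is nontrivial).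
(b) for `q ∈ [0,1]`: `evM y₀ g l q s = G l (![q, step (10 s - 9/2)])` (as points of the unit interval): `mm q s = mq q (step (10 s - 9/2))` (`StMQ` (1)), `g i (mq x y) = f i ![x, y]`, induction with the formulas defining `transAt`, `symmAt` (`Function.update t 0 ..`).
(c) `⟦G l⟧ = 1 = ⟦const⟧` gives (`Quotient.exact`) `Homotopic (G l) const`: `H : HomotopyRel ..`; `N (u, q, s) = H (u, ![q, step (10 s - 9/2)])` with `Set.projIcc 0 1 zero_le_one` applied to `u`, `q` (and to `step ..`); it is continuous on all of `ℝ³`.  Boundary: `q = 0`, `q = 1`, `s = 9/20` (`step 0 = 0`), `s = 11/20` (`step 1 = 1`):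
`H (u, t) = G l t = y₀` for `t ∈ Cube.boundary` (`HomotopyRel.eq_fst`). -/
def StWRD : Prop :=
  ∀ (A : Set S4) (y₀ : {x : S4 // x ∉ A}) (n : ℕ)
    (f : Fin n → GenLoop (Fin 2) {x : S4 // x ∉ A} y₀) (g : Fin n → R3 → S4)
    (l : List (Fin n × Bool)), (∀ i t, g i (sqr t) = f i t) →
    (l.map fun p => if p.2 then cls (f p.1) else (cls (f p.1))⁻¹).prod = 1 →
    ∃ N : ℝ × ℝ × ℝ → S4, NullOff A (y₀ : S4) g l N

/-! ## the relation theorem in the 4-sphere -/

/-- The relation theorem in the 4-sphere. -/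
def RelS (W : S4 → S4) : Prop :=
  ∀ (n : ℕ) (B : R4 → S4) (Bi : Fin n → R4 → S4) (φ φ' : Fin n → S4 → S4) (U : Set R4)
    (A : Set S4) (y₀ : {x : S4 // x ∉ A}) (z : Fin n → Pi2 A y₀) (l : List (Fin n × Bool)),
    EmbOn (𝓡 4) B SP → (∀ i, EmbOn (𝓡 4) (Bi i) SP) → IsOpen U → sph 1 ⊆ U →
    (∀ i, EqOn B (Bi i) U) → (∀ i, Thin (𝓡 4) (Bi i) (φ i)) → (∀ i x, φ i (φ' i x) = x) →
    (∀ i x, φ' i (φ i x) = x) → A = B '' sph 1 → (y₀ : S4) = B (1 / 2, (1 / 2, 0)) →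
    (∀ i, FreeClass A y₀ (Bi i) (z i)) →
    (l.map fun p => if p.2 then z p.1 else (z p.1)⁻¹).prod = 1 →
    UpTo W (evD φ φ' l) (fun x => x)

/-- `W'` is the transport of `W` by all charts -/
def IsPush (W : R4 → R4) (W' : S4 → S4) : Prop :=
  ∀ c : R4 → S4, EmbOn (𝓡 4) c univ → CIsot (𝓡 4) (imp c univ W) W'

/-- RELS (helper18). -/
def StRelS : Prop :=
  ∀ W : R4 → R4, IsW W → ∃ W' : S4 → S4, IsW4 W' ∧ IsPush W W' ∧ RelS W'

/-! ## the parallel copy -/

/-- MODULE PAR4 (helper27).  A germ whose moved cuff is a parallel copy of the fixed cuff, of class `1` or `W`. -/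
def StPAR4 : Prop :=
  ∀ (F W : R4 → R4), IsW W → EmbOn I4 F SP → ∀ r > 0, ∃ η ∈ Ioo (0 : ℝ) r,
    ∃ (F' φ' : R4 → R4) (U : Set R4), EmbOn I4 F' SP ∧ IsOpen U ∧ sph 1 ⊆ U ∧ EqOn F F' U ∧
      Thin I4 F' φ' ∧ (CIsot I4 φ' (fun x => x) ∨ CIsot I4 φ' W) ∧
      ∀ p ∈ sph 0, F' p = F (p.1 + η, (p.2.1 + 1, p.2.2))

end Pool.Agent.Helper18.BI.R
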