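import Pool.Agent.Helper18.BI.H.AsmF3
import Pool.Agent.Helper18.BI.R.M_FIN4
import Pool.Agent.Helper18.BI.R.M_HCL
import Pool.Agent.Helper18.BI.R.M_BAS
import Pool.Agent.Helper18.BI.R.M_STR2
import Pool.Agent.Helper18.BI.R.M_MOVE
import Pool.Agent.Helper18.BI.R.M_TOPG
import Pool.Agent.Helper18.BI.R.M_MQ
import Pool.Agent.Helper18.BI.R.M_EVM
import Pool.Agent.Helper18.BI.R.M_REP
import Pool.Agent.Helper18.BI.R.M_WRD
import Pool.Agent.Helper34.BI.R.M_SMG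
import Pool.Agent.Helper34.BI.R.M_LIP
import Pool.Agent.Helper27.BI.R.M_PAR4

/-!
# Project BI, stage 4 (R): assembly
-/

set_option autoImplicit false

open Pool.Agent.Helper18.BI Pool.Agent.Helper65.Barb
open Pool.Agent.Helper70.BI (hMain2 hW4 hX2c hEI hR3real hMWL exists_isW')
open Pool.Agent.Helper18.BI.H (hArcH hHMain hNORM hHATn)

namespace Pool.Agent.Helper18.BI.R

theorem hHCL : StHCL :=
  m_HCL Pool.Agent.Helper27.R.hMULT Pool.Agent.Helper27.R.hINV Pool.Agent.Helper34.BI.R.m_SMG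
    Pool.Agent.Helper27.H.hCls hArcH hCI

theorem hFREE : StFREE := m_FREE Pool.Agent.Helper34.BI.H.m_BAR hMain2 m_TOPG hT2

theorem hREL4 : StREL4 :=
  m_REL4 m_STR2 m_MOVE hFREE hHATn m_BAS m_NRB hHCL hMWL hT2 hCI

theorem hREP : StREP :=
  m_REP Pool.Agent.Helper34.BI.R.m_LIP Pool.Agent.Helper34.BI.R.m_DIM m_MQ m_EVM

theorem hRelS : StRelS :=
  m_RELS hREL4 hREP (m_WRD m_MQ) m_EVM hW4 hEI hX2c hR3real hA1 hS4 hX1 hX3 hT2 hCI

theorem hPAR4 : StPAR4 := Pool.Agent.Helper27.R.hPAR4_of hNORM hHMain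

/-- **the main theorem of stage 4** -/
theorem hFinal4 : StFinal4 := by
  obtain ⟨W, hW⟩ := exists_isW'
  exact m_FIN4 (m_PARS hPAR4 hEI hX2c hX1 hX3 hT4 hS4 hCI) hRelS hT4 hT2 hCI hW

end Pool.Agent.Helper18.BI.R
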