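import Pool.Agent.Helper18.BI.R.StR4
import Pool.Agent.Helper18.BI.R.M_REL4
import Pool.Agent.Helper18.BI.H.M_F3

/-!
# Project BI, stage 4 (R), module RELS: the relation theorem in the 4-sphere
-/

set_option autoImplicit false
set_option linter.unusedSectionVars false

open scoped Manifold ContDiff Topology ComplexConjugate unitInterval
open Set Filter Pool.Agent.Helper65.Barb Pool.Agent.Helper18.BI
open Pool.Agent.Helper70.BI (I4 IsW StW4 StEI StX2c)
open Pool.Agent.Helper70.BI.Fin2 (SP_sub_NB sph_sub_flat SP_sub_FB isCompact_flat)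
open Pool.Agent.Helper18.BI.H (IsW4 mm)
open Pool.Agent.Helper18.BI.H.F3 (invFun_continuousAt)
open Pool.Agent.Helper70.Fin (coreSphere)
open Pool.Agent.Helper18.FinR (sqr Pi2 cls FreeClass UpTo)

namespace Pool.Agent.Helper18.BI.R

namespace RELS

/-- the class `W` of the 4-sphere -/
theorem w4_exists (hW4 : StW4) (hR3 : StR3) (hA1 : StA1) (hCI : StCI) {W : R4 → R4}
    (hW : IsW W) : ∃ W' : S4 → S4, IsW4 W' ∧
      ∀ c : R4 → S4, EmbOn (𝓡 4) c univ → CIsot (𝓡 4) (imp c univ W) W' := by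
  obtain ⟨W₄, c₀, F₀, α₀, β₀, k1, k2, k3, k4, k5, k6, k7⟩ := hW4 W hW
  obtain ⟨-, cs, cself, ct, cc, -, -, cconj, ciso, -⟩ := hCI _ _ (𝓡 4) S4
  have hE₀ : EmbOn (𝓡 4) F₀ SP := ⟨fun p hp => k6.loc p (SP_sub_FB hp), k6.inj⟩
  obtain ⟨B₀, hB₀, hBF, hiso⟩ := hR3 _ _ (𝓡 4) S4 F₀ W₄ hE₀ k7
  obtain ⟨δ₀, hδ, hδF⟩ := hA1 R4 _ _ (𝓡 4) S4 F₀ (flat 0 ∪ flat 1)
    ((isCompact_flat 0).union (isCompact_flat 1))
    (fun p hp => k6.loc p (Or.inl hp)) k6.balls
  have hWi : implantation B₀ barMap = push B₀ barMap :=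
    implantation_eq_push B₀ hB₀ isBarbellMap_barMap
  rw [← hWi] at hiso
  refine ⟨implantation B₀ barMap, ⟨⟨B₀, δ₀, hB₀, hδ, fun p hp => ?_, rfl⟩, ?_, ?_⟩,
    fun c hc => ct _ _ _ (k2 c hc) hiso⟩
  · have hp' : p ∈ flat 0 ∪ flat 1 := hp.imp (fun h => sph_sub_flat 0 h) fun h => sph_sub_flat 1 h
    rw [hδF p (hδ hp'), hBF p hp]
  · have h1 := cc _ _ _ _ hiso hiso
    exact ciso _ _ (ct _ _ _ (cs _ _ h1) k3)
  · intro Ψ Ψ' hΨ hΨ' i1 i2
    have h1 := cconj _ _ Ψ Ψ' hiso hΨ hΨ' i1 i2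
    exact ciso _ _ (ct _ _ _ (cs _ _ h1) (ct _ _ _ (k4 Ψ Ψ' hΨ hΨ' i1 i2) hiso))

/-- transfer of a germ to a chart -/
theorem transferG (hT2 : StT2) (hX1 : StX1) (hX3 : StX3) (c : R4 → S4)
    (hc : EmbOn (𝓡 4) c univ) (B : R4 → S4) (φ : S4 → S4)
    (hB : EmbOn (𝓡 4) B SP) (hφ : Thin (𝓡 4) B φ) (hBc : B '' SP ⊆ range c) :
    EmbOn I4 (fun p => Function.invFun c (B p)) SP ∧
      ∃ ψ, Thin I4 (fun p => Function.invFun c (B p)) ψ ∧
        CIsot (𝓡 4) (imp c univ ψ) φ := by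
  obtain ⟨-, tii, -, -, tv, -, -⟩ := hT2 _ _ (𝓡 4) S4
  obtain ⟨hF, U1, hU1o, hU1s, hU1⟩ := hX3 _ _ (𝓡 4) S4 c B SP hc hB hBc
  obtain ⟨-, -, z3, -⟩ := hX1 _ _ (𝓡 4) S4 c hc
  obtain ⟨ε₁, hε₁, hφ'⟩ := (hT2 _ _ 𝓘(ℝ, R4) R4).1 _ hF
  have hψ := hφ' (ε₁ / 2) ⟨by positivity, by linarith⟩
  exact ⟨hF, _, hψ, tii B _ _ (tv _ _ U1 _ hU1o hU1s (fun p hp => hU1 p hp) (z3 _ _ hψ)) hφ⟩

/-- the spine of a germ in the 4-sphere is compact with empty interior -/
theorem spine_smallG (hEI : StEI) (hS4 : StS4) (B : R4 → S4) (hB : EmbOn (𝓡 4) B SP) :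
    IsCompact (B '' SP) ∧ interior (B '' SP) = ∅ := by
  refine hEI _ _ (𝓡 4) S4 B SP hS4.2.2.2.2.2.2.2.2.1 ?_ hB.1
  rintro p ((hp | hp) | hp)
  · exact hp.1
  · exact hp.1
  · exact hp.1

theorem sph0_sub : sph 0 ⊆ SP := fun _ hp => Or.inl (Or.inl hp)

theorem sph1_sub : sph 1 ⊆ SP := fun _ hp => Or.inl (Or.inr hp)

theorem isCompact_sph (c : ℝ) : IsCompact (sph c) := by
  have h2 : IsCompact (flat c) := isCompact_flat c
  refine h2.of_isClosed_subset ?_ (sph_sub_flat c)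
  apply IsClosed.inter (isClosed_eq continuous_fst continuous_const)
  exact isClosed_eq (continuous_rsq c) continuous_const

theorem coreSphere_eq (c : ℝ) : coreSphere c = sph c := by
  have e : (1 / 5 : ℝ) ^ 2 = 1 / 25 := by norm_num
  rw [coreSphere, sph, e]

/-- the moved cuff is a Lipschitz map -/
theorem cuff_lip (B : R4 → S4) (hB : EmbOn (𝓡 4) B SP) :
    ∃ L : NNReal, LipschitzOnWith L (fun m : R3 => B (1 / 2, (1 / 5 : ℝ) • m)) S2 := by
  have hfact : Fact (Module.finrank ℝ (EuclideanSpace ℝ (Fin 5)) = 4 + 1) := ⟨by simp⟩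
  refine LocallyLipschitzOn.exists_lipschitzOnWith_of_compact
    Pool.Agent.Helper18.BI.R.isCompact_S2 ?_
  intro m hm
  have hp : ((1 / 2, (1 / 5 : ℝ) • m) : R4) ∈ sph 0 := cuff_mem hm
  have h1 : ContMDiffAt 𝓘(ℝ, R4) (𝓡 4) ∞ B (1 / 2, (1 / 5 : ℝ) • m) :=
    (hB.1 _ (sph0_sub hp)).contMDiffAt
  have h2 : ContMDiffAt 𝓘(ℝ, R4) 𝓘(ℝ, EuclideanSpace ℝ (Fin 5)) ∞
      (fun p : R4 => ((B p : S4) : EuclideanSpace ℝ (Fin 5))) (1 / 2, (1 / 5 : ℝ) • m) :=
    (contMDiff_coe_sphere (n := 4) (E := EuclideanSpace ℝ (Fin 5)) (B (1 / 2, (1 / 5 : ℝ) • m))).comp _ h1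
  have h3 : ContDiffAt ℝ ∞
      (fun p : R4 => ((B p : S4) : EuclideanSpace ℝ (Fin 5))) (1 / 2, (1 / 5 : ℝ) • m) :=
    h2.contDiffAt
  have h4 : ContDiffAt ℝ 1
      (fun m : R3 => ((B (1 / 2, (1 / 5 : ℝ) • m) : S4) : EuclideanSpace ℝ (Fin 5))) m := by
    have h5 : ContDiffAt ℝ ∞ (fun m : R3 => ((1 / 2, (1 / 5 : ℝ) • m) : R4)) m :=
      contDiffAt_const.prodMk (contDiffAt_id.const_smul _)
    have h6 : ContDiffAt ℝ ∞
        (fun m : R3 => ((B (1 / 2, (1 / 5 : ℝ) • m) : S4) : EuclideanSpace ℝ (Fin 5))) m :=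
      ContDiffAt.comp (g := fun p : R4 => ((B p : S4) : EuclideanSpace ℝ (Fin 5)))
        (f := fun m : R3 => ((1 / 2, (1 / 5 : ℝ) • m) : R4)) m h3 h5
    exact h6.of_le (by exact_mod_cast le_top)
  obtain ⟨K, t, ht, hK⟩ := h4.exists_lipschitzOnWith
  exact ⟨K, t, mem_nhdsWithin_of_mem_nhds ht, fun x hx y hy => hK hx hy⟩

/-- a finite union of closed sets with empty interior -/
theorem interior_iUnion_fin {ι : Type} [Finite ι] (K : ι → Set S4) (h1 : ∀ i, IsClosed (K i))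
    (h2 : ∀ i, interior (K i) = ∅) : interior (⋃ i, K i) = ∅ := by
  have key : ∀ s : Set ι, s.Finite → IsClosed (⋃ i ∈ s, K i) ∧ interior (⋃ i ∈ s, K i) = ∅ := by
    intro s hs
    induction s, hs using Set.Finite.induction_on with
    | empty => simp
    | @insert a s _ _ ih =>
      rw [biUnion_insert]
      refine ⟨(h1 a).union ih.1, ?_⟩
      rw [interior_union_isClosed_of_interior_empty (h1 a) ih.2, h2 a]
  have := (key univ finite_univ).2
  simpa using this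

/-- two descriptions of the square of a word -/
theorem evS_eq {n : ℕ} (y : R4) (g : Fin n → R3 → R4) (l : List (Fin n × Bool)) (q s : ℝ) :
    evS y g l q s = evM y g l q s := by
  induction l generalizing q with
  | nil => rfl
  | cons p l ih =>
    obtain ⟨i, b⟩ := p
    rcases b with _ | _
    · show qcat _ _ q s = qcatM _ _ q s
      unfold qcat qcatM
      split_ifs
      · rfl
      · exact ih _
    · show qcat _ _ q s = qcatM _ _ q s
      unfold qcat qcatM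
      split_ifs
      · rfl
      · exact ih _

theorem imp_evD (hX1 : StX1) (c : R4 → S4) (hc : EmbOn (𝓡 4) c univ) {n : ℕ}
    (ψ ψ' : Fin n → R4 → R4) (l : List (Fin n × Bool)) :
    imp c univ (evD ψ ψ' l) = evD (fun i => imp c univ (ψ i)) (fun i => imp c univ (ψ' i)) l := by
  obtain ⟨-, -, -, z4, -⟩ := hX1 _ _ (𝓡 4) S4 c hc
  induction l with
  | nil => exact Pool.Agent.Helper70.BI.W4.imp_id
  | cons p l ih =>
    obtain ⟨i, b⟩ := p
    funext y
    rcases b with _ | _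
    · show imp c univ (fun x => evD ψ ψ' l (ψ' i x)) y = _
      rw [z4, ih]
      rfl
    · show imp c univ (fun x => evD ψ ψ' l (ψ i x)) y = _
      rw [z4, ih]
      rfl

theorem evD_isot (hCI : StCI) {n : ℕ} {φ φ' ψ ψ' : Fin n → S4 → S4}
    (h : ∀ i, CIsot (𝓡 4) (φ i) (ψ i)) (h' : ∀ i, CIsot (𝓡 4) (φ' i) (ψ' i)) :
    ∀ l, CIsot (𝓡 4) (evD φ φ' l) (evD ψ ψ' l) := by
  obtain ⟨cid, -, -, -, cc, -⟩ := hCI _ _ (𝓡 4) S4
  intro l
  induction l with
  | nil => exact cid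
  | cons p l ih =>
    obtain ⟨i, b⟩ := p
    rcases b with _ | _
    · exact cc (evD φ φ' l) (evD ψ ψ' l) (φ' i) (ψ' i) ih (h' i)
    · exact cc (evD φ φ' l) (evD ψ ψ' l) (φ i) (ψ i) ih (h i)

end RELS

open RELS in
/-- **RELS.** -/
theorem m_RELS (hREL4 : StREL4) (hREP : StREP) (hWRD : StWRD) (hEVM : StEVM)
    (hW4 : StW4) (hEI : StEI) (hX2c : StX2c) (hR3 : StR3) (hA1 : StA1) (hS4 : StS4)
    (hX1 : StX1) (hX3 : StX3) (hT2 : StT2) (hCI : StCI) : StRelS := by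
  intro W hW
  obtain ⟨W', hW', hcW⟩ := w4_exists hW4 hR3 hA1 hCI hW
  refine ⟨W', hW', hcW, ?_⟩
  intro n B Bi φ φ' U A y₀ z l hB hBi hU hsU hE hT hi1 hi2 hA hy hz hprod
  obtain ⟨cid, cs, cself, ct, cc, cinv, cex, cconj, ciso, -⟩ := hCI _ _ (𝓡 4) S4
  choose f h hzf hhc hh0 hh1 hhoff using hz
  -- the homotopies of spheres
  have hmap : ∀ m ∈ S2, ((1 / 2, (1 / 5 : ℝ) • m) : R4) ∈ coreSphere 0 := fun m hm => by
    rw [coreSphere_eq]
    exact cuff_mem hm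
  have hAc : IsCompact A := by
    rw [hA]
    refine (isCompact_sph 1).image_of_continuousOn fun p hp => ?_
    exact (hB.1 p (sph1_sub hp)).contMDiffAt.continuousAt.continuousWithinAt
  have hbase : sqr (fun _ => 0) = (1, 0) := by
    simp only [sqr]
    ext1
    · simp
    · apply Complex.ext <;> simp
  have hfree : FreeOff A (y₀ : S4) (fun i m => Bi i (1 / 2, (1 / 5 : ℝ) • m))
      (fun i z => h i (z.1, (1 / 2, (1 / 5 : ℝ) • z.2))) := by
    refine ⟨fun i => ?_, fun i m hm => hh1 i _ (hmap m hm), fun i => ?_, fun i u hu m hm =>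
      hhoff i u hu _ (hmap m hm)⟩
    · refine (hhc i).comp (Continuous.continuousOn (by fun_prop)) ?_
      rintro ⟨u, m⟩ hz
      exact ⟨hz.1, hmap m hz.2⟩
    · have h1 := hh0 i (fun _ => 0)
      rw [hbase] at h1
      show h i (0, (1 / 2, (1 / 5 : ℝ) • ((1, 0) : R3))) = _
      rw [h1]
      exact congrArg Subtype.val ((f i).2 (fun _ => 0) ⟨0, Or.inl rfl⟩)
  have hprod' : (l.map fun p => if p.2 then cls (f p.1) else (cls (f p.1))⁻¹).prod = 1 := by
    rw [← hprod]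
    congr 1
    apply List.map_congr_left
    intro p _
    rw [hzf p.1]
  obtain ⟨N, hN⟩ := hWRD A y₀ n f (fun i m => h i (0, (1 / 2, (1 / 5 : ℝ) • m))) l
    (fun i t => hh0 i t) hprod'
  obtain ⟨h', N', hfree', hN', hint1, hint2⟩ := hREP n A (y₀ : S4)
    (fun i m => Bi i (1 / 2, (1 / 5 : ℝ) • m)) _ l N hAc (fun i => cuff_lip (Bi i) (hBi i)) hfree hN
  -- compact sets
  have hbox : IsCompact box := isCompact_Icc.prod (isCompact_Icc.prod isCompact_Icc)
  have s1 := spine_smallG hEI hS4 B hB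
  have s2 := fun i => spine_smallG hEI hS4 (Bi i) (hBi i)
  have s3 : ∀ i, IsCompact (h' i '' (Icc (0 : ℝ) 1 ×ˢ S2)) := fun i =>
    (isCompact_Icc.prod Pool.Agent.Helper18.BI.R.isCompact_S2).image_of_continuousOn (hfree'.1 i)
  have s4 : IsCompact (N' '' box) := hbox.image_of_continuousOn hN'.1
  have c2 : IsCompact (⋃ i, Bi i '' SP) := isCompact_iUnion fun i => (s2 i).1
  have c3 : IsCompact (⋃ i, h' i '' (Icc (0 : ℝ) 1 ×ˢ S2)) := isCompact_iUnion s3
  have i2 : interior (⋃ i, Bi i '' SP) = ∅ :=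
    interior_iUnion_fin _ (fun i => (s2 i).1.isClosed) fun i => (s2 i).2
  have i3 : interior (⋃ i, h' i '' (Icc (0 : ℝ) 1 ×ˢ S2)) = ∅ :=
    interior_iUnion_fin _ (fun i => (s3 i).isClosed) hint1
  obtain ⟨c, hc, hsub⟩ := hX2c (((B '' SP ∪ ⋃ i, Bi i '' SP) ∪
      ⋃ i, h' i '' (Icc (0 : ℝ) 1 ×ˢ S2)) ∪ N' '' box)
    (((s1.1.union c2).union c3).union s4) (by
      rw [interior_union_isClosed_of_interior_empty ((s1.1.union c2).union c3).isClosed hint2,
        interior_union_isClosed_of_interior_empty (s1.1.union c2).isClosed i3,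
        interior_union_isClosed_of_interior_empty s1.1.isClosed i2, s1.2])
  have r1 : B '' SP ⊆ range c :=
    (subset_union_left.trans (subset_union_left.trans subset_union_left)).trans hsub
  have r2 : ∀ i, Bi i '' SP ⊆ range c := fun i => ((subset_iUnion (fun i => Bi i '' SP) i).trans
    (subset_union_right.trans (subset_union_left.trans subset_union_left))).trans hsub
  have r3 : ∀ i, ∀ z ∈ Icc (0 : ℝ) 1 ×ˢ S2, h' i z ∈ range c := fun i z hz =>
    hsub (Or.inl (Or.inr (mem_iUnion.2 ⟨i, mem_image_of_mem _ hz⟩)))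
  have r4 : ∀ z ∈ box, N' z ∈ range c := fun z hz => hsub (Or.inr (mem_image_of_mem _ hz))
  -- pulling back
  have hinv : ∀ y ∈ range c, c (Function.invFun c y) = y := fun y hy => Function.invFun_eq hy
  obtain ⟨z1, -, -, z4, -⟩ := hX1 _ _ (𝓡 4) S4 c hc
  obtain ⟨hF, -⟩ := hX3 _ _ (𝓡 4) S4 c B SP hc hB r1
  choose hFi ψ hψ hψφ using fun i => transferG hT2 hX1 hX3 c hc (Bi i) (φ i) (hBi i) (hT i) (r2 i)
  obtain ⟨-, -, -, -, -, -, cex4, -⟩ := hCI _ _ 𝓘(ℝ, R4) R4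
  choose ψ' hψ' j1 j2 using fun i =>
    cex4 (ψ i) ((hT2 _ _ 𝓘(ℝ, R4) R4).2.2.2.2.2.2 _ _ (hψ i))
  have hoffA : ∀ y ∈ range c, y ∉ A →
      Function.invFun c y ∉ (fun p => Function.invFun c (B p)) '' sph 1 := by
    rintro y hy hyA ⟨q, hq, he⟩
    have he' : Function.invFun c (B q) = Function.invFun c y := he
    have hBq : B q ∈ range c := r1 (mem_image_of_mem _ (sph1_sub hq))
    have e1 : B q = y := by rw [← hinv _ hBq, he', hinv _ hy]
    exact hyA (hA ▸ ⟨q, hq, e1⟩)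
  have hbar : Function.invFun c (y₀ : S4) = Function.invFun c (B (H.bar (1 / 2))) := by
    show _ = Function.invFun c (B (1 / 2, (1 / 2, 0)))
    rw [hy]
  have hor := hREL4 n (fun p => Function.invFun c (B p)) (fun i p => Function.invFun c (Bi i p)) ψ ψ'
    U (fun i z => Function.invFun c (h' i z)) W l (fun z => Function.invFun c (N' z)) hW hF hFi hU
    hsU (fun i p hp => by
      have : B p = Bi i p := hE i hp
      simp only [this]) hψ j1 j2
    (fun i z hz => (invFun_continuousAt hc (r3 i z hz)).comp_continuousWithinAt (hfree'.1 i z hz))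
    (fun i m hm => by simp only [hfree'.2.1 i m hm])
    (fun i => by
      show Function.invFun c (h' i (0, (1, 0))) = _
      rw [hfree'.2.2.1 i, hbar])
    (fun i u hu m hm => hoffA _ (r3 i (u, m) ⟨hu, hm⟩) (hfree'.2.2.2 i u hu m hm))
    (fun z hz => (invFun_continuousAt hc (r4 z hz)).comp_continuousWithinAt (hN'.1 z hz))
    (fun q hq s hs => by
      obtain ⟨a1, a2⟩ := hN'.2.1 q hq s hs
      constructor
      · show Function.invFun c (N' (0, q, s)) = _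
        rw [a1, evS_eq, ← hbar]
        exact (hEVM.1 _ _ n (Function.invFun c) (y₀ : S4) (fun i m => h' i (0, m)) l q s).symm
      · show Function.invFun c (N' (1, q, s)) = _
        rw [a2, hbar])
    (fun u hu q hq s hs => by
      obtain ⟨a1, a2⟩ := hN'.2.2 u hu q hq s hs
      refine ⟨hoffA _ (r4 (u, q, s) ⟨hu, hq, hs⟩) a1, fun hbd => ?_⟩
      show Function.invFun c (N' (u, q, s)) = _
      rw [a2 hbd, hbar])
  -- pushing forward
  have q1 : ∀ i, CIsot (𝓡 4) (imp c univ (ψ' i)) (φ' i) := fun i =>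
    cinv _ _ _ _ (hψφ i) (fun x => by
      rw [← z4 (ψ i) (ψ' i) x]
      have : (fun p => ψ i (ψ' i p)) = fun p => p := funext (j1 i)
      rw [this, Pool.Agent.Helper70.BI.W4.imp_id]) (hi1 i)
  have q2 : CIsot (𝓡 4) (imp c univ (evD ψ ψ' l)) (evD φ φ' l) := by
    rw [imp_evD hX1 c hc]
    exact evD_isot hCI hψφ q1 l
  rcases hor with e | e
  · left
    have h2 := z1 _ _ e
    rw [Pool.Agent.Helper70.BI.W4.imp_id] at h2
    exact ciso _ _ (ct _ _ _ (cs _ _ q2) h2)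
  · right
    exact ciso _ _ (ct _ _ _ (cs _ _ q2) (ct _ _ _ (z1 _ _ e) (hcW c hc)))

end Pool.Agent.Helper18.BI.R
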