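import Pool.Agent.Helper18.BI.R.StR5
import Pool.Agent.Helper18.BI.R.M_RELS

/-!
# Project BI, stage 4 (R), module EXC: every barbell with the given fixed cuff has a class
-/

set_option autoImplicit false

open scoped Manifold ContDiff Topology ComplexConjugate unitInterval
open Set Pool.Agent.Helper65.Barb Pool.Agent.Helper18.BI
open Pool.Agent.Helper70.BI.Fin2 (SP_sub_NB)
open Pool.Agent.Helper70.Fin (Emb coreSphere)
open Pool.Agent.Helper18.FinR (sqr Pi2 cls FreeClass SameFixed UpTo)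
open Pool.Agent.Helper18.BI.H (bar bar_mem_SP continuous_bar bar_not_sph1)

namespace Pool.Agent.Helper18.BI.R

namespace EXC

theorem sqr_eq (t : Fin 2 → unitInterval) : sqr t = mq (t 0) (t 1) := rfl

theorem continuous_sqr : Continuous sqr := by
  have h0 : Continuous fun t : Fin 2 → unitInterval => ((t 0 : unitInterval) : ℝ) :=
    continuous_subtype_val.comp (continuous_apply 0)
  have h1 : Continuous fun t : Fin 2 → unitInterval => ((t 1 : unitInterval) : ℝ) :=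
    continuous_subtype_val.comp (continuous_apply 1)
  have s0 := Real.continuous_sin.comp (continuous_const.mul h0 (f := fun _ => Real.pi))
  have s1 := Real.continuous_sin.comp (continuous_const.mul h1 (f := fun _ => Real.pi))
  have c0 := Real.continuous_cos.comp (continuous_const.mul h0 (f := fun _ => Real.pi))
  have c1 := Real.continuous_cos.comp (continuous_const.mul h1 (f := fun _ => Real.pi))
  unfold sqr
  refine Continuous.prodMk ?_ ?_
  · exact continuous_const.sub ((continuous_const.mul (s0.pow 2)).mul (s1.pow 2))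
  · refine Complex.equivRealProdCLM.symm.continuous.comp (Continuous.prodMk ?_ ?_)
    · exact (((continuous_const.mul s0).mul s1).mul c1).neg
    · exact ((continuous_const.mul s0).mul c0).mul (s1.pow 2)

theorem sph0_not_sph1 {p : R4} (h0 : p ∈ sph 0) : p ∉ sph 1 := by
  rintro ⟨-, h1⟩
  have h0' : (p.2.1 - 0) ^ 2 + p.2.2.re ^ 2 + p.2.2.im ^ 2 = 1 / 25 := h0.2
  have h1' : (p.2.1 - 1) ^ 2 + p.2.2.re ^ 2 + p.2.2.im ^ 2 = 1 / 25 := h1
  have h2 : p.2.1 = 1 / 2 := by nlinarith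
  rw [h2] at h0'
  nlinarith [sq_nonneg p.2.2.re, sq_nonneg p.2.2.im]

theorem scaled {p : R4} (hp : p ∈ sph 0) :
    (5 : ℝ) • p.2 ∈ S2 ∧ ((1 / 2, (1 / 5 : ℝ) • ((5 : ℝ) • p.2)) : R4) = p := by
  have h0' : (p.2.1 - 0) ^ 2 + p.2.2.re ^ 2 + p.2.2.im ^ 2 = 1 / 25 := hp.2
  constructor
  · show ((5 : ℝ) • p.2).1 ^ 2 + ((5 : ℝ) • p.2).2.re ^ 2 + ((5 : ℝ) • p.2).2.im ^ 2 = 1
    simp only [Prod.smul_fst, Prod.smul_snd, Complex.smul_re, Complex.smul_im, smul_eq_mul]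
    nlinarith
  · rw [smul_smul]
    norm_num
    exact Prod.ext hp.1.symm rfl

end EXC

open EXC in
theorem m_EXC (hHEP : StHEP) (hMQ : StMQ) : StEXC := by
  intro B B' A y₀ hB hB' hsf hA hy
  obtain ⟨U, hUo, hsU, hE⟩ := hsf
  rw [RELS.coreSphere_eq] at hsU hA
  obtain ⟨-, hmqS, hmq1, -, -⟩ := hMQ
  have hA' : A = B' '' sph 1 := by
    rw [hA]
    exact image_congr fun p hp => hE (hsU hp)
  have iB : ∀ p ∈ SP, p ∉ sph 1 → B p ∉ A := by
    rintro p hp h1 hm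
    rw [hA] at hm
    obtain ⟨q, hq, he⟩ := hm
    have := B.toPartialEquiv.injOn (hB (SP_sub_NB (RELS.sph1_sub hq))) (hB (SP_sub_NB hp)) he
    exact h1 (this ▸ hq)
  have iB' : ∀ p ∈ SP, p ∉ sph 1 → B' p ∉ A := by
    rintro p hp h1 hm
    rw [hA'] at hm
    obtain ⟨q, hq, he⟩ := hm
    have := B'.toPartialEquiv.injOn (hB' (SP_sub_NB (RELS.sph1_sub hq))) (hB' (SP_sub_NB hp)) he
    exact h1 (this ▸ hq)
  have cB : ContinuousOn B SP :=
    B.contMDiffOn_toFun.continuousOn.mono (SP_sub_NB.trans hB)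
  have cB' : ContinuousOn B' SP :=
    B'.contMDiffOn_toFun.continuousOn.mono (SP_sub_NB.trans hB')
  -- a common point of the two bars
  have hpt : bar (4 / 5) ∈ sph 1 := by
    refine ⟨rfl, ?_⟩
    show (4 / 5 - 1 : ℝ) ^ 2 + (0 : ℂ).re ^ 2 + (0 : ℂ).im ^ 2 = 1 / 25
    norm_num
  obtain ⟨δ, hδ0, hδ1, hδ⟩ : ∃ δ : ℝ, 0 < δ ∧ δ < 1 / 10 ∧ bar (4 / 5 - δ) ∈ U := by
    have hc : Filter.Tendsto (fun δ : ℝ => bar (4 / 5 - δ)) (𝓝 0) (𝓝 (bar (4 / 5))) := by
      have hb : Continuous fun δ : ℝ => bar (4 / 5 - δ) := continuous_bar.comp (by fun_prop)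
      have h := hb.tendsto 0
      rw [sub_zero] at h
      exact h
    have h1 : ∀ᶠ δ in 𝓝 (0 : ℝ), bar (4 / 5 - δ) ∈ U :=
      hc.eventually (hUo.mem_nhds (hsU hpt))
    obtain ⟨r, hr, hr1⟩ := Metric.eventually_nhds_iff.1 h1
    refine ⟨min (r / 2) (1 / 20), lt_min (by positivity) (by norm_num),
      (min_le_right _ _).trans_lt (by norm_num), hr1 ?_⟩
    rw [Real.dist_eq, sub_zero, abs_of_pos (lt_min (by positivity) (by norm_num))]
    exact (min_le_left _ _).trans_lt (by linarith)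
  have hEδ : B (bar (4 / 5 - δ)) = B' (bar (4 / 5 - δ)) := hE hδ
  let ζ : ℝ → S4 := fun τ => if τ ≤ 1 / 2 then B' (bar (1 / 5 + 2 * τ * (3 / 5 - δ)))
    else B (bar (4 / 5 - δ - (2 * τ - 1) * (3 / 10 - δ)))
  have ζa : ∀ τ, τ ≤ 1 / 2 → ζ τ = B' (bar (1 / 5 + 2 * τ * (3 / 5 - δ))) :=
    fun τ h => if_pos h
  have ζb : ∀ τ, 1 / 2 ≤ τ → ζ τ = B (bar (4 / 5 - δ - (2 * τ - 1) * (3 / 10 - δ))) := by
    intro τ h
    by_cases h2 : τ ≤ 1 / 2
    · have h3 : τ = 1 / 2 := le_antisymm h2 h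
      rw [ζa τ h2, h3]
      have e1 : (1 / 5 + 2 * (1 / 2) * (3 / 5 - δ) : ℝ) = 4 / 5 - δ := by ring
      have e2 : (4 / 5 - δ - (2 * (1 / 2) - 1) * (3 / 10 - δ) : ℝ) = 4 / 5 - δ := by ring
      rw [e1, e2, hEδ]
    · exact if_neg h2
  have ra : ∀ τ ∈ Icc (0 : ℝ) (1 / 2), 1 / 5 ≤ 1 / 5 + 2 * τ * (3 / 5 - δ) ∧
      1 / 5 + 2 * τ * (3 / 5 - δ) ≤ 4 / 5 - δ := by
    rintro τ ⟨h1, h2⟩
    constructor <;> nlinarith
  have rb : ∀ τ ∈ Icc (1 / 2 : ℝ) 1, 1 / 2 ≤ 4 / 5 - δ - (2 * τ - 1) * (3 / 10 - δ) ∧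
      4 / 5 - δ - (2 * τ - 1) * (3 / 10 - δ) ≤ 4 / 5 - δ := by
    rintro τ ⟨h1, h2⟩
    constructor <;> nlinarith
  have cζ : ContinuousOn ζ (Icc (0 : ℝ) 1) := by
    rw [← Icc_union_Icc_eq_Icc (b := (1 / 2 : ℝ)) (by norm_num) (by norm_num)]
    refine ContinuousOn.union_of_isClosed ?_ ?_ isClosed_Icc isClosed_Icc
    · refine ContinuousOn.congr (f := fun τ => B' (bar (1 / 5 + 2 * τ * (3 / 5 - δ)))) ?_
        fun τ h => ζa τ h.2
      refine cB'.comp (continuous_bar.comp (by fun_prop)).continuousOn fun τ h => ?_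
      exact bar_mem_SP (ra τ h).1 (by linarith [(ra τ h).2])
    · refine ContinuousOn.congr
        (f := fun τ => B (bar (4 / 5 - δ - (2 * τ - 1) * (3 / 10 - δ)))) ?_ fun τ h => ζb τ h.1
      refine cB.comp (continuous_bar.comp (by fun_prop)).continuousOn fun τ h => ?_
      exact bar_mem_SP (by linarith [(rb τ h).1]) (by linarith [(rb τ h).2])
  have offζ : ∀ τ ∈ Icc (0 : ℝ) 1, ζ τ ∉ A := by
    rintro τ ⟨h1, h2⟩
    rcases le_total τ (1 / 2) with h | h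
    · rw [ζa τ h]
      have := ra τ ⟨h1, h⟩
      exact iB' _ (bar_mem_SP this.1 (by linarith)) (bar_not_sph1 (by linarith))
    · rw [ζb τ h]
      have := rb τ ⟨h, h2⟩
      exact iB _ (bar_mem_SP (by linarith) (by linarith)) (bar_not_sph1 (by linarith))
  -- the sphere
  have cS : ContinuousOn (fun m : R3 => B' (1 / 2, (1 / 5 : ℝ) • m)) S2 := by
    refine cB'.comp (Continuous.continuousOn (by fun_prop)) fun m hm => ?_
    exact RELS.sph0_sub (cuff_mem hm)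
  obtain ⟨h₀, ch, h1, h2, hoff⟩ := hHEP S4 A (fun m => B' (1 / 2, (1 / 5 : ℝ) • m)) ζ cS cζ
    (by
      rw [ζa 0 (by norm_num)]
      show B' (1 / 2, (1 / 5 + 2 * 0 * (3 / 5 - δ), 0)) =
        B' (1 / 2, ((1 / 5 : ℝ) • (1 : ℝ), (1 / 5 : ℝ) • (0 : ℂ)))
      rw [smul_zero, smul_eq_mul]
      norm_num)
    (fun m hm => iB' _ (RELS.sph0_sub (cuff_mem hm)) (sph0_not_sph1 (cuff_mem hm))) offζ
  have hy1 : ζ 1 = y₀ := by
    rw [ζb 1 (by norm_num), hy]
    have e1 : (4 / 5 - δ - (2 * 1 - 1) * (3 / 10 - δ) : ℝ) = 1 / 2 := by ring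
    rw [e1]
    rfl
  have hm0 : ∀ t, sqr t ∈ S2 := fun t => hmqS _ _
  have h00 : (0 : ℝ) ∈ Icc (0 : ℝ) 1 := ⟨le_rfl, zero_le_one⟩
  have cf : Continuous fun t : Fin 2 → unitInterval => h₀ (0, sqr t) :=
    ch.comp_continuous (continuous_const.prodMk continuous_sqr) fun t => ⟨h00, hm0 t⟩
  let f : GenLoop (Fin 2) {x : S4 // x ∉ A} y₀ :=
    ⟨⟨fun t => ⟨h₀ (0, sqr t), hoff 0 h00 _ (hm0 t)⟩, cf.subtype_mk _⟩, by
      rintro t ⟨i, hi⟩
      apply Subtype.ext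
      show h₀ (0, sqr t) = y₀
      have hb : sqr t = (1, 0) := by
        rw [sqr_eq]
        apply hmq1
        have hi' : ((t i : unitInterval) : ℝ) = 0 ∨ ((t i : unitInterval) : ℝ) = 1 := by
          rcases hi with h | h
          · left
            rw [h]
            rfl
          · right
            rw [h]
            rfl
        fin_cases i
        · rcases hi' with h | h
          · exact Or.inl h
          · exact Or.inr (Or.inl h)
        · rcases hi' with h | h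
          · exact Or.inr (Or.inr (Or.inl h))
          · exact Or.inr (Or.inr (Or.inr h))
      rw [hb, h2, hy1]⟩
  refine ⟨cls f, f, fun x => h₀ (x.1, (5 : ℝ) • x.2.2), rfl, ?_, ?_, ?_, ?_⟩
  · rw [RELS.coreSphere_eq]
    refine ch.comp (Continuous.continuousOn (by fun_prop)) ?_
    rintro ⟨u, p⟩ hz
    exact ⟨hz.1, (scaled hz.2).1⟩
  · intro t
    show h₀ (0, (5 : ℝ) • ((1 / 5 : ℝ) • sqr t)) = h₀ (0, sqr t)
    rw [smul_smul]
    norm_num
  · intro p hp
    rw [RELS.coreSphere_eq] at hp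
    show h₀ (1, (5 : ℝ) • p.2) = B' p
    rw [h1 _ (scaled hp).1]
    show B' (1 / 2, (1 / 5 : ℝ) • ((5 : ℝ) • p.2)) = B' p
    rw [(scaled hp).2]
  · intro u hu p hp
    rw [RELS.coreSphere_eq] at hp
    exact hoff u hu _ (scaled hp).1

end Pool.Agent.Helper18.BI.R
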