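import Pool.Agent.Helper18.BI.R.M_RELS

/-!
# Project BI, stage 4 (R): null-homotopic cuffs in the 4-sphere, for every transport of `W`
-/

set_option autoImplicit false

open scoped Manifold ContDiff Topology ComplexConjugate unitInterval
open Set Filter Pool.Agent.Helper65.Barb Pool.Agent.Helper18.BI
open Pool.Agent.Helper70.BI (I4 IsW StEI StX2c)
open Pool.Agent.Helper70.BI.Fin2 (SP_sub_NB)
open Pool.Agent.Helper18.BI.H (StNULC StSMH)
open Pool.Agent.Helper18.BI.H.F3 (invFun_continuousAt spine_small)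
open Pool.Agent.Helper70.Fin (Emb)

namespace Pool.Agent.Helper18.BI.R

/-- A barbell one of whose cuffs is null-homotopic in the complement of the other one has class `1` or `W'`. -/
def NulS (W' : S4 → S4) : Prop :=
  ∀ (B : Emb) (φ : S4 → S4) (h : ℝ × R4 → S4) (y : S4) (c d : ℝ), NB ⊆ B.source →
    (c = 0 ∧ d = 1 ∨ c = 1 ∧ d = 0) → Thin (𝓡 4) B φ →
    ContinuousOn h (Icc (0 : ℝ) 1 ×ˢ sph d) → (∀ p ∈ sph d, h (0, p) = B p) →
    (∀ p ∈ sph d, h (1, p) = y) → (∀ u ∈ Icc (0 : ℝ) 1, ∀ p ∈ sph d, h (u, p) ∉ B '' sph c) →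
    CIsot (𝓡 4) φ (fun x => x) ∨ CIsot (𝓡 4) φ W'

theorem m_NULS (hNULC : StNULC) (hSMH : StSMH) (hS4 : StS4) (hT2 : StT2) (hT4 : StT4)
    (hX1 : StX1) (hX2c : StX2c) (hX3 : StX3) (hEI : StEI) (hCI : StCI) :
    ∀ (W : R4 → R4) (W' : S4 → S4), IsW W → IsPush W W' → NulS W' := by
  intro W W' hW hpush B φ₀ h y c d hB hcd hφ₀ hh h0 h1 hoff
  obtain ⟨-, cs, cself, ct, cc, -, -, cconj, ciso, -⟩ := hCI _ _ (𝓡 4) S4
  have hsd : ∀ e : ℝ, (e = 0 ∨ e = 1) → sph e ⊆ SP := by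
    rintro e (rfl | rfl) p hp
    · exact Or.inl (Or.inl hp)
    · exact Or.inl (Or.inr hp)
  have hc01 : c = 0 ∨ c = 1 := by rcases hcd with h | h <;> simp [h.1]
  have hd01 : d = 0 ∨ d = 1 := by rcases hcd with h | h <;> simp [h.2]
  have hE : EmbOn (𝓡 4) B SP := (hT4 B barMap hB isBarbellMap_barMap).1
  have hfixc : IsCompact (B '' sph c) := by
    refine (RELS.isCompact_sph c).image_of_continuousOn fun p hp => ?_
    exact (hE.1 p (hsd c hc01 hp)).contMDiffAt.continuousAt.continuousWithinAt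
  have hdom : IsCompact (Icc (0 : ℝ) 1 ×ˢ sph d) := isCompact_Icc.prod (RELS.isCompact_sph d)
  obtain ⟨h', hh', h0', h1', hoff', hint⟩ := hSMH B (fun _ => y) h (B '' sph c) d hfixc
    (fun p hp => (hE.1 p (hsd d hd01 hp)).contMDiffAt)
    (fun p _ => contMDiffAt_const) hh h0 h1 hoff
  obtain ⟨s1, s2⟩ := spine_small hEI hS4 B hB
  have s5 : IsCompact (h' '' (Icc (0 : ℝ) 1 ×ˢ sph d)) := hdom.image_of_continuousOn hh'
  obtain ⟨ch, hch, hsub⟩ := hX2c (B '' SP ∪ h' '' (Icc (0 : ℝ) 1 ×ˢ sph d))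
    (s1.union s5) (by
      rw [interior_union_isClosed_of_interior_empty s1.isClosed hint, s2])
  obtain ⟨hF, φ, hφ, hT⟩ := RELS.transferG hT2 hX1 hX3 ch hch B φ₀ hE hφ₀
    (subset_union_left.trans hsub)
  have hhr : ∀ z ∈ Icc (0 : ℝ) 1 ×ˢ sph d, h' z ∈ range ch := fun z hz =>
    hsub (Or.inr (mem_image_of_mem _ hz))
  have hinv : ∀ y ∈ range ch, ch (Function.invFun ch y) = y := fun y hy => Function.invFun_eq hy
  obtain ⟨z1, -, -, z4, -⟩ := hX1 _ _ (𝓡 4) S4 ch hch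
  have hor := hNULC (fun p => Function.invFun ch (B p))
    (fun z => Function.invFun ch (h' z)) (Function.invFun ch y) W φ c d hW hcd hF
    (fun z hz => (invFun_continuousAt hch (hhr z hz)).comp_continuousWithinAt (hh' z hz))
    (fun p hp => by simp only [h0' p hp]) (fun p hp => by simp only [h1' p hp])
    (fun u hu p hp => by
      rintro ⟨q, hq, he⟩
      have he' : Function.invFun ch (B q) = Function.invFun ch (h' (u, p)) := he
      have hBq : B q ∈ range ch :=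
        hsub (Or.inl (mem_image_of_mem _ (hsd c hc01 hq)))
      have e1 : B q = h' (u, p) := by
        rw [← hinv _ hBq, he', hinv _ (hhr (u, p) ⟨hu, hp⟩)]
      exact hoff' u hu p hp ⟨q, hq, e1⟩)
    hφ
  rcases hor with e | e
  · left
    have h2 := z1 _ _ e
    rw [Pool.Agent.Helper70.BI.W4.imp_id] at h2
    exact ct _ _ _ (cs _ _ hT) h2
  · right
    exact ct _ _ _ (cs _ _ hT) (ct _ _ _ (z1 _ _ e) (hpush ch hch))

end Pool.Agent.Helper18.BI.R
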