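import Pool.Agent.Helper18.BI.R.StR4

/-!
# Project BI, stage 4 (R): existence of the class of a moved cuff

Statements (as `Prop` definitions) with complete proofs in the docstrings.
-/

set_option autoImplicit false

open scoped Manifold ContDiff Topology ComplexConjugate unitInterval
open Set Pool.Agent.Helper65.Barb Pool.Agent.Helper18.BI
open Pool.Agent.Helper70.Fin (Emb coreSphere)
open Pool.Agent.Helper18.FinR (sqr Pi2 cls FreeClass SameFixed UpTo)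

namespace Pool.Agent.Helper18.BI.R

/-- MODULE HEP.  Moving the base point of a sphere along a path.
Proof.  For `m ∈ S2` put `d = 1 - m.1 ∈ [0, 2]` (`d = 0` only at `(1, 0)`), and `v = 1 - u`.
`h (u, m) = ζ (v - 2 d)` if `2 d ≤ v`, and `h (u, m) = k (σ (v, m))` if `v ≤ 2 d`, where `d' = (d - v/2) * (2 / (2 - v/2)) ∈ [0, 2]`, `σ (v, m) = (1 - d', r • m.2)`, `r = √(d' (2 - d')) / √(d (2 - d))`
(`|m.2|² = d (2 - d)`, so `σ (v, m) ∈ S2`; at `d = 2`: `d' = 2`, `m.2 = 0`, `σ = (-1, 0)`).  `σ` is continuous on `{(v, m) | v ∈ [0,1], m ∈ S2, v ≤ 2 d}`: where `m.2 ≠ 0` this is clear; at a point with `m.2 = 0` (then `d = 0`, `v = 0`, or `d = 2`) because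
`‖r • m.2‖ = √(d' (2 - d'))` is continuous and vanishes there (squeeze; or the identity `‖r • m.2‖ ≤ √(d' (2 - d'))`).  For `2 d = v`: `d' = 0`, `σ = (1, 0)`, `k (1, 0) = ζ 0 = ζ (v - 2 d)`.  `v = 0` (`u = 1`): `σ (0, m) = m` (for `m = (1, 0)`, `d = 0`: `h = ζ 0 = k (1, 0)`).
`v = 1` (`u = 0`), `m = (1, 0)`: `h (0, (1, 0)) = ζ 1`.  Gluing of two relatively closed sets (`ContinuousOn.union_of_isClosed` / `ContinuousOn.if`). -/
def StHEP : Prop :=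
  ∀ (M : Type) [TopologicalSpace M] (A : Set M) (k : R3 → M) (ζ : ℝ → M), ContinuousOn k S2 →
    ContinuousOn ζ (Icc (0 : ℝ) 1) → ζ 0 = k (1, 0) → (∀ m ∈ S2, k m ∉ A) →
    (∀ τ ∈ Icc (0 : ℝ) 1, ζ τ ∉ A) →
    ∃ h : ℝ × R3 → M, ContinuousOn h (Icc (0 : ℝ) 1 ×ˢ S2) ∧ (∀ m ∈ S2, h (1, m) = k m) ∧
      h (0, (1, 0)) = ζ 1 ∧ ∀ u ∈ Icc (0 : ℝ) 1, ∀ m ∈ S2, h (u, m) ∉ A

/-- MODULE EXC (from `StHEP`, `StMQ`).  Every barbell with the given fixed cuff has a class.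
Proof.  `U` open with `coreSphere 1 = sph 1 ⊆ U` (`(1/5)² = 1/25`), `B = B'` on `U`.  `(1/2, (4/5, 0)) ∈ sph 1`, so there is `δ ∈ (0, 1/10)` with `(1/2, (4/5 - δ, 0)) ∈ U`.
`ζ τ = B' (1/2, (1/5 + 2 τ (3/5 - δ), 0))` for `τ ≤ 1/2`, `B (1/2, (4/5 - δ - (2 τ - 1) (3/10 - δ), 0))` for `1/2 ≤ τ`; continuous, `ζ 0 = B' (1/2, (1/5, 0))`, `ζ 1 = B (1/2, (1/2, 0)) = y₀`.  `k m = B' (1/2, (1/5) • m)`, `k (1, 0) = ζ 0`.  Off `A = B '' sph 1 = B' '' sph 1`: `B`, `B'` are injective on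
`NB` (`B.toPartialEquiv.injOn`), which contains `sph 0 ∪ sph 1` and the points `(1/2, (a, 0))`, `1/5 ≤ a ≤ 4/5` (`Pool.Agent.Helper70.BI.Fin2.SP_sub_NB`), and these points and the points of `sph 0` are not in `sph 1` for `a < 4/5`.
`StHEP` gives `h₀`; `h (u, p) = h₀ (u, 5 • p.2)` for `p ∈ coreSphere 0` (`5 • p.2 ∈ S2`), `f t = ⟨h₀ (0, sqr t), _⟩` is continuous in `t` (`sqr` is continuous with values in `S2`: `sqr t = mq (t 0) (t 1)`), and on the boundary of the square `sqr t = (1, 0)`, so `f t = y₀`. -/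
def StEXC : Prop :=
  ∀ (B B' : Emb) (A : Set S4) (y₀ : {x : S4 // x ∉ A}), NB ⊆ B.source → NB ⊆ B'.source →
    SameFixed B B' → A = B '' coreSphere 1 → (y₀ : S4) = B (1 / 2, (1 / 2, 0)) →
    ∃ z : Pi2 A y₀, FreeClass A y₀ B' z

end Pool.Agent.Helper18.BI.R
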