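import Pool.Agent.Helper18.BI.R.M_FIN4

/-!
# Project BI, stage 4 (R): unknotted cuffs

Statements (as `Prop` definitions) with complete proofs in the docstrings.
-/

set_option autoImplicit false

open scoped Manifold ContDiff Topology ComplexConjugate unitInterval
open Set Pool.Agent.Helper65.Barb Pool.Agent.Helper18.BI
open Pool.Agent.Helper70.Fin (Emb coreSphere)

namespace Pool.Agent.Helper18.BI.R

/-- MODULE UNK.  Every map of a 2-sphere to the complement of an unknotted 2-sphere is null-homotopic there.
Proof.  `S = δ '' sph 0`, `k = B` on `sph 1`, with values in `Sᶜ` (injectivity of `B` on `NB ⊇ sph 0 ∪ sph 1`).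
(1) A homeomorphism `Ψ` of `S4` with `Ψ '' S = S⁰ := {y : S4 | y 0 = 0 ∧ y 1 = 0}` (coordinates of `EuclideanSpace ℝ (Fin 5)`).  `b = δ '' flat 0` is compact with empty interior, so there is a point `v ∉ b`; stereographic projection from `v` is a homeomorphism
`σ` of `{v}ᶜ` onto a four-dimensional euclidean space `V` (orthogonal complement of `v`), identified with `R4` by a linear isomorphism `λ`.  `G = λ ∘ σ ∘ δ` is a germ of an embedding along `flat 0` (`EmbOn I4 G (flat 0)`; extend `G` arbitrarily off `δ.source`).
The family `G_t p = (G (m + t (p - m)) - G m) / t + G m` for `t ∈ (0,1]`, `G_0 p = G m + DG(m) (p - m)`, `m = (1/2, 0)` the centre of `flat 0`, is smooth (also at `t = 0`: integral formula or Hadamard; there may be such a family already: `Pool.Agent.Helper70.BI` modules NO1, LOC, GL, ROT, or `StFam2`/`StCH` chains) and consists of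
germs of embeddings along `flat 0`, so there is a homeomorphism (a compactly supported diffeomorphism) `Θ` of `R4` with `Θ ∘ G = G_0` on `flat 0`.  `G_0` is affine and injective: an affine homeomorphism `Λ` of `R4` with `Λ ∘ Θ ∘ G = inclusion` of `flat 0`, then another one onto the
sphere of radius `2` in the hyperplane `{x ∈ V | ⟪x, e⟫ = 0}`, `e` a unit vector of `V`.  A homeomorphism of `V` extended by `v ↦ v` is a homeomorphism of `S4` (`OnePoint`, or directly: continuity at `v` since the homeomorphism and its inverse are proper).  The inverse stereographic projection maps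
the sphere of radius `2` in `e^⊥ ⊆ V` to `{y ∈ S4 | ⟪y, v⟫ = 0, ⟪y, e⟫ = 0}` (`stereoInvFun`: `w ↦ (‖w‖² + 4)⁻¹ • (4 w + (‖w‖² - 4) v)`); no need to rotate to the first two coordinates: work with the orthonormal pair `v, e`.
(Alternative to (1) without homeomorphisms of `S4`: only the part of the argument for maps `S2 → S4 \ S` is needed, and only up to homotopy.)
(2) Null-homotopy in the complement of `S⁰`: for `y ∈ S4` put `z y = ⟪y, v⟫ + i ⟪y, e⟫ ∈ ℂ` and `x y` the component orthogonal to `v, e`; `|z|² + |x|² = 1`, `y ∉ S⁰` iff `z y ≠ 0`.  `z ∘ k : sph 1 → ℂ \ {0}` has a continuous logarithm: `sph 1` is homeomorphic to the sphere `S2`, which is simply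
connected; or pull back by `(x, y) ↦ mq x y` (`StMQ`), a map of the square which is constant on the boundary and a quotient map onto `S2` (compact to Hausdorff), injective in the interior: the logarithm on the square (covering homotopy lifting: `Complex.isCoveringMap_exp`, `IsCoveringMap.liftPath`/`monodromy`, homotopy lifting)
is constant on the boundary (a lift of a constant along the connected boundary), so it descends.  So `z (k p) = |z (k p)| e^{i θ p}`, `θ` continuous.
`h (u, p)`: for `u ≤ 1/2` the point with `z = |z (k p)| e^{i (1 - 2u) θ p}`, `x = x (k p)`; for `u ≥ 1/2` the normalization of the point with `z = (2 - 2u) |z (k p)| + (2u - 1)`, `x = (2 - 2u) x (k p)` (`Re z > 0`).  Off `S⁰` for all `u`.  At `u = 1` it is the point `v`.  Transport by `Ψ⁻¹`. -/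
def StUNK : Prop :=
  ∀ B : Emb, NB ⊆ B.source → (∃ δ : Emb, flat 0 ⊆ δ.source ∧ ∀ p ∈ sph 0, δ p = B p) →
    ∃ (h : ℝ × R4 → S4) (y : S4), ContinuousOn h (Icc (0 : ℝ) 1 ×ˢ sph 1) ∧
      (∀ p ∈ sph 1, h (0, p) = B p) ∧ (∀ p ∈ sph 1, h (1, p) = y) ∧
      ∀ u ∈ Icc (0 : ℝ) 1, ∀ p ∈ sph 1, h (u, p) ∉ B '' sph 0

end Pool.Agent.Helper18.BI.R
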