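import Pool.Agent.Helper18.BI.R.FinDefs2
import Pool.Agent.Helper18.BI.R.M_FIN4
import Pool.Agent.Helper18.BI.R.M_NULS
import Pool.Agent.Helper18.BI.R.StR5
import Pool.Agent.Helper18.BI.R.StR6
import Pool.Agent.Helper18.BI.H.M_HC

/-!
# Project BI, stage 4 (R): the final theorem
-/

set_option autoImplicit false
set_option linter.unusedSectionVars false

open scoped Manifold ContDiff Topology ComplexConjugate unitInterval
open Set Filter Pool.Agent.Helper65.Barb Pool.Agent.Helper18.BI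
open Pool.Agent.Helper27.BI (swp StR2sw)
open Pool.Agent.Helper34.BI (swp_swp swp_mem_SP isLocalDiffeomorphAt_swp)
open Pool.Agent.Helper70.BI (I4 IsW StEI StX2c)
open Pool.Agent.Helper70.BI.Fin2 (SP_sub_NB)
open Pool.Agent.Helper18.BI.H (IsW4)
open Pool.Agent.Helper70.Fin (Emb coreSphere IsImplantation BoundsDisjointBalls IsCentral)
open Pool.Agent.Helper18.FinR (sqr Pi2 cls FreeClass SameFixed parallel UpTo MovedUnknotted
  exch Elementary ElementaryClasses)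

namespace Pool.Agent.Helper18.BI.R

/-- **THE MAIN THEOREM OF STAGE 4, final form.** -/
def StFinal5 : Prop :=
  ∃ (W : S4 → S4) (B₀ : Emb), IsImplantation B₀ W ∧ BoundsDisjointBalls B₀ ∧
    Isot (𝓡 4) (fun x => W (W x)) (fun x => x) ∧ IsCentral W ∧
    (∀ (B : Emb) (y₀ : {x : S4 // x ∉ B '' coreSphere 1}), NB ⊆ B.source →
      (y₀ : S4) = B (1 / 2, (1 / 2, 0)) →
      (∀ B' : Emb, NB ⊆ B'.source → SameFixed B B' →
        ∃ z, FreeClass (B '' coreSphere 1) y₀ B' z) ∧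
      ∃ Φ : Pi2 (B '' coreSphere 1) y₀ → S4 → S4,
        (∀ z ∈ Subgroup.closure (FinR.MovedClasses B y₀),
          ∀ z' ∈ Subgroup.closure (FinR.MovedClasses B y₀),
          UpTo W (Φ (z * z')) (fun x => Φ z (Φ z' x))) ∧
        (∀ (B' : Emb) (φ : S4 → S4) (z : Pi2 (B '' coreSphere 1) y₀), IsImplantation B' φ →
          SameFixed B B' → FreeClass (B '' coreSphere 1) y₀ B' z → UpTo W φ (Φ z)) ∧
        ∀ z ∈ Subgroup.closure (ElementaryClasses B y₀), UpTo W (Φ z) (fun x => x)) ∧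
    ∀ (B : Emb) (φ : S4 → S4), Elementary B → IsImplantation B φ → UpTo W φ (fun x => x)

open FIN4

namespace FIN5

theorem embOn_swpS {G : R4 → S4} (hG : EmbOn (𝓡 4) G SP) :
    EmbOn (𝓡 4) (fun p => G (swp p)) SP :=
  ⟨fun p hp => isLocalDiffeomorphAt_swpS (hG.1 _ (swp_mem_SP hp)), fun p hp q hq hpq => by
    have := hG.2 (swp_mem_SP hp) (swp_mem_SP hq) hpq
    rw [← swp_swp p, this, swp_swp]⟩
where
  isLocalDiffeomorphAt_swpS {f : R4 → S4} {p : R4}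
      (h : IsLocalDiffeomorphAt 𝓘(ℝ, R4) (𝓡 4) ∞ f (swp p)) :
      IsLocalDiffeomorphAt 𝓘(ℝ, R4) (𝓡 4) ∞ (fun p => f (swp p)) p := by
    have h1 : IsLocalDiffeomorphAt 𝓘(ℝ, R4) 𝓘(ℝ, R4) ∞ swp p := by
      have hid : IsLocalDiffeomorphAt 𝓘(ℝ, R4) 𝓘(ℝ, R4) ∞ (fun q : R4 => q) (swp p) :=
        ⟨(Diffeomorph.refl 𝓘(ℝ, R4) R4 ∞).toPartialDiffeomorph, mem_univ _, fun _ _ => rfl⟩
      exact isLocalDiffeomorphAt_swp hid
    exact IsLocalDiffeomorphAt.comp (K := 𝓡 4) (P := S4) (hf := h1) (hg := h)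

section
variable (hT2 : StT2) (hT4 : StT4) (hCI : StCI) {W : S4 → S4} (hW : IsW4 W)
include hT2 hT4 hCI hW

/-- the inverse of a diffeomorphism which is trivial up to `W` -/
theorem inv_triv {φ φ' : S4 → S4} (hφ' : CIsot (𝓡 4) φ' φ') (i2 : ∀ x, φ' (φ x) = x)
    (h : RW4 W φ (fun x => x)) : RW4 W φ' (fun x => x) := by
  obtain ⟨cid, cs, cself, ct, cc, cinv, cex, cconj, ciso, -⟩ := hCI _ _ (𝓡 4) S4
  rcases h with h | h
  · left
    have h1 := cc _ _ _ _ hφ' h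
    simp only [i2] at h1
    exact cs _ _ h1
  · right
    have h1 : CIsot (𝓡 4) (fun x => φ' (φ x)) (fun x => φ' (W x)) := cc φ' φ' φ W hφ' h
    simp only [i2] at h1
    have h2 : CIsot (𝓡 4) (fun x => W x) (fun x => φ' (W (W x))) :=
      cc (fun x => x) (fun x => φ' (W x)) W W h1 (FIN4.WW hCI hW)
    have h3 : CIsot (𝓡 4) (fun x => φ' (W (W x))) φ' :=
      cc φ' φ' (fun x => W (W x)) (fun x => x) hφ' (W2 hCI hW)
    exact cs _ _ (ct _ _ _ h2 h3)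

theorem mul_triv {φ ψ : S4 → S4} (h : RW4 W φ (fun x => x)) (h' : RW4 W ψ (fun x => x)) :
    RW4 W (fun x => φ (ψ x)) (fun x => x) := by
  obtain ⟨cid, cs, cself, ct, cc, cinv, cex, cconj, ciso, -⟩ := hCI _ _ (𝓡 4) S4
  rcases h with h | h <;> rcases h' with h' | h'
  · left
    exact cc φ (fun x => x) ψ (fun x => x) h h'
  · right
    exact cc φ (fun x => x) ψ W h h'
  · right
    exact cc φ W ψ (fun x => x) h h'
  · left
    exact ct _ _ _ (cc φ W ψ W h h') (W2 hCI hW)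

/-- a map which is multiplicative up to `W` on a subgroup and trivial up to `W` on generators -/
theorem key_closure {Γ : Type} [Group Γ] (Φ : Γ → S4 → S4) (hs : ∀ z, CIsot (𝓡 4) (Φ z) (Φ z))
    (R : Set Γ) (hmul : ∀ z ∈ Subgroup.closure R, ∀ z' ∈ Subgroup.closure R,
      RW4 W (Φ (z * z')) (fun x => Φ z (Φ z' x))) (T : Set Γ) (hTR : T ⊆ R)
    (hT : ∀ z ∈ T, RW4 W (Φ z) (fun x => x)) :
    ∀ z ∈ Subgroup.closure T, RW4 W (Φ z) (fun x => x) := by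
  obtain ⟨cid, cs, cself, ct, cc, cinv, cex, cconj, ciso, -⟩ := hCI _ _ (𝓡 4) S4
  have hclT := Subgroup.closure_mono hTR
  have hone : RW4 W (Φ 1) (fun x => x) := by
    have h1 := hmul 1 (one_mem _) 1 (one_mem _)
    rw [one_mul] at h1
    obtain ⟨Φ', hs', i1, i2⟩ := cex _ (hs 1)
    have h2 : RW4 W (fun x => Φ' (Φ 1 x)) (fun x => Φ' (Φ 1 (Φ 1 x))) := by
      rcases h1 with h1 | h1
      · exact Or.inl (cc _ _ _ _ hs' h1)
      · right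
        have h3 : CIsot (𝓡 4) (fun x => Φ' (Φ 1 x)) (fun x => Φ' (W (Φ 1 (Φ 1 x)))) :=
          cc Φ' Φ' (Φ 1) (fun x => W (Φ 1 (Φ 1 x))) hs' h1
        have h4 : CIsot (𝓡 4) (fun x => Φ' (W (Φ 1 (Φ 1 x)))) (fun x => W (Φ' (Φ 1 (Φ 1 x)))) :=
          cc (fun x => Φ' (W x)) (fun x => W (Φ' x)) (fun x => Φ 1 (Φ 1 x))
            (fun x => Φ 1 (Φ 1 x)) (Wcomm hCI hW hs') (cc _ _ _ _ (hs 1) (hs 1))
        exact ct _ _ _ h3 h4
    simp only [i2] at h2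
    exact r_symm hCI hW (hs 1) h2
  intro z hz
  refine Subgroup.closure_induction (p := fun z _ => RW4 W (Φ z) (fun x => x)) ?_ ?_ ?_ ?_ hz
  · exact hT
  · exact hone
  · intro a b ha hb iha ihb
    exact r_trans hCI hW cid (hmul a (hclT ha) b (hclT hb)) (mul_triv hT2 hT4 hCI hW iha ihb)
  · intro a ha iha
    have h1 := hmul a (hclT ha) a⁻¹ (inv_mem (hclT ha))
    rw [mul_inv_cancel] at h1
    have h2 : RW4 W (fun x => Φ a (Φ a⁻¹ x)) (fun x => x) :=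
      r_trans hCI hW cid (r_symm hCI hW (cc _ _ _ _ (hs a) (hs a⁻¹)) h1) hone
    rcases iha with iha | iha
    · have h3 : CIsot (𝓡 4) (fun x => Φ a (Φ a⁻¹ x)) (Φ a⁻¹) :=
        cc (Φ a) (fun x => x) (Φ a⁻¹) (Φ a⁻¹) iha (hs a⁻¹)
      exact r_trans hCI hW cid (Or.inl (cs _ _ h3)) h2
    · have h3 : CIsot (𝓡 4) (fun x => Φ a (Φ a⁻¹ x)) (fun x => W (Φ a⁻¹ x)) :=
        cc (Φ a) W (Φ a⁻¹) (Φ a⁻¹) iha (hs a⁻¹)
      exact r_trans hCI hW cid (r_symm hCI hW (hs a⁻¹) (Or.inr h3)) h2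

/-- all diffeomorphisms of a germ have the same class -/
theorem thin_triv {G : R4 → S4} {φ ψ : S4 → S4} (hφ : Thin (𝓡 4) G φ) (hψ : Thin (𝓡 4) G ψ)
    (h : RW4 W φ (fun x => x)) : RW4 W ψ (fun x => x) := by
  obtain ⟨-, tii, -⟩ := hT2 _ _ (𝓡 4) S4
  obtain ⟨cid, cs, cself, ct, cc, cinv, cex, cconj, ciso, -⟩ := hCI _ _ (𝓡 4) S4
  exact r_trans hCI hW cid (Or.inl (tii G _ _ hψ hφ)) h

/-- the parallel copy -/
theorem par_rep (hPAR : StPARS W) (B : Emb) (hNB : NB ⊆ B.source)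
    (y₀ : {x : S4 // x ∉ B '' coreSphere 1}) (z : Pi2 (B '' coreSphere 1) y₀)
    (hz : FreeClass (B '' coreSphere 1) y₀ (parallel B) z) : ∃ (G : R4 → S4) (φ : S4 → S4),
      EmbOn (𝓡 4) G SP ∧ (∃ U : Set R4, IsOpen U ∧ sph 1 ⊆ U ∧ EqOn B G U) ∧
      Thin (𝓡 4) G φ ∧ FreeClass (B '' coreSphere 1) y₀ G z ∧ RW4 W φ (fun x => x) := by
  obtain ⟨G, φ, h, g1, g2, g3, g4, g5, g6, g7, g8⟩ := hPAR B hNB
  refine ⟨G, φ, g1, g2, g3, ?_, g4⟩
  refine free_trans hz h ?_ ?_ ?_ ?_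
  · rw [RELS.coreSphere_eq]
    exact g5
  · rw [RELS.coreSphere_eq]
    exact g6
  · rw [RELS.coreSphere_eq]
    exact g7
  · rw [RELS.coreSphere_eq, RELS.coreSphere_eq]
    exact g8

omit hT4 hW in
theorem rep_of (B : Emb) (y₀ : {x : S4 // x ∉ B '' coreSphere 1})
    {G : R4 → S4} {φ : S4 → S4} {z : Pi2 (B '' coreSphere 1) y₀} (h1 : EmbOn (𝓡 4) G SP)
    (h2 : ∃ U : Set R4, IsOpen U ∧ sph 1 ⊆ U ∧ EqOn B G U) (h3 : Thin (𝓡 4) G φ)
    (h4 : FreeClass (B '' coreSphere 1) y₀ G z) : z ∈ RepG B (B '' coreSphere 1) y₀ := by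
  have tself := (hT2 _ _ (𝓡 4) S4).2.2.2.2.2.2
  obtain ⟨cid, cs, cself, ct, cc, cinv, cex, cconj, ciso, -⟩ := hCI _ _ (𝓡 4) S4
  obtain ⟨φ', -, i1, i2⟩ := cex φ (tself _ _ h3)
  exact ⟨G, ⟨φ, φ', i2, i1⟩, h1, h2, h3, h4⟩

omit hT2 hT4 hCI hW in
theorem same_near {B B' : Emb} (h : SameFixed B B') :
    ∃ U : Set R4, IsOpen U ∧ sph 1 ⊆ U ∧ EqOn B B' U := by
  obtain ⟨U, h1, h2, h3⟩ := h
  rw [RELS.coreSphere_eq] at h2
  exact ⟨U, h1, h2, h3⟩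

/-- **elementary barbells** -/
theorem elem (hRel : RelS W) (hNul : NulS W) (hPAR : StPARS W) (hEXC : StEXC) (hUNK : StUNK)
    (hsw : StR2sw) (B : Emb) (hB : Elementary B) :
    NB ⊆ B.source ∧ ∀ φ, Thin (𝓡 4) B φ → RW4 W φ (fun x => x) := by
  obtain ⟨cid, cs, cself, ct, cc, cinv, cex, cconj, ciso, -⟩ := hCI _ _ (𝓡 4) S4
  have tself := (hT2 _ _ (𝓡 4) S4).2.2.2.2.2.2
  induction hB with
  | unknotted B hB hu =>
    refine ⟨hB, fun φ hφ => ?_⟩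
    obtain ⟨δ, e1, e2⟩ := hu
    have hflat : Pool.Agent.Helper70.Fin.flatBall 0 = flat 0 := by
      have e : (1 / 5 : ℝ) ^ 2 = 1 / 25 := by norm_num
      rw [Pool.Agent.Helper70.Fin.flatBall, flat, e]
    rw [hflat] at e1
    rw [RELS.coreSphere_eq] at e2
    obtain ⟨h, y, f1, f2, f3, f4⟩ := hUNK B hB ⟨δ, e1, e2⟩
    exact hNul B φ h y 0 1 hB (Or.inl ⟨rfl, rfl⟩) hφ f1 f2 f3 f4
  | exchange B B' U _ hB' hU hsU hEq ih =>
    obtain ⟨hB, ih⟩ := ih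
    refine ⟨hB', fun ψ hψ => ?_⟩
    obtain ⟨e1, e2⟩ := hT4 B barMap hB isBarbellMap_barMap
    obtain ⟨f1, f2⟩ := hT4 B' barMap hB' isBarbellMap_barMap
    obtain ⟨φ', hφ', i1, i2⟩ := cex _ (tself _ _ e2)
    have hG : Thin (𝓡 4) (fun p => B (swp p)) φ' := (hsw _ _ (𝓡 4) S4 B _ φ' e1 i1 i2).1 e2
    have hGE : EmbOn (𝓡 4) (fun p => B (swp p)) SP := embOn_swpS e1
    have hφ't : RW4 W φ' (fun x => x) := inv_triv hT2 hT4 hCI hW hφ' i2 (ih _ e2)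
    have hy : B' (1 / 2, (1 / 2, 0)) ∉ B' '' coreSphere 1 := by
      rintro ⟨q, hq, he⟩
      rw [RELS.coreSphere_eq] at hq
      have hm : ((1 / 2, (1 / 2, 0)) : R4) ∈ SP := Or.inr ⟨rfl, by norm_num, by norm_num, rfl⟩
      have h1 := B'.toPartialEquiv.injOn (hB' (SP_sub_NB (RELS.sph1_sub hq)))
        (hB' (SP_sub_NB hm)) he
      rw [h1] at hq
      have h2 : rsq 1 (1 / 2, (1 / 2, (0 : ℂ))) = 1 / 25 := hq.2
      simp [rsq, nsq] at h2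
      norm_num at h2
    obtain ⟨z, hz⟩ := hEXC B' B' (B' '' coreSphere 1) ⟨_, hy⟩ hB' hB'
      ⟨univ, isOpen_univ, subset_univ _, fun _ _ => rfl⟩ rfl rfl
    obtain ⟨Φ, hs, hmul, hrep⟩ := exists_hom hT2 hCI hW hRel f1
      (by rw [RELS.coreSphere_eq]) (y₀ := ⟨B' (1 / 2, (1 / 2, 0)), hy⟩) rfl
    rw [RELS.coreSphere_eq, RELS.coreSphere_eq] at hsU
    have h1 : RW4 W ψ (Φ z) := hrep B' ψ z f1 ⟨univ, isOpen_univ, subset_univ _, fun _ _ => rfl⟩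
      hψ hz
    have hz' : FreeClass (B' '' coreSphere 1) ⟨B' (1 / 2, (1 / 2, 0)), hy⟩
        (fun p => B (swp p)) z := by
      obtain ⟨f, h, g1, g2, g3, g4, g5⟩ := hz
      refine ⟨f, h, g1, g2, g3, fun p hp => ?_, g5⟩
      rw [g4 p hp]
      rw [RELS.coreSphere_eq] at hp
      exact hEq (hsU (Or.inl hp))
    have h2 : RW4 W φ' (Φ z) := hrep _ φ' z hGE
      ⟨U, hU, fun p hp => hsU (Or.inr hp), fun p hp => hEq hp⟩ hG hz'
    exact r_trans hCI hW cid h1 (r_trans hCI hW cid (r_symm hCI hW (hs z) h2) hφ't)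
  | sum B y₀ n C w z hNB hy _ hsf hfr hz hfB ih =>
    refine ⟨hNB, fun ψ hψ => ?_⟩
    obtain ⟨f1, f2⟩ := hT4 B barMap hNB isBarbellMap_barMap
    obtain ⟨Φ, hs, hmul, hrep⟩ := exists_hom hT2 hCI hW hRel f1
      (by rw [RELS.coreSphere_eq]) (y₀ := y₀) hy
    have hgen : ∀ v ∈ Set.range w ∪ {v | FreeClass (B '' coreSphere 1) y₀ (parallel B) v},
        ∃ (G : R4 → S4) (φ : S4 → S4), EmbOn (𝓡 4) G SP ∧
          (∃ U : Set R4, IsOpen U ∧ sph 1 ⊆ U ∧ EqOn B G U) ∧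
          Thin (𝓡 4) G φ ∧ FreeClass (B '' coreSphere 1) y₀ G v ∧ RW4 W φ (fun x => x) := by
      rintro v (⟨i, rfl⟩ | hv)
      · obtain ⟨e1, e2⟩ := hT4 (C i) barMap (ih i).1 isBarbellMap_barMap
        exact ⟨C i, _, e1, same_near (hsf i), e2, hfr i, (ih i).2 _ e2⟩
      · exact par_rep hT2 hT4 hCI hW hPAR B hNB y₀ v hv
    have h1 : RW4 W (Φ z) (fun x => x) := by
      refine key_closure hT2 hT4 hCI hW Φ hs _ hmul _ ?_ ?_ z hz
      · intro v hv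
        obtain ⟨G, φ, g1, g2, g3, g4, -⟩ := hgen v hv
        exact rep_of hT2 hCI B y₀ g1 g2 g3 g4
      · intro v hv
        obtain ⟨G, φ, g1, g2, g3, g4, g5⟩ := hgen v hv
        exact r_trans hCI hW cid (r_symm hCI hW (hs v) (hrep G φ v g1 g2 g3 g4)) g5
    exact r_trans hCI hW cid
      (hrep B ψ z f1 ⟨univ, isOpen_univ, subset_univ _, fun _ _ => rfl⟩ hψ hfB) h1

end

end FIN5

open FIN5 in
theorem m_FIN5 (hPARS : ∀ W W', IsW W → IsPush W W' → StPARS W') (hRelS : StRelS)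
    (hNULS : ∀ W W', IsW W → IsPush W W' → NulS W') (hEXC : StEXC) (hUNK : StUNK)
    (hsw : StR2sw) (hT4 : StT4) (hT2 : StT2) (hCI : StCI) {W₀ : R4 → R4} (hW₀ : IsW W₀) :
    StFinal5 := by
  obtain ⟨W, hW, hpush, hRel⟩ := hRelS W₀ hW₀
  have hPAR := hPARS W₀ W hW₀ hpush
  have hNul := hNULS W₀ W hW₀ hpush
  obtain ⟨B₀, δ₀, k1, k2, k3, k4⟩ := hW.1
  obtain ⟨cid, cs, cself, ct, cc, cinv, cex, cconj, ciso, -⟩ := hCI _ _ (𝓡 4) S4
  have hflat : ∀ c, Pool.Agent.Helper70.Fin.flatBall c = flat c := fun c => by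
    have e : (1 / 5 : ℝ) ^ 2 = 1 / 25 := by norm_num
    rw [Pool.Agent.Helper70.Fin.flatBall, flat, e]
  have hel := elem hT2 hT4 hCI hW hRel hNul hPAR hEXC hUNK hsw
  refine ⟨W, B₀, ⟨k1, barMap, isBarbellMap_barMap, k4⟩, ⟨δ₀, ?_, ?_⟩, hW.2.1, hW.2.2, ?_, ?_⟩
  · rw [hflat, hflat]
    exact k2
  · rw [RELS.coreSphere_eq, RELS.coreSphere_eq]
    exact k3
  · intro B y₀ hNB hy
    have hB : EmbOn (𝓡 4) B SP := (hT4 B barMap hNB isBarbellMap_barMap).1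
    obtain ⟨Φ, hs, hmul, hrep⟩ := exists_hom hT2 hCI hW hRel hB
      (by rw [RELS.coreSphere_eq]) (y₀ := y₀) hy
    have hsub : FinR.MovedClasses B y₀ ⊆ RepG B (B '' coreSphere 1) y₀ := by
      rintro z (⟨B', hB', hsf, hfr⟩ | hz)
      · obtain ⟨e1, e2⟩ := hT4 B' barMap hB' isBarbellMap_barMap
        exact rep_of hT2 hCI B y₀ e1 (same_near hsf) e2 hfr
      · obtain ⟨G, φ, g1, g2, g3, g4, -⟩ := par_rep hT2 hT4 hCI hW hPAR B hNB y₀ z hz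
        exact rep_of hT2 hCI B y₀ g1 g2 g3 g4
    have hcl := Subgroup.closure_mono hsub
    refine ⟨fun B' hB' hsf => hEXC B B' _ y₀ hNB hB' hsf rfl hy, Φ,
      fun z hz z' hz' => (rw4_iff hCI).1 (hmul z (hcl hz) z' (hcl hz')), ?_, ?_⟩
    · rintro B' φ z ⟨hB', β, hβ, rfl⟩ hsf hfr
      obtain ⟨e1, e2⟩ := hT4 B' β hB' hβ
      exact (rw4_iff hCI).1 (hrep B' _ z e1 (same_near hsf) e2 hfr)
    · have htriv : ∀ z ∈ ElementaryClasses B y₀, ∃ (G : R4 → S4) (φ : S4 → S4),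
          EmbOn (𝓡 4) G SP ∧ (∃ U : Set R4, IsOpen U ∧ sph 1 ⊆ U ∧ EqOn B G U) ∧
          Thin (𝓡 4) G φ ∧ FreeClass (B '' coreSphere 1) y₀ G z ∧ RW4 W φ (fun x => x) := by
        rintro z (⟨B', hE, hsf, hfr⟩ | hz)
        · obtain ⟨hB', h2⟩ := hel B' hE
          obtain ⟨e1, e2⟩ := hT4 B' barMap hB' isBarbellMap_barMap
          exact ⟨B', _, e1, same_near hsf, e2, hfr, h2 _ e2⟩
        · exact par_rep hT2 hT4 hCI hW hPAR B hNB y₀ z hz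
      intro z hz
      refine (rw4_iff hCI).1 (key_closure hT2 hT4 hCI hW Φ hs _ hmul _ ?_ ?_ z hz)
      · intro v hv
        obtain ⟨G, φ, g1, g2, g3, g4, -⟩ := htriv v hv
        exact rep_of hT2 hCI B y₀ g1 g2 g3 g4
      · intro v hv
        obtain ⟨G, φ, g1, g2, g3, g4, g5⟩ := htriv v hv
        exact r_trans hCI hW cid (r_symm hCI hW (hs v) (hrep G φ v g1 g2 g3 g4)) g5
  · rintro B φ hE ⟨hB, β, hβ, rfl⟩
    obtain ⟨e1, e2⟩ := hT4 B β hB hβ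
    exact (rw4_iff hCI).1 ((hel B hE).2 _ e2)

end Pool.Agent.Helper18.BI.R
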