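import Pool.Agent.Helper18.BI.R.StR5

/-!
# Project BI, stage 4 (R), module HEP: moving the base point of a sphere along a path
-/

set_option autoImplicit false

open scoped Manifold ContDiff Topology ComplexConjugate unitInterval
open Set Pool.Agent.Helper65.Barb Pool.Agent.Helper18.BI

namespace Pool.Agent.Helper18.BI.R

namespace HEP

/-- `max (d - v / 2) 0` with `d = 1 - m.1`, `v = 1 - u`. -/
noncomputable def wf (p : ℝ × R3) : ℝ := max ((1 - p.2.1) - (1 - p.1) / 2) 0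

/-- The scaling factor. -/
noncomputable def cf (p : ℝ × R3) : ℝ := 2 / (2 - (1 - p.1) / 2)

/-- The complex coordinate before scaling. -/
noncomputable def zf (p : ℝ × R3) : ℂ :=
  (Real.sqrt (wf p)) • ((Real.sqrt (1 - p.2.1))⁻¹ • p.2.2)

noncomputable def sg (p : ℝ × R3) : R3 := (1 - cf p * wf p, cf p • zf p)

theorem mem_S2 {m : R3} : m ∈ S2 ↔ m.1 ^ 2 + m.2.re ^ 2 + m.2.im ^ 2 = 1 := Iff.rfl

theorem dbd {m : R3} (hm : m ∈ S2) : 0 ≤ 1 - m.1 ∧ 1 - m.1 ≤ 2 := by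
  rw [mem_S2] at hm
  constructor <;> nlinarith [sq_nonneg m.2.re, sq_nonneg m.2.im, sq_nonneg (m.1 + 1), sq_nonneg (m.1 - 1)]

theorem nsq2 {m : R3} (hm : m ∈ S2) : m.2.re ^ 2 + m.2.im ^ 2 = (1 - m.1) * (2 - (1 - m.1)) := by
  rw [mem_S2] at hm
  linarith

theorem wf_nonneg (p : ℝ × R3) : 0 ≤ wf p := le_max_right _ _

theorem wf_cont : Continuous wf := by
  unfold wf
  fun_prop

theorem wf_le {p : ℝ × R3} (hp : p ∈ Icc (0 : ℝ) 1 ×ˢ S2) : wf p ≤ 1 - p.2.1 := by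
  have h1 := dbd hp.2
  have h2 : p.1 ≤ 1 := hp.1.2
  unfold wf
  apply max_le <;> linarith

theorem cf_pos {p : ℝ × R3} (hp : p ∈ Icc (0 : ℝ) 1 ×ˢ S2) : 0 < 2 - (1 - p.1) / 2 := by
  have h2 : 0 ≤ p.1 := hp.1.1
  linarith

theorem cf_cont : ContinuousOn cf (Icc (0 : ℝ) 1 ×ˢ S2) := by
  unfold cf
  refine ContinuousOn.div continuousOn_const (by fun_prop) ?_
  intro p hp
  exact (cf_pos hp).ne'

theorem zf_sq {p : ℝ × R3} (hp : p ∈ Icc (0 : ℝ) 1 ×ˢ S2) :
    (zf p).re ^ 2 + (zf p).im ^ 2 = wf p * (2 - (1 - p.2.1)) := by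
  have h1 := dbd hp.2
  have hw := wf_nonneg p
  have hle := wf_le hp
  unfold zf
  simp only [Complex.smul_re, Complex.smul_im, smul_eq_mul]
  rcases h1.1.eq_or_lt with h | h
  · have hw0 : wf p = 0 := le_antisymm (by linarith) hw
    rw [hw0]
    simp
  · have e1 : (Real.sqrt (wf p) * ((Real.sqrt (1 - p.2.1))⁻¹ * p.2.2.re)) ^ 2 +
        (Real.sqrt (wf p) * ((Real.sqrt (1 - p.2.1))⁻¹ * p.2.2.im)) ^ 2 =
        Real.sqrt (wf p) ^ 2 * (Real.sqrt (1 - p.2.1) ^ 2)⁻¹ * (p.2.2.re ^ 2 + p.2.2.im ^ 2) := by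
      rw [mul_pow, mul_pow, mul_pow, mul_pow, inv_pow]
      ring
    rw [e1, Real.sq_sqrt hw, Real.sq_sqrt h1.1, nsq2 hp.2]
    field_simp

theorem zf_cont : ContinuousOn zf (Icc (0 : ℝ) 1 ×ˢ S2) := by
  intro p hp
  have h1 := dbd hp.2
  rcases h1.1.eq_or_lt with h | h
  · have hw0 : wf p = 0 := le_antisymm (by linarith [wf_le hp]) (wf_nonneg p)
    have hz : zf p = 0 := by
      unfold zf
      rw [hw0]
      simp
    unfold ContinuousWithinAt
    rw [hz]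
    have hb : Filter.Tendsto (fun q : ℝ × R3 => Real.sqrt (2 * wf q)) (𝓝[Icc (0 : ℝ) 1 ×ˢ S2] p) (𝓝 0) := by
      have hc : Continuous fun q : ℝ × R3 => Real.sqrt (2 * wf q) :=
        Real.continuous_sqrt.comp (continuous_const.mul wf_cont)
      have := hc.continuousWithinAt (s := Icc (0 : ℝ) 1 ×ˢ S2) (x := p)
      unfold ContinuousWithinAt at this
      simpa [hw0] using this
    refine squeeze_zero_norm' ?_ hb
    filter_upwards [self_mem_nhdsWithin] with q hq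
    have e := zf_sq hq
    have hd := dbd hq.2
    rw [Complex.norm_def, Complex.normSq_apply]
    apply Real.sqrt_le_sqrt
    have : (zf q).re * (zf q).re + (zf q).im * (zf q).im = wf q * (2 - (1 - q.2.1)) := by
      rw [← e]; ring
    rw [this]
    nlinarith [wf_nonneg q]
  · unfold zf
    have c1 : ContinuousWithinAt (fun q : ℝ × R3 => Real.sqrt (wf q)) (Icc (0 : ℝ) 1 ×ˢ S2) p :=
      (Real.continuous_sqrt.comp wf_cont).continuousWithinAt
    have c2 : ContinuousWithinAt (fun q : ℝ × R3 => (Real.sqrt (1 - q.2.1))⁻¹)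
        (Icc (0 : ℝ) 1 ×ˢ S2) p := by
      refine ContinuousWithinAt.inv₀ ?_ (Real.sqrt_ne_zero'.mpr h)
      exact (Real.continuous_sqrt.comp (by fun_prop)).continuousWithinAt
    have c3 : ContinuousWithinAt (fun q : ℝ × R3 => q.2.2) (Icc (0 : ℝ) 1 ×ˢ S2) p := by
      exact (by fun_prop : Continuous fun q : ℝ × R3 => q.2.2).continuousWithinAt
    exact c1.smul (c2.smul c3)

theorem sg_cont : ContinuousOn sg (Icc (0 : ℝ) 1 ×ˢ S2) := by
  unfold sg
  refine ContinuousOn.prodMk ?_ ?_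
  · exact continuousOn_const.sub (cf_cont.mul wf_cont.continuousOn)
  · exact cf_cont.smul zf_cont

theorem sg_mem {p : ℝ × R3} (hp : p ∈ Icc (0 : ℝ) 1 ×ˢ S2) : sg p ∈ S2 := by
  rw [mem_S2]
  have e := zf_sq hp
  have hc := cf_pos hp
  have hcf : cf p * (2 - (1 - p.1) / 2) = 2 := by
    unfold cf
    exact div_mul_cancel₀ _ hc.ne'
  unfold sg
  simp only [Complex.smul_re, Complex.smul_im, smul_eq_mul]
  have e2 : (1 - cf p * wf p) ^ 2 + (cf p * (zf p).re) ^ 2 + (cf p * (zf p).im) ^ 2 =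
      (1 - cf p * wf p) ^ 2 + cf p ^ 2 * (wf p * (2 - (1 - p.2.1))) := by
    rw [← e]; ring
  rw [e2]
  by_cases hd : (1 - p.2.1) - (1 - p.1) / 2 ≤ 0
  · have hw : wf p = 0 := max_eq_right hd
    rw [hw]; ring
  · have hw : wf p = (1 - p.2.1) - (1 - p.1) / 2 := max_eq_left (le_of_lt (not_le.mp hd))
    have h3 : 2 - (1 - p.2.1) = (2 - (1 - p.1) / 2) - wf p := by rw [hw]; ring
    rw [h3]
    have : (1 - cf p * wf p) ^ 2 + cf p ^ 2 * (wf p * (2 - (1 - p.1) / 2 - wf p)) =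
        1 - 2 * (cf p * wf p) + cf p * wf p * (cf p * (2 - (1 - p.1) / 2)) := by ring
    rw [this, hcf]; ring

theorem sg_one {m : R3} (hm : m ∈ S2) : sg (1, m) = m := by
  have hp : ((1 : ℝ), m) ∈ Icc (0 : ℝ) 1 ×ˢ S2 := ⟨⟨zero_le_one, le_refl _⟩, hm⟩
  have hd := dbd hm
  have hw : wf (1, m) = 1 - m.1 := by
    unfold wf
    simp only [sub_self, zero_div, sub_zero]
    exact max_eq_left hd.1
  have hc : cf (1, m) = 1 := by
    unfold cf
    norm_num
  have h2 := nsq2 hm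
  unfold sg zf
  rw [hw, hc]
  simp only [one_mul, one_smul, sub_sub_cancel]
  rcases hd.1.eq_or_lt with h | h
  · rw [← h] at h2
    have hre : m.2.re = 0 := by nlinarith [sq_nonneg m.2.re, sq_nonneg m.2.im]
    have him : m.2.im = 0 := by nlinarith [sq_nonneg m.2.re, sq_nonneg m.2.im]
    have hz : m.2 = 0 := Complex.ext hre him
    refine Prod.ext rfl ?_
    simp [hz]
  · have hs : Real.sqrt (1 - m.1) ≠ 0 := Real.sqrt_ne_zero'.mpr h
    refine Prod.ext rfl ?_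
    show Real.sqrt (1 - m.1) • ((Real.sqrt (1 - m.1))⁻¹ • m.2) = m.2
    rw [smul_smul, mul_inv_cancel₀ hs, one_smul]

theorem sg_base {p : ℝ × R3} (h : (1 - p.1) = 2 * (1 - p.2.1)) : sg p = (1, 0) := by
  have hw : wf p = 0 := by
    unfold wf
    rw [h]
    simp
  unfold sg zf
  rw [hw]
  simp

end HEP

open HEP in
open scoped Classical in
theorem m_HEP : StHEP := by
  intro M _ A k ζ hk hζ h0 hkA hζA
  let h : ℝ × R3 → M := fun p =>
    if (1 - p.1) ≤ 2 * (1 - p.2.1) then k (sg p) else ζ (max ((1 - p.1) - 2 * (1 - p.2.1)) 0)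
  have hmx : ∀ p ∈ Icc (0 : ℝ) 1 ×ˢ S2,
      max ((1 - p.1) - 2 * (1 - p.2.1)) 0 ∈ Icc (0 : ℝ) 1 := by
    intro p hp
    refine ⟨le_max_right _ _, max_le ?_ zero_le_one⟩
    have h1 := dbd hp.2
    have h2 : 0 ≤ p.1 := hp.1.1
    linarith
  refine ⟨h, ?_, ?_, ?_, ?_⟩
  · rw [continuousOn_iff_continuous_domRestrict]
    have hc : Continuous fun x : ↥(Icc (0 : ℝ) 1 ×ˢ S2) =>
        if (1 - (x : ℝ × R3).1) ≤ 2 * (1 - (x : ℝ × R3).2.1) then k (sg x)
        else ζ (max ((1 - (x : ℝ × R3).1) - 2 * (1 - (x : ℝ × R3).2.1)) 0) := by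
      refine Continuous.if_le ?_ ?_ ?_ ?_ ?_
      · exact hk.comp_continuous (continuousOn_iff_continuous_domRestrict.mp sg_cont)
          (fun x => sg_mem x.2)
      · refine hζ.comp_continuous ?_ (fun x => hmx x x.2)
        fun_prop
      · fun_prop
      · fun_prop
      · intro x hx
        rw [sg_base hx, ← h0]
        congr 1
        rw [hx]
        simp
    exact hc
  · intro m hm
    show (if (1 - (1 : ℝ)) ≤ 2 * (1 - m.1) then k (sg (1, m)) else _) = k m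
    rw [if_pos (by linarith [(dbd hm).1]), sg_one hm]
  · show (if (1 - (0 : ℝ)) ≤ 2 * (1 - (1 : ℝ)) then _ else ζ (max ((1 - (0 : ℝ)) - 2 * (1 - 1)) 0)) = ζ 1
    rw [if_neg (by norm_num)]
    congr 1
    norm_num
  · intro u hu m hm
    have hp : (u, m) ∈ Icc (0 : ℝ) 1 ×ˢ S2 := ⟨hu, hm⟩
    show (if (1 - u) ≤ 2 * (1 - m.1) then k (sg (u, m))
      else ζ (max ((1 - u) - 2 * (1 - m.1)) 0)) ∉ A
    split_ifs
    · exact hkA _ (sg_mem hp)
    · exact hζA _ (hmx _ hp)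

end Pool.Agent.Helper18.BI.R
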