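import Pool.Agent.Helper18.BI.R.AsmR4
import Pool.Agent.Helper18.BI.R.M_FIN5
import Pool.Agent.Helper18.BI.R.M_HEP
import Pool.Agent.Helper18.BI.R.M_EXC

/-!
# Project BI, stage 4 (R): assembly of the final theorem
-/

set_option autoImplicit false

open Pool.Agent.Helper18.BI Pool.Agent.Helper65.Barb
open Pool.Agent.Helper70.BI (hMain2 hW4 hX2c hEI hR3real hMWL exists_isW')
open Pool.Agent.Helper18.BI.H (hArcH hHMain hNORM hHATn m_HC m_NULC m_NUL StNULC)

namespace Pool.Agent.Helper18.BI.R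

theorem hEXC : StEXC := m_EXC m_HEP m_MQ

theorem hNULC : StNULC :=
  m_NULC (m_HC hHMain hMWL) m_NUL hT2 hCI Pool.Agent.Helper27.BI.hR2sw

/-- the main theorem of stage 4, final form, from the statement on unknotted spheres -/
theorem hFinal5_of (hUNK : StUNK) : StFinal5 := by
  obtain ⟨W, hW⟩ := exists_isW'
  exact m_FIN5 (m_PARS hPAR4 hEI hX2c hX1 hX3 hT4 hS4 hCI) hRelS
    (m_NULS hNULC Pool.Agent.Helper34.BI.H.m_SMH hS4 hT2 hT4 hX1 hX2c hX3 hEI hCI) hEXC hUNK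
    Pool.Agent.Helper27.BI.hR2sw hT4 hT2 hCI hW

end Pool.Agent.Helper18.BI.R
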