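import Pool.Agent.Helper18.BI.R.StR6
import Pool.Agent.Helper34.BI.UNK2
import Pool.Agent.Helper34.BI.UNK3
import Pool.Agent.Helper70.BI.M_Final2

/-!
# Project BI, stage 4 (R), module UNK: maps of a 2-sphere to the complement of an unknotted sphere
-/

set_option autoImplicit false

open scoped Manifold ContDiff Topology
open Set Pool.Agent.Helper65.Barb Pool.Agent.Helper18.BI
open Pool.Agent.Helper70.Fin (Emb coreSphere)

namespace Pool.Agent.Helper18.BI.R

theorem m_UNK (hLOC : Pool.Agent.Helper70.BI.StLOC) : StUNK := by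
  rintro B hB ⟨δ, hδ, hδB⟩
  obtain ⟨Ψ, v, e, hv, he, hve, hΨ⟩ :=
    Pool.Agent.Helper34.BI.UNK3.straight hLOC (Pool.Agent.Helper70.BI.Fin2.isCompact_flat 0) δ hδ
  have himg : δ '' sph 0 = B '' sph 0 := image_congr hδB
  have hsub : SP ⊆ B.source := fun p hp => hB (Pool.Agent.Helper70.BI.Fin2.SP_sub_NB hp)
  have h1 : sph 1 ⊆ B.source := fun p hp => hsub (Or.inl (Or.inr hp))
  have h0 : sph 0 ⊆ B.source := fun p hp => hsub (Or.inl (Or.inl hp))
  have hBc : ContinuousOn B (sph 1) := B.contMDiffOn_toFun.continuousOn.mono h1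
  have hoffB : ∀ p ∈ sph 1, B p ∉ B '' sph 0 := by
    rintro p hp ⟨q, hq, hqp⟩
    have h2 : q = p := B.toPartialEquiv.injOn (h0 hq) (h1 hp) hqp
    have h3 := hq.2
    have h4 := hp.2
    rw [h2] at h3
    unfold rsq nsq at h3 h4
    simp only [Prod.fst_sub, Prod.snd_sub, Complex.sub_re, Complex.sub_im] at h3 h4
    nlinarith [sq_nonneg p.2.2.re, sq_nonneg p.2.2.im, sq_nonneg (p.2.1 - 1 / 2)]
  have hoff : ∀ p ∈ sph 1, inner ℝ (Ψ (B p) : EuclideanSpace ℝ (Fin 5)) v ≠ 0 ∨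
      inner ℝ (Ψ (B p) : EuclideanSpace ℝ (Fin 5)) e ≠ 0 := by
    intro p hp
    by_contra hcon
    push Not at hcon
    have h2 : Ψ (B p) ∈ Ψ '' (δ '' sph 0) := by rw [hΨ]; exact hcon
    obtain ⟨y, hy, hye⟩ := h2
    have h3 : y = B p := Ψ.injective hye
    rw [h3, himg] at hy
    exact hoffB p hp hy
  obtain ⟨h, y, hc, hh0, hh1, hoffh⟩ := Pool.Agent.Helper34.BI.UNK2.unk2 v e hv he hve
    (fun p => Ψ (B p)) (Ψ.continuous.comp_continuousOn hBc) hoff
  refine ⟨fun x => Ψ.symm (h x), Ψ.symm y, Ψ.symm.continuous.comp_continuousOn hc, ?_, ?_, ?_⟩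
  · intro p hp
    show Ψ.symm (h (0, p)) = B p
    rw [hh0 p hp, Ψ.symm_apply_apply]
  · intro p hp
    show Ψ.symm (h (1, p)) = Ψ.symm y
    rw [hh1 p hp]
  · intro u hu p hp hmem
    rw [← himg] at hmem
    have h2 : h (u, p) ∈ Ψ '' (δ '' sph 0) := ⟨_, hmem, Ψ.apply_symm_apply _⟩
    rw [hΨ] at h2
    rcases hoffh u hu p hp with h3 | h3
    · exact h3 h2.1
    · exact h3 h2.2

end Pool.Agent.Helper18.BI.R
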