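import Pool.Agent.Helper18.BI.R.AsmR5
import Pool.Agent.Helper18.BI.R.M_UNK

/-!
# Project BI, stage 4 (R): the final theorem, unconditional
-/

set_option autoImplicit false

namespace Pool.Agent.Helper18.BI.R

theorem hUNK : StUNK := m_UNK Pool.Agent.Helper70.BI.hLOC

theorem hFinal5 : StFinal5 := hFinal5_of hUNK

end Pool.Agent.Helper18.BI.R
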