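import Pool.Agent.Helper18.BI.R.FinDefs

/-!
# Barbells in the 4-sphere: definitions used in the statement of the theorem on the homomorphism

The barbell map `IsBarbellMap` and the thickened barbell `NB` are in `Pool.Agent.Helper65.Barb.Defs`; partial
diffeomorphisms `Emb`, the core spheres and the flat balls are in `Pool.Agent.Helper70.BI.FinDefs`; the second
homotopy group `Pi2` of the complement of a subset of the 4-sphere and the relation `FreeClass` between its
elements and the maps of the sphere `coreSphere 0` are in `Pool.Agent.Helper18.BI.R.FinDefs`.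
-/

set_option autoImplicit false

open scoped Manifold ContDiff ComplexConjugate
open Pool.Agent.Helper65.Barb
open Pool.Agent.Helper70.Fin (Emb coreSphere flatBall)
open Pool.Agent.Helper18.FinR (Pi2 FreeClass)

namespace Pool.Agent.Helper18.FinS

/-- The map given by the open embedding `B` of an open subset of `R4`. -/
noncomputable def mp (B : Emb) (p : R4) : S4 := B p

/-- The open embedding `B` is defined on `S`. -/
def DefinedOn (B : Emb) (S : Set R4) : Prop := S ⊆ B.source

/-- `B` is a barbell: it is defined on the thickened barbell. -/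
def IsBarbell (B : Emb) : Prop := DefinedOn B NB

/-- smoothness of a map of the 4-sphere -/
def Smooth (φ : S4 → S4) : Prop := ContMDiff (𝓡 4) (𝓡 4) ∞ φ

/-- `φ` and `ψ` are smoothly isotopic diffeomorphisms of the 4-sphere. -/
def Isotopic (φ ψ : S4 → S4) : Prop := Isot (𝓡 4) φ ψ

/-- `φ` is isotopic to `ψ` or to `W ∘ ψ`. -/
def UpTo (W φ ψ : S4 → S4) : Prop := Isotopic φ ψ ∨ Isotopic φ (fun x => W (ψ x))

/-- `φ` is the implantation of the barbell `B` (for some barbell map): the push-forward of the barbell map on
the image of the thickened barbell, and the identity elsewhere. -/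
def IsImplantation (B : Emb) (φ : S4 → S4) : Prop :=
  IsBarbell B ∧ ∃ β, IsBarbellMap β ∧ (∀ p ∈ NB, φ (mp B p) = mp B (β p)) ∧
    ∀ y, y ∉ mp B '' NB → φ y = y

/-- The two core spheres of the barbell `B` bound disjoint embedded 3-balls: the images of the two
flat balls under an open embedding which agrees with `B` on the two core spheres. -/
def BoundsDisjointBalls (B : Emb) : Prop :=
  ∃ δ : Emb, DefinedOn δ (flatBall 0 ∪ flatBall 1) ∧ ∀ p ∈ coreSphere 0 ∪ coreSphere 1, mp δ p = mp B p

/-- `W` is isotopic to all its conjugates by diffeomorphisms of the 4-sphere. -/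
def IsCentral (W : S4 → S4) : Prop :=
  ∀ Ψ Ψ' : S4 → S4, Smooth Ψ → Smooth Ψ' → (∀ x, Ψ (Ψ' x) = x) → (∀ x, Ψ' (Ψ x) = x) →
    Isotopic (fun x => Ψ (W (Ψ' x))) W

/-- The fixed cuff of the barbell `B`, a 2-sphere in the 4-sphere. -/
def fixedCuff (B : Emb) : Set S4 := mp B '' coreSphere 1

/-- the complement of the fixed cuff of the barbell `B` -/
abbrev Off (B : Emb) : Type := {x : S4 // x ∉ fixedCuff B}

/-- The base point of the complement of the fixed cuff is the midpoint of the bar. -/
def IsBase (B : Emb) (y₀ : Off B) : Prop := (y₀ : S4) = mp B (1 / 2, (1 / 2, 0))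

/-- The barbells `B` and `B'` agree near the core sphere `coreSphere 1`. -/
def SameFixed (B B' : Emb) : Prop :=
  ∃ U : Set R4, IsOpen U ∧ coreSphere 1 ⊆ U ∧ Set.EqOn (mp B) (mp B') U

/-- `z` is the class of the moved cuff of the barbell `C` in the second homotopy group of the complement of the
fixed cuff of `B`: the restriction of `C` to `coreSphere 0` is freely homotopic in the complement to a based
map of class `z`. -/
def IsClass (B : Emb) (y₀ : Off B) (C : Emb) (z : Pi2 (fixedCuff B) y₀) : Prop :=
  FreeClass (fixedCuff B) y₀ (mp C) z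

/-- `z` is the class of the parallel copy of the fixed cuff of `B`. -/
def IsParallelClass (B : Emb) (y₀ : Off B) (z : Pi2 (fixedCuff B) y₀) : Prop :=
  FreeClass (fixedCuff B) y₀ (fun p => mp B (p.1 + 1 / 2, (p.2.1 + 1, p.2.2))) z

/-- the elements of the subgroup of the second homotopy group generated by `S` -/
def gen {B : Emb} {y₀ : Off B} (S : Set (Pi2 (fixedCuff B) y₀)) : Set (Pi2 (fixedCuff B) y₀) :=
  {z | z ∈ Subgroup.closure S}

/-- The classes of the moved cuffs of the barbells with the same fixed cuff as `B`, and the class of the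
parallel copy of the fixed cuff. -/
def MovedClasses (B : Emb) (y₀ : Off B) : Set (Pi2 (fixedCuff B) y₀) :=
  {z | (∃ B' : Emb, IsBarbell B' ∧ SameFixed B B' ∧ IsClass B y₀ B' z) ∨ IsParallelClass B y₀ z}

/-- The moved cuff of the barbell `B` is unknotted: it bounds an embedded 3-ball (which may meet the
fixed cuff). -/
def MovedUnknotted (B : Emb) : Prop :=
  ∃ δ : Emb, DefinedOn δ (flatBall 0) ∧ ∀ p ∈ coreSphere 0, mp δ p = mp B p

/-- The cuffs of `B'` are the cuffs of `B`, exchanged: near the two core spheres, `B'` is the composition of `B`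
with the rotation `(s, a, w) ↦ (s, 1 - a, w̄)`, which exchanges the two core spheres of the model. -/
def Exchanged (B B' : Emb) : Prop :=
  ∃ U : Set R4, IsOpen U ∧ coreSphere 0 ∪ coreSphere 1 ⊆ U ∧
    Set.EqOn (mp B') (fun p => mp B (p.1, (1 - p.2.1, conj p.2.2))) U

/-- The smallest class of barbells which contains the barbells with unknotted moved cuff and is closed under

* exchanging the two cuffs (with any bar),
* sums: `B` is in the class if the class of its moved cuff in the second homotopy group of the complement of
  the fixed cuff is in the subgroup generated by the classes of the moved cuffs of finitely many barbells of the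
  class with the same fixed cuff, and the class of the parallel copy of the fixed cuff. -/
inductive Elementary : Emb → Prop
  | unknotted (B : Emb) : IsBarbell B → MovedUnknotted B → Elementary B
  | exchange (B B' : Emb) : Elementary B → IsBarbell B' → Exchanged B B' → Elementary B'
  | sum (B : Emb) (y₀ : Off B) (n : ℕ) (C : Fin n → Emb) (w : Fin n → Pi2 (fixedCuff B) y₀)
      (z : Pi2 (fixedCuff B) y₀) : IsBarbell B → IsBase B y₀ → (∀ i, Elementary (C i)) →
      (∀ i, SameFixed B (C i)) → (∀ i, IsClass B y₀ (C i) (w i)) →
      z ∈ gen (Set.range w ∪ {v | IsParallelClass B y₀ v}) → IsClass B y₀ B z → Elementary B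

/-- The classes of the moved cuffs of the elementary barbells with the same fixed cuff as `B`, and the class
of the parallel copy of the fixed cuff. -/
def ElementaryClasses (B : Emb) (y₀ : Off B) : Set (Pi2 (fixedCuff B) y₀) :=
  {z | (∃ B' : Emb, Elementary B' ∧ SameFixed B B' ∧ IsClass B y₀ B' z) ∨ IsParallelClass B y₀ z}

end Pool.Agent.Helper18.FinS
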