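import Pool.Agent.Helper18.BI.R.AsmR6
import Pool.Agent.Helper18.BI.R.FinDefs3

/-!
# Project BI, stage 4 (R): the final theorem in the vocabulary of FinDefs3
-/

set_option autoImplicit false

open scoped Manifold ContDiff
open Pool.Agent.Helper65.Barb
open Pool.Agent.Helper70.Fin (Emb coreSphere flatBall)
open Pool.Agent.Helper18.FinR (Pi2 FreeClass)
open Pool.Agent.Helper18.FinS

namespace Pool.Agent.Helper18.BI.R

theorem impl_iff (B : Emb) (φ : S4 → S4) :
    FinS.IsImplantation B φ ↔ Helper70.Fin.IsImplantation B φ := by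
  constructor
  · rintro ⟨hB, β, hβ, h1, h2⟩
    refine ⟨hB, β, hβ, ?_⟩
    funext y
    unfold implantation
    split_ifs with hy
    · obtain ⟨p, hp, rfl⟩ := hy
      have hs : B.toPartialEquiv.symm (B p) = p := B.toPartialEquiv.left_inv (hB hp)
      rw [hs]
      exact h1 p hp
    · exact h2 y hy
  · rintro ⟨hB, β, hβ, rfl⟩
    refine ⟨hB, β, hβ, ?_, ?_⟩
    · intro p hp
      have hs : B.toPartialEquiv.symm (B p) = p := B.toPartialEquiv.left_inv (hB hp)
      show implantation B β (B p) = B (β p)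
      unfold implantation
      rw [if_pos ⟨p, hp, rfl⟩, hs]
    · intro y hy
      unfold implantation
      exact if_neg hy

theorem elementary_of {B : Emb} (h : FinS.Elementary B) : FinR.Elementary B := by
  induction h with
  | unknotted B h1 h2 => exact FinR.Elementary.unknotted B h1 h2
  | exchange B B' _ h2 h3 ih =>
    obtain ⟨U, hU, hs, he⟩ := h3
    exact FinR.Elementary.exchange B B' U ih h2 hU hs he
  | sum B y₀ n C w z h1 h2 _ h4 h5 h6 h7 ih =>
    exact FinR.Elementary.sum B y₀ n C w z h1 h2 ih h4 h5 h6 h7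

/-- the main theorem of stage 4, in the vocabulary of FinDefs3 -/
theorem hFinal7 :
    ∃ (W : S4 → S4) (B₀ : Emb), FinS.IsImplantation B₀ W ∧ FinS.BoundsDisjointBalls B₀ ∧
      Isotopic (fun x => W (W x)) (fun x => x) ∧ FinS.IsCentral W ∧
      (∀ (B : Emb) (y₀ : Off B), IsBarbell B → IsBase B y₀ →
        (∀ B' : Emb, IsBarbell B' → FinS.SameFixed B B' → ∃ z, IsClass B y₀ B' z) ∧
        ∃ Φ : Pi2 (fixedCuff B) y₀ → S4 → S4,
          (∀ z ∈ gen (FinS.MovedClasses B y₀), ∀ z' ∈ gen (FinS.MovedClasses B y₀),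
            FinS.UpTo W (Φ (z * z')) (fun x => Φ z (Φ z' x))) ∧
          (∀ (B' : Emb) (φ : S4 → S4) (z : Pi2 (fixedCuff B) y₀), FinS.IsImplantation B' φ →
            FinS.SameFixed B B' → IsClass B y₀ B' z → FinS.UpTo W φ (Φ z)) ∧
          ∀ z ∈ gen (FinS.ElementaryClasses B y₀), FinS.UpTo W (Φ z) (fun x => x)) ∧
      ∀ (B : Emb) (φ : S4 → S4), FinS.Elementary B → FinS.IsImplantation B φ →
        FinS.UpTo W φ (fun x => x) := by
  obtain ⟨W, B₀, h1, h2, h3, h4, h5, h6⟩ := hFinal5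
  refine ⟨W, B₀, (impl_iff B₀ W).2 h1, h2, h3, h4, ?_, ?_⟩
  · intro B y₀ hB hy
    obtain ⟨k1, Φ, k2, k3, k4⟩ := h5 B y₀ hB hy
    refine ⟨k1, Φ, k2, ?_, ?_⟩
    · intro B' φ z hφ hs hz
      exact k3 B' φ z ((impl_iff B' φ).1 hφ) hs hz
    · intro z hz
      refine k4 z (Subgroup.closure_mono ?_ hz)
      rintro v (⟨B', hE, hs, hc⟩ | hv)
      · exact Or.inl ⟨B', elementary_of hE, hs, hc⟩
      · exact Or.inr hv
  · intro B φ hE hφ
    exact h6 B φ (elementary_of hE) ((impl_iff B φ).1 hφ)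

end Pool.Agent.Helper18.BI.R
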