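import Pool.Agent.Helper18.BI.R.FinDefs

/-!
# Barbells in the 4-sphere: definitions used in the statement of the theorem on the homomorphism, part 2
-/

set_option autoImplicit false

open scoped Manifold ContDiff ComplexConjugate
open Pool.Agent.Helper65.Barb Pool.Agent.Helper70.Fin

namespace Pool.Agent.Helper18.FinR

/-- The classes of the moved cuffs of the barbells with the same fixed cuff as `B`, and the class of the
parallel copy of the fixed cuff. -/
def MovedClasses (B : Emb) (y₀ : {x : S4 // x ∉ B '' coreSphere 1}) :
    Set (Pi2 (B '' coreSphere 1) y₀) :=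
  {z | (∃ B' : Emb, NB ⊆ B'.source ∧ SameFixed B B' ∧ FreeClass (B '' coreSphere 1) y₀ B' z) ∨
    FreeClass (B '' coreSphere 1) y₀ (parallel B) z}

/-- The moved cuff of the barbell `B` is unknotted: it bounds an embedded 3-ball (which may meet the
fixed cuff). -/
def MovedUnknotted (B : Emb) : Prop :=
  ∃ δ : Emb, flatBall 0 ⊆ δ.source ∧ ∀ p ∈ coreSphere 0, δ p = B p

/-- The symmetry of the model which exchanges the two tubes: a rotation of three-space. -/
def exch (p : R4) : R4 := (p.1, (1 - p.2.1, conj p.2.2))

/-- The smallest class of barbells which contains the barbells with unknotted moved cuff and is closed under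

* exchanging the two cuffs (with any bar),
* sums: `B` is in the class if the class of its moved cuff in the second homotopy group of the complement of
  the fixed cuff is in the subgroup generated by the classes of the moved cuffs of finitely many barbells of the
  class with the same fixed cuff, and the class of the parallel copy of the fixed cuff. -/
inductive Elementary : Emb → Prop
  | unknotted (B : Emb) : NB ⊆ B.source → MovedUnknotted B → Elementary B
  | exchange (B B' : Emb) (U : Set R4) : Elementary B → NB ⊆ B'.source → IsOpen U →
      coreSphere 0 ∪ coreSphere 1 ⊆ U → Set.EqOn B' (fun p => B (exch p)) U → Elementary B'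
  | sum (B : Emb) (y₀ : {x : S4 // x ∉ B '' coreSphere 1}) (n : ℕ) (C : Fin n → Emb)
      (w : Fin n → Pi2 (B '' coreSphere 1) y₀) (z : Pi2 (B '' coreSphere 1) y₀) :
      NB ⊆ B.source → (y₀ : S4) = B (1 / 2, (1 / 2, 0)) → (∀ i, Elementary (C i)) →
      (∀ i, SameFixed B (C i)) → (∀ i, FreeClass (B '' coreSphere 1) y₀ (C i) (w i)) →
      z ∈ Subgroup.closure
        (Set.range w ∪ {v | FreeClass (B '' coreSphere 1) y₀ (parallel B) v}) →
      FreeClass (B '' coreSphere 1) y₀ B z → Elementary B

/-- The classes of the moved cuffs of the elementary barbells with the same fixed cuff as `B`, and the class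
of the parallel copy of the fixed cuff. -/
def ElementaryClasses (B : Emb) (y₀ : {x : S4 // x ∉ B '' coreSphere 1}) :
    Set (Pi2 (B '' coreSphere 1) y₀) :=
  {z | (∃ B' : Emb, Elementary B' ∧ SameFixed B B' ∧ FreeClass (B '' coreSphere 1) y₀ B' z) ∨
    FreeClass (B '' coreSphere 1) y₀ (parallel B) z}

end Pool.Agent.Helper18.FinR
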