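import Pool.Agent.Helper18.BI.R.StR
import Pool.Agent.Helper18.BI.H.EndR4
import Pool.Agent.Helper18.BI.AsmA
import Pool.Agent.Helper27.BI.H.Hat

/-!
# Project BI, stage 4 (R), modules FREE and NRB
-/

set_option autoImplicit false

open scoped Manifold ContDiff Topology ComplexConjugate
open Set Filter Pool.Agent.Helper65.Barb Pool.Agent.Helper18.BI
open Pool.Agent.Helper70.BI (I4 IsW MW StMain2)
open Pool.Agent.Helper18.BI.H

namespace Pool.Agent.Helper18.BI.R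

theorem base_mem_S2 : ((1, 0) : R3) ∈ S2 := by
  show (1 : ℝ) ^ 2 + (0 : ℂ).re ^ 2 + (0 : ℂ).im ^ 2 = 1
  norm_num

theorem bar_neckE {a : ℝ} (h1 : 3 / 5 ≤ a) (h2 : a ≤ 4 / 5) : bar a ∈ neckE :=
  ⟨⟨rfl, by show (1 / 5 : ℝ) ≤ a; linarith, h2, rfl⟩, h1⟩

theorem foot_eq : ((1 / 2, (1 / 5 : ℝ) • ((1, 0) : R3)) : R4) = foot0 := by
  unfold foot0
  rw [Prod.smul_mk, smul_zero, smul_eq_mul, mul_one]

theorem embOn_continuousOn {F : R4 → R4} {L : Set R4} (hF : EmbOn I4 F L) : ContinuousOn F L :=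
  fun p hp => (hF.1 p hp).contMDiffAt.continuousAt.continuousWithinAt

theorem cuff_mem {m : R3} (hm : m ∈ S2) : ((1 / 2, (1 / 5 : ℝ) • m) : R4) ∈ sph 0 := by
  refine ⟨rfl, ?_⟩
  have h : m.1 ^ 2 + m.2.re ^ 2 + m.2.im ^ 2 = 1 := hm
  have e : rsq 0 (1 / 2, (1 / 5 : ℝ) • m) =
      (1 / 5 * m.1 - 0) ^ 2 + (1 / 5 * m.2.re) ^ 2 + (1 / 5 * m.2.im) ^ 2 := by
    simp [rsq, nsq]
  rw [e]
  nlinarith

/-- **FREE.** -/
theorem m_FREE (hBAR : StBAR) (hMain2 : StMain2) (hTOPG : StTOPG) (hT2 : StT2) : StFREE := by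
  intro F F' V W φ' h hW hF hF' hV hVs hE hφ' hh h1 h0 hoff
  have hcF := embOn_continuousOn hF
  have him : F' '' sph 1 = F '' sph 1 := image_congr fun p hp => (hE (hVs (Or.inl hp))).symm
  let ζ : ℝ → R4 := fun τ => if τ ≤ 1 / 2 then F (bar (3 / 5 + 13 / 50 * τ)) else h (2 * τ - 1, (1, 0))
  have ζa : ∀ τ ∈ Icc (0 : ℝ) (1 / 2), ζ τ = F (bar (3 / 5 + 13 / 50 * τ)) := fun τ hτ => if_pos hτ.2
  have ζb : ∀ τ ∈ Icc (1 / 2 : ℝ) 1, ζ τ = h (2 * τ - 1, (1, 0)) := by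
    intro τ hτ
    by_cases h2 : τ ≤ 1 / 2
    · have h3 : τ = 1 / 2 := le_antisymm h2 hτ.1
      subst h3
      rw [ζa _ ⟨by norm_num, le_rfl⟩]
      have e1 : (2 * (1 / 2 : ℝ) - 1) = 0 := by norm_num
      have e2 : (3 / 5 + 13 / 50 * (1 / 2 : ℝ)) = 73 / 100 := by norm_num
      rw [e1, e2, h0]
      rfl
    · exact if_neg h2
  have ζc : ContinuousOn ζ (Icc 0 1) := by
    have e : Icc (0 : ℝ) 1 = Icc 0 (1 / 2) ∪ Icc (1 / 2) 1 :=
      (Icc_union_Icc_eq_Icc (by norm_num) (by norm_num)).symm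
    rw [e]
    refine ContinuousOn.union_of_isClosed ?_ ?_ isClosed_Icc isClosed_Icc
    · refine ContinuousOn.congr (f := fun τ => F (bar (3 / 5 + 13 / 50 * τ))) ?_ ζa
      refine hcF.comp ?_ ?_
      · exact (continuous_bar.comp (by fun_prop)).continuousOn
      · intro τ hτ
        exact bar_mem_SP (by linarith [hτ.1]) (by linarith [hτ.2])
    · refine ContinuousOn.congr (f := fun τ => h (2 * τ - 1, (1, 0))) ?_ ζb
      refine hh.comp ?_ ?_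
      · exact Continuous.continuousOn (by fun_prop)
      · intro τ hτ
        exact ⟨⟨by show (0 : ℝ) ≤ 2 * τ - 1; linarith [hτ.1],
          by show 2 * τ - 1 ≤ (1 : ℝ); linarith [hτ.2]⟩, base_mem_S2⟩
  have ζ0 : ζ 0 = F' (bar (3 / 5)) := by
    rw [ζa 0 ⟨le_rfl, by norm_num⟩, mul_zero, add_zero]
    exact hE (hVs (Or.inr (bar_neckE le_rfl (by norm_num))))
  have ζ1 : ζ 1 = F' foot0 := by
    rw [ζb 1 ⟨by norm_num, le_rfl⟩]
    have e1 : (2 * (1 : ℝ) - 1) = 1 := by norm_num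
    rw [e1, h1 _ base_mem_S2, foot_eq]
  have ζoff : ∀ τ ∈ Icc (0 : ℝ) 1, ζ τ ∉ F' '' sph 1 := by
    intro τ hτ
    rw [him]
    rcases le_total τ (1 / 2) with h2 | h2
    · rw [ζa τ ⟨hτ.1, h2⟩]
      rintro ⟨p, hp, he⟩
      have hb := bar_mem_SP (a := 3 / 5 + 13 / 50 * τ) (by linarith [hτ.1]) (by linarith)
      have := hF.2 (Or.inl (Or.inr hp)) hb he
      rw [this] at hp
      exact bar_not_sph1 (by linarith) hp
    · rw [ζb τ ⟨h2, hτ.2⟩]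
      exact hoff _ ⟨by linarith, by linarith [hτ.2]⟩ _ base_mem_S2
  obtain ⟨F₂, U₂, P, hF₂, hU₂, hsU₂, hE₂, P1, P2, P3, P4, P5, P6⟩ := hBAR F' ζ hF' ζc ζ0 ζ1 ζoff
  obtain ⟨φ₂, hφ₂⟩ : ∃ φ₂, Thin I4 F₂ φ₂ := by
    obtain ⟨ε₁, hε₁, hh⟩ := (hT2 _ _ 𝓘(ℝ, R4) R4).1 _ hF₂
    exact ⟨_, hh (ε₁ / 2) ⟨by positivity, by linarith⟩⟩
  have hor := hMain2 W F' F₂ φ' φ₂ U₂ hW hF' hF₂ hU₂ (fun p hp => hsU₂ (Or.inl hp)) hE₂ hφ' hφ₂
  have hE12 : EqOn F F₂ (V ∩ U₂) := fun p hp => (hE hp.1).trans (hE₂ hp.2)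
  have hsE12 : sph 1 ∪ neckE ⊆ V ∩ U₂ := by
    intro p hp
    refine ⟨hVs hp, ?_⟩
    rcases hp with hp | hp
    · exact hsU₂ (Or.inl (Or.inr hp))
    · exact hsU₂ (Or.inr hp)
  have him2 : F₂ '' sph 1 = F '' sph 1 := image_congr fun p hp => (hE12 (hsE12 (Or.inl hp))).symm
  have hbp : bp F₂ = bp F :=
    (hE12 (hsE12 (Or.inr (bar_neckE (by norm_num) (by norm_num))))).symm
  obtain ⟨H, H1, H2, H3, H4, H5⟩ := hTOPG F₂ h ζ P hF₂ hh (fun m hm => by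
      rw [h1 m hm]
      exact hE₂ (hsU₂ (Or.inl (Or.inl (cuff_mem hm))))) (h0.trans hbp.symm)
    (fun u hu m hm => by rw [him2]; exact hoff u hu m hm)
    (fun τ hτ => by
      rw [ζa τ hτ]
      exact hE12 (hsE12 (Or.inr (bar_neckE (by linarith [hτ.1]) (by linarith [hτ.2]))))) ζb P1 P2 P3
    (fun u hu => by
      rw [P4 u hu]
      exact hE₂ (hsU₂ (Or.inr (bar_neckE le_rfl (by norm_num)))))
    (fun u hu => by
      rw [P5 u hu]
      exact hE₂ (hsU₂ (Or.inl (Or.inl foot_mem))))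
    (fun u hu τ hτ => by
      rw [him2, ← him]
      exact P6 u hu τ hτ)
  exact ⟨F₂, φ₂, V ∩ U₂, H, hF₂, hV.inter hU₂, hsE12, hE12, hφ₂, hor, H1, H2, H3,
    fun u hu => (H4 u hu).trans hbp, fun u hu m hm => by rw [← him2]; exact H5 u hu m hm⟩

/-- **NRB.** -/
theorem m_NRB : StNRB := by
  intro F hF κ hκ
  have hb : bar (73 / 100) ∈ SP := bar_mem_SP (by norm_num) (by norm_num)
  have hc : ContinuousAt F (bar (73 / 100)) := (hF.1 _ hb).contMDiffAt.continuousAt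
  have hn : F ⁻¹' Metric.ball (bp F) κ ∈ 𝓝 (bar (73 / 100)) :=
    hc.preimage_mem_nhds (Metric.ball_mem_nhds _ hκ)
  obtain ⟨ε₀, h0, h1⟩ := Pool.Agent.Helper27.H.exists_eps
    (K := (fun s : ℝ => ((s, ((73 / 100 : ℝ), (0 : ℂ))) : R4)) '' Icc (3 / 10) (7 / 10))
    (U := interior (F ⁻¹' Metric.ball (bp F) κ))
    (isCompact_Icc.image (by fun_prop)) isOpen_interior (by
      rintro _ ⟨s, -, rfl⟩
      have e : sq 0 (s, ((73 / 100 : ℝ), (0 : ℂ))) = bar (73 / 100) :=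
        hS4.2.2.1 _ (Or.inr (Or.inr ⟨by norm_num, by norm_num, rfl⟩))
      rw [e]
      exact mem_interior_iff_mem_nhds.2 hn)
  refine ⟨ε₀, h0, fun ε hε s hs => ?_⟩
  have h2 := interior_subset (h1 ε hε _ ⟨s, hs, rfl⟩)
  exact (Metric.mem_ball.1 h2).le

end Pool.Agent.Helper18.BI.R
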