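import Pool.Agent.Helper18.BI.H.StF3

/-!
# Project BI, stage 4 (R): the homomorphism, part 1 (in `R4`)

For a fixed cuff `A = F '' sph 1` the implantation class modulo `W` is a homomorphism of the class of the other cuff in
the second homotopy group of the complement of `A`.  Statements (as `Prop` definitions) with complete proofs in the
docstrings.  A module `M_X` proves `theorem m_X : StX` (possibly from other statements as hypotheses `(h : StY)`).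
-/

set_option autoImplicit false

open scoped Manifold ContDiff Topology ComplexConjugate
open Set Pool.Agent.Helper65.Barb Pool.Agent.Helper18.BI
open Pool.Agent.Helper70.BI (I4 IsW MW)
open Pool.Agent.Helper27.H (ArcD StArcH)
open Pool.Agent.Helper18.BI.H

namespace Pool.Agent.Helper18.BI.R

/-! ## loops of arcs and squares -/

/-- A smooth loop of arcs (not necessarily embedded); `c q s` is the point with parameter `s` of the arc with
parameter `q ∈ [0,1]`. -/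
structure LoopOK (D : ArcD) (c : ℝ → ℝ → R4) : Prop where
  smooth : ContDiff ℝ ∞ (fun z : ℝ × ℝ => c z.1 z.2)
  froz : ∀ q ∈ Icc (0 : ℝ) 1, ∀ s, (s ≤ D.m₀ ∨ D.m₁ ≤ s) → c q s = D.c s
  inU : ∀ q ∈ Icc (0 : ℝ) 1, ∀ s ∈ Icc D.m₀ D.m₁, c q s ∈ D.U
  start : ∀ s, c 0 s = D.c s
  stop : ∀ s, c 1 s = D.c s

/-- concatenation of smooth loops of arcs -/
noncomputable def cat (D : ArcD) (c c' : ℝ → ℝ → R4) (q s : ℝ) : R4 :=
  c (step (2 * q)) s + c' (step (2 * q - 1)) s - D.c s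

/-- concatenation of squares -/
noncomputable def qcat (f f' : ℝ → ℝ → R4) (q s : ℝ) : R4 :=
  if q ≤ 1 / 2 then f (2 * q) s else f' (2 * q - 1) s

/-- Homotopy of squares in `D.U`, relative to the boundary, where the squares are equal to the base arc. -/
def SH (D : ArcD) (f g : ℝ → ℝ → R4) : Prop :=
  ∃ H : ℝ × ℝ × ℝ → R4,
    ContinuousOn H (Icc (0 : ℝ) 1 ×ˢ (Icc (0 : ℝ) 1 ×ˢ Icc D.m₀ D.m₁)) ∧
    (∀ q ∈ Icc (0 : ℝ) 1, ∀ s ∈ Icc D.m₀ D.m₁, H (0, q, s) = f q s ∧ H (1, q, s) = g q s) ∧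
    ∀ u ∈ Icc (0 : ℝ) 1, ∀ q ∈ Icc (0 : ℝ) 1, ∀ s ∈ Icc D.m₀ D.m₁, H (u, q, s) ∈ D.U ∧
      ((q = 0 ∨ q = 1 ∨ s = D.m₀ ∨ s = D.m₁) → H (u, q, s) = D.c s)

/-- the square `f`, with boundary values `y₀`, is moved to a square with boundary values `D.c s` -/
noncomputable def shp (D : ArcD) (y₀ : R4) (f : ℝ → ℝ → R4) (q s : ℝ) : R4 := f q s + (D.c s - y₀)

/-- `χ` is a class of the square `f` (with boundary values `y₀`): of a smooth loop of embedded arcs homotopic to it. -/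
def HasCl (D : ArcD) (y₀ : R4) (f : ℝ → ℝ → R4) (χ : R4 → R4) : Prop :=
  ∃ c : ℝ → ℝ → R4, LoopOK D c ∧ D.Cls c χ ∧ SH D c (shp D y₀ f)

/-- MODULE MULT (helper27).  The class of a concatenation.
Proof.  Loops of thick arcs `J`, `J'` with `TCls J χ`, `TCls J' χ'`.  `J'' q p = J (step (2 q)) p + J' (step (2 q - 1)) p - D.J p`;
near `L`, `J 1 = D.J = J' 0`, so `J'' q = J (step (2q))` for `q ≤ 1/2` and `J' (step (2q-1))` for `q ≥ 1/2` as germs along `L`.  The push along `J''` is `Θ' ∘ Θ`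
(concatenate the isotopies, reparametrized by `step`), `Phi` is multiplicative (`StPhi` (4)). -/
def StMULT : Prop :=
  ∀ (D : ArcD) (c c' : ℝ → ℝ → R4) (χ χ' : R4 → R4), LoopOK D c → LoopOK D c' → D.Cls c χ →
    D.Cls c' χ' → D.Cls (cat D c c') (fun x => χ' (χ x))

/-- MODULE INV (helper27).  The class of the reversed loop.  (From `StMULT`, and the fourth and fifth claims of `StCls` applied to the homotopy
`(u, q) ↦` the concatenation of `c` on `[0, 1-u]` with its inverse, which consists of embedded arcs; or directly with the inverse push.) -/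
def StINV : Prop :=
  ∀ (D : ArcD) (c : ℝ → ℝ → R4) (χ χ' : R4 → R4), LoopOK D c → D.Cls c χ →
    (∀ x, χ (χ' x) = x) → (∀ x, χ' (χ x) = x) → D.Cls (fun q s => c (1 - q) s) χ'

/-- MODULE SMG.  Smoothing relative to the boundary.
Proof.  `τ u = step (3 u - 1)` (`0` for `u ≤ 1/3`, `1` for `u ≥ 2/3`) and `S (u, q, s) = (1 - τ u) • c₀ q s + τ u • c₁ q s`, smooth on `ℝ³`.  `C` = the closed
cube `[0,1] × [0,1] × [m₀,m₁]`, `H` the homotopy on `C` (`SH`); `S = H` on the boundary `∂C` of `C`.  `H '' C` is compact, contained in the open set `U`, so there is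
`κ > 0` such that the closed `2κ`-neighbourhood of `H '' C` is in `U`.  By compactness there is `r > 0` with `‖S z - H z‖ ≤ κ/2` for all `z ∈ C` at a distance `≤ 2 r` from `∂C`
(i.e. with `u`, `1-u`, `q`, `1-q`, `s-m₀` or `m₁-s` `≤ 2r`).  `λ : ℝ³ → [0,1]` continuous, `0` outside the cube `C_r = {z ∈ C at distance ≥ r from ∂C}` and `1` on `C_{2r}` (product of
piecewise linear functions of the coordinates).  `g z = S z + λ z • (H z - S z)` for `z ∈ C`, `g z = S z` for `z ∉ C`: continuous on `ℝ³`, within `κ/2` of `H` on `C`, equal to `S` off `C_r`.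
`Continuous.exists_contDiff_approx_and_eqOn` (used in `Pool/Agent/Helper18/BI/H/M_SM.lean` and in `StBAR`) gives a smooth `c` with `‖c - g‖ ≤ κ/2` and `c = g = S` on the closed complement of the open cube
`{z ∈ C at distance > r/2 from ∂C}` (`g = S` is smooth on an open neighbourhood of this set).  `c` is in `U` for `z ∈ C`; for `z ∉ C`, or on `∂C`, `c = S`: frozen, `start`, `stop`
(for `q = 0, 1` and `u ∈ [0,1]`, any `s`: `c = S = D.c s`); `c (0, q, s) = c₀ q s` for all `q`, `s`. -/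
def StSMG : Prop :=
  ∀ (D : ArcD) (c₀ c₁ : ℝ → ℝ → R4), LoopOK D c₀ → LoopOK D c₁ → SH D c₀ c₁ →
    ∃ c : ℝ × ℝ × ℝ → R4, D.Htpy c ∧ (∀ q s, c (0, q, s) = c₀ q s) ∧ ∀ q s, c (1, q, s) = c₁ q s

/-- MODULE HCL.  The calculus of `HasCl` (uses `StMULT`, `StINV`, `StSMG`, `StCls`, `StArcH`, `StT2`, `StCI`; `cls_imm_inj` of `EndR4.lean`).
`SH D` is symmetric (`H (1 - u, ..)`) and transitive (concatenation in `u`); it is reflexive on squares which are continuous, in `U` and equal to `D.c` on the boundary.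
(1) `c q s = D.c s` (`StCls`, last claim), `SH` constant.
(2) `c'' = cat D c c'`: `LoopOK` (`step` is smooth, `step = 0` on `(-∞, 0]`, `1` on `[1, ∞)`, so for `q ≤ 1/2` the value is `c (step (2q)) s` and for `q ≥ 1/2` it is `c' (step (2q-1)) s`);
`StMULT`; homotopy: for `q ≤ 1/2` `H (u, (1-u) step (2q) + u (2q), s)`, for `q ≥ 1/2` `H' (u, (1-u) step (2q-1) + u (2q-1), s)`; at `q = 1/2` both are `D.c s` (`H (u, 1, s) = D.c s`).
(3) `c (1-q) s`, `StINV`, `H (u, 1-q, s)`.  (4) transitivity.  (5) `StCls`, second claim.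
(6) `SH D c (shp f)`, `SH D c' (shp f)` give `SH D c c'`; `StSMG` gives a homotopy `g` with `D.Htpy g`, `g (0, ..) = c`, `g (1, ..) = c'`, `StArcH` (the ends are embedded by `cls_imm_inj`). -/
def StHCL : Prop :=
  ∀ (D : ArcD) (y₀ : R4),
    HasCl D y₀ (fun _ _ => y₀) (fun x => x) ∧
    (∀ f f' χ χ', HasCl D y₀ f χ → HasCl D y₀ f' χ' →
      HasCl D y₀ (qcat f f') (fun x => χ' (χ x))) ∧
    (∀ f χ χ', HasCl D y₀ f χ → (∀ x, χ (χ' x) = x) → (∀ x, χ' (χ x) = x) →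
      HasCl D y₀ (fun q s => f (1 - q) s) χ') ∧
    (∀ f f' χ, HasCl D y₀ f χ → SH D (shp D y₀ f) (shp D y₀ f') → HasCl D y₀ f' χ) ∧
    (∀ f χ χ', HasCl D y₀ f χ → CIsot I4 χ χ' → HasCl D y₀ f χ') ∧
    (∀ f χ, HasCl D y₀ f χ → CIsot I4 χ χ) ∧
    ∀ W f χ χ', IsW W → HasCl D y₀ f χ → HasCl D y₀ f χ' →
      CIsot I4 χ' χ ∨ CIsot I4 χ' (fun x => W (χ x))

/-! ## germs -/

/-- the unit sphere of three-space -/
def S2 : Set R3 := {m | nsq m = 1}

/-- the base point: a point of the outer part of the bar -/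
noncomputable def bp (F : R4 → R4) : R4 := F (bar (73 / 100))

/-- MODULE BAS.  The loop of arcs of a germ is homotopic to its whiskered sphere (uses `StSM`, `StS2`, `StS3`, `StS4`, `StS5`; compare `Pool/Agent/Helper18/BI/H/M_SM.lean`).
Proof.  `K = F '' sph 1` is compact and does not contain the points `F' (nu m)` (`nu m ∈ SP \ sph 1`: `nu m ∈ sph 0` or `nu m = bar a` with `a ≤ 73/100`; `F' = F` on `sph 1`, `F'` injective on `SP`), `m ∈ S2` (compact), so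
there is `κ > 0` with `4 κ ≤ dist (F' (nu m)) y` for all `m ∈ S2`, `y ∈ K`.  By the continuity of `sq` up to `ε = 0` (`StS3`, as in `M_SM.lean`) there is `ε₀` such that for `ε < ε₀`, `m ∈ S2`, `s ∈ [3/10, 7/10]` the point
`sq ε (s, 73/100 • m)` is in the open set where `F'` is smooth and `F' (sq ε (s, 73/100 • m))` is within `κ` of `F' (nu m)` (`sq 0 (s, x) = sq 0 (1/2, x)`).
`c = loopF F' (3/10) (7/10) ε D`.  `LoopOK`: smooth: near a point with `3/10 < s < 7/10` it is `F' (sq ε (s, 73/100 • mm q s))`, smooth (`mm` is smooth; `StZnsq`: `mm q s ∈ S2`); for `s < 9/20` or `11/20 < s` (`mm q s = (1,0)`: `mm_edge` of `EndR4.lean`) it is `D.c s`: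
`F' (sq ε (s, (73/100, 0))) = F (sq ε (s, (73/100, 0)))` because `sq ε (s, (73/100, 0)) ∈ U` for small `ε` (`sq 0 (s, (73/100, 0)) = bar (73/100) ∈ neckE`).  `start`, `stop`: `mm_ends`.  `inU`: the distance of `c q s` to `K` is `≥ 3 κ`.
The homotopy of `SH`: the linear one from `c q s` to `F' (nu (mm q s)) + (D.c s - y₀)`, `y₀ = bp F = F' (nu (1, 0))`, `‖D.c s - y₀‖ ≤ κ`: both ends are within `κ` of `F' (nu (mm q s))`, so it is at a distance `≥ 3 κ` from `K`, in `D.U`.  On the boundary `mm q s = (1, 0)` and both ends are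
`D.c s`. -/
def StBAS : Prop :=
  ∀ (F F' : R4 → R4) (V : Set R4), EmbOn I4 F SP → EmbOn I4 F' SP → IsOpen V →
    sph 1 ∪ neckE ⊆ V → EqOn F F' V → ∃ κ > 0, ∃ ε₀ > 0, ∀ ε ∈ Ioo 0 ε₀, ∀ D : ArcD,
      D.m₀ = 9 / 20 → D.m₁ = 11 / 20 →
      (∀ s ∈ Icc (3 / 10 : ℝ) (7 / 10), D.c s = F (sq ε (s, ((73 / 100 : ℝ), 0)))) →
      (∀ x, x ∉ D.U → ∃ y ∈ F '' sph 1, dist x y < κ) →
      LoopOK D (loopF F' (3 / 10) (7 / 10) ε D) ∧
        SH D (loopF F' (3 / 10) (7 / 10) ε D) (shp D (bp F) (fun q s => F' (nu (mm q s))))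

/-- MODULE STR2.  Stretching the bar, the same for all germs.
Proof.  As `Pool/Agent/Helper18/BI/H/M_STR.lean` (`K = repm m`, `m` from `STR.exists_rep`; `U₁ = {p.2.1 < 1/4} ∪ {4/5 - r/4 < p.2.1}`, `V = K ⁻¹' U`; `b = m (73/100)`, `m` is strictly increasing, `m (1/5) = 1/5`,
`m (4/5) = 4/5`). -/
def StSTR2 : Prop :=
  ∀ U : Set R4, IsOpen U → sph 1 ⊆ U → ∃ (K : R4 → R4) (b : ℝ) (U₁ V : Set R4), IsOpen U₁ ∧
    sph 0 ∪ sph 1 ⊆ U₁ ∧ (∀ p ∈ U₁, K p = p) ∧ IsOpen V ∧ sph 1 ∪ neckE ⊆ V ∧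
    (∀ p ∈ V, K p ∈ U) ∧ 1 / 5 < b ∧ b < 4 / 5 ∧ K (bar (73 / 100)) = bar b ∧
    ∀ F : R4 → R4, EmbOn I4 F SP → EmbOn I4 (fun p => F (K p)) SP ∧
      ∀ φ, Thin I4 F φ → Thin I4 (fun p => F (K p)) φ

/-- MODULE MOVE.  A point of the bar is moved to another one by a homotopy of self-maps of the complement of the fixed cuff.
Proof.  `F` is injective and a local diffeomorphism on an open set `N ⊇ SP` (`StA1`).  Let `1/5 < a' < min a b`, `max a b < b' < 4/5` and `k : ℝ → ℝ` continuous, piecewise linear, `k x = x` for `x ≤ a'` and for `x ≥ b'`, `k a = b`, `k` maps `[a', b']` to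
itself.  `χ (s, w) = max 0 (1 - ‖(s - 1/2, w)‖ / r)` and `T_t (s, x, w) = (s, x + t χ (s, w) (k x - x), w)` for `t ∈ [0,1]`: continuous, the identity off the compact set
`L = {(s, x, w) | x ∈ [a', b'], ‖(s - 1/2, w)‖ ≤ r}` (and on its frontier), maps `L` to `L`; for small `r`, `L ⊆ N` and `L` is disjoint from `sph 1` (`a`-coordinate `≤ b' < 4/5`).  With `t` replaced by its clamp to `[0,1]`:
`Ψ (t, y) = F (T_t p)` if `y = F p` with `p ∈ L` (unique), `Ψ (t, y) = y` otherwise.  Continuous: on the open set `F '' N' × ..` (`N' ⊆ N` an open neighbourhood of `L`; `F` is a homeomorphism of `N'` onto the open set `F '' N'`, e.g. the partial diffeomorphism of `StA1`) it is `F ∘ T_t ∘ F⁻¹`, and on the open set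
`(F '' L)ᶜ` it is the identity.  `F '' L` is disjoint from `F '' sph 1` (injectivity on `N ⊇ L ∪ sph 1`). -/
def StMOVE : Prop :=
  ∀ (F : R4 → R4) (a b : ℝ), EmbOn I4 F SP → a ∈ Ioo (1 / 5 : ℝ) (4 / 5) →
    b ∈ Ioo (1 / 5 : ℝ) (4 / 5) → ∃ Ψ : ℝ × R4 → R4, Continuous Ψ ∧ (∀ x, Ψ (0, x) = x) ∧
      Ψ (1, F (bar a)) = F (bar b) ∧ ∀ t x, x ∉ F '' sph 1 → Ψ (t, x) ∉ F '' sph 1

/-- NRB (helper18).  The base arc is near the base point.  (`StS3`, `StS4`.) -/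
def StNRB : Prop :=
  ∀ F : R4 → R4, EmbOn I4 F SP → ∀ κ > 0, ∃ ε₀ > 0, ∀ ε ∈ Ioo 0 ε₀,
    ∀ s ∈ Icc (3 / 10 : ℝ) (7 / 10), dist (F (sq ε (s, ((73 / 100 : ℝ), 0)))) (bp F) ≤ κ

/-- MODULE TOPG.  A free homotopy from a based sphere to the cuff gives a based homotopy to the whiskered sphere, if the bar is in the class of the track of the base point.
`h (u, m)`, `m ∈ S2`: the free homotopy; `h (1, m) = F (1/2, 1/5 • m)` runs through the cuff `sph 0`; `ζ` = outer bar from `3/5` back to `73/100`, then the track of `(1, 0)`;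
`P` = homotopy from `ζ` to the bar from `3/5` to `1/5`.
Proof (compare `Pool/Agent/Helper18/BI/H/M_TOP.lean`; `nu m = sq 0 (1/2, 73/100 • m)`).  Put `k = 20/73`, `a = 73/100 * m.1` (so `a ≥ 1/5` iff `m.1 ≥ k`), and for `m ∈ S2`: `ω m = (m.1 - k)/(1 - k)` (`∈ [0,1]` for `m.1 ≥ k`, `1` at `(1,0)`, `0` at `m.1 = k`).
`r m = 5 • (nu m).2` for `m.1 ≤ k` (a point of `S2`, `= (1,0)` for `m.1 = k`; `nu m ∈ sph 0` there by `StS4`), `R m = (1, 0)` for `m.1 ≥ k`, `R m = r m` for `m.1 ≤ k`: continuous on `S2` with values in `S2`.  `R m ≠ -m`: for `m.1 ≥ k > 0` clear; for `m.1 ≤ k` the `w`-component of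
`nu m` is a nonnegative multiple of `m.2` and the first components of `R m` and `m` have the same sign or vanish together
(`(nu m).2.1 = clamp (73/100 m.1)`); for `m = (-1, 0)`, `R m = (-1, 0)`.  So `R_t m = ((1-t) m + t R m)/|..|` is a homotopy of maps `S2 → S2` from the identity to `R` with `R_t (1,0) = (1,0)`.
Four consecutive homotopies (`ContinuousOn.if`/union of closed sets; concatenation in `u`):
(0) `h (0, R_t m)`, `t ∈ [0,1]`;
(1) for `u ∈ [0,1]`: `h (u, R m)` for `m.1 ≤ k`, `η (u (1 - ω m))` for `m.1 ≥ k`, where `η v = h (v, (1,0))`;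
(2) at the end (`u = 1`): `h (1, R m) = F (1/2, 1/5 • R m) = F (nu m)` for `m.1 ≤ k`, and `η (1 - ω m)` for `m.1 ≥ k`.  The path `x ↦ η x`, `x = 1 - ω ∈ [0,1]`, from `y₀ = F (bar (73/100))` to `F foot0` is homotopic rel ends, off `F '' sph 1`, to `x ↦ F (bar (73/100 - x (73/100 - 1/5)))`:
`η` is homotopic to (outer bar from `73/100` to `3/5`) * (back) * `η`, i.e. to (outer bar) * `ζ` (reparametrized: use the family `ζ'_v`, `v ∈ [0,1]`, of paths: outer bar from `73/100` to `73/100 - v 13/100`, back, then `η`), `ζ` is homotopic to the inner bar by `P`, and the concatenation of the outer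
bar and the inner bar is a reparametrization of the bar.  Apply this homotopy to the part `m.1 ≥ k`; the other part stays fixed.
The result is `F (nu m)` for all `m` (`nu m = bar (73/100 m.1)` for `m.1 ≥ k`).  All values are off `F '' sph 1`; at `m = (1, 0)` always `y₀` (`η 0`, `x = 0`). -/
def StTOPG : Prop :=
  ∀ (F : R4 → R4) (h : ℝ × R3 → R4) (ζ : ℝ → R4) (P : ℝ × ℝ → R4), EmbOn I4 F SP →
    ContinuousOn h (Icc (0 : ℝ) 1 ×ˢ S2) → (∀ m ∈ S2, h (1, m) = F (1 / 2, (1 / 5 : ℝ) • m)) →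
    h (0, (1, 0)) = bp F → (∀ u ∈ Icc (0 : ℝ) 1, ∀ m ∈ S2, h (u, m) ∉ F '' sph 1) →
    (∀ τ ∈ Icc (0 : ℝ) (1 / 2), ζ τ = F (bar (3 / 5 + 13 / 50 * τ))) →
    (∀ τ ∈ Icc (1 / 2 : ℝ) 1, ζ τ = h (2 * τ - 1, (1, 0))) →
    ContinuousOn P (Icc (0 : ℝ) 1 ×ˢ Icc (0 : ℝ) 1) → (∀ τ ∈ Icc (0 : ℝ) 1, P (0, τ) = ζ τ) →
    (∀ τ ∈ Icc (0 : ℝ) 1, P (1, τ) = F (bar (3 / 5 - 2 / 5 * τ))) →
    (∀ u ∈ Icc (0 : ℝ) 1, P (u, 0) = F (bar (3 / 5))) →
    (∀ u ∈ Icc (0 : ℝ) 1, P (u, 1) = F foot0) →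
    (∀ u ∈ Icc (0 : ℝ) 1, ∀ τ ∈ Icc (0 : ℝ) 1, P (u, τ) ∉ F '' sph 1) →
    ∃ H : ℝ × R3 → R4, ContinuousOn H (Icc (0 : ℝ) 1 ×ˢ S2) ∧ (∀ m ∈ S2, H (0, m) = h (0, m)) ∧
      (∀ m ∈ S2, H (1, m) = F (nu m)) ∧ (∀ u ∈ Icc (0 : ℝ) 1, H (u, (1, 0)) = bp F) ∧
      ∀ u ∈ Icc (0 : ℝ) 1, ∀ m ∈ S2, H (u, m) ∉ F '' sph 1

/-- FREE (helper18).  Choosing the bar (from `StBAR`, `StMain2`, `StTOPG`). -/
def StFREE : Prop :=
  ∀ (F F' : R4 → R4) (V : Set R4) (W φ' : R4 → R4) (h : ℝ × R3 → R4), IsW W → EmbOn I4 F SP →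
    EmbOn I4 F' SP → IsOpen V → sph 1 ∪ neckE ⊆ V → EqOn F F' V → Thin I4 F' φ' →
    ContinuousOn h (Icc (0 : ℝ) 1 ×ˢ S2) → (∀ m ∈ S2, h (1, m) = F' (1 / 2, (1 / 5 : ℝ) • m)) →
    h (0, (1, 0)) = bp F → (∀ u ∈ Icc (0 : ℝ) 1, ∀ m ∈ S2, h (u, m) ∉ F '' sph 1) →
    ∃ (F'' φ'' : R4 → R4) (V'' : Set R4) (H : ℝ × R3 → R4), EmbOn I4 F'' SP ∧ IsOpen V'' ∧
      sph 1 ∪ neckE ⊆ V'' ∧ EqOn F F'' V'' ∧ Thin I4 F'' φ'' ∧
      (CIsot I4 φ'' φ' ∨ CIsot I4 φ'' (fun x => W (φ' x))) ∧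
      ContinuousOn H (Icc (0 : ℝ) 1 ×ˢ S2) ∧ (∀ m ∈ S2, H (0, m) = h (0, m)) ∧
      (∀ m ∈ S2, H (1, m) = F'' (nu m)) ∧ (∀ u ∈ Icc (0 : ℝ) 1, H (u, (1, 0)) = bp F) ∧
      ∀ u ∈ Icc (0 : ℝ) 1, ∀ m ∈ S2, H (u, m) ∉ F '' sph 1

/-! ## the relation theorem in `R4` -/

/-- the square of a word in the based spheres `g i` (`g i : S2 → R4`, `g i (1,0) = y`) -/
noncomputable def evS {n : ℕ} (y : R4) (g : Fin n → R3 → R4) : List (Fin n × Bool) → ℝ → ℝ → R4
  | [] => fun _ _ => y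
  | (i, true) :: l => qcat (fun q s => g i (mm q s)) (evS y g l)
  | (i, false) :: l => qcat (fun q s => g i (mm (1 - q) s)) (evS y g l)

/-- the product of diffeomorphisms `φ i` and their inverses `φ' i` along a word -/
def evD {M : Type} {n : ℕ} (φ φ' : Fin n → M → M) : List (Fin n × Bool) → M → M
  | [] => fun x => x
  | (i, true) :: l => fun x => evD φ φ' l (φ i x)
  | (i, false) :: l => fun x => evD φ φ' l (φ' i x)

/-- REL4 (helper18).  **The relation theorem in `R4`.**  `h i` is a free homotopy, off the fixed cuff, from a based sphere to the second cuff of the germ `Fi i`; if the word `l` in the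
based spheres is null-homotopic off the fixed cuff, then the corresponding product of the classes is `1` or `W`. -/
def StREL4 : Prop :=
  ∀ (n : ℕ) (F : R4 → R4) (Fi φ φ' : Fin n → R4 → R4) (U : Set R4) (h : Fin n → ℝ × R3 → R4)
    (W : R4 → R4) (l : List (Fin n × Bool)) (N : ℝ × ℝ × ℝ → R4), IsW W → EmbOn I4 F SP →
    (∀ i, EmbOn I4 (Fi i) SP) → IsOpen U → sph 1 ⊆ U → (∀ i, EqOn F (Fi i) U) →
    (∀ i, Thin I4 (Fi i) (φ i)) → (∀ i x, φ i (φ' i x) = x) → (∀ i x, φ' i (φ i x) = x) →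
    (∀ i, ContinuousOn (h i) (Icc (0 : ℝ) 1 ×ˢ S2)) →
    (∀ i, ∀ m ∈ S2, h i (1, m) = Fi i (1 / 2, (1 / 5 : ℝ) • m)) →
    (∀ i, h i (0, (1, 0)) = F (bar (1 / 2))) →
    (∀ i, ∀ u ∈ Icc (0 : ℝ) 1, ∀ m ∈ S2, h i (u, m) ∉ F '' sph 1) →
    ContinuousOn N (Icc (0 : ℝ) 1 ×ˢ (Icc (0 : ℝ) 1 ×ˢ Icc (9 / 20 : ℝ) (11 / 20))) →
    (∀ q ∈ Icc (0 : ℝ) 1, ∀ s ∈ Icc (9 / 20 : ℝ) (11 / 20),
      N (0, q, s) = evS (F (bar (1 / 2))) (fun i m => h i (0, m)) l q s ∧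
        N (1, q, s) = F (bar (1 / 2))) →
    (∀ u ∈ Icc (0 : ℝ) 1, ∀ q ∈ Icc (0 : ℝ) 1, ∀ s ∈ Icc (9 / 20 : ℝ) (11 / 20),
      N (u, q, s) ∉ F '' sph 1 ∧
        ((q = 0 ∨ q = 1 ∨ s = 9 / 20 ∨ s = 11 / 20) → N (u, q, s) = F (bar (1 / 2)))) →
    CIsot I4 (evD φ φ' l) (fun x => x) ∨ CIsot I4 (evD φ φ' l) W

end Pool.Agent.Helper18.BI.R
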